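import Pool.Agent.P.MP_abfee5_ag.CT.Iface3

/-! Step AENC of the cubic threefold theta project. -/

namespace Pool.Agent.P.MP_abfee5_ag

open Complex Filter Topology MvPolynomial

namespace AencA

/-- The residues in the box. -/
def rl (a : ℕ) : List ℤ := if a = 0 then [-2, 0, 2] else [-1, 1]

/-- The nested sum over the residues of `n`. -/
def nsum {M : Type} [Add M] [Zero M] (n : ℕ) (T : ℤ → ℤ → ℤ → ℤ → ℤ → M) : M :=
  ((rl (ab n 0)).map fun a => ((rl (ab n 1)).map fun b => ((rl (ab n 2)).map fun c =>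
    ((rl (ab n 3)).map fun d => ((rl (ab n 4)).map fun e => T a b c d e).sum).sum).sum).sum).sum

/-- `v * I ^ e`. -/
def ipw (v e : ℤ) : ℤ × ℤ :=
  if e % 4 = 0 then (v, 0) else if e % 4 = 1 then (0, v) else if e % 4 = 2 then (-v, 0) else (0, -v)

/-- The form `Gf`. -/
def G5 (a b c d e : ℤ) : ℤ :=
  4 * (a * a + b * b + c * c + d * d + e * e) - 4 * (a * b + b * c + c * d + d * e + e * a) +
    2 * (a * c + b * d + c * e + d * a + e * b)

/-- The form `Pf`. -/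
def P5 (a b c d e : ℤ) : ℤ := a * b + b * c + c * d + d * e + e * a

/-- Coordinate. -/
def co (j : ℕ) (a b c d e : ℤ) : ℤ := [a, b, c, d, e].getD (j % 5) 0

/-- The weight of a column. -/
def wz (k : ℕ) (a b c d e : ℤ) : ℤ :=
  co (klL.getD k (0, 0)).1 a b c d e * co (klL.getD k (0, 0)).2 a b c d e

/-- Power of two. -/
def pw (E m : ℕ) (a b c d e : ℤ) : ℤ := ((2 ^ (E + 1600 - m * (G5 a b c d e).toNat) : ℕ) : ℤ)

/-- Model of the first rows. -/
def T1 (i k : ℕ) (a b c d e : ℤ) : ℤ × ℤ :=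
  ipw (wz k a b c d e * co i a b c d e * pw 40 4 a b c d e)
    (a + b + c + d + e + (P5 a b c d e - 7) / 2)

/-- Model of the other rows. -/
def T2 (E k : ℕ) (a b c d e : ℤ) : ℤ × ℤ :=
  ipw ((if k = 0 then 1 else 2 * wz k a b c d e) * pw E 8 a b c d e) (P5 a b c d e)

/-- The test. -/
def ok (p e : ℤ × ℤ) : Bool :=
  ((4 * p.1 - 2 ^ 1600 * e.1).natAbs + (4 * p.2 - 2 ^ 1600 * e.2).natAbs) * 256 ≤ 2 ^ 1600

theorem chk1 : ∀ i < 5, ent at16 i 0 = (0, 0) ∧ ∀ k < 16, k ≠ 0 →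
    ok (nsum 1023 (T1 i k)) (ent at16 i k) = true := by decide +kernel

theorem chk2 : ∀ b < 11, piE.getD b 0 ≤ 76 ∧ piL.getD b 0 < 32 ∧ ∀ k < 16,
    ok (nsum (32 * piL.getD b 0) (T2 (piE.getD b 0) k)) (ent at16 (b + 5) k) = true := by
  decide +kernel

lemma gz_ipw (v e : ℤ) : gz (ipw v e) = v * I ^ e := by
  have h : I ^ e = I ^ (e % 4) := by
    conv_lhs => rw [← Int.emod_add_mul_ediv e 4, zpow_add₀ I_ne_zero, zpow_mul]
    rw [show I ^ (4 : ℤ) = 1 by exact_mod_cast I_pow_four, one_zpow, mul_one]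
  rw [h]
  unfold ipw
  split_ifs with h0 h1 h2
  · simp [gz, h0]
  · simp [gz, h1]
  · rw [h2, show I ^ (2 : ℤ) = -1 by exact_mod_cast I_sq]; simp [gz]
  · rw [show e % 4 = 3 by omega, show I ^ (3 : ℤ) = -I by exact_mod_cast I_pow_three]; simp [gz]

lemma gz_sum (l : List ℤ) (f : ℤ → ℤ × ℤ) : gz (l.map f).sum = (l.map fun a => gz (f a)).sum := by
  induction l with
  | nil => simp [gz]
  | cons a l ih =>
    rw [List.map_cons, List.sum_cons, List.map_cons, List.sum_cons, ← ih]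
    simp [gz]; ring

lemma mem_rl (a : ℕ) (ha : a < 2) (x : ℤ) : x ∈ rl a ↔ (-2 ≤ x ∧ x ≤ 2) ∧ x % 2 = a := by
  unfold rl
  split_ifs with h
  · simp only [List.mem_cons, List.not_mem_nil, or_false]; omega
  · simp only [List.mem_cons, List.not_mem_nil, or_false]; omega

lemma sum_rl (a : ℕ) (f : ℤ → ℂ) : ∑ x ∈ (rl a).toFinset, f x = ((rl a).map f).sum :=
  List.sum_toFinset f (by unfold rl; split_ifs <;> decide)

lemma sum_box (n : ℕ) (F : V → ℂ) (T : ℤ → ℤ → ℤ → ℤ → ℤ → ℤ × ℤ)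
    (h0 : ∀ N, ¬(∀ j : Fin 5, N j % 2 = (ab n j : ℤ)) → F N = 0)
    (h1 : ∀ N : V, (∀ j, |N j| ≤ 2) → (∀ j : Fin 5, N j % 2 = (ab n j : ℤ)) →
      F N = gz (T (N 0) (N 1) (N 2) (N 3) (N 4))) :
    ∑ N ∈ box 2, F N = gz (nsum n T) := by
  have hm : ∀ N : V, N ∈ Fintype.piFinset (fun j : Fin 5 => (rl (ab n j)).toFinset) ↔
      (∀ j, |N j| ≤ 2) ∧ ∀ j : Fin 5, N j % 2 = (ab n j : ℤ) := fun N => by
    simp only [Fintype.mem_piFinset, List.mem_toFinset, mem_rl _ (ab_lt _ _), abs_le, forall_and]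
  have hb : ∀ N : V, N ∈ box 2 ↔ ∀ j, |N j| ≤ 2 := fun N => by
    simp only [box, Fintype.mem_piFinset, Finset.mem_Icc, abs_le]
  rw [← Finset.sum_subset (s₁ := Fintype.piFinset fun j : Fin 5 => (rl (ab n j)).toFinset)
    (fun N hN => (hb N).2 ((hm N).1 hN).1)
    (fun N hN hN' => h0 N fun h => hN' ((hm N).2 ⟨(hb N).1 hN, h⟩)),
    Finset.sum_congr rfl fun N hN => h1 N ((hm N).1 hN).1 ((hm N).1 hN).2]
  simp only [nsum, gz_sum, ← sum_rl, ← Finset.sum_product']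
  refine Finset.sum_nbij' (fun N => (N 0, N 1, N 2, N 3, N 4))
    (fun p => ![p.1, p.2.1, p.2.2.1, p.2.2.2.1, p.2.2.2.2]) (fun N hN => ?_) (fun p hp => ?_)
    (fun N _ => ?_) (fun p _ => rfl) fun N _ => rfl
  · rw [Fintype.mem_piFinset] at hN
    simp only [Finset.mem_product]
    exact ⟨hN 0, hN 1, hN 2, hN 3, hN 4⟩
  · simp only [Finset.mem_product] at hp
    rw [Fintype.mem_piFinset]
    intro j
    fin_cases j
    exacts [hp.1, hp.2.1, hp.2.2.1, hp.2.2.2.1, hp.2.2.2.2]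
  · funext j
    fin_cases j <;> rfl

lemma core (s x y : ℂ) (p e : ℤ × ℤ) (h1 : ‖s‖ * ‖x - y‖ ≤ 1 / 256)
    (h2 : 2 ^ 1600 * s * y = gz p) (h3 : ok p e = true) : ‖s * x - gz e / 4‖ ≤ 1 / 200 := by
  have hK : (0 : ℝ) < 2 ^ 1600 := by positivity
  have h4 : ((|4 * p.1 - 2 ^ 1600 * e.1| + |4 * p.2 - 2 ^ 1600 * e.2| : ℤ) : ℝ) * 256 ≤ 2 ^ 1600 := by
    have := of_decide_eq_true h3
    rw [← Int.natCast_natAbs, ← Int.natCast_natAbs]
    exact_mod_cast this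
  have h5 : (2 ^ 1600 * 4 : ℂ) * (s * y - gz e / 4) =
      ((4 * p.1 - 2 ^ 1600 * e.1 : ℤ) : ℂ) + ((4 * p.2 - 2 ^ 1600 * e.2 : ℤ) : ℂ) * I := by
    unfold gz at h2 ⊢
    simp only [Int.cast_sub, Int.cast_mul, Int.cast_pow, Int.cast_ofNat]
    generalize (2 : ℂ) ^ 1600 = K at h2 ⊢
    linear_combination 4 * h2
  have h6 := congrArg norm h5
  have h7 := norm_add_le ((4 * p.1 - 2 ^ 1600 * e.1 : ℤ) : ℂ)
    (((4 * p.2 - 2 ^ 1600 * e.2 : ℤ) : ℂ) * I)
  rw [norm_mul, norm_I, mul_one, norm_intCast, norm_intCast, ← h6, norm_mul, norm_mul, norm_pow,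
    Complex.norm_ofNat, Complex.norm_ofNat] at h7
  rw [Int.cast_add, Int.cast_abs, Int.cast_abs] at h4
  have h8 : ‖s * y - gz e / 4‖ ≤ 1 / 1024 := by
    refine le_of_mul_le_mul_left ?_ hK
    generalize (2 : ℝ) ^ 1600 = K at h4 h7 ⊢
    linarith
  have h9 := norm_add_le (s * (x - y)) (s * y - gz e / 4)
  rw [norm_mul, show s * (x - y) + (s * y - gz e / 4) = s * x - gz e / 4 by ring] at h9
  exact h9.trans ((add_le_add h1 h8).trans (by norm_num))

lemma gf_eq (N : V) : Gf N = G5 (N 0) (N 1) (N 2) (N 3) (N 4) := by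
  simp only [Gf, G5, Fin.sum_univ_five, Fin.reduceAdd]; ring

lemma pf_eq (N : V) : Pf N = P5 (N 0) (N 1) (N 2) (N 3) (N 4) := by
  simp only [Pf, P5, Fin.sum_univ_five, Fin.reduceAdd]

lemma co_eq (N : V) (j : ℕ) : co j (N 0) (N 1) (N 2) (N 3) (N 4) = N (fj j) := by
  have : ∀ i : Fin 5, [N 0, N 1, N 2, N 3, N 4].getD i 0 = N i := fun i => by fin_cases i <;> rfl
  exact this (fj j)

lemma pw_eq (hT0 : S_T0) (E m : ℕ) (hm : m ≤ 8) (N : V) (h : ∀ j, |N j| ≤ 2) :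
    ((pw E m (N 0) (N 1) (N 2) (N 3) (N 4) : ℤ) : ℂ) =
      2 ^ 1600 * 2 ^ E * (1 / 2 ^ m) ^ Gf N := by
  have h0 : 0 ≤ Gf N := by
    have := hT0.2.2.2.1 N 0
    have h2 : 0 ≤ ∑ k, N k ^ 2 := by positivity
    nlinarith [sq_nonneg (N 0)]
  have h1 : ∀ j k, -4 ≤ N j * N k ∧ N j * N k ≤ 4 := fun j k => abs_le.1 (by
    rw [abs_mul]; nlinarith [h j, h k, abs_nonneg (N j), abs_nonneg (N k)])
  have h2 : Gf N ≤ 200 := by
    rw [gf_eq, G5]
    linarith [h1 0 0, h1 1 1, h1 2 2, h1 3 3, h1 4 4, h1 0 1, h1 1 2, h1 2 3, h1 3 4, h1 4 0,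
      h1 0 2, h1 1 3, h1 2 4, h1 3 0, h1 4 1]
  obtain ⟨g, hg⟩ := Int.eq_ofNat_of_zero_le h0
  have h3 : m * g ≤ E + 1600 := by nlinarith
  rw [pw, ← gf_eq, hg, Int.toNat_natCast, zpow_natCast, Int.cast_natCast, Nat.cast_pow,
    Nat.cast_ofNat, pow_sub₀ _ two_ne_zero h3, pow_add, one_div, inv_pow, pow_mul, mul_comm (2 ^ E)]

lemma wt3 (n : ℕ) (u : Fin 3 → Option (Fin 5)) :
    Wt3 fun N => (∏ t, (u t).elim 1 fun j => (N j : ℂ)) * chi n N := fun N => by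
  have h1 : ∀ j, 1 ≤ max 1 |(N j : ℝ)| := fun j => le_max_left _ _
  have h2 : ∀ o : Option (Fin 5), ‖o.elim 1 fun j => (N j : ℂ)‖ ≤ ∏ j, max 1 |(N j : ℝ)| := by
    rintro (_ | j)
    · simpa using Finset.prod_le_prod (s := Finset.univ) (fun _ _ => zero_le_one) fun j _ => h1 j
    · rw [← Finset.mul_prod_erase _ _ (Finset.mem_univ j)]
      refine le_trans (by simp) ((le_max_right 1 |(N j : ℝ)|).trans (le_mul_of_one_le_right
        (by positivity) ?_))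
      simpa using Finset.prod_le_prod (s := Finset.univ.erase j) (fun _ _ => zero_le_one)
        fun j _ => h1 j
  rw [norm_mul, norm_prod]
  refine (mul_le_of_le_one_right (by positivity) (norm_chi_le n N)).trans
    ((Finset.prod_le_prod (fun _ _ => norm_nonneg _) fun t _ => h2 (u t)).trans (le_of_eq ?_))
  rw [Finset.prod_const, Finset.card_univ, Fintype.card_fin, ← Finset.prod_pow]
  refine Finset.prod_congr rfl fun j _ => ?_
  rcases le_total 1 |(N j : ℝ)| with h | h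
  · rw [max_eq_right h, max_eq_right (one_le_pow₀ h)]
  · rw [max_eq_left h, max_eq_left (pow_le_one₀ (abs_nonneg _) h), one_pow]

lemma row1 (hT0 : S_T0) (hTAIL : S_TAIL) (i k : ℕ) (e : ℤ × ℤ)
    (h : ok (nsum 1023 (T1 i k)) e = true) :
    ‖2 ^ 40 * S (fun N => wq k N * ((N (fj i) : ℂ) * chi 1023 N)) tau0 / (I * z8 ^ 5) -
      gz e / 4‖ ≤ 1 / 200 := by
  have hw : Wt3 fun N => wq k N * ((N (fj i) : ℂ) * chi 1023 N) := by
    have := wt3 1023 ![some (fj (klL.getD k (0, 0)).1), some (fj (klL.getD k (0, 0)).2), some (fj i)]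
    simpa [Fin.prod_univ_three, wq, mul_assoc] using this
  rw [mul_div_right_comm]
  refine core _ _ (∑ N ∈ box 2, wq k N * ((N (fj i) : ℂ) * chi 1023 N) * ex tau0 N) _ _ ?_ ?_ h
  · refine (mul_le_mul_of_nonneg_left (hTAIL _ hw).2.2.2 (norm_nonneg _)).trans ?_
    simp [norm_z8]; norm_num
  · rw [Finset.mul_sum]
    refine sum_box _ _ _ (fun N hN => by simp [chi, hN]) fun N hN hN' => ?_
    have hb : ∀ j : Fin 5, ab 1023 j = 1 ∧ bb 1023 j = 1 := by decide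
    have hq : Pf N = 7 + 2 * ((Pf N - 7) / 2) := by
      have o : ∀ j k, N j * N k % 2 = 1 := fun j k => by
        rw [Int.mul_emod, hN' j, hN' k, (hb j).1, (hb k).1]; rfl
      have := pf_eq N
      rw [P5] at this
      have := o 0 1; have := o 1 2; have := o 2 3; have := o 3 4; have := o 4 0
      omega
    rw [T1, gz_ipw, wz, co_eq, co_eq, co_eq, Int.cast_mul, pw_eq hT0 _ _ (by norm_num) N hN,
      ← pf_eq, chi, if_pos hN', hT0.2.1, wq, zpow_add₀ I_ne_zero]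
    generalize (Pf N - 7) / 2 = q at hq ⊢
    rw [hq, zpow_add₀ z8_ne, zpow_mul, show z8 ^ (2 : ℤ) = I from z8_sq,
      show z8 ^ (7 : ℤ) = I * z8 ^ 5 by rw [← z8_sq, ← pow_add]; rfl]
    simp only [Fin.sum_univ_five, (hb _).2, Nat.cast_one, mul_one]
    have := z8_ne
    generalize (2 : ℂ) ^ 1600 = K
    push_cast
    rw [show (2 : ℂ) ^ 4 = 16 by norm_num]
    field_simp

lemma row2 (hT0 : S_T0) (hTAIL : S_TAIL) (E s k : ℕ) (e : ℤ × ℤ) (hE : E ≤ 76)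
    (h : ok (nsum (32 * s) (T2 E k)) e = true) :
    ‖2 ^ E * (if k = 0 then xx s tau0 else
      2 * S (fun N => wq k N * chi (32 * s) N) ((2 : ℂ) • tau0)) - gz e / 4‖ ≤ 1 / 200 := by
  have hb : ∀ j : Fin 5, bb (32 * s) j = 0 := fun j => by
    unfold bb
    fin_cases j <;> simp [Nat.shiftRight_eq_div_pow] <;> omega
  have hc : ∀ N, (∀ j : Fin 5, N j % 2 = (ab (32 * s) j : ℤ)) → chi (32 * s) N = 1 := fun N hN => by
    simp [chi, hN, hb]
  have h2 : (2 : ℝ) ^ E ≤ 2 ^ 76 := pow_le_pow_right₀ one_le_two hE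
  split_ifs with hk
  · have hw : Wt3 (chi (32 * s)) := by simpa using wt3 (32 * s) fun _ => none
    refine core _ _ (∑ N ∈ box 2, chi (32 * s) N * ex ((2 : ℂ) • tau0) N) _ _ ?_ ?_ h
    · refine (mul_le_mul_of_nonneg_left (hTAIL _ hw).2.2.1 (norm_nonneg _)).trans ?_
      rw [norm_pow, Complex.norm_ofNat]; linarith
    · rw [Finset.mul_sum]
      refine sum_box _ _ _ (fun N hN => by simp [chi, hN]) fun N hN hN' => ?_
      rw [T2, if_pos hk, gz_ipw, one_mul, pw_eq hT0 _ _ le_rfl N hN, ← pf_eq, hc N hN', hT0.2.2.1,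
        show (2 : ℂ) ^ 8 = 256 by norm_num, one_mul, mul_assoc _ _ (I ^ Pf N)]
  · have hw : Wt3 fun N => wq k N * chi (32 * s) N := by
      have := wt3 (32 * s) ![some (fj (klL.getD k (0, 0)).1), some (fj (klL.getD k (0, 0)).2), none]
      simpa [Fin.prod_univ_three, wq, mul_assoc] using this
    rw [← mul_assoc]
    refine core _ _ (∑ N ∈ box 2, wq k N * chi (32 * s) N * ex ((2 : ℂ) • tau0) N) _ _ ?_ ?_ h
    · refine (mul_le_mul_of_nonneg_left (hTAIL _ hw).2.2.1 (norm_nonneg _)).trans ?_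
      rw [norm_mul, norm_pow, Complex.norm_ofNat]; linarith
    · rw [Finset.mul_sum]
      refine sum_box _ _ _ (fun N hN => by simp [chi, hN]) fun N hN hN' => ?_
      rw [T2, if_neg hk, gz_ipw, wz, co_eq, co_eq, Int.cast_mul, pw_eq hT0 _ _ le_rfl N hN, ← pf_eq,
        hc N hN', hT0.2.2.1, show (2 : ℂ) ^ 8 = 256 by norm_num, wq]
      generalize (2 : ℂ) ^ 1600 = K
      push_cast
      ring

end AencA

open AencA in
theorem p_AENC (hT0 : S_T0) (hTAIL : S_TAIL) :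
    S_AENC := by
  intro i c
  rw [A16, Matrix.of_apply]
  by_cases hi : (i : ℕ) < 5
  · rw [if_pos hi]
    split_ifs with hc
    · rw [hc, (chk1 i hi).1]; simp [gz]
    · exact row1 hT0 hTAIL i c _ ((chk1 i hi).2 c c.2 hc)
  · have h := chk2 (i - 5) (by omega)
    rw [if_neg hi]
    rw [show (i : ℕ) - 5 + 5 = i by omega] at h
    exact row2 hT0 hTAIL _ _ c _ h.1 (h.2.2 c c.2)

end Pool.Agent.P.MP_abfee5_ag
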