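import Pool.Agent.P.MP_abfee5_ag.CT.Iface

/-! Step AFF of the cubic threefold theta project. -/

namespace Pool.Agent.P.MP_abfee5_ag

open Complex Filter Topology MvPolynomial

namespace AffA

/-- The check for one letter and one characteristic. -/
def chk (s n : ℕ) : Bool :=
  let m := (act s n).1
  Nat.blt m 1024 && (Nat.beq (par m) (par n) && Nat.beq (act s m).1 n)

theorem chk_all : ((List.range 40).all fun s => (List.range 1024).all fun n => chk s n) = true := by
  decide +kernel

theorem act_big {s : ℕ} (hs : 40 ≤ s) (n : ℕ) : act s n = (n, 0) := by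
  have h : ¬ s / 8 < 5 := by omega
  simp only [act, h, if_false]

theorem one (s n : ℕ) (hn : n < 1024) :
    (act s n).1 < 1024 ∧ par (act s n).1 = par n ∧ (act s (act s n).1).1 = n := by
  by_cases hs : s < 40
  · have h := List.all_eq_true.mp (List.all_eq_true.mp chk_all s (List.mem_range.mpr hs)) n
      (List.mem_range.mpr hn)
    simp only [chk, Bool.and_eq_true, Nat.blt_eq, Nat.beq_eq] at h
    exact h
  · simp only [act_big (not_lt.mp hs), hn, and_self]

theorem bit_xor (a b i : ℕ) : ((a ^^^ b) >>> i) % 2 = ((a >>> i) % 2) ^^^ ((b >>> i) % 2) := by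
  rw [Nat.shiftRight_xor_distrib]
  exact Nat.xor_mod_two_pow (n := 1)

theorem ab_xor (a b j : ℕ) : ab (a ^^^ b) j = ab a j ^^^ ab b j := bit_xor _ _ _
theorem bb_xor (a b j : ℕ) : bb (a ^^^ b) j = bb a j ^^^ bb b j := bit_xor _ _ _

theorem one_sub (n j : ℕ) : 1 - ab n j = 1 ^^^ ab n j := by
  have h := ab_lt n j
  interval_cases ab n j <;> rfl

theorem x1 (a b c p q r u : ℕ) : a ^^^ b ^^^ c ^^^ (u ^^^ (p ^^^ q ^^^ r)) =
    a ^^^ (u ^^^ p) ^^^ (b ^^^ (u ^^^ q)) ^^^ (c ^^^ (u ^^^ r)) := by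
  refine Nat.eq_of_testBit_eq fun i => ?_
  simp only [Nat.testBit_xor]
  cases a.testBit i <;> cases b.testBit i <;> cases c.testBit i <;> cases p.testBit i <;>
    cases q.testBit i <;> cases r.testBit i <;> cases u.testBit i <;> rfl

theorem aff (s a b c : ℕ) :
    (act s (a ^^^ b ^^^ c)).1 = (act s a).1 ^^^ (act s b).1 ^^^ (act s c).1 := by
  unfold act
  dsimp only
  split_ifs
  · simp only [one_sub]
    simp only [ab_xor, Nat.shiftLeft_xor_distrib]
    exact x1 _ _ _ _ _ _ _
  · simp only [ab_xor, bb_xor, Nat.shiftLeft_xor_distrib]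
    ac_rfl
  · simp only [ab_xor, Nat.shiftLeft_xor_distrib]
    ac_rfl
  · rfl
  · rfl

end AffA

open AffA in
theorem p_AFF :
    S_AFF := by
  intro w
  induction w with
  | nil => exact ⟨fun n hn => ⟨hn, rfl, rfl⟩, fun a _ b _ c _ => rfl⟩
  | cons s w ih =>
    refine ⟨fun n hn => ?_, fun a ha b hb c hc => ?_⟩
    · obtain ⟨h1, h2, h3⟩ := one s n hn
      obtain ⟨k1, k2, k3⟩ := ih.1 _ h1
      rw [piW_cons, List.reverse_cons, piW_append, k3]
      exact ⟨k1, k2.trans h2, h3⟩
    · simp only [piW_cons]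
      rw [aff]
      exact ih.2 _ (one s a ha).1 _ (one s b hb).1 _ (one s c hc).1

end Pool.Agent.P.MP_abfee5_ag
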