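import Pool.Agent.P.MP_abfee5_ag.CT.Lib

/-! Statements of the project CT, part A (analysis, combinatorics of characteristics, local algebra). -/

namespace Pool.Agent.P.MP_abfee5_ag

open Complex Filter Topology MvPolynomial

/-- Holomorphic on `Om`. -/
def Hol (f : Mat → ℂ) : Prop := DifferentiableOn ℂ f Om

/-- One-variable theta series with characteristic `(a, b)` and weight `N ^ e`. -/
noncomputable def j1 (a b e : ℕ) (t u : ℂ) : ℂ :=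
  ∑' N : ℤ, if N % 2 = (a : ℤ) then
    (N : ℂ) ^ e * I ^ (N * (b : ℤ)) * cexp (Real.pi * I / 4 * (t * N ^ 2 + 2 * N * u)) else 0

/-- The Riemann involution on four lattice vectors. -/
def iota (N : Fin 4 → V) : Fin 4 → V := fun k j => (∑ l, N l j) / 2 - N k j

/-- Weights of at most exponential growth in four lattice vectors. -/
def Gr4 (Ψ : (Fin 4 → V) → ℂ) : Prop :=
  ∃ C K : ℝ, ∀ N, ‖Ψ N‖ ≤ C * Real.exp (K * ∑ k, ∑ j, |(N k j : ℝ)|)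

/-- Weighted fourfold theta series. -/
noncomputable def T4 (c : Fin 4 → ℕ) (Ψ : (Fin 4 → V) → ℂ) (τ : Mat) : ℂ :=
  ∑' N : Fin 4 → V, Ψ N * ∏ k, (chi (c k) (N k) * ex τ (N k))

/-- Four characteristics with sum zero. -/
def c4 (c1 c2 c3 : ℕ) : Fin 4 → ℕ := ![c1, c2, c3, c1 ^^^ c2 ^^^ c3]

/-- The exponent of the sign in the Riemann formula. -/
def sgn4 (c1 c2 c3 d : ℕ) : ℕ :=
  let c := c1 ^^^ c2 ^^^ c3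
  let h := (c1 &&& c2) ^^^ (c1 &&& c3) ^^^ (c2 &&& c3) ^^^ c
  let t := ((c1 >>> 5) &&& c1) ^^^ ((c2 >>> 5) &&& c2) ^^^ ((c3 >>> 5) &&& c3) ^^^ ((c >>> 5) &&& c)
  pop5 (((d >>> 5) &&& h) ^^^ t ^^^ (d &&& (d >>> 5)) ^^^ (d &&& t))

/-- The four points of each coset of the plane spanned by `a`, `b`. -/
def spread (a b : ℕ) (R : List (ℕ × ℤ)) : List (ℕ × ℤ) :=
  R.flatMap fun p => [p, (p.1 ^^^ a, p.2), (p.1 ^^^ b, p.2), (p.1 ^^^ a ^^^ b, p.2)]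

/-- The number of odd characteristics in the coset of `d`. -/
def nodd (a b d : ℕ) : ℕ := par d + par (d ^^^ a) + par (d ^^^ b) + par (d ^^^ a ^^^ b)

/-- Eigenvector condition for the Riemann formula on the cosets with exactly `r` odd points. -/
def Eig (a b r : ℕ) (R : List (ℕ × ℤ)) (lam : ℤ) : Prop :=
  ∀ d < 1024, nodd a b d = r →
    ((spread a b R).map fun p => p.2 * (-1) ^ sgn4 p.1 (p.1 ^^^ a) (p.1 ^^^ b) (p.1 ^^^ d)).sum =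
      lam * ((spread a b R).map fun p => if p.1 = d then p.2 else 0).sum

/-- The twenty letters that act. -/
def letters : List ℕ := [0, 9, 18, 27, 36, 1, 2, 3, 4, 10, 11, 12, 19, 20, 28, 5, 13, 21, 29, 37]

/-- The proportionality of the Jacobian determinant and the polynomial along the word `w`. -/
def Good (X : Mono) (P : List Mono) (w : List ℕ) : Prop :=
  ∃ ζ : ℂ, ζ ≠ 0 ∧ ∀ τ ∈ Siegel,
    dval τ (mact w X) * pval τ P = ζ * (pval τ (pact w P) * dval τ X)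

/-- Five characteristics, and monomials of degree seven. -/
def Shape (X : Mono) (P : List Mono) : Prop :=
  X.ok ∧ X.2.length = 5 ∧ ∀ m ∈ P, m.ok ∧ m.2.length = 7

/-- The base frame of the odd characteristic 33. -/
def aL : List ℕ := [0, 1, 96, 230, 290, 446, 630, 754, 826, 942]

-- deps:
def S_SUM : Prop :=
  (IsOpen Om ∧ Convex ℝ Om) ∧
  (∀ τ ∈ Om, ∃ c : ℝ, 0 < c ∧ ∀ᶠ τ' in 𝓝 τ, ∀ N : V, c * ∑ j, (N j : ℝ) ^ 2 ≤ (qf τ' N).im) ∧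
  (∀ c K : ℝ, 0 < c →
    Summable fun N : V => Real.exp (K * ∑ j, |(N j : ℝ)| - c * ∑ j, (N j : ℝ) ^ 2)) ∧
  (∀ p, Gr p → ∀ τ ∈ Om, Summable fun N => ‖p N * ex τ N‖)

-- deps: SUM
def S_DIFF : Prop :=
  ∀ p, Gr p → ∀ τ ∈ Om, ∃ L : Mat →L[ℂ] ℂ, HasStrictFDerivAt (S p) L τ ∧
    ∀ h, L h = Real.pi * I / 4 * ∑ j, ∑ k, h j k * S (fun N => (N j : ℂ) * (N k : ℂ) * p N) τ

-- deps: SUM
def S_ZD : Prop :=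
  ∀ p, Gr p → ∀ τ ∈ Om, ∀ z : Fin 5 → ℂ, ∃ L : (Fin 5 → ℂ) →L[ℂ] ℂ,
    HasFDerivAt (fun z : Fin 5 → ℂ => S (fun N => cexp (∑ j, z j * (N j : ℂ)) * p N) τ) L z ∧
    ∀ h, L h = ∑ k, h k * S (fun N => (N k : ℂ) * (cexp (∑ j, z j * (N j : ℂ)) * p N)) τ

-- deps: DIFF
def S_HOL : Prop :=
  (∀ n, Hol (th n)) ∧ (∀ n j, Hol fun τ => gr n τ j) ∧ (∀ m, Hol fun τ => mval τ m) ∧
  (∀ P, Hol fun τ => pval τ P) ∧ (∀ X, Hol fun τ => dval τ X)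

-- deps: SUM
def S_ID : Prop :=
  (∀ f, Hol f → ∀ τ₀ ∈ Siegel, (∀ᶠ τ in 𝓝[Siegel] τ₀, f τ = 0) → ∀ τ ∈ Siegel, f τ = 0) ∧
  (∀ f g, Hol f → Hol g → (∀ τ ∈ Siegel, f τ * g τ = 0) → (∃ τ ∈ Siegel, f τ ≠ 0) →
    ∀ τ ∈ Siegel, g τ = 0) ∧
  (∀ (K : ℕ) (c : Fin K → Fin K → Mat → ℂ) (E : Fin K → Mat → ℂ), ∀ τ₀ ∈ Siegel,
    (∀ k l, Hol (c k l)) → (∀ l, Hol (E l)) → (∀ k l, k < l → c k l τ₀ = 0) →
    (∀ k, c k k τ₀ ≠ 0) → (∀ τ ∈ Siegel, ∀ k, ∑ l, c k l τ * E l τ = 0) →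
    ∀ l, ∀ τ ∈ Siegel, E l τ = 0)

-- deps:
def S_ODD : Prop :=
  ∀ n τ, (par n = 1 → th n τ = 0) ∧ (par n = 0 → ∀ j, gr n τ j = 0)

-- deps:
def S_BRV : Prop :=
  (∀ n τ z, thetaC (dec n) τ z =
    S (fun N => cexp (∑ j, (Real.pi * I * z j) * (N j : ℂ)) * chi n N) τ) ∧
  (∀ n τ, thetaC (dec n) τ 0 = th n τ) ∧ (∀ σ τ, Th τ (dec5 σ) = xx σ τ)

-- deps:
def S_ENC : Prop :=
  ((∀ ε, dec5 (enc5 ε) = ε) ∧ (∀ ε, enc5 ε < 32) ∧ (∀ σ < 32, enc5 (dec5 σ) = σ) ∧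
    (∀ a b, dec5 (a ^^^ b) = dec5 a + dec5 b) ∧
    (∀ g : F2 → ℂ, ∑ ε, g ε = ∑ σ ∈ Finset.range 32, g (dec5 σ))) ∧
  ((∀ m, dec (enc m) = m) ∧ (∀ m, enc m < 1024) ∧ (∀ n < 1024, enc (dec n) = n) ∧
    (∀ a b, dec (a ^^^ b) = dec a + dec b) ∧ (∀ a b, enc (a + b) = enc a ^^^ enc b) ∧
    (∀ n, parity (dec n) = (par n : ZMod 2))) ∧
  (∀ n : Fin 10 → Ch, enc (∑ j, n j) = xsum (List.ofFn fun i => enc (n i))) ∧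
  (∀ m (n : Fin 10 → Ch), parity m = 1 →
    (IsFrame m n ↔ Frame (enc m) (List.ofFn fun i => enc (n i))))

-- deps: ENC
def S_EVQ : Prop :=
  (∀ n (x : F2 → ℂ), eval x (Q (dec n)) =
    ∑ σ ∈ Finset.range 32, (-1) ^ pop5 (σ &&& n) * x (dec5 σ) * x (dec5 (σ ^^^ (n >>> 5)))) ∧
  (∀ n ρ (x : F2 → ℂ), par n = 0 → eval x (pderiv (dec5 ρ) (Q (dec n))) =
    2 * (-1) ^ pop5 (ρ &&& n) * x (dec5 (ρ ^^^ (n >>> 5))))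

-- deps: ZD BRV ENC
def S_BRG : Prop :=
  (∀ n, ∀ τ ∈ Om, (fderiv ℂ (thetaC (dec n) τ) 0 = 0 ↔ ∀ j, gr n τ j = 0)) ∧
  (∀ m τ, τ ∈ Loc m ↔ τ ∈ Siegel ∧ (∀ j, gr (enc m) τ j = 0) ∧ NV τ)

-- deps:
def S_MVT : Prop :=
  ∀ s, ¬(s / 8 < 5 ∧ s % 8 = 5) →
    (∀ τ ∈ Siegel, move s τ ∈ Siegel) ∧ (∀ τ ∈ Siegel, ∃ τ' ∈ Siegel, move s τ' = τ) ∧
    ∀ n τ N, chi n N * ex (move s τ) N = z8 ^ (act s n).2 * (chi (act s n).1 N * ex τ N)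

-- deps:
def S_MVH : Prop :=
  ∀ j < 5, (∀ τ ∈ Siegel, 0 < (τ (fj j) (fj j)).im ∧ move (8 * j + 5) τ ∈ Siegel) ∧
    (∀ τ ∈ Siegel, ∃ τ' ∈ Siegel, move (8 * j + 5) τ' = τ)

-- deps:
def S_POI : Prop :=
  ∀ t : ℂ, 0 < t.im → ∃ c : ℂ, c ≠ 0 ∧ ∀ a < 2, ∀ b < 2, ∀ u : ℂ,
    j1 a b 0 (-1 / t) (u / t) =
      c * z8 ^ (6 * (a * b)) * cexp (Real.pi * I / 4 * (u ^ 2 / t)) * j1 b a 0 t u ∧
    j1 a b 1 (-1 / t) (u / t) =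
      c * z8 ^ (6 * (a * b)) * cexp (Real.pi * I / 4 * (u ^ 2 / t)) *
        (t * j1 b a 1 t u + u * j1 b a 0 t u)

-- deps: SUM MVH POI
def S_MVJ : Prop :=
  ∀ j < 5, ∀ τ ∈ Siegel, ∃ c : ℂ, c ≠ 0 ∧ ∀ n,
    th n (move (8 * j + 5) τ) = c * z8 ^ (act (8 * j + 5) n).2 * th (act (8 * j + 5) n).1 τ ∧
    ∀ k, gr n (move (8 * j + 5) τ) k = c * z8 ^ (act (8 * j + 5) n).2 *
      if k = fj j then ∑ l, τ k l * gr (act (8 * j + 5) n).1 τ l else gr (act (8 * j + 5) n).1 τ k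

-- deps: MVT MVH MVJ
def S_WORD : Prop :=
  ∀ w, (∀ τ ∈ Siegel, ∃ τ' ∈ Siegel, moveW w τ' = τ) ∧
    ∀ τ ∈ Siegel, moveW w τ ∈ Siegel ∧ ∃ (c : ℂ) (M : Matrix (Fin 5) (Fin 5) ℂ),
      c ≠ 0 ∧ M.det ≠ 0 ∧
      (∀ n, th n (moveW w τ) = c * z8 ^ (actW w n).2 * th (piW w n) τ) ∧
      (∀ n, gr n (moveW w τ) = (c * z8 ^ (actW w n).2) • M.mulVec (gr (piW w n) τ)) ∧
      (∀ m : Mono, mval (moveW w τ) m = c ^ m.2.length * mval τ (mact w m)) ∧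
      (∀ X : Mono, X.2.length = 5 → dval (moveW w τ) X = c ^ 5 * M.det * dval τ (mact w X))

-- deps:
def S_AFF : Prop :=
  ∀ w, (∀ n < 1024, piW w n < 1024 ∧ par (piW w n) = par n ∧ piW w.reverse (piW w n) = n) ∧
    ∀ a < 1024, ∀ b < 1024, ∀ c < 1024,
      piW w (a ^^^ b ^^^ c) = piW w a ^^^ piW w b ^^^ piW w c

-- deps:
def S_RROW : Prop :=
  ∀ c1 c2 c3 (N : Fin 4 → V), (∀ j, (∑ k, N k j) % 2 = 0) →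
    ∏ k, chi (c4 c1 c2 c3 k) (iota N k) = 1 / 32 * ∑ d ∈ Finset.range 1024,
      (-1) ^ sgn4 c1 c2 c3 d * ∏ k, chi (c4 (c1 ^^^ d) (c2 ^^^ d) (c3 ^^^ d) k) (N k)

-- deps: SUM
def S_PROD : Prop :=
  (∀ (c : Fin 4 → ℕ) Ψ, Gr4 Ψ → ∀ τ ∈ Om,
    Summable fun N : Fin 4 → V => ‖Ψ N * ∏ k, (chi (c k) (N k) * ex τ (N k))‖) ∧
  (∀ ψ : Fin 4 → V → ℂ, (∀ k, Gr (ψ k)) → Gr4 fun N => ∏ k, ψ k (N k)) ∧
  (∀ c (ψ : Fin 4 → V → ℂ), (∀ k, Gr (ψ k)) → ∀ τ ∈ Om,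
    T4 c (fun N => ∏ k, ψ k (N k)) τ = ∏ k, S (fun N => ψ k N * chi (c k) N) τ) ∧
  (∀ c (ι : Type) (s : Finset ι) (a : ι → ℂ) (Ψ : ι → (Fin 4 → V) → ℂ), (∀ i, Gr4 (Ψ i)) →
    Gr4 (fun N => ∑ i ∈ s, a i * Ψ i N) ∧
    ∀ τ ∈ Om, T4 c (fun N => ∑ i ∈ s, a i * Ψ i N) τ = ∑ i ∈ s, a i * T4 c (Ψ i) τ)

-- deps: RROW PROD
def S_RIEM : Prop :=
  ∀ c1 c2 c3 (Ψ Ψ' : (Fin 4 → V) → ℂ), Gr4 Ψ → Gr4 Ψ' →
    (∀ N, (∀ j, (∑ k, N k j) % 2 = 0) → Ψ (iota N) = Ψ' N) → ∀ τ ∈ Om,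
    T4 (c4 c1 c2 c3) Ψ τ = 1 / 32 * ∑ d ∈ Finset.range 1024,
      (-1) ^ sgn4 c1 c2 c3 d * T4 (c4 (c1 ^^^ d) (c2 ^^^ d) (c3 ^^^ d)) Ψ' τ

-- deps: PROD RIEM ODD
def S_RCK : Prop :=
  ∀ a < 1024, ∀ b < 1024, ∀ (R : List (ℕ × ℤ)) (lam : ℤ), lam ≠ 32 → (∀ p ∈ R, p.1 < 1024) →
    (Eig a b 0 R lam → (∀ p ∈ R, nodd a b p.1 = 0) → ∀ τ ∈ Om,
      (R.map fun p => (p.2 : ℂ) *
        (th p.1 τ * th (p.1 ^^^ a) τ * th (p.1 ^^^ b) τ * th (p.1 ^^^ a ^^^ b) τ)).sum = 0) ∧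
    (Eig a b 1 R lam → (∀ p ∈ R, par p.1 = 1 ∧ nodd a b p.1 = 1) → ∀ τ ∈ Om, ∀ j,
      (R.map fun p => (p.2 : ℂ) *
        (th (p.1 ^^^ a) τ * th (p.1 ^^^ b) τ * th (p.1 ^^^ a ^^^ b) τ * gr p.1 τ j)).sum = 0)

-- deps: SUM ZD PROD RIEM ODD
def S_SPAN : Prop :=
  ∀ τ ∈ Siegel, th 0 τ ≠ 0 → ∀ v : Fin 5 → ℂ,
    (∀ n < 1024, par n = 1 → ∑ j, v j * gr n τ j = 0) → v = 0

-- deps: SUM
def S_QQ : Prop :=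
  ∀ n < 1024, ∀ τ ∈ Om, th n τ ^ 2 =
    ∑ σ ∈ Finset.range 32, (-1) ^ pop5 (σ &&& n) * xx σ τ * xx (σ ^^^ (n >>> 5)) τ

-- deps: SUM
def S_DIAG : Prop :=
  ∃ τ ∈ Siegel, ∀ n, (th n τ = 0 ↔ ((n >>> 5) &&& n) % 32 ≠ 0)

-- deps: AFF
def S_TV : Prop := ∀ v < 1024, ∃ w, ∀ n < 1024, piW w n = tv v n

-- deps: AFF TV
def S_FRM : Prop := ∀ m L, Frame m L → ∃ w, piW w 33 = m ∧ aL.map (piW w) = L

-- deps: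
def S_PHS : Prop :=
  ∀ s (L : List ℕ), L.length = 10 →
    (L.map fun n => (act s n).2).sum % 4 = (L.map fun n => (act s (n ^^^ xsum L)).2).sum % 4

-- deps: AFF
def S_AVG : Prop :=
  ∀ us : List (List ℕ), ∃ H : Finset (List ℕ), H.Nonempty ∧
    (∀ h ∈ H, ∃ l : List (List ℕ), (∀ u ∈ l, u ∈ us) ∧ h = l.flatten) ∧
    ∀ u ∈ us, ∀ τ (m : Mono), m.ok →
      ∑ h ∈ H, mval τ (mact h (mact u m)) = ∑ h ∈ H, mval τ (mact h m)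

-- deps: WORD ID HOL
def S_GCL : Prop :=
  ∀ X P, Shape X P → (∃ τ ∈ Siegel, ∃ w, pval τ (pact w P) ≠ 0) →
    (∀ u w, Good X P u → Good X P w → Good X P (u ++ w)) ∧
    ((∀ s ∈ letters, Good X P [s]) → ∀ w, Good X P w) ∧
    ((∀ w, Good X P w) → ∀ τ ∈ Siegel, (∃ w, dval τ (mact w X) ≠ 0) →
      ∀ u, dval τ (mact u X) = 0 → pval τ (pact u P) = 0)

-- deps:
def S_LA1 : Prop :=
  ∀ (α β : Type) [Fintype α] [Fintype β] [DecidableEq α] [DecidableEq β]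
    (f : α → MvPolynomial (α ⊕ β) ℂ), (∀ i, constantCoeff (f i) = 0) →
    (Matrix.of fun i j => constantCoeff (pderiv (Sum.inl j) (f i))).det ≠ 0 →
    ∀ (k : ℕ) (F : MvPolynomial (α ⊕ β) ℂ), ∃ a : MvPolynomial β ℂ,
      F - rename Sum.inr a ∈ Ideal.span (Set.range f) ⊔ idealOfVars (α ⊕ β) ℂ ^ k

-- deps:
def S_LA2 : Prop :=
  ∀ (β : Type) [Fintype β] (k : ℕ) (a : MvPolynomial β ℂ),
    a ∈ idealOfVars β ℂ ^ k ↔ (fun t : β → ℂ => eval t a) =O[𝓝 0] fun t => ‖t‖ ^ k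

-- deps: LA1 LA2
def S_LA3 : Prop :=
  ∀ (α β : Type) [Fintype α] [Fintype β] [DecidableEq α] [DecidableEq β]
    (f : α → MvPolynomial (α ⊕ β) ℂ), (∀ i, constantCoeff (f i) = 0) →
    (Matrix.of fun i j => constantCoeff (pderiv (Sum.inl j) (f i))).det ≠ 0 →
    ∀ ψ : (β → ℂ) → (α ⊕ β → ℂ), DifferentiableAt ℂ ψ 0 → ψ 0 = 0 →
    (∀ᶠ t in 𝓝 0, (∀ i, eval (ψ t) (f i) = 0) ∧ ∀ b, ψ t (Sum.inr b) = t b) →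
    ∀ F, (∀ᶠ t in 𝓝 0, eval (ψ t) F = 0) →
      ∃ g, constantCoeff g ≠ 0 ∧ g * F ∈ Ideal.span (Set.range f)

-- deps:
def S_LA4 : Prop :=
  ∀ (α β : Type) [Fintype α] [Fintype β] [DecidableEq α] [DecidableEq β]
    (f : α → MvPolynomial (α ⊕ β) ℂ), (∀ i, constantCoeff (f i) = 0) →
    (Matrix.of fun i j => constantCoeff (pderiv (Sum.inl j) (f i))).det ≠ 0 →
    ∃ ψ : (β → ℂ) → (α ⊕ β → ℂ), AnalyticAt ℂ ψ 0 ∧ ψ 0 = 0 ∧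
      (∀ᶠ t in 𝓝 0, (∀ i, eval (ψ t) (f i) = 0) ∧ ∀ b, ψ t (Sum.inr b) = t b) ∧
      ∀ᶠ x in 𝓝 (0 : α ⊕ β → ℂ), (∀ i, eval x (f i) = 0) → ψ (fun b => x (Sum.inr b)) = x

/-- The local structure statement for an ideal `Jd` and the family `ξ` on the zero set of `γ`. -/
def LocStr {E ι κ : Type} [TopologicalSpace E] (Jd : Ideal (MvPolynomial ι ℂ)) (γ : E → κ → ℂ)
    (ξ : E → ι → ℂ) (e₀ : E) : Prop :=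
  ∃ p ∈ Jd.minimalPrimes, (∀ F, F ∈ p ↔ ∃ g, eval (ξ e₀) g ≠ 0 ∧ g * F ∈ Jd) ∧
    (∀ F, F ∈ p ↔ ∀ᶠ y in 𝓝 e₀, γ y = 0 → eval (ξ y) F = 0) ∧
    (∀ W ∈ 𝓝 e₀, ∀ᶠ x in 𝓝 (ξ e₀), (∀ F ∈ Jd, eval x F = 0) → ∃ y ∈ W, γ y = 0 ∧ ξ y = x)

-- deps: LA3 LA4
def S_LA5 : Prop :=
  ∀ (E : Type) [NormedAddCommGroup E] [NormedSpace ℂ E] [CompleteSpace E] (α β κ : Type)
    [Fintype α] [Fintype β] [Fintype κ] [DecidableEq α] [DecidableEq β]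
    (Jd : Ideal (MvPolynomial (α ⊕ β) ℂ)) (f : α → MvPolynomial (α ⊕ β) ℂ)
    (γ : E → κ → ℂ) (ξ : E → α ⊕ β → ℂ) (γ' : E →L[ℂ] κ → ℂ) (ξ' : E →L[ℂ] α ⊕ β → ℂ) (e₀ : E),
    HasStrictFDerivAt γ γ' e₀ → HasStrictFDerivAt ξ ξ' e₀ → γ e₀ = 0 → ξ e₀ = 0 →
    (∀ i, f i ∈ Jd) → (∀ F ∈ Jd, ∀ᶠ y in 𝓝 e₀, γ y = 0 → eval (ξ y) F = 0) →
    (Matrix.of fun i j => constantCoeff (pderiv (Sum.inl j) (f i))).det ≠ 0 →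
    (∀ (u : κ → ℂ) (t : β → ℂ), ∃ h, γ' h = u ∧ ∀ b, ξ' h (Sum.inr b) = t b) →
    LocStr Jd γ ξ e₀

-- deps: LA5
def S_LOC : Prop :=
  ∀ (E : Type) [NormedAddCommGroup E] [NormedSpace ℂ E] [CompleteSpace E] (ι α β κ : Type)
    [Fintype ι] [Fintype α] [Fintype β] [Fintype κ] [DecidableEq ι] [DecidableEq α] [DecidableEq β]
    (e : α ⊕ β ≃ ι) (Jd : Ideal (MvPolynomial ι ℂ)) (f : α → MvPolynomial ι ℂ)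
    (γ : E → κ → ℂ) (ξ : E → ι → ℂ) (γ' : E →L[ℂ] κ → ℂ) (ξ' : E →L[ℂ] ι → ℂ) (e₀ : E),
    HasStrictFDerivAt γ γ' e₀ → HasStrictFDerivAt ξ ξ' e₀ → γ e₀ = 0 →
    (∀ i, f i ∈ Jd) → (∀ F ∈ Jd, ∀ᶠ y in 𝓝 e₀, γ y = 0 → eval (ξ y) F = 0) →
    (Matrix.of fun i j => eval (ξ e₀) (pderiv (e (Sum.inl j)) (f i))).det ≠ 0 →
    (∀ (u : κ → ℂ) (t : β → ℂ), ∃ h, γ' h = u ∧ ∀ b, ξ' h (e (Sum.inr b)) = t b) →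
    LocStr Jd γ ξ e₀

-- deps: WORD AFF PHS FRM
def S_PHI : Prop := Bin 33 aL → ∀ m L, Frame m L → Bin m L

end Pool.Agent.P.MP_abfee5_ag
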