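import Pool.Agent.P.MP_abfee5_ag.CT.Iface2
import Pool.Agent.P.MP_abfee5_ag.CT.Iface

/-! Step AVF of the cubic threefold theta project. -/

namespace Pool.Agent.P.MP_abfee5_ag

open Complex Filter Topology MvPolynomial

theorem p_AVF (hAFF : S_AFF) (hAVG : S_AVG) :
    S_AVF := by
  intro us τ
  obtain ⟨H, hne, hH, hav⟩ := hAVG us
  refine ⟨fun m => ∑ h ∈ H, mval τ (mact h m), H.card, Nat.cast_ne_zero.2 hne.card_pos.ne',
    fun l => ?_, fun k a b h => ?_, fun m _ hm => ?_, fun P hP => ?_⟩
  · induction l with
    | nil => intro _ m _; rfl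
    | cons u l ih =>
      intro hl m hm
      have hok : (mact u m).ok := by
        intro n hn
        rw [mact_snd] at hn
        obtain ⟨n', h1, rfl⟩ := List.mem_map.1 hn
        exact ((hAFF u).1 n' (hm n' h1)).1
      rw [List.flatten_cons, mact_append]
      exact (ih (fun v hv => hl v (List.mem_cons_of_mem _ hv)) _ hok).trans
        (hav u (hl u List.mem_cons_self) τ m hm)
  · rw [Finset.mul_sum]
    exact Finset.sum_congr rfl fun w _ => h.mact_val τ w
  · have key : ∀ l : List (List ℕ), (∀ u ∈ l, u ∈ us) → mval τ (mact l.flatten m) = mval τ m := by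
      intro l
      induction l with
      | nil => intro _; rfl
      | cons u l ih =>
        intro hl
        rw [List.flatten_cons, mact_append, (hm u (hl u List.mem_cons_self)).mact_val, pow_zero,
          one_mul]
        exact ih fun v hv => hl v (List.mem_cons_of_mem _ hv)
    rw [← nsmul_eq_mul, ← Finset.sum_const]
    refine Finset.sum_congr rfl fun h hh => ?_
    obtain ⟨l, hl, rfl⟩ := hH h hh
    exact key l hl
  · have key : ∀ Q : List Mono, (Q.map fun m => ∑ h ∈ H, mval τ (mact h m)).sum =
        ∑ h ∈ H, pval τ (pact h Q) := by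
      intro Q
      induction Q with
      | nil => simp [pact, pval]
      | cons m Q ih =>
        rw [List.map_cons, List.sum_cons, ih, ← Finset.sum_add_distrib]
        exact Finset.sum_congr rfl fun h _ => (pval_cons τ _ _).symm
    rw [key]
    refine Finset.sum_eq_zero fun h hh => ?_
    obtain ⟨l, hl, rfl⟩ := hH h hh
    exact hP l hl

end Pool.Agent.P.MP_abfee5_ag
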