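import Pool.Agent.P.MP_abfee5_ag.CT.Iface

/-! Step AVG of the cubic threefold theta project. -/

namespace Pool.Agent.P.MP_abfee5_ag

open Complex Filter Topology MvPolynomial

namespace AvgA

/-- The table of a word. -/
def tab (w : List ℕ) (n : Fin 1024) : ℕ × ℕ := actW w n

lemma tab_eq {a b : List ℕ} (h : tab a = tab b) {n : ℕ} (hn : n < 1024) : actW a n = actW b n :=
  congrFun h ⟨n, hn⟩

lemma val_eq {a b : List ℕ} (h : tab a = tab b) (τ : Mat) {m : Mono} (hm : m.ok) :
    mval τ (mact a m) = mval τ (mact b m) := by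
  rw [mval_mact, mval_mact]
  congr 2
  exact List.map_congr_left fun n hn => by rw [← actW_fst, ← actW_fst, tab_eq h (hm n hn)]

lemma cancel (hAFF : S_AFF) {u a b : List ℕ} (h : tab (u ++ a) = tab (u ++ b)) : tab a = tab b := by
  funext n
  obtain ⟨h1, -, h2⟩ := (hAFF u.reverse).1 n n.2
  rw [List.reverse_reverse] at h2
  have e := tab_eq h h1
  have e1 := congrArg Prod.fst e
  have e2 := congrArg Prod.snd e
  rw [actW_fst, actW_fst, piW_append, piW_append, h2, ← actW_fst, ← actW_fst] at e1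
  rw [actW_append_snd, actW_append_snd, h2] at e2
  have := actW_snd_lt a n
  have := actW_snd_lt b n
  exact Prod.ext e1 (show (actW a n).2 = (actW b n).2 by omega)

lemma fin (hAFF : S_AFF) (W : Set (List ℕ)) : (tab '' W).Finite := by
  refine (Set.Finite.pi' fun _ => (Set.finite_Iio 1024).prod (Set.finite_Iio 8)).subset ?_
  rintro _ ⟨w, -, rfl⟩ n
  exact ⟨(actW_fst w n).trans_lt ((hAFF w).1 n n.2).1, actW_snd_lt w n⟩

end AvgA

open AvgA in
theorem p_AVG (hAFF : S_AFF) :
    S_AVG := by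
  classical
  intro us
  let W : Set (List ℕ) := {h | ∃ l : List (List ℕ), (∀ u ∈ l, u ∈ us) ∧ h = l.flatten}
  have := (fin hAFF W).fintype
  choose rep h1 h2 using fun t : tab '' W => t.2
  have inj : Function.Injective rep := fun a b e => Subtype.ext (by rw [← h2 a, ← h2 b, e])
  refine ⟨Finset.univ.image rep, ⟨_, Finset.mem_image_of_mem _ (Finset.mem_univ
    ⟨tab [], [], ⟨[], by simp, rfl⟩, rfl⟩)⟩, fun h hh => ?_, fun u hu τ m hm => ?_⟩
  · obtain ⟨t, -, rfl⟩ := Finset.mem_image.1 hh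
    exact h1 t
  let φ : tab '' W → tab '' W := fun t => ⟨tab (u ++ rep t), u ++ rep t, by
    obtain ⟨l, a, b⟩ := h1 t
    exact ⟨u :: l, List.forall_mem_cons.2 ⟨hu, a⟩, by rw [b, List.flatten_cons]⟩, rfl⟩
  have hφ : Function.Bijective φ := Finite.injective_iff_bijective.1 fun a b e =>
    Subtype.ext (by rw [← h2 a, ← h2 b]; exact cancel hAFF (congrArg Subtype.val e))
  rw [Finset.sum_image fun _ _ _ _ e => inj e, Finset.sum_image fun _ _ _ _ e => inj e,
    ← hφ.sum_comp fun t => mval τ (mact (rep t) m)]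
  exact Finset.sum_congr rfl fun t _ => by
    rw [← mact_append]; exact val_eq (h2 (φ t)).symm τ hm

end Pool.Agent.P.MP_abfee5_ag
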