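import Pool.Agent.P.MP_abfee5_ag.CT.Iface

/-! Statements of the project CT, part B (the Jacobian determinant and the Fay polynomial). -/

namespace Pool.Agent.P.MP_abfee5_ag

open Complex Filter Topology MvPolynomial

/-- Four azygetic odd characteristics. -/
def kap : List ℕ := [33, 106, 395, 760]

/-- The 72 odd characteristics that are azygetic with `kap`. -/
def ext : List ℕ :=
  [43, 55, 70, 79, 83, 90, 109, 113, 149, 156, 171, 190, 211, 218, 228, 241, 266, 287, 289, 296,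
  332, 345, 370, 379, 394, 406, 417, 424, 436, 445, 453, 473, 487, 494, 498, 507, 528, 537, 551,
  562, 579, 586, 609, 628, 645, 652, 656, 665, 686, 690, 707, 714, 726, 735, 737, 765, 783, 787,
  841, 853, 866, 875, 887, 894, 902, 915, 932, 941, 969, 988, 994, 1003]

/-- The 36 known terms of the 37 term relation between gradients with leading term 45. -/
def os36 : List ℕ :=
  [55, 70, 83, 109, 156, 211, 296, 332, 345, 370, 406, 424, 445, 473, 487, 498, 537, 551, 562,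
  579, 652, 665, 690, 707, 726, 765, 787, 841, 866, 887, 902, 915, 941, 969, 988, 994]

/-- Relations: pairs of a coefficient and a fifth characteristic. -/
abbrev Rel : Type := List (Mono × ℕ)

/-- A relation that holds both for the determinants and for the polynomials. -/
def JRel (κ : List ℕ) (Pn : ℕ → List Mono) (R : Rel) : Prop :=
  ∀ τ ∈ Siegel, (R.map fun p => mval τ p.1 * dval τ (0, κ ++ [p.2])).sum = 0 ∧
    (R.map fun p => mval τ p.1 * pval τ (Pn p.2)).sum = 0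

/-- Transport of a relation by a word that fixes `κ`. -/
def ract (κ g : List ℕ) (R : Rel) : Rel :=
  R.map fun p => (mmul ((mact g (0, κ ++ [p.2])).1, []) (mact g p.1), piW g p.2)

/-- The monomial does not vanish at the diagonal point. -/
def nzd (m : Mono) : Prop := ∀ n ∈ m.2, ((n >>> 5) &&& n) % 32 = 0

/-- Closure of `E` under the rule `Os` implies `o` is the set of odd characteristics. -/
def Clos (E : List ℕ) (o : ℕ) (Os : List ℕ) : Prop :=
  ∀ Z : ℕ → Prop, (∀ n ∈ E, Z n) → (∀ w, (∀ n ∈ Os, Z (piW w n)) → Z (piW w o)) →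
    ∀ n < 1024, par n = 1 → Z n

/-- Every element of `E` is reached from entry `k` of `X` by a word fixing the earlier entries. -/
def Ext (X E : List ℕ) : Prop :=
  ∀ k < 5, ∀ n ∈ E, n ∈ X.take k ∨
    ∃ u, (X.take k).map (piW u) = X.take k ∧ piW u (X.getD k 0) = n

-- deps: WORD
def S_JRT : Prop :=
  ∀ (κ : List ℕ) (Pn : ℕ → List Mono) (E g : List ℕ) (δ : ℕ) (R : Rel), κ.length = 4 →
    κ.map (piW g) = κ →
    (∀ n ∈ E, (∀ m ∈ Pn n, m.2.length = 7) ∧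
      PEq (δ + (mact g (0, κ ++ [n])).1) (pact g (Pn n)) (Pn (piW g n))) →
    (∀ p ∈ R, p.1.2.length = 3 ∧ p.2 ∈ E) → JRel κ Pn R → JRel κ Pn (ract κ g R)

-- deps: ID HOL DIAG
def S_PEEL : Prop :=
  ∀ (κ : List ℕ) (Pn : ℕ → List Mono) (x : ℕ) (K : ℕ) (ord : Fin K → ℕ) (rel : Fin K → Rel),
    Function.Injective ord → (∀ k, ord k ≠ x) → (∀ k, JRel κ Pn (rel k)) →
    (∀ k, ∀ p ∈ rel k, p.2 = x ∨ ∃ l, p.2 = ord l ∧ (k < l → ¬nzd p.1)) →
    (∀ k, ∃ c, (rel k).filter (fun p => p.2 = ord k) = [(c, ord k)] ∧ nzd c) →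
    ∀ k, ∀ τ ∈ Siegel, dval τ (0, κ ++ [ord k]) * pval τ (Pn x) =
      pval τ (Pn (ord k)) * dval τ (0, κ ++ [x])

-- deps:
def S_DREL : Prop :=
  (∀ (κ : List ℕ) (R : Rel) τ, κ.length = 4 →
    (∀ j, (R.map fun p => mval τ p.1 * gr p.2 τ j).sum = 0) →
    ((R.filter fun p => p.2 ∉ κ).map fun p => mval τ p.1 * dval τ (0, κ ++ [p.2])).sum = 0) ∧
  (∀ (X : Mono) τ, X.2.length = 5 → ∀ m ∈ X.2, (∀ j, gr m τ j = 0) → dval τ X = 0) ∧
  (∀ X Y : Mono, X.2.length = 5 → X.2.Perm Y.2 → ∃ ε : ℂ, ε ≠ 0 ∧ ∀ τ, dval τ X = ε * dval τ Y)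

-- deps: SPAN AFF WORD
def S_EXD : Prop :=
  ∀ (X E : List ℕ) (a b o : ℕ) (y : ℤ) (R : List (ℕ × ℤ)), X.length = 5 → y ≠ 0 →
    (∀ n ∈ [o ^^^ a, o ^^^ b, o ^^^ a ^^^ b], n < 1024 ∧ par n = 0) →
    (∀ τ ∈ Siegel, ∀ j, (((o, y) :: R).map fun p => (p.2 : ℂ) *
      (th (p.1 ^^^ a) τ * th (p.1 ^^^ b) τ * th (p.1 ^^^ a ^^^ b) τ * gr p.1 τ j)).sum = 0) →
    Clos E o (R.map Prod.fst) → Ext X E →
    ∀ τ ∈ Siegel, NV τ → ∃ w, dval τ (mact w (0, X)) ≠ 0

-- deps: AFF TV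
def S_CLOS : Prop := Clos (kap ++ ext) 45 os36

-- deps: AFF TV
def S_EXT : Prop := Ext (kap ++ [149]) (kap ++ ext)

-- deps: AFF AVG
def S_AVF : Prop :=
  ∀ (us : List (List ℕ)) (τ : Mat), ∃ (Av : Mono → ℂ) (c : ℂ), c ≠ 0 ∧
    (∀ l : List (List ℕ), (∀ u ∈ l, u ∈ us) → ∀ m : Mono, m.ok → Av (mact l.flatten m) = Av m) ∧
    (∀ k a b, MEq k a b → Av a = z8 ^ k * Av b) ∧
    (∀ m : Mono, m.ok → (∀ u ∈ us, MEq 0 (mact u m) m) → Av m = c * mval τ m) ∧
    (∀ P : List Mono, (∀ l : List (List ℕ), (∀ u ∈ l, u ∈ us) → pval τ (pact l.flatten P) = 0) →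
      (P.map Av).sum = 0)

end Pool.Agent.P.MP_abfee5_ag
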