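import Pool.Agent.P.MP_abfee5_ag.CT.Iface4
import Pool.Agent.P.MP_abfee5_ag.CT.Iface
import Pool.Agent.P.MP_abfee5_ag.CT.Iface2

/-! Step BASE of the cubic threefold theta project. -/

namespace Pool.Agent.P.MP_abfee5_ag

open Complex Filter Topology MvPolynomial

namespace BaseA

/-- The orbit representatives as monomials. -/
def rep (o : ℕ) : Mono := (0, aL ++ repL.getD o [])

/-- The check on one entry of `relL`. -/
def chk (e : List ℕ × List ℕ × ℕ × List (ℕ × List ℕ)) : Bool :=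
  ((aL ++ e.1).all fun n => Nat.blt n 1024) && (e.2.1.all fun i => Nat.blt i 11) &&
    (mrun (pick gT 0 e.2.1) X0).2.contains 33 && Nat.beq (Pn 149).length e.2.2.2.length &&
    ((Pn 149).zip e.2.2.2).all fun p => (p.2.2.all fun i => Nat.blt i 9) &&
      meqB e.2.2.1 (mrun (pick hT 0 p.2.2) (mmul (0, aL ++ e.1) (mrun (pick gT 0 e.2.1) p.1)))
        (rep p.2.1)

lemma chk_all : relL.all chk = true := by decide +kernel

/-- The check on the generators `hW`. -/
def chkH (i : ℕ) : Bool :=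
  Nat.beq (runT (pick hT 0 [i]) (8 * 33) / 8) 33 &&
    meqB 0 (mrun (pick hT 0 [i]) (rep 0)) (rep 0) && meqB 0 (mrun (pick hT 0 [i]) (rep 1)) (rep 1)

lemma chkH_all : (List.range 9).all chkH = true := by decide +kernel

lemma rep_ok : (rep 0).ok ∧ (rep 1).ok := by
  constructor <;> (unfold Mono.ok; decide +kernel)

lemma gen_h (hAFF : S_AFF) (hTABH : S_TABH) : ∀ u ∈ hW, piW u 33 = 33 ∧
    MEq 0 (mact u (rep 0)) (rep 0) ∧ MEq 0 (mact u (rep 1)) (rep 1) := by
  intro u hu
  obtain ⟨i, hi, hiu⟩ := List.getElem_of_mem hu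
  have hi9 : i < 9 := hi
  have h := List.all_eq_true.1 chkH_all i (List.mem_range.2 hi9)
  rw [chkH, Bool.and_eq_true, Bool.and_eq_true] at h
  have hT : List.Forall₂ IsTab (pick hT 0 [i]) (pick hW [] [i]) :=
    isTab_pick hTABH [i] fun j hj => by rw [List.mem_singleton.1 hj]; exact hi9
  have hf : (pick hW [] [i]).flatten = u := by
    rw [← hiu, ← List.getD_eq_getElem _ [] hi]
    simp only [pick, List.map_cons, List.map_nil, List.flatten_cons, List.flatten_nil,
      List.append_nil]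
  refine ⟨?_, ?_, ?_⟩
  · rw [← hf, ← runT_div hAFF hT (by norm_num)]
    exact Nat.eq_of_beq_eq_true h.1.1
  · rw [← hf]
    exact meq_mrun hAFF hT rep_ok.1 (meq_of h.1.2)
  · rw [← hf]
    exact meq_mrun hAFF hT rep_ok.2 (meq_of h.2)

lemma fix33 (hAFF : S_AFF) (hTABH : S_TABH) (l : List (List ℕ)) (hl : ∀ u ∈ l, u ∈ hW) :
    piW l.flatten 33 = 33 := by
  induction l with
  | nil => rfl
  | cons u l ih =>
    rw [List.flatten_cons, piW_append, (gen_h hAFF hTABH u (hl u List.mem_cons_self)).1]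
    exact ih fun v hv => hl v (List.mem_cons_of_mem _ hv)

lemma sum_zip {α β : Type} (f : α → ℂ) (g : β → ℂ) (z : ℂ) (Ms : List α) (Ts : List β)
    (hl : Ms.length = Ts.length) (h : ∀ p ∈ Ms.zip Ts, f p.1 = z * g p.2) :
    (Ms.map f).sum = z * (Ts.map g).sum := by
  induction Ms generalizing Ts with
  | nil =>
    cases Ts with
    | nil => simp
    | cons t Ts => simp at hl
  | cons m Ms ih =>
    cases Ts with
    | nil => simp at hl
    | cons t Ts =>
      have h1 := h (m, t) (by simp)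
      have h2 := ih Ts (by simpa using hl) fun p hp => h p (by
        rw [List.zip_cons_cons]; exact List.mem_cons_of_mem _ hp)
      simp only [List.map_cons, List.sum_cons, h2]
      simp only at h1
      rw [h1]; ring

lemma pval_pact_mmul (τ : Mat) (h : List ℕ) (c : Mono) (P : List Mono) :
    pval τ (pact h (P.map (mmul c))) = mval τ (mact h c) * pval τ (pact h P) := by
  induction P with
  | nil => simp [pact, pval]
  | cons m P ih =>
    simp only [pact, List.map_cons, pval_cons] at ih ⊢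
    rw [ih, mval_mact_mmul]; ring

lemma rel_of (hAFF : S_AFF) (hTABG : S_TABG) (hTABH : S_TABH) (hSTAB : S_STAB) (hPVAN : S_PVAN)
    {τ : Mat} (hτ : τ ∈ Siegel) (hNV : NV τ) (h33 : ∀ j, gr 33 τ j = 0) (Av : Mono → ℂ)
    (h1 : ∀ l : List (List ℕ), (∀ u ∈ l, u ∈ hW) → ∀ m : Mono, m.ok →
      Av (mact l.flatten m) = Av m)
    (h2 : ∀ k a b, MEq k a b → Av a = z8 ^ k * Av b)
    (h4 : ∀ P : List Mono,
      (∀ l : List (List ℕ), (∀ u ∈ l, u ∈ hW) → pval τ (pact l.flatten P) = 0) →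
      (P.map Av).sum = 0)
    (e : List ℕ × List ℕ × ℕ × List (ℕ × List ℕ)) (he : chk e = true) :
    (e.2.2.2.map fun p => Av (rep p.1)).sum = 0 := by
  obtain ⟨cf, r, k, terms⟩ := e
  simp only [chk, Bool.and_eq_true, List.all_eq_true, Nat.blt_eq, Nat.beq_eq,
    List.contains_iff_mem] at he
  obtain ⟨⟨⟨⟨hc, hr⟩, hX⟩, hlen⟩, hz⟩ := he
  have hG : List.Forall₂ IsTab (pick gT 0 r) (pick gW [] r) := isTab_pick hTABG r hr
  have hXok : X0.ok := by unfold Mono.ok; decide +kernel
  rw [mrun_snd hAFF hG hXok] at hX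
  set w := (pick gW [] r).flatten with hw
  have h149 : (149 : ℕ) ∈ ext := by decide
  have h0 := h4 ((pact w (Pn 149)).map (mmul (0, aL ++ cf))) fun l hl => by
    rw [pval_pact_mmul, ← pact_append, hPVAN τ hτ hNV 33 h33 (w ++ l.flatten), mul_zero]
    rw [mact_append, mact_snd]
    exact List.mem_map.2 ⟨33, hX, fix33 hAFF hTABH l hl⟩
  rw [pact, List.map_map, List.map_map,
    sum_zip _ (fun p : ℕ × List ℕ => Av (rep p.1)) (z8 ^ k) _ terms hlen] at h0
  · exact (mul_eq_zero.1 h0).resolve_left (pow_ne_zero _ z8_ne)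
  · intro p hp
    obtain ⟨hp1, hp2⟩ := hz p hp
    have hm : p.1.ok := (hSTAB.1 149 h149 p.1 (List.of_mem_zip hp).1).1
    have hH : List.Forall₂ IsTab (pick hT 0 p.2.2) (pick hW [] p.2.2) := isTab_pick hTABH _ hp1
    have hok : (mmul (0, aL ++ cf) (mrun (pick gT 0 r) p.1)).ok := by
      intro n hn
      rcases List.mem_append.1 hn with hn | hn
      · exact hc n hn
      · rw [mrun_snd hAFF hG hm, mact_snd] at hn
        obtain ⟨n', hn', rfl⟩ := List.mem_map.1 hn
        exact ((hAFF _).1 n' (hm n' hn')).1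
    have hE : MEq 0 (mmul (0, aL ++ cf) (mact w p.1))
        (mmul (0, aL ++ cf) (mrun (pick gT 0 r) p.1)) := by
      refine ⟨?_, ?_⟩
      · simp only [mmul]
        rw [mrun_fst hAFF hG hm, ← hw]
        omega
      · simp only [mmul]
        rw [mrun_snd hAFF hG hm]
    simp only [Function.comp_apply]
    rw [h2 _ _ _ hE, pow_zero, one_mul, ← h1 _ (mem_pick p.2.2 hp1) _ hok]
    exact h2 _ _ _ (meq_mrun hAFF hH hok (meq_of hp2))

end BaseA

open BaseA in
theorem p_BASE (hAFF : S_AFF) (hTABG : S_TABG) (hTABH : S_TABH) (hSTAB : S_STAB) (hAVF : S_AVF) (hPVAN : S_PVAN) :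
    S_BASE := by
  intro τ hτ hNV h33
  obtain ⟨Av, c, hc, h1, h2, h3, h4⟩ := hAVF hW τ
  have hR := fun e (he : e ∈ relL) => rel_of hAFF hTABG hTABH hSTAB hPVAN hτ hNV h33 Av h1 h2 h4 e
    (List.all_eq_true.1 chk_all e he)
  simp only [relL, List.forall_mem_cons, List.map_cons, List.map_nil, List.sum_cons,
    List.sum_nil] at hR
  obtain ⟨r1, r2, r3, r4, r5, r6, -⟩ := hR
  have hA : Av (rep 0) = Av (rep 1) := by
    linear_combination r1 - r6 - (7 / 3 : ℂ) * r2 + (7 / 3 : ℂ) * r5 + (35 / 9 : ℂ) * r3 -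
      (35 / 9 : ℂ) * r4
  rw [h3 _ rep_ok.1 fun u hu => (gen_h hAFF hTABH u hu).2.1,
    h3 _ rep_ok.2 fun u hu => (gen_h hAFF hTABH u hu).2.2] at hA
  have hA' := mul_left_cancel₀ hc hA
  have ha : (aL.map fun n => th n τ).prod ≠ 0 := by
    refine List.prod_ne_zero fun h => ?_
    obtain ⟨n, hn, h0⟩ := List.mem_map.1 h
    have : ∀ n ∈ aL, n < 1024 ∧ par n = 0 := by decide +kernel
    exact hNV n (this n hn).1 (this n hn).2 h0
  have hp : (repL.getD 1 []).Perm (aL.map fun n => n ^^^ xsum aL) := by decide +kernel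
  have e0 : repL.getD 0 [] = aL := rfl
  simp only [mval, rep, pow_zero, one_mul, List.map_append, List.prod_append, e0] at hA'
  have hB := mul_left_cancel₀ ha hA'
  rw [(hp.map _).prod_eq, List.map_map] at hB
  have sq : ∀ (f : ℕ → ℂ) (L : List ℕ), (L.map fun n => f n ^ 2).prod = (L.map f).prod ^ 2 := by
    intro f L
    induction L with
    | nil => simp
    | cons a L ih => simp only [List.map_cons, List.prod_cons, ih, mul_pow]
  rw [sq (fun n => th n τ), sq (fun n => th (n ^^^ xsum aL) τ), hB]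
  rfl

end Pool.Agent.P.MP_abfee5_ag
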