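import Pool.Agent.P.MP_abfee5_ag.CT.Iface

/-! Step BRG of the cubic threefold theta project. -/

namespace Pool.Agent.P.MP_abfee5_ag

open Complex Filter Topology MvPolynomial

namespace BrgA

theorem grad (hZD : S_ZD) (hBRV : S_BRV) (n : ℕ) (τ : Mat) (hτ : τ ∈ Om) :
    fderiv ℂ (thetaC (dec n) τ) 0 = 0 ↔ ∀ j, gr n τ j = 0 := by
  obtain ⟨L, hL, hv⟩ := hZD (chi n) (gr_chi n) τ hτ 0
  have hc : (Real.pi * I : ℂ) ≠ 0 := mul_ne_zero (by exact_mod_cast Real.pi_ne_zero) I_ne_zero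
  have h1 : HasFDerivAt (fun z : Fin 5 → ℂ => (Real.pi * I : ℂ) • z)
      ((Real.pi * I : ℂ) • ContinuousLinearMap.id ℂ (Fin 5 → ℂ)) 0 :=
    ((Real.pi * I : ℂ) • ContinuousLinearMap.id ℂ (Fin 5 → ℂ)).hasFDerivAt
  have h2 := HasFDerivAt.comp (0 : Fin 5 → ℂ) (by rw [smul_zero]; exact hL) h1
  have h3 : thetaC (dec n) τ = (fun z : Fin 5 → ℂ =>
      S (fun N => cexp (∑ j, z j * (N j : ℂ)) * chi n N) τ) ∘
        fun z : Fin 5 → ℂ => (Real.pi * I : ℂ) • z := funext fun z => hBRV.1 n τ z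
  have h4 : ∀ h, L h = ∑ k, h k * gr n τ k := fun h => by simpa [gr] using hv h
  rw [h3, h2.fderiv]
  constructor
  · intro h j
    have := DFunLike.congr_fun h (Pi.single j 1)
    simp only [ContinuousLinearMap.comp_apply, ContinuousLinearMap.smul_apply,
      ContinuousLinearMap.id_apply, map_smul, ContinuousLinearMap.zero_apply, smul_eq_mul,
      mul_eq_zero, hc, false_or, h4] at this
    simpa [Pi.single_apply] using this
  · intro h
    refine ContinuousLinearMap.ext fun v => ?_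
    simp [h4, h]

theorem par_zero (n : ℕ) : ((par n : ℕ) : ZMod 2) = 0 ↔ par n = 0 := by
  have := par_lt n
  refine ⟨fun h => ?_, fun h => by simp [h]⟩
  by_contra h0
  rw [show par n = 1 by omega] at h
  exact absurd h (by decide)

end BrgA

open BrgA in
theorem p_BRG (hZD : S_ZD) (hBRV : S_BRV) (hENC : S_ENC) :
    S_BRG := by
  refine ⟨grad hZD hBRV, fun m τ => and_congr_right fun hτ => and_congr ?_ ?_⟩
  · rw [← grad hZD hBRV (enc m) τ (siegel_om hτ), hENC.2.1.1]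
  · constructor
    · intro h n _ hp
      rw [← hBRV.2.1]
      exact h _ (by rw [hENC.2.1.2.2.2.2.2, par_zero, hp])
    · intro h n hp
      rw [← hENC.2.1.1 n, hBRV.2.1]
      refine h _ (hENC.2.1.2.1 n) ?_
      rwa [← par_zero, ← hENC.2.1.2.2.2.2.2, hENC.2.1.1]

end Pool.Agent.P.MP_abfee5_ag
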