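import Pool.Agent.P.MP_abfee5_ag.CT.Iface

/-! Step BRV of the cubic threefold theta project. -/

namespace Pool.Agent.P.MP_abfee5_ag

open Complex Filter Topology MvPolynomial

namespace BrvA

lemma half_dec5 (x : ℕ) (j : Fin 5) :
    half (dec5 x) j = (((x >>> (j : ℕ)) % 2 : ℕ) : ℝ) / 2 := by
  unfold half dec5
  rw [ZMod.val_natCast, Nat.mod_mod]

lemma half1 (n : ℕ) (j : Fin 5) : ((half (dec n).1 j : ℝ) : ℂ) = (ab n j : ℂ) / 2 := by
  show ((half (dec5 (n >>> 5)) j : ℝ) : ℂ) = _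
  rw [half_dec5, ← Nat.shiftRight_add]
  unfold ab
  push_cast
  rfl

lemma half2 (n : ℕ) (j : Fin 5) : ((half (dec n).2 j : ℝ) : ℂ) = (bb n j : ℂ) / 2 := by
  show ((half (dec5 n) j : ℝ) : ℂ) = _
  rw [half_dec5]
  unfold bb
  push_cast
  rfl

lemma I_zpow (k : ℤ) : I ^ k = cexp ((k : ℂ) * (Real.pi / 2 * I)) := by
  rw [Complex.exp_int_mul, Complex.exp_pi_div_two_mul_I]

/-- The doubling map. -/
def dbl (n : ℕ) (m : Fin 5 → ℤ) : V := fun j => 2 * m j + (ab n j : ℤ)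

lemma dbl_inj (n : ℕ) : Function.Injective (dbl n) := by
  intro a b h
  funext j
  have := congrFun h j
  unfold dbl at this
  omega

lemma dbl_mod (n : ℕ) (m : Fin 5 → ℤ) (j : Fin 5) : dbl n m j % 2 = (ab n j : ℤ) := by
  unfold dbl
  have : ab n j < 2 := Nat.mod_lt _ (by norm_num)
  omega

lemma term (n : ℕ) (τ : Mat) (z : Fin 5 → ℂ) (m : Fin 5 → ℤ) :
    cexp (Real.pi * I * ∑ j, ∑ k, ((m j : ℂ) + (half (dec n).1 j : ℝ)) * τ j k *
        ((m k : ℂ) + (half (dec n).1 k : ℝ))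
      + 2 * Real.pi * I * ∑ j, ((m j : ℂ) + (half (dec n).1 j : ℝ)) *
        (z j + (half (dec n).2 j : ℝ))) =
    cexp (∑ j, (Real.pi * I * z j) * (dbl n m j : ℂ)) * chi n (dbl n m) * ex τ (dbl n m) := by
  have hc : chi n (dbl n m) = I ^ (∑ j : Fin 5, dbl n m j * (bb n j : ℤ)) := by
    unfold chi
    rw [if_pos (dbl_mod n m)]
  have hd : ∀ j, (m j : ℂ) + (half (dec n).1 j : ℝ) = (dbl n m j : ℂ) / 2 := by
    intro j
    rw [half1]
    unfold dbl
    push_cast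
    ring
  rw [hc, I_zpow]
  unfold ex qf
  rw [← Complex.exp_add, ← Complex.exp_add]
  congr 1
  simp only [hd, half2]
  push_cast
  obtain ⟨N, hN⟩ : ∃ N : Fin 5 → ℂ, ∀ j, ((dbl n m j : ℤ) : ℂ) = N j := ⟨_, fun _ => rfl⟩
  simp only [hN]
  have e1 : ∑ j, ∑ k, N j / 2 * τ j k * (N k / 2) = (∑ j, ∑ k, N j * τ j k * N k) / 4 := by
    rw [Finset.sum_div]
    refine Finset.sum_congr rfl fun j _ => ?_
    rw [Finset.sum_div]
    refine Finset.sum_congr rfl fun k _ => ?_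
    ring
  have e2 : ∑ j, N j / 2 * (z j + (bb n j : ℂ) / 2) =
      (∑ j, z j * N j) / 2 + (∑ j, N j * (bb n j : ℂ)) / 4 := by
    rw [Finset.sum_div, Finset.sum_div, ← Finset.sum_add_distrib]
    refine Finset.sum_congr rfl fun j _ => ?_
    ring
  have e3 : ∑ j, (Real.pi * I * z j) * N j = Real.pi * I * ∑ j, z j * N j := by
    rw [Finset.mul_sum]
    refine Finset.sum_congr rfl fun j _ => ?_
    ring
  rw [e1, e2, e3]
  ring

lemma part1 (n : ℕ) (τ : Mat) (z : Fin 5 → ℂ) :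
    thetaC (dec n) τ z =
      S (fun N => cexp (∑ j, (Real.pi * I * z j) * (N j : ℂ)) * chi n N) τ := by
  unfold thetaC theta S
  refine Eq.trans (tsum_congr fun m => term n τ z m) ((dbl_inj n).tsum_eq
    (f := fun N : V => cexp (∑ j, (Real.pi * I * z j) * (N j : ℂ)) * chi n N * ex τ N) ?_)
  · intro N hN
    have hc : chi n N ≠ 0 := by
      intro h
      apply hN
      simp only [h, mul_zero, zero_mul]
    have hm : ∀ j : Fin 5, N j % 2 = (ab n j : ℤ) := by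
      by_contra hne
      apply hc
      unfold chi
      rw [if_neg hne]
    refine ⟨fun j => N j / 2, ?_⟩
    funext j
    have := hm j
    show 2 * (N j / 2) + (ab n j : ℤ) = N j
    omega

lemma part2 (n : ℕ) (τ : Mat) : thetaC (dec n) τ 0 = th n τ := by
  rw [part1]
  unfold th
  simp

lemma dec5_mul (σ : ℕ) : dec5 (32 * σ) = 0 := by
  funext j
  unfold dec5
  have h : ((32 * σ) >>> (j : ℕ)) % 2 = 0 := by
    rw [Nat.shiftRight_eq_div_pow]
    fin_cases j <;> simp <;> omega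
  rw [h]
  rfl

lemma part3 (σ : ℕ) (τ : Mat) : Th τ (dec5 σ) = xx σ τ := by
  unfold xx
  rw [← part2]
  unfold Th thetaC dec
  have h1 : (32 * σ) >>> 5 = σ := by
    rw [Nat.shiftRight_eq_div_pow]
    omega
  have h2 : half (0 : F2) = 0 := by
    funext j
    unfold half
    simp
  rw [h1, dec5_mul, h2]

end BrvA

theorem p_BRV :
    S_BRV :=
  ⟨BrvA.part1, BrvA.part2, BrvA.part3⟩

end Pool.Agent.P.MP_abfee5_ag
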