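import Pool.Agent.P.MP_abfee5_ag.CT.Iface2
import Pool.Agent.P.MP_abfee5_ag.CT.Iface

/-! Step CLOS of the cubic threefold theta project. -/

namespace Pool.Agent.P.MP_abfee5_ag

open Complex Filter Topology MvPolynomial

namespace ClosA

/-- The pairs of transvections. -/
def cert : List (ℕ × ℕ) :=
  [(0, 0), (28, 0), (75, 0), (79, 0), (83, 0), (137, 0), (156, 0), (162, 0), (171, 0), (207, 0),
  (218, 0), (241, 0), (248, 0), (259, 0), (266, 0), (289, 0), (308, 0), (325, 0), (332, 0),
  (366, 0), (379, 0), (424, 0), (426, 0), (436, 0), (453, 0), (460, 0), (464, 0), (473, 0),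
  (494, 0), (498, 0), (524, 0), (537, 0), (562, 0), (563, 0), (571, 0), (579, 0), (598, 0),
  (628, 0), (637, 0), (652, 0), (656, 0), (658, 0), (714, 0), (726, 0), (737, 0), (744, 0),
  (756, 0), (765, 0), (804, 0), (824, 0), (875, 0), (883, 0), (887, 0), (915, 0), (922, 0),
  (932, 0), (945, 0), (960, 0), (969, 0), (978, 0), (994, 0), (1015, 0), (2, 75), (4, 426), (6,
  563), (6, 978), (8, 978), (9, 570), (9, 987), (14, 978), (15, 68), (15, 421), (15, 572), (15,
  669), (15, 892), (15, 989), (18, 563), (19, 88), (19, 441), (19, 641), (19, 864), (20, 563),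
  (24, 426), (28, 75), (28, 426), (28, 658), (28, 883), (30, 75), (34, 529), (34, 1008), (36,
  111), (36, 398), (36, 535), (36, 694), (36, 855), (36, 1014), (45, 102), (45, 391), (45, 703),
  (45, 862), (49, 122), (49, 411), (49, 514), (49, 675), (49, 834), (49, 995), (55, 516), (55,
  997), (56, 115), (56, 402), (56, 682), (56, 843), (70, 629), (70, 916), (72, 563), (73, 483),
  (73, 731), (73, 826), (75, 137), (75, 143), (75, 154), (75, 156), (75, 162), (75, 164), (75,
  171), (75, 173), (75, 192), (75, 207), (75, 213), (75, 218), (75, 226), (75, 235), (75, 241),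
  (75, 248), (75, 259), (75, 266), (75, 272), (75, 281), (75, 289), (75, 302), (75, 308), (75,
  315), (75, 323), (75, 325), (75, 330), (75, 332), (75, 360), (75, 366), (75, 379), (75, 381),
  (75, 430), (75, 434), (75, 436), (75, 515), (75, 524), (75, 534), (75, 537), (75, 545), (75,
  552), (75, 562), (75, 563), (75, 571), (75, 579), (75, 581), (75, 592), (75, 598), (75, 626),
  (75, 628), (75, 635), (75, 637), (75, 650), (75, 652), (75, 662), (75, 875), (75, 877), (75,
  887), (75, 915), (75, 917), (75, 922), (75, 924), (75, 930), (75, 932), (75, 945), (75, 951),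
  (75, 960), (75, 969), (75, 979), (75, 986), (75, 994), (75, 1005), (75, 1015), (75, 1016),
  (76, 563), (77, 927), (79, 563), (79, 978), (81, 610), (84, 978), (85, 614), (85, 903), (87,
  978), (88, 563), (91, 563), (92, 563), (92, 978), (94, 908), (95, 563), (96, 946), (98, 563),
  (98, 978), (99, 563), (102, 563), (103, 563), (105, 602), (106, 978), (109, 606), (109, 959),
  (111, 978), (114, 563), (115, 563), (117, 935), (118, 563), (119, 563), (119, 978), (120,
  587), (120, 938), (122, 978), (124, 591), (127, 978), (129, 563), (130, 848), (131, 563),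
  (132, 563), (134, 563), (134, 978), (139, 978), (141, 702), (142, 978), (143, 700), (143,
  861), (145, 563), (147, 563), (147, 978), (148, 563), (150, 563), (151, 837), (152, 683),
  (154, 681), (154, 840), (155, 978), (158, 978), (160, 978), (163, 978), (164, 663), (164,
  886), (166, 661), (168, 563), (169, 563), (170, 563), (171, 563), (171, 978), (175, 893),
  (176, 978), (179, 978), (181, 646), (183, 644), (183, 869), (184, 563), (184, 978), (185,
  350), (185, 885), (186, 563), (187, 563), (188, 878), (192, 755), (192, 786), (193, 978),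
  (194, 978), (196, 978), (198, 757), (198, 788), (199, 978), (201, 563), (201, 978), (202,
  563), (203, 793), (204, 563), (205, 799), (207, 563), (207, 978), (209, 978), (210, 978),
  (211, 736), (211, 769), (212, 978), (213, 742), (213, 775), (215, 978), (216, 778), (217,
  563), (218, 563), (218, 978), (220, 563), (220, 978), (222, 780), (223, 563), (224, 563),
  (225, 563), (231, 563), (233, 978), (235, 728), (235, 825), (237, 734), (237, 831), (239,
  978), (240, 563), (241, 563), (241, 978), (243, 801), (245, 807), (246, 259), (246, 493),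
  (247, 333), (247, 563), (247, 978), (248, 442), (249, 324), (249, 332), (249, 434), (249,
  487), (250, 713), (252, 719), (255, 547), (263, 816), (267, 489), (267, 510), (267, 970),
  (269, 495), (273, 430), (275, 865), (278, 288), (278, 309), (279, 345), (280, 350), (282,
  480), (284, 486), (290, 563), (292, 478), (294, 350), (296, 337), (296, 378), (296, 414),
  (297, 344), (297, 352), (297, 367), (297, 467), (300, 454), (302, 395), (302, 425), (302,
  499), (303, 373), (303, 386), (305, 459), (307, 314), (307, 426), (311, 477), (314, 407),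
  (319, 469), (322, 426), (322, 883), (326, 428), (331, 883), (333, 439), (333, 574), (334,
  420), (337, 658), (341, 431), (343, 965), (348, 416), (350, 1000), (350, 1021), (352, 883),
  (355, 393), (355, 440), (355, 476), (356, 532), (357, 489), (358, 457), (358, 533), (361,
  1019), (363, 385), (369, 600), (371, 512), (373, 883), (374, 412), (380, 918), (380, 1006),
  (382, 388), (384, 515), (389, 454), (390, 482), (392, 504), (405, 519), (419, 625), (426,
  442), (427, 434), (429, 484), (431, 463), (431, 474), (436, 463), (436, 484), (439, 473),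
  (448, 514), (451, 457), (457, 479), (514, 675), (516, 694), (516, 843), (518, 744), (520,
  797)]

/-- Add an element to a set given as a bit mask. -/
def ins (K n : ℕ) : ℕ := K ||| 2 ^ n

/-- Run through the certificate; the result is the final set, or the empty set. -/
def run : List (ℕ × ℕ) → ℕ → ℕ
  | [], K => K
  | _ :: _, 0 => 0
  | v :: l, K + 1 =>
    if v.1 < 1024 ∧ v.2 < 1024 ∧ os36.all fun o => (K + 1).testBit (tv v.2 (tv v.1 o)) then
      run l (ins (K + 1) (tv v.2 (tv v.1 45))) else 0

theorem ins_ok {Z : ℕ → Prop} {K n : ℕ} (h : ∀ m, K.testBit m → Z m) (hn : Z n) (m : ℕ)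
    (hm : (ins K n).testBit m) : Z m := by
  rw [ins, Nat.testBit_or, Bool.or_eq_true, Nat.testBit_two_pow, decide_eq_true_eq] at hm
  exact hm.elim (h m) fun e => e ▸ hn

theorem fold_ok {Z : ℕ → Prop} (E : List ℕ) (K : ℕ) (h : ∀ m, K.testBit m → Z m)
    (hE : ∀ n ∈ E, Z n) : ∀ m, (E.foldl ins K).testBit m → Z m := by
  induction E generalizing K with
  | nil => exact h
  | cons a E ih =>
    exact ih _ (ins_ok h (hE a List.mem_cons_self)) fun n hn => hE n (List.mem_cons_of_mem _ hn)

theorem run_ok {Z : ℕ → Prop}
    (hZ : ∀ a < 1024, ∀ b < 1024, (∀ o ∈ os36, Z (tv b (tv a o))) → Z (tv b (tv a 45)))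
    (l : List (ℕ × ℕ)) (K : ℕ) (h : ∀ m, K.testBit m → Z m) :
    ∀ m, (run l K).testBit m → Z m := by
  induction l generalizing K with
  | nil => exact h
  | cons v l ih =>
    cases K with
    | zero => simp [run]
    | succ K =>
      rw [run]
      split_ifs with c
      · exact ih _ (ins_ok h (hZ _ c.1 _ c.2.1 fun o ho => h _ (List.all_eq_true.1 c.2.2 o ho)))
      · simp

/-- The final check. -/
def fin : ℕ → Bool
  | 0 => false
  | K + 1 => (List.range 1024).all fun n => par n != 1 || (K + 1).testBit n

theorem chk : fin (run cert ((kap ++ ext).foldl ins 0)) = true := by decide +kernel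

end ClosA

open ClosA in
theorem p_CLOS (hAFF : S_AFF) (hTV : S_TV) :
    S_CLOS := by
  intro Z h1 h2 n hn hp
  have a := run_ok (Z := Z) (fun a ha b hb h => by
    obtain ⟨u, hu⟩ := hTV a ha
    obtain ⟨w, hw⟩ := hTV b hb
    have e : ∀ o < 1024, piW (u ++ w) o = tv b (tv a o) := fun o ho => by
      rw [piW_append, hw _ ((hAFF u).1 o ho).1, hu o ho]
    rw [← e 45 (by norm_num)]
    exact h2 _ fun o ho => by
      rw [e o ((by decide : ∀ o ∈ os36, o < 1024) o ho)]
      exact h o ho) cert _ (fold_ok (kap ++ ext) 0 (by simp) h1) n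
  have c := chk
  generalize run cert ((kap ++ ext).foldl ins 0) = K at a c
  cases K with
  | zero => simp [fin] at c
  | succ K =>
    have := List.all_eq_true.1 c n (List.mem_range.2 hn)
    simp only [hp, bne_self_eq_false, Bool.false_or] at this
    exact a this

end Pool.Agent.P.MP_abfee5_ag
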