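import Pool.Agent.P.MP_abfee5_ag.CT.Iface

/-! Step DIFF of the cubic threefold theta project. -/

namespace Pool.Agent.P.MP_abfee5_ag

open Complex Filter Topology MvPolynomial

namespace DiffA

/-- The coordinate projections. -/
noncomputable def pr (j k : Fin 5) : Mat →L[ℂ] ℂ :=
  (ContinuousLinearMap.proj (R := ℂ) (φ := fun _ : Fin 5 => ℂ) k).comp
    (ContinuousLinearMap.proj (R := ℂ) (φ := fun _ : Fin 5 => Fin 5 → ℂ) j)

/-- The linear form with the coefficients `a`. -/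
noncomputable def LL (a : Fin 5 → Fin 5 → ℂ) : Mat →L[ℂ] ℂ :=
  (Real.pi * I / 4 : ℂ) • ∑ j, ∑ k, a j k • pr j k

lemma LL_apply (a : Fin 5 → Fin 5 → ℂ) (h : Mat) :
    LL a h = Real.pi * I / 4 * ∑ j, ∑ k, h j k * a j k := by
  simp [LL, pr, mul_comm]

lemma norm_LL (a : Fin 5 → Fin 5 → ℂ) : ‖LL a‖ ≤ ∑ j, ∑ k, ‖a j k‖ := by
  refine ContinuousLinearMap.opNorm_le_bound _ (by positivity) fun h => ?_
  have h1 : ‖(Real.pi * I / 4 : ℂ)‖ ≤ 1 := by
    rw [norm_div, norm_mul, norm_I, norm_real, Real.norm_of_nonneg Real.pi_pos.le, mul_one,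
      show ‖(4 : ℂ)‖ = 4 by simp, div_le_one (by norm_num)]
    exact Real.pi_le_four
  rw [LL_apply, norm_mul, Finset.sum_mul]
  refine (mul_le_of_le_one_left (norm_nonneg _) h1).trans ((norm_sum_le _ _).trans
    (Finset.sum_le_sum fun j _ => ?_))
  rw [Finset.sum_mul]
  refine (norm_sum_le _ _).trans (Finset.sum_le_sum fun k _ => ?_)
  rw [norm_mul, mul_comm]
  exact mul_le_mul_of_nonneg_left ((norm_le_pi_norm (h j) k).trans (norm_le_pi_norm h j))
    (norm_nonneg _)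

lemma term (p : V → ℂ) (N : V) (τ : Mat) : HasFDerivAt (fun τ => p N * ex τ N)
    (LL fun j k => (N j : ℂ) * (N k : ℂ) * p N * ex τ N) τ := by
  have e : ∀ τ, ex τ N = cexp (LL (fun j k => (N j : ℂ) * (N k : ℂ)) τ) := fun τ => by
    rw [LL_apply, ex, qf]
    exact congrArg (fun x => cexp (_ * x)) (Finset.sum_congr rfl fun j _ =>
      Finset.sum_congr rfl fun k _ => by ring)
  simp only [e]
  refine ((LL fun j k => (N j : ℂ) * (N k : ℂ)).hasFDerivAt.cexp.const_mul (p N)).congr_fderiv ?_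
  refine ContinuousLinearMap.ext fun h => ?_
  simp only [smul_apply, smul_eq_mul, LL_apply _ h, Finset.mul_sum]
  exact Finset.sum_congr rfl fun j _ => Finset.sum_congr rfl fun k _ => by ring

lemma bound (hSUM : S_SUM) {c : ℝ} (hc : 0 < c) {q : V → ℂ} (hq : Gr q) : ∃ u : V → ℝ,
    Summable u ∧ ∀ τ N, c * ∑ j, (N j : ℝ) ^ 2 ≤ (qf τ N).im → ‖q N * ex τ N‖ ≤ u N := by
  obtain ⟨C, K, h⟩ := hq
  refine ⟨_, (hSUM.2.2.1 (Real.pi / 4 * c) K (by positivity)).mul_left C, fun τ N hN => ?_⟩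
  rw [norm_mul, sub_eq_add_neg, Real.exp_add, ← mul_assoc C]
  refine mul_le_mul (h N) ?_ (norm_nonneg _) ((norm_nonneg _).trans (h N))
  rw [ex, norm_exp, Real.exp_le_exp]
  have e : (Real.pi * I / 4 * qf τ N).re = -(Real.pi / 4 * (qf τ N).im) := by
    rw [show (Real.pi * I / 4 * qf τ N : ℂ) = ((Real.pi / 4 : ℝ) : ℂ) * (qf τ N * I) by
      push_cast; ring, re_ofReal_mul, mul_I_re, mul_neg]
  rw [e, mul_assoc]
  exact neg_le_neg (mul_le_mul_of_nonneg_left hN (by positivity))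

lemma gr2 {p : V → ℂ} (hp : Gr p) (j k : Fin 5) : Gr fun N => (N j : ℂ) * (N k : ℂ) * p N :=
  ((gr_coord j).mul (gr_coord k)).mul hp

lemma weak (hSUM : S_SUM) {p : V → ℂ} (hp : Gr p) {τ : Mat} (hτ : τ ∈ Om) :
    HasFDerivAt (S p) (LL fun j k => S (fun N => (N j : ℂ) * (N k : ℂ) * p N) τ) τ := by
  obtain ⟨c, hc, h⟩ := hSUM.2.1 τ hτ
  obtain ⟨r, hr, hb⟩ := Metric.eventually_nhds_iff_ball.1 h
  choose u hu hu' using fun j k => bound hSUM hc (gr2 hp j k)
  have h1 := hasFDerivAt_tsum_of_isPreconnected (u := fun N => ∑ j, ∑ k, u j k N)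
    (summable_sum fun j _ => summable_sum fun k _ => hu j k) Metric.isOpen_ball
    (convex_ball τ r).isPreconnected (fun N x _ => term p N x)
    (fun N x hx => (norm_LL _).trans (Finset.sum_le_sum fun j _ => Finset.sum_le_sum fun k _ =>
      hu' j k x N (hb x hx N))) (Metric.mem_ball_self hr) (hSUM.2.2.2 p hp τ hτ).of_norm
    (Metric.mem_ball_self hr)
  exact h1.congr_fderiv (HasSum.const_smul _ (hasSum_sum fun j _ => hasSum_sum fun k _ =>
    (hSUM.2.2.2 _ (gr2 hp j k) τ hτ).of_norm.hasSum.smul_const (pr j k))).tsum_eq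

end DiffA

open DiffA in
theorem p_DIFF (hSUM : S_SUM) :
    S_DIFF := by
  intro p hp τ hτ
  refine ⟨_, hasStrictFDerivAt_of_hasFDerivAt_of_continuousAt
    (f' := fun τ => LL fun j k => S (fun N => (N j : ℂ) * (N k : ℂ) * p N) τ)
    (mem_of_superset (hSUM.1.1.mem_nhds hτ) fun x hx => weak hSUM hp hx) ?_, LL_apply _⟩
  have h : ContinuousAt (fun τ => ∑ j, ∑ k,
      S (fun N => (N j : ℂ) * (N k : ℂ) * p N) τ • pr j k) τ :=
    tendsto_finsetSum _ fun j _ => tendsto_finsetSum _ fun k _ =>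
      (weak hSUM (gr2 hp j k) hτ).continuousAt.smul continuousAt_const
  exact h.const_smul (Real.pi * I / 4 : ℂ)

end Pool.Agent.P.MP_abfee5_ag
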