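import Pool.Agent.P.MP_abfee5_ag.CT.Iface2

/-! Step DREL of the cubic threefold theta project. -/

namespace Pool.Agent.P.MP_abfee5_ag

open Complex Filter Topology MvPolynomial

namespace DrelA

theorem exists_perm {X Y : List ℕ} {n : ℕ} (hn : X.length = n) (h : X.Perm Y) :
    ∃ σ : Equiv.Perm (Fin n), ∀ i : Fin n, X.getD i 0 = Y.getD (σ i) 0 := by
  subst hn
  refine ⟨(Equiv.ofBijective _ ⟨h.idxBij_injective, h.idxBij_surjective⟩).trans
    (finCongr h.length_eq.symm), fun i => ?_⟩
  rw [List.getD_eq_getElem _ _ i.2, ← h.getElem_idxBij_eq_getElem i]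
  exact (List.getD_eq_getElem _ _ (h.idxBij i).2).symm

end DrelA

theorem p_DREL :
    S_DREL := by
  refine ⟨fun κ R τ hκ hR => ?_, fun X τ hX m hm h0 => ?_, fun X Y hX h => ?_⟩
  · set G : Matrix (Fin 5) (Fin 5) ℂ := Matrix.of fun i j : Fin 5 => gr (κ.getD i 0) τ j with hG
    set f : (Fin 5 → ℂ) → ℂ := fun r => (G.updateRow 4 r).det with hf
    have h1 : ∀ n, dval τ (0, κ ++ [n]) = f (gr n τ) := fun n => by
      rw [dval, pow_zero, one_mul]
      refine congrArg Matrix.det ?_
      match κ, hκ with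
      | [a, b, c, d], _ =>
        ext i j
        fin_cases i <;> simp [hG]
    have h2 : ∀ n ∈ κ, f (gr n τ) = 0 := fun n hn => by
      obtain ⟨i, hi, rfl⟩ := List.mem_iff_getElem.1 hn
      have h3 : (⟨i, by omega⟩ : Fin 5) ≠ 4 := fun e => by
        have := congrArg Fin.val e
        simp only at this
        omega
      refine Matrix.det_zero_of_row_eq h3 ?_
      rw [Matrix.updateRow_ne h3, Matrix.updateRow_self]
      funext j
      simp only [hG, Matrix.of_apply, List.getD_eq_getElem _ _ hi]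
    have h4 : ∀ R : Rel, ((R.filter fun p => p.2 ∉ κ).map
        fun p => mval τ p.1 * dval τ (0, κ ++ [p.2])).sum =
        f fun j => (R.map fun p => mval τ p.1 * gr p.2 τ j).sum := fun R => by
      induction R with
      | nil => exact (Matrix.det_eq_zero_of_row_eq_zero 4 fun j => by simp).symm
      | cons p R ih =>
        have e : (fun j => ((p :: R).map fun p => mval τ p.1 * gr p.2 τ j).sum) =
            mval τ p.1 • gr p.2 τ + fun j => (R.map fun p => mval τ p.1 * gr p.2 τ j).sum :=
          funext fun j => by simp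
        have e2 : f (mval τ p.1 • gr p.2 τ + fun j => (R.map fun p => mval τ p.1 * gr p.2 τ j).sum) =
            mval τ p.1 * f (gr p.2 τ) + f fun j => (R.map fun p => mval τ p.1 * gr p.2 τ j).sum := by
          simp only [hf, Matrix.det_updateRow_add, Matrix.det_updateRow_smul]
        rw [e, e2, ← ih]
        by_cases hp : p.2 ∈ κ
        · rw [List.filter_cons_of_neg (by simpa using hp), h2 _ hp, mul_zero, zero_add]
        · rw [List.filter_cons_of_pos (by simpa using hp), List.map_cons, List.sum_cons, h1]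
    rw [h4, funext hR]
    exact Matrix.det_eq_zero_of_row_eq_zero 4 fun j => by simp
  · obtain ⟨i, hi, rfl⟩ := List.mem_iff_getElem.1 hm
    rw [dval, Matrix.det_eq_zero_of_row_eq_zero (⟨i, hX ▸ hi⟩ : Fin 5) fun j => by
      rw [Matrix.of_apply, List.getD_eq_getElem _ _ hi, h0], mul_zero]
  · obtain ⟨σ, hσ⟩ := DrelA.exists_perm hX h
    refine ⟨z8 ^ X.1 * ((Equiv.Perm.sign σ : ℤ) : ℂ) / z8 ^ Y.1, div_ne_zero
      (mul_ne_zero (pow_ne_zero _ z8_ne) (by simp)) (pow_ne_zero _ z8_ne), fun τ => ?_⟩
    have e := Matrix.det_permute σ (Matrix.of fun i j : Fin 5 => gr (Y.2.getD i 0) τ j)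
    have e2 : (Matrix.of fun i j : Fin 5 => gr (X.2.getD i 0) τ j) =
        (Matrix.of fun i j : Fin 5 => gr (Y.2.getD i 0) τ j).submatrix σ id := by
      ext i j
      simp only [Matrix.submatrix_apply, Matrix.of_apply, hσ, id]
    have h1 := pow_ne_zero Y.1 z8_ne
    rw [dval, dval, e2, e]
    field_simp

end Pool.Agent.P.MP_abfee5_ag
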