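import Pool.Agent.P.MP_abfee5_ag.CT.Iface4

/-! Step EIG of the cubic threefold theta project. -/

namespace Pool.Agent.P.MP_abfee5_ag

open Complex Filter Topology MvPolynomial

namespace EigA

instance inst (a b r : ℕ) (R : List (ℕ × ℤ)) (lam : ℤ) : Decidable (Eig a b r R lam) :=
  Nat.decidableBallLT _ _

theorem e0 : Eig 379 528 1 r0 (-16) := by decide +kernel

theorem e1 : Eig 379 579 0 r1a (-16) := by decide +kernel

theorem e2 : Eig 296 528 0 r1b (-16) := by decide +kernel

theorem e3 : Eig 83 824 0 r1c (-16) := by decide +kernel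

end EigA

theorem p_EIG :
    S_EIG :=
  ⟨EigA.e0, EigA.e1, EigA.e2, EigA.e3⟩

end Pool.Agent.P.MP_abfee5_ag
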