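import Pool.Agent.P.MP_abfee5_ag.CT.Iface4

/-! Step EIGB of the cubic threefold theta project. -/

namespace Pool.Agent.P.MP_abfee5_ag

open Complex Filter Topology MvPolynomial

namespace EigbA

/-- The condition at one value of `d`. -/
def C (d : ℕ) : Prop := nodd 320 729 d = 1 →
  ((spread 320 729 ((45, 4) :: r2)).map fun p =>
      p.2 * (-1) ^ sgn4 p.1 (p.1 ^^^ 320) (p.1 ^^^ 729) (p.1 ^^^ d)).sum =
    (-16) * ((spread 320 729 ((45, 4) :: r2)).map fun p => if p.1 = d then p.2 else 0).sum

instance (d : ℕ) : Decidable (C d) := by unfold C; infer_instance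

theorem e0 : ∀ d < 256, C d := by decide +kernel
theorem e1 : ∀ d < 256, C (256 + d) := by decide +kernel
theorem e2 : ∀ d < 256, C (512 + d) := by decide +kernel
theorem e3 : ∀ d < 256, C (768 + d) := by decide +kernel

end EigbA

open EigbA in
theorem p_EIGB :
    S_EIGB := by
  intro d hd
  change C d
  rcases Nat.lt_or_ge d 256 with h | h
  · exact e0 d h
  rcases Nat.lt_or_ge d 512 with h1 | h1
  · have := e1 (d - 256) (by omega); rwa [show 256 + (d - 256) = d by omega] at this
  rcases Nat.lt_or_ge d 768 with h2 | h2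
  · have := e2 (d - 512) (by omega); rwa [show 512 + (d - 512) = d by omega] at this
  · have := e3 (d - 768) (by omega); rwa [show 768 + (d - 768) = d by omega] at this

end Pool.Agent.P.MP_abfee5_ag
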