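import Pool.Agent.P.MP_abfee5_ag.CT.Iface

/-! Step ENC of the cubic threefold theta project. -/

namespace Pool.Agent.P.MP_abfee5_ag

open Complex Filter Topology MvPolynomial

namespace EncA

theorem cx (a b : ℕ) : ((a ^^^ b : ℕ) : ZMod 2) = a + b := by
  rw [← Nat.cast_add, ZMod.natCast_eq_natCast_iff', Nat.xor_mod_two_eq]

theorem ca (a b : ℕ) : ((a &&& b : ℕ) : ZMod 2) = a * b := by
  rw [← Nat.cast_mul, ZMod.natCast_eq_natCast_iff', Nat.mul_mod]
  have h := @Nat.and_mod_two_eq_one a b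
  rcases Nat.mod_two_eq_zero_or_one a with h1 | h1 <;>
    rcases Nat.mod_two_eq_zero_or_one b with h2 | h2 <;> rw [h1, h2] at h ⊢ <;> omega

theorem de5 : ∀ ε, dec5 (enc5 ε) = ε := by decide +kernel

theorem lt5 : ∀ ε, enc5 ε < 32 := by decide +kernel

theorem ed5 : ∀ σ < 32, enc5 (dec5 σ) = σ := by decide +kernel

theorem xor5 (a b : ℕ) : dec5 (a ^^^ b) = dec5 a + dec5 b := by
  funext j
  simp only [dec5, ZMod.natCast_mod, Nat.shiftRight_xor_distrib, cx, Pi.add_apply]

theorem mod5 (x : ℕ) : dec5 (x % 32) = dec5 x := by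
  funext j
  obtain ⟨j, hj⟩ := j
  refine congrArg Nat.cast ?_
  simp only [Nat.shiftRight_eq_div_pow]
  interval_cases j <;> omega

theorem de (m : Ch) : dec (enc m) = m := by
  have h := lt5 m.2
  refine Prod.ext ?_ ?_
  · have e : enc m >>> 5 = enc5 m.1 := by
      rw [enc, Nat.shiftRight_eq_div_pow]
      omega
    exact (congrArg dec5 e).trans (de5 _)
  · have e : enc m % 32 = enc5 m.2 := by
      rw [enc]
      omega
    exact (mod5 _).symm.trans ((congrArg dec5 e).trans (de5 _))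

theorem lt (m : Ch) : enc m < 1024 := by
  have h1 := lt5 m.1
  have h2 := lt5 m.2
  rw [enc]
  omega

theorem ed (n : ℕ) (h : n < 1024) : enc (dec n) = n := by
  change 32 * enc5 (dec5 (n >>> 5)) + enc5 (dec5 n) = n
  rw [← mod5 n, Nat.shiftRight_eq_div_pow, ed5 _ (by omega), ed5 _ (by omega)]
  omega

theorem dxor (a b : ℕ) : dec (a ^^^ b) = dec a + dec b := by
  simp only [dec, Nat.shiftRight_xor_distrib, xor5, Prod.mk_add_mk]

theorem eadd (a b : Ch) : enc (a + b) = enc a ^^^ enc b := by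
  rw [← ed _ (Nat.xor_lt_two_pow (n := 10) (lt a) (lt b)), dxor, de, de]

theorem pdec (n : ℕ) : parity (dec n) = (par n : ZMod 2) := by
  simp only [parity, dec, dec5, par, pop5, ZMod.natCast_mod, cx, Nat.shiftRight_and_distrib, ca,
    Fin.sum_univ_five]
  rfl

theorem penc (m : Ch) : parity m = (par (enc m) : ZMod 2) := by rw [← pdec, de]

theorem esum (L : List Ch) : enc L.sum = xsum (L.map enc) := by
  induction L with
  | nil => decide +kernel
  | cons a L ih => rw [List.sum_cons, eadd, ih]; rfl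

theorem par_iff (m : Ch) (c : ℕ) (hc : c < 2) : parity m = (c : ZMod 2) ↔ par (enc m) = c := by
  rw [penc, ZMod.natCast_eq_natCast_iff', Nat.mod_eq_of_lt (par_lt _), Nat.mod_eq_of_lt hc]

theorem azy_iff (m a b : Ch) :
    parity m + parity a + parity b + parity (m + a + b) = 1 ↔ azy (enc m) (enc a) (enc b) := by
  rw [penc, penc a, penc b, penc (m + a + b), eadd, eadd, ← Nat.cast_add, ← Nat.cast_add,
    ← Nat.cast_add, ← Nat.cast_one (R := ZMod 2), ZMod.natCast_eq_natCast_iff']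
  rfl

end EncA

open EncA in
theorem p_ENC :
    S_ENC := by
  refine ⟨⟨de5, lt5, ed5, xor5, fun g => ?_⟩, ⟨de, lt, ed, dxor, eadd, pdec⟩, fun n => ?_,
    fun m n hm => ⟨fun h => ⟨lt m, (par_iff m 1 one_lt_two).1 hm, List.length_ofFn, ?_, ?_⟩,
      fun h => ⟨fun i => ?_, fun i j hij => ?_⟩⟩⟩
  · exact Finset.sum_nbij' enc5 dec5 (fun ε _ => Finset.mem_range.2 (lt5 ε))
      (fun _ _ => Finset.mem_univ _) (fun ε _ => de5 ε) (fun σ h => ed5 σ (Finset.mem_range.1 h))
      fun ε _ => by rw [de5]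
  · rw [← List.sum_ofFn, esum, List.map_ofFn]
    rfl
  · intro x hx
    obtain ⟨i, rfl⟩ := List.mem_ofFn.1 hx
    exact ⟨lt _, (par_iff _ 0 two_pos).1 (h.1 i)⟩
  · exact List.pairwise_ofFn.2 fun i j hij => (azy_iff _ _ _).1 (h.2 i j hij.ne)
  · exact (par_iff _ 0 two_pos).2 (h.2.2.2.1 _ (List.mem_ofFn.2 ⟨i, rfl⟩)).2
  · have h1 := List.pairwise_ofFn.1 h.2.2.2.2
    rcases lt_or_gt_of_ne hij with h2 | h2
    · exact (azy_iff _ _ _).2 (h1 h2)
    · rw [add_right_comm m, add_right_comm (parity m)]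
      exact (azy_iff _ _ _).2 (h1 h2)

end Pool.Agent.P.MP_abfee5_ag
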