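import Pool.Agent.P.MP_abfee5_ag.CT.Iface

/-! Step EVQ of the cubic threefold theta project. -/

namespace Pool.Agent.P.MP_abfee5_ag

open Complex Filter Topology MvPolynomial

namespace EvqA

lemma dec5_and (x y : ℕ) (j : Fin 5) : dec5 x j * dec5 y j = dec5 (x &&& y) j := by
  simp only [dec5]
  rw [← Nat.cast_mul, Nat.shiftRight_and_distrib]
  congr 1
  generalize x >>> (j : ℕ) = a
  generalize y >>> (j : ℕ) = b
  have h := Nat.and_mod_two_pow (a := a) (b := b) (n := 1)
  rw [pow_one] at h
  rw [h]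
  rcases Nat.mod_two_eq_zero_or_one a with ha | ha <;>
    rcases Nat.mod_two_eq_zero_or_one b with hb | hb <;> rw [ha, hb] <;> rfl

lemma sign (hadd : ∀ a b, dec5 (a ^^^ b) = dec5 a + dec5 b) (x y : ℕ) :
    (∑ j, dec5 x j * dec5 y j).val = pop5 (x &&& y) := by
  simp only [dec5_and]
  generalize x &&& y = z
  have h : ∑ j, dec5 z j = (pop5 z : ZMod 2) := by
    have e : (pop5 z : ZMod 2) = dec5 (z ^^^ z >>> 1 ^^^ z >>> 2 ^^^ z >>> 3 ^^^ z >>> 4) 0 := rfl
    rw [e, hadd, hadd, hadd, hadd, Fin.sum_univ_five]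
    rfl
  rw [h, ZMod.val_natCast, Nat.mod_eq_of_lt (pop5_lt z)]

lemma add_self (a : F2) : a + a = 0 := by
  funext j
  exact CharTwo.add_self_eq_zero _

end EvqA

open EvqA in
theorem p_EVQ (hENC : S_ENC) :
    S_EVQ := by
  classical
  obtain ⟨⟨-, -, -, hadd, hsum⟩, ⟨-, -, -, -, -, hpar⟩, -⟩ := hENC
  refine ⟨fun n x => ?_, fun n ρ x hn => ?_⟩
  · rw [Q, map_sum, hsum]
    refine Finset.sum_congr rfl fun σ _ => ?_
    simp only [dec, map_mul, map_pow, map_neg, map_one, eval_X]
    rw [sign hadd, hadd]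
    simp
  · have h0 : ∑ j, dec5 (n >>> 5) j * dec5 n j = 0 := by
      have := hpar n
      rw [hn, Nat.cast_zero] at this
      exact this
    have hC : ∀ k : ℕ, ((-1) ^ k : MvPolynomial F2 ℂ) = C ((-1) ^ k) := fun k => by simp
    rw [Q, map_sum, map_sum, hadd, ← sign hadd]
    simp only [dec]
    generalize dec5 ρ = r
    generalize dec5 (n >>> 5) = A at h0 ⊢
    generalize dec5 n = B at h0 ⊢
    have e : ∀ σ : F2, eval x (pderiv r
        ((-1) ^ (∑ j, σ j * B j).val * X σ * X (σ + A) : MvPolynomial F2 ℂ)) =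
        (if σ = r then (-1) ^ (∑ j, r j * B j).val * x (r + A) else 0) +
          if σ = r + A then (-1) ^ (∑ j, r j * B j).val * x (r + A) else 0 := by
      intro σ
      rw [hC, mul_assoc, pderiv_C_mul, pderiv_mul, pderiv_X, pderiv_X, mul_add, map_add]
      congr 1
      · split_ifs with h
        · subst h; simp
        · simp [Pi.single_eq_of_ne h]
      · split_ifs with h
        · subst h
          have e1 : r + A + A = r := by rw [add_assoc, add_self, add_zero]
          have e2 : ∑ j, (r + A) j * B j = ∑ j, r j * B j := by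
            simp only [Pi.add_apply, add_mul, Finset.sum_add_distrib, h0, add_zero]
          rw [e1, e2]
          simp
        · have h' : σ + A ≠ r := fun h' => h (by rw [← h', add_assoc, add_self, add_zero])
          simp [Pi.single_eq_of_ne h']
    rw [Finset.sum_congr rfl fun σ _ => e σ, Finset.sum_add_distrib, Finset.sum_ite_eq',
      Finset.sum_ite_eq', if_pos (Finset.mem_univ _), if_pos (Finset.mem_univ _)]
    ring

end Pool.Agent.P.MP_abfee5_ag
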