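import Pool.Agent.P.MP_abfee5_ag.CT.Iface2
import Pool.Agent.P.MP_abfee5_ag.CT.Iface

/-! Step EXD of the cubic threefold theta project. -/

namespace Pool.Agent.P.MP_abfee5_ag

open Complex Filter Topology MvPolynomial

namespace ExdA

lemma rule (hAFF : S_AFF) (hWORD : S_WORD) {a b o : ℕ} {y : ℤ} {R : List (ℕ × ℤ)} (hy : y ≠ 0)
    (he : ∀ n ∈ [o ^^^ a, o ^^^ b, o ^^^ a ^^^ b], n < 1024 ∧ par n = 0)
    (hR : ∀ τ ∈ Siegel, ∀ j, (((o, y) :: R).map fun p => (p.2 : ℂ) *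
      (th (p.1 ^^^ a) τ * th (p.1 ^^^ b) τ * th (p.1 ^^^ a ^^^ b) τ * gr p.1 τ j)).sum = 0)
    {τ : Mat} (hτ : τ ∈ Siegel) (hn : NV τ) (U : Submodule ℂ (Fin 5 → ℂ)) (w : List ℕ)
    (h : ∀ n ∈ R.map Prod.fst, gr (piW w n) τ ∈ U) : gr (piW w o) τ ∈ U := by
  obtain ⟨h0, c, M, c0, M0, h1, h2, -⟩ := (hWORD w).2 τ hτ
  set σ := moveW w τ
  have z : ∀ n, c * z8 ^ (actW w n).2 ≠ 0 := fun n => mul_ne_zero c0 (pow_ne_zero _ z8_ne)
  have t : ∀ n ∈ [o ^^^ a, o ^^^ b, o ^^^ a ^^^ b], th n σ ≠ 0 := fun n hn' => by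
    obtain ⟨e1, e2, -⟩ := (hAFF w).1 n (he n hn').1
    rw [h1]
    exact mul_ne_zero (z n) (hn _ e1 (e2.trans (he n hn').2))
  let f : ℕ × ℤ → Fin 5 → ℂ := fun p =>
    ((p.2 : ℂ) * (th (p.1 ^^^ a) σ * th (p.1 ^^^ b) σ * th (p.1 ^^^ a ^^^ b) σ)) • gr p.1 σ
  have e : f (o, y) + (R.map f).sum = 0 := funext fun j => by
    rw [← List.sum_cons, ← List.map_cons, Pi.list_sum_apply, List.map_map, Pi.zero_apply,
      ← hR σ h0 j]
    exact congrArg _ (List.map_congr_left fun p _ => mul_assoc _ _ _)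
  have m : f (o, y) ∈ U.map M.mulVecLin := by
    rw [eq_neg_of_add_eq_zero_left e]
    refine neg_mem (list_sum_mem fun x hx => ?_)
    obtain ⟨p, hp, rfl⟩ := List.mem_map.1 hx
    refine Submodule.smul_mem _ _ ?_
    rw [h2]
    exact Submodule.smul_mem _ _ ⟨_, h _ (List.mem_map_of_mem hp), rfl⟩
  rw [Submodule.smul_mem_iff _ (mul_ne_zero (Int.cast_ne_zero.2 hy) (mul_ne_zero
    (mul_ne_zero (t _ (by simp)) (t _ (by simp))) (t _ (by simp)))), h2,
    Submodule.smul_mem_iff _ (z _)] at m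
  obtain ⟨u, hu, e2⟩ := m
  have : u - gr (piW w o) τ = 0 := Matrix.eq_zero_of_mulVec_eq_zero M0 (by
    rw [Matrix.mulVec_sub]; exact sub_eq_zero.2 e2)
  exact sub_eq_zero.1 this ▸ hu

lemma top (hSPAN : S_SPAN) {τ : Mat} (hτ : τ ∈ Siegel) (hn : NV τ) {U : Submodule ℂ (Fin 5 → ℂ)}
    (h : ∀ n < 1024, par n = 1 → gr n τ ∈ U) : U = ⊤ := by
  by_contra hU
  obtain ⟨φ, h0, h1⟩ := U.exists_le_ker_of_lt_top (lt_top_iff_ne_top.2 hU)
  have e : ∀ g, φ g = ∑ j, φ (fun i => if j = i then 1 else 0) * g j := fun g => by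
    rw [LinearMap.pi_apply_eq_sum_univ]
    exact Finset.sum_congr rfl fun j _ => mul_comm _ _
  have := hSPAN τ hτ (hn 0 (by norm_num) (by decide)) _ fun n a b => (e _).symm.trans (h1 (h n a b))
  exact h0 (LinearMap.ext fun g => by
    rw [e]; exact Finset.sum_eq_zero fun j _ => by rw [congrFun this j, Pi.zero_apply, zero_mul])

lemma mem_take {X : List ℕ} {k n : ℕ} (hk : k ≤ X.length) :
    n ∈ X.take k ↔ ∃ i : Fin k, X.getD i 0 = n := by
  rw [List.mem_take_iff_getElem]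
  constructor
  · rintro ⟨j, h, e⟩
    exact ⟨⟨j, by omega⟩, by rw [List.getD_eq_getElem _ _ (by simp only; omega), e]⟩
  · rintro ⟨i, e⟩
    exact ⟨i, by omega, by rw [← e, List.getD_eq_getElem _ _ (by omega)]⟩

end ExdA

open ExdA in
theorem p_EXD (hSPAN : S_SPAN) (hAFF : S_AFF) (hWORD : S_WORD) :
    S_EXD := by
  intro X E a b o y R hX hy he hR hC hE τ hτ hn
  have A : ∀ k ≤ 5, ∃ w, LinearIndependent ℂ fun i : Fin k => gr (piW w (X.getD i 0)) τ := by
    intro k hk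
    induction k with
    | zero => exact ⟨[], linearIndependent_empty_type⟩
    | succ k ih =>
      obtain ⟨w, hw⟩ := ih (by omega)
      by_contra hc
      set U := Submodule.span ℂ (Set.range fun i : Fin k => gr (piW w (X.getD i 0)) τ) with hU
      have hZ := hC (fun n => gr (piW w n) τ ∈ U) (fun n hn' => ?_) fun w' h => by
        rw [← piW_append]
        exact rule hAFF hWORD hy he hR hτ hn U _ fun n a => by rw [piW_append]; exact h n a
      · have t : U = ⊤ := top hSPAN hτ hn fun n h1 h2 => by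
          obtain ⟨e1, e2, e3⟩ := (hAFF w.reverse).1 n h1
          rw [List.reverse_reverse] at e3
          exact e3 ▸ hZ _ e1 (e2.trans h2)
        have r := finrank_span_eq_card hw
        rw [← hU, t, finrank_top, Module.finrank_fin_fun, Fintype.card_fin] at r
        omega
      rcases hE k (by omega) n hn' with h | ⟨u, h, rfl⟩
      · obtain ⟨i, rfl⟩ := (mem_take (by omega)).1 h
        exact Submodule.subset_span ⟨i, rfl⟩
      have e : (Fin.init fun i : Fin (k + 1) => gr (piW (u ++ w) (X.getD i 0)) τ) =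
          fun i : Fin k => gr (piW w (X.getD i 0)) τ := funext fun i => by
        have := List.map_inj_left.1 (h.trans (List.map_id _).symm) _
          ((mem_take (by omega)).2 ⟨i, rfl⟩)
        rw [Fin.init, piW_append, Fin.val_castSucc, this, id]
      by_contra hm
      refine hc ⟨u ++ w, linearIndependent_finSucc'.2 ?_⟩
      rw [e, piW_append]
      exact ⟨hw, hm⟩
  obtain ⟨w, hw⟩ := A 5 le_rfl
  refine ⟨w, mul_ne_zero (pow_ne_zero _ z8_ne) ?_⟩
  have e : (Matrix.of fun i j : Fin 5 => gr ((mact w (0, X)).2.getD i 0) τ j) =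
      Matrix.of fun i : Fin 5 => gr (piW w (X.getD i 0)) τ := by
    ext i j
    rw [Matrix.of_apply, Matrix.of_apply, mact_snd,
      List.getD_eq_getElem _ _ (by simp [hX]), List.getD_eq_getElem _ _ (by simp [hX]),
      List.getElem_map]
  rw [e]
  exact ((Matrix.isUnit_iff_isUnit_det _).1 (Matrix.linearIndependent_rows_iff_isUnit.1 hw)).ne_zero

end Pool.Agent.P.MP_abfee5_ag
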