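import Pool.Agent.P.MP_abfee5_ag.CT.Iface2
import Pool.Agent.P.MP_abfee5_ag.CT.Iface

/-! Step EXT of the cubic threefold theta project. -/

namespace Pool.Agent.P.MP_abfee5_ag

open Complex Filter Topology MvPolynomial

namespace ExtA

/-- Two transvections that fix `L` and move `a` to `n`. -/
def ok (L : List ℕ) (a n v : ℕ) : Prop :=
  v < 1024 ∧ n ^^^ a ^^^ v < 1024 ∧ a < 1024 ∧ (∀ x ∈ L, x < 1024) ∧
    (∀ x ∈ L, tv (n ^^^ a ^^^ v) (tv v x) = x ∧ tv v x < 1024) ∧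
    tv (n ^^^ a ^^^ v) (tv v a) = n ∧ tv v a < 1024

instance (L : List ℕ) (a n v : ℕ) : Decidable (ok L a n v) := by unfold ok; infer_instance

lemma cert : ∀ k < 5, ∀ n ∈ kap ++ ext, n ∈ (kap ++ [149]).take k ∨
    ∃ v ∈ [0, 9, 43, 62, 70], ok ((kap ++ [149]).take k) ((kap ++ [149]).getD k 0) n v := by
  decide +kernel

end ExtA

open ExtA in
theorem p_EXT (hAFF : S_AFF) (hTV : S_TV) :
    S_EXT := by
  intro k hk n hn
  refine (cert k hk n hn).imp_right ?_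
  rintro ⟨v, -, h1, h2, h3, h4, h5, h6, h7⟩
  obtain ⟨u, hu⟩ := hTV _ h1
  obtain ⟨u', hu'⟩ := hTV _ h2
  refine ⟨u ++ u', ?_, by rw [piW_append, hu _ h3, hu' _ h7, h6]⟩
  refine (List.map_congr_left fun x hx => ?_).trans (List.map_id _)
  rw [piW_append, hu _ (h4 x hx), hu' _ (h5 x hx).2, (h5 x hx).1, id]

end Pool.Agent.P.MP_abfee5_ag
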