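import Pool.Agent.P.MP_abfee5_ag.CT.Iface4
import Pool.Agent.P.MP_abfee5_ag.CT.Iface
import Pool.Agent.P.MP_abfee5_ag.CT.Iface2

/-! Step FAY of the cubic threefold theta project. -/

namespace Pool.Agent.P.MP_abfee5_ag

open Complex Filter Topology MvPolynomial

namespace FayA

/-- The relation reached along a path. -/
def rel (path : List ℕ) : Rel := (pick gW [] path).foldl (fun R g => ract kap g R) rb

/-- The supports of a relation. -/
def sup (R : Rel) : List (List ℕ × ℕ) := R.map fun p => (p.1.2, p.2)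

lemma sup_foldl (ws : List (List ℕ)) (R : Rel) :
    sup (ws.foldl (fun R g => ract kap g R) R) =
      (sup R).map fun q => (q.1.map (piW ws.flatten), piW ws.flatten q.2) := by
  induction ws generalizing R with
  | nil =>
    have : piW [] = id := rfl
    simp [this]
  | cons g ws ih =>
    rw [List.foldl_cons, ih]
    simp only [sup, ract, List.map_map, List.flatten_cons]
    refine List.map_congr_left fun p _ => ?_
    simp only [Function.comp_def, mmul, List.nil_append, mact_snd, List.map_map, piW_append]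
    rw [List.map_congr_left fun n _ => piW_append g ws.flatten n]

lemma jrel_foldl (hJRT : S_JRT) (hSTAB : S_STAB) (l : List ℕ) (hl : ∀ i ∈ l, i < 7) (R : Rel)
    (hR : ∀ p ∈ R, p.1.2.length = 3 ∧ p.2 ∈ ext) (hJ : JRel kap Pn R) :
    JRel kap Pn ((pick gW [] l).foldl (fun R g => ract kap g R) R) := by
  induction l generalizing R with
  | nil => exact hJ
  | cons i l ih =>
    have hi := hSTAB.2 i (hl i List.mem_cons_self)
    have e : pick gW [] (i :: l) = gW.getD i [] :: pick gW [] l := rfl
    rw [e, List.foldl_cons]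
    refine ih (fun j hj => hl j (List.mem_cons_of_mem _ hj)) _ ?_ ?_
    · intro p hp
      obtain ⟨q, hq, rfl⟩ := List.mem_map.1 hp
      refine ⟨?_, (hi.2 _ (hR q hq).2).1⟩
      simp only [mmul, List.nil_append, mact_snd, List.length_map]
      exact (hR q hq).1
    · exact hJRT kap Pn ext _ (gD.getD i 0) R rfl hi.1
        (fun n hn => ⟨fun m hm => (hSTAB.1 n hn m hm).2, (hi.2 n hn).2⟩) hR hJ

/-- The supports computed by the tables. -/
def tsup (path : List ℕ) : List (List ℕ × ℕ) :=
  (sup rb).map fun q => (q.1.map fun n => runT (pick gT 0 path) (8 * n) / 8,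
    runT (pick gT 0 path) (8 * q.2) / 8)

lemma rb_ok : ∀ q ∈ sup rb, (∀ n ∈ q.1, n < 1024) ∧ q.2 < 1024 := by decide

lemma rb_inv : ∀ p ∈ rb, p.1.2.length = 3 ∧ p.2 ∈ ext := by decide

lemma sup_rel (hAFF : S_AFF) (hTABG : S_TABG) (path : List ℕ) (hl : ∀ i ∈ path, i < 7) :
    sup (rel path) = tsup path := by
  have ht := isTab_pick hTABG path fun i hi => lt_trans (hl i hi) (by decide)
  rw [rel, sup_foldl, tsup]
  refine List.map_congr_left fun q hq => ?_
  rw [runT_div hAFF ht (rb_ok q hq).2,
    List.map_congr_left fun n hn => runT_div hAFF ht ((rb_ok q hq).1 n hn)]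

/-- The peeling order. -/
def ordL : List ℕ := peelL.map Prod.fst

/-- Boolean form of `nzd`. -/
def nz (cs : List ℕ) : Bool := cs.all fun n => Nat.beq (((n >>> 5) &&& n) % 32) 0

lemma nz_iff (m : Mono) : nz m.2 = true ↔ nzd m := by
  simp only [nz, nzd, List.all_eq_true, Nat.beq_eq]

/-- The check of step `k`. -/
def chk (k : ℕ) : Bool :=
  ((peelL.getD k (0, [])).2.all fun i => Nat.blt i 7) &&
  ((tsup (peelL.getD k (0, [])).2).all fun q => Nat.beq q.2 149 ||
    (Nat.blt (ordL.idxOf q.2) 71 && (Nat.ble (ordL.idxOf q.2) k || !nz q.1))) &&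
  (((tsup (peelL.getD k (0, [])).2).filter fun q => decide (q.2 = ordL.getD k 0)).map
    fun q => nz q.1) == [true]

lemma chk_all : (List.range 71).all chk = true := by decide +kernel

lemma ord_nodup : ordL.Nodup := by decide +kernel
lemma ord_len : ordL.length = 71 := by decide +kernel
lemma ord_ne : 149 ∉ ordL := by decide +kernel
lemma ext_sub : ∀ n ∈ ext, n = 149 ∨ n ∈ ordL := by decide +kernel

end FayA

open FayA in
theorem p_FAY (hAFF : S_AFF) (hTABG : S_TABG) (hJRT : S_JRT) (hPEEL : S_PEEL) (hJRB : S_JRB) (hSTAB : S_STAB) :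
    S_FAY := by
  have hc : ∀ k : Fin 71, chk k = true := fun k =>
    List.all_eq_true.1 chk_all k (List.mem_range.2 k.2)
  have hget : ∀ k : Fin 71, ordL.getD k 0 = ordL[(k : ℕ)]'(by rw [ord_len]; exact k.2) :=
    fun k => List.getD_eq_getElem _ _ _
  have h7 : ∀ k : Fin 71, ∀ i ∈ (peelL.getD k (0, [])).2, i < 7 := by
    intro k i hi
    have := hc k
    simp only [chk, Bool.and_eq_true, List.all_eq_true] at this
    exact Nat.blt_eq ▸ this.1.1 i hi
  have key := hPEEL kap Pn 149 71 (fun k => ordL.getD k 0)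
    (fun k => rel (peelL.getD k (0, [])).2) ?_ ?_ ?_ ?_ ?_
  · intro n hn τ hτ
    rcases ext_sub n hn with rfl | h
    · exact mul_comm _ _
    · obtain ⟨i, hi, rfl⟩ := List.getElem_of_mem h
      have := key ⟨i, ord_len ▸ hi⟩ τ hτ
      beta_reduce at this
      rw [hget] at this
      exact this
  · intro a b hab
    beta_reduce at hab
    rw [hget, hget] at hab
    exact Fin.ext ((List.Nodup.getElem_inj_iff ord_nodup).1 hab)
  · intro k h
    rw [hget] at h
    exact ord_ne (h ▸ List.getElem_mem _)
  · intro k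
    exact jrel_foldl hJRT hSTAB _ (h7 k) rb rb_inv hJRB
  · intro k p hp
    have := hc k
    simp only [chk, Bool.and_eq_true, List.all_eq_true] at this
    have h2 := this.1.2 (p.1.2, p.2) (by
      rw [← sup_rel hAFF hTABG _ (h7 k)]
      exact List.mem_map.2 ⟨p, hp, rfl⟩)
    simp only [Bool.or_eq_true, Bool.and_eq_true, Nat.beq_eq, Nat.blt_eq, Nat.ble_eq,
      Bool.not_eq_true'] at h2
    rcases h2 with h2 | ⟨h3, h4⟩
    · exact Or.inl h2
    · refine Or.inr ⟨⟨_, h3⟩, ?_, fun hlt hn => ?_⟩
      · rw [hget]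
        exact (List.getElem_idxOf _).symm
      · rcases h4 with h4 | h4
        · exact absurd hlt (not_lt.2 h4)
        · rw [(nz_iff p.1).2 hn] at h4
          exact absurd h4 (by decide)
  · intro k
    have := hc k
    simp only [chk, Bool.and_eq_true, beq_iff_eq] at this
    have h2 := this.2
    rw [← sup_rel hAFF hTABG _ (h7 k), sup, List.filter_map, List.map_map,
      List.map_eq_singleton_iff] at h2
    obtain ⟨p, hp, hz⟩ := h2
    have hm : p ∈ [p] := List.mem_singleton_self p
    rw [← hp, List.mem_filter] at hm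
    have h3 : p.2 = ordL.getD k 0 := of_decide_eq_true hm.2
    refine ⟨p.1, ?_, (nz_iff p.1).1 hz⟩
    rw [← h3]
    rw [← h3] at hp
    exact hp

end Pool.Agent.P.MP_abfee5_ag
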