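import Pool.Agent.P.MP_abfee5_ag.CT.Iface3
import Pool.Agent.P.MP_abfee5_ag.CT.Iface

/-! Step FINZ of the cubic threefold theta project. -/

namespace Pool.Agent.P.MP_abfee5_ag

open Complex Filter Topology MvPolynomial

namespace FinzA

/-- The symmetric part. -/
noncomputable def sym (τ : Mat) : Mat := fun j k => (τ j k + τ k j) / 2

theorem continuous_sym : Continuous sym := by unfold sym; fun_prop

theorem sym_eq {τ : Mat} (h : τ ∈ Siegel) : sym τ = τ := by
  funext j k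
  rw [sym, h.1 k j]; ring

theorem sym_smul (c : ℂ) (τ : Mat) : c • sym τ = sym (c • τ) := by
  funext j k
  simp only [sym, Pi.smul_apply, smul_eq_mul]; ring

theorem qf_sym (τ : Mat) (N : V) : qf (sym τ) N = qf τ N := by
  simp only [qf, sym, Fin.sum_univ_five]; ring

theorem S_sym (p : V → ℂ) (τ : Mat) : S p (sym τ) = S p τ := by
  simp only [S, ex, qf_sym]

theorem sym_mem {τ : Mat} (h : τ ∈ Om) : sym τ ∈ Siegel := by
  refine ⟨fun j k => by simp only [sym, add_comm], fun x hx => (h x hx).trans_eq ?_⟩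
  simp only [sym, Fin.sum_univ_five, div_ofNat_im, add_im]; ring

theorem Th_sym (hENC : S_ENC) (hBRV : S_BRV) (τ : Mat) : Th (sym τ) = Th τ := by
  funext ε
  rw [← hENC.1.1 ε, hBRV.2.2, hBRV.2.2, xx, xx, sym_smul, th, th, S_sym]

theorem line (x : F2 → ℂ) (F : MvPolynomial F2 ℂ) {U : Set ℂ} (hU : U ∈ 𝓝 (1 : ℂ))
    (h : ∀ c ∈ U, eval (c • x) F = 0) (c : ℂ) : eval (c • x) F = 0 := by
  have h1 : ∀ c : ℂ, (aeval (fun s => Polynomial.C (x s) * Polynomial.X) F).eval c =
      eval (c • x) F := fun c => by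
    clear h
    induction F using MvPolynomial.induction_on with
    | C a => simp
    | add p q hp hq => simp only [map_add, Polynomial.eval_add, hp, hq]
    | mul_X p s hp =>
      rw [map_mul, map_mul, Polynomial.eval_mul, hp]
      rw [aeval_X, eval_X, Polynomial.eval_mul, Polynomial.eval_C, Polynomial.eval_X,
        Pi.smul_apply, smul_eq_mul, mul_comm c]
  rw [← h1, Polynomial.eq_zero_of_infinite_isRoot _
    ((infinite_of_mem_nhds 1 hU).mono fun c hc => (h1 c).trans (h c hc)), Polynomial.eval_zero]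

end FinzA

open FinzA in
theorem p_FINZ (hSUM : S_SUM) (hHOL : S_HOL) (hENC : S_ENC) (hBRV : S_BRV) (hBRG : S_BRG) (hT0 : S_T0) :
    S_FINZ := by
  intro h0 hJ
  have e0 : enc (dec 1023) = 1023 := hENC.2.1.2.2.1 1023 (by norm_num)
  have hO : Om ∈ 𝓝 tau0 := hSUM.1.1.mem_nhds (siegel_om hT0.1)
  have hN : ∀ᶠ τ in 𝓝 tau0, NV τ := by
    have h1 : ∀ᶠ τ in 𝓝 tau0, ∀ n ∈ Finset.range 1024, par n = 0 → th n τ ≠ 0 := by
      refine (eventually_all_finset _).2 fun n hn => ?_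
      by_cases hp : par n = 0
      · filter_upwards [((hHOL.1 n).continuousOn.continuousAt hO).eventually_ne
          (((hBRG.2 _ _).1 h0).2.2 n (Finset.mem_range.1 hn) hp)] with τ hτ _ using hτ
      · exact Eventually.of_forall fun _ h => absurd h hp
    exact h1.mono fun τ h n hn => h n (Finset.mem_range.2 hn)
  have hS : Tendsto sym (𝓝 tau0) (𝓝 tau0) := continuous_sym.tendsto' _ _ (sym_eq hT0.1)
  have key : ∀ W ∈ 𝓝 tau0, ∀ᶠ y : ℂ × Mat in 𝓝 (1, tau0),
      gr 1023 y.2 = 0 → y.1 • Th y.2 ∈ cone (Loc (dec 1023) ∩ W) := fun W hW => by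
    have h1 : ∀ᶠ τ in 𝓝 tau0, gr 1023 τ = 0 → sym τ ∈ Loc (dec 1023) ∩ W := by
      filter_upwards [hO, hN, hS hW] with τ a1 a2 a3 a4
      refine ⟨(hBRG.2 _ _).2 ⟨sym_mem a1, fun j => ?_, fun n hn hp => ?_⟩, a3⟩
      · rw [e0, gr, S_sym]; exact congrFun a4 j
      · rw [th, S_sym]; exact a2 n hn hp
    filter_upwards [(continuous_snd.tendsto ((1 : ℂ), tau0)).eventually h1] with y hy hg
    exact ⟨_, hy hg, y.1, by rw [Th_sym hENC hBRV]⟩
  refine ⟨fun F hF => ?_, ?_⟩
  · filter_upwards [key _ univ_mem] with y hy hg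
    rw [Set.inter_univ] at hy
    exact hJ hF _ (hy hg)
  · rintro ⟨p, p1, p2, p3, p4⟩
    simp only [one_smul] at p2 p4
    refine ⟨tau0, h0, p, p1, p2, ?_, fun W hW => ?_⟩
    · obtain ⟨G, hG⟩ := IsNoetherian.noetherian p
      have h1 : ∀ᶠ y : ℂ × Mat in 𝓝 (1, tau0), ∀ F ∈ G, gr 1023 y.2 = 0 →
          eval (y.1 • Th y.2) F = 0 :=
        (eventually_all_finset _).2 fun F hF => (p3 F).1 (hG ▸ Submodule.subset_span hF)
      obtain ⟨U, hU, W₀, hW₀, h2⟩ := mem_nhds_prod_iff.1 h1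
      refine ⟨W₀, hW₀, fun W hW hWW => le_antisymm (fun F hF => (p3 F).2 ?_) fun F hF => ?_⟩
      · filter_upwards [key W hW] with y hy hg using hF _ (hy hg)
      · rintro _ ⟨τ, ⟨t1, t2⟩, c, rfl⟩
        refine line _ F hU (fun c' hc' => ?_) c
        have h3 : gr 1023 τ = 0 := funext fun j => e0 ▸ ((hBRG.2 _ _).1 t1).2.1 j
        have h4 : p ≤ RingHom.ker (eval (c' • Th τ)) := by
          rw [← hG]
          exact Ideal.span_le.2 fun F' hF' => h2 (Set.mk_mem_prod hc' (hWW t2)) F' hF' h3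
        exact h4 hF
    · filter_upwards [p4 _ (key W hW)] with x hx hz
      obtain ⟨y, y1, y2, rfl⟩ := hx hz
      exact y1 y2

end Pool.Agent.P.MP_abfee5_ag
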