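import Pool.Agent.P.MP_abfee5_ag.CT.Iface

/-! Step FRM of the cubic threefold theta project. -/

namespace Pool.Agent.P.MP_abfee5_ag

open Complex Filter Topology MvPolynomial

namespace FrmA

def azb (a b c : ℕ) : Bool := (par a + par b + par c + par (a ^^^ b ^^^ c)) % 2 == 1

def cand (k n : ℕ) : Bool := par n == 0 && (aL.take k).all fun a => azb 33 a n

def ys (k : ℕ) : List ℕ :=
  [[1, 3, 5, 9, 17], [32], [34, 38, 42, 50, 162, 290, 546], [34, 42, 290, 366, 430],
    [42, 58, 554, 630, 702], [42, 58]].getD k []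

def opts (k n : ℕ) : List (ℕ × ℕ) :=
  (0, n ^^^ aL.getD k 0) :: (ys k).map fun y => (n ^^^ y, y ^^^ aL.getD k 0)

def good (k n : ℕ) : Bool := (opts k n).any fun v =>
  tv v.2 (tv v.1 n) == aL.getD k 0 && (decide (v.1 < 1024) && (decide (v.2 < 1024) &&
    (33 :: aL.take k).all fun f => tv v.2 (tv v.1 f) == f))

def dead (k n : ℕ) : Bool :=
  decide (k < 9) && (List.range 1024).all fun n' => !(cand k n' && azb 33 n n')

def chk (k : ℕ) : Bool := (List.range 1024).all fun n => !cand k n || (good k n || dead k n)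

lemma chk_all : (List.range 10).all chk = true := by decide +kernel

lemma azb_of {a b c : ℕ} (h : azy a b c) : azb a b c = true := by
  unfold azb
  unfold azy at h
  rw [h]
  rfl

lemma tv_lt {v n : ℕ} (hv : v < 1024) (hn : n < 1024) : tv v n < 1024 := by
  unfold tv
  split_ifs
  · exact Nat.xor_lt_two_pow (n := 10) hn hv
  · exact hn

lemma frame_map (hAFF : S_AFF) (w : List ℕ) {m : ℕ} {L : List ℕ} (h : Frame m L) :
    Frame (piW w m) (L.map (piW w)) := by
  obtain ⟨h1, h2, h3, h4, h5⟩ := h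
  obtain ⟨a1, a2⟩ := hAFF w
  refine ⟨(a1 m h1).1, (a1 m h1).2.1.trans h2, by rw [List.length_map, h3], ?_, ?_⟩
  · intro n hn
    obtain ⟨x, hx, rfl⟩ := List.mem_map.1 hn
    exact ⟨(a1 x (h4 x hx).1).1, (a1 x (h4 x hx).1).2.1.trans (h4 x hx).2⟩
  · rw [List.pairwise_map]
    refine List.Pairwise.imp_of_mem (fun {x y} hx hy hxy => ?_) h5
    have hx' := (h4 x hx).1
    have hy' := (h4 y hy).1
    have hz : m ^^^ x ^^^ y < 1024 :=
      Nat.xor_lt_two_pow (n := 10) (Nat.xor_lt_two_pow (n := 10) h1 hx') hy'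
    unfold azy at hxy ⊢
    rw [← a2 m h1 x hx' y hy', (a1 m h1).2.1, (a1 x hx').2.1, (a1 y hy').2.1, (a1 _ hz).2.1]
    exact hxy

lemma take_succ : ∀ k < 10, aL.take (k + 1) = aL.take k ++ [aL.getD k 0] := by decide

lemma take_lt : ∀ k < 10, ∀ f ∈ 33 :: aL.take k, f < 1024 := by decide

lemma step (hTV : S_TV) {k : ℕ} (hk : k < 10) {L : List ℕ} (h : Frame 33 L)
    (hL : L.take k = aL.take k) :
    ∃ w, piW w 33 = 33 ∧ (L.map (piW w)).take (k + 1) = aL.take (k + 1) := by
  obtain ⟨-, -, h3, h4, h5⟩ := h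
  have hlen : (L.drop k).length = 10 - k := by rw [List.length_drop, h3]
  obtain ⟨n, R, hR⟩ : ∃ n R, L.drop k = n :: R := by
    cases hd : L.drop k with
    | nil => rw [hd] at hlen; simp at hlen; omega
    | cons n R => exact ⟨n, R, rfl⟩
  have e : L = aL.take k ++ n :: R := by rw [← hL, ← hR, List.take_append_drop]
  have hl : (aL.take k).length = k := by
    rw [List.length_take]
    exact min_eq_left (by simp [aL]; omega)
  rw [e] at h4 h5
  rw [List.pairwise_append, List.pairwise_cons] at h5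
  have hc : ∀ x ∈ n :: R, cand k x = true := by
    intro x hx
    unfold cand
    rw [Bool.and_eq_true, List.all_eq_true, (h4 x (List.mem_append_right _ hx)).2]
    exact ⟨rfl, fun a ha => azb_of (h5.2.2 a ha x hx)⟩
  have hn : n < 1024 := (h4 n (by simp)).1
  have h6 := List.all_eq_true.1 (List.all_eq_true.1 chk_all k (List.mem_range.2 hk)) n
    (List.mem_range.2 hn)
  rw [hc n (by simp), Bool.not_true, Bool.false_or, Bool.or_eq_true] at h6
  rcases h6 with h6 | h6
  · obtain ⟨v, -, hv⟩ := List.any_eq_true.1 h6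
    simp only [Bool.and_eq_true, beq_iff_eq, decide_eq_true_eq, List.all_eq_true] at hv
    obtain ⟨b1, b2, b3, b4⟩ := hv
    obtain ⟨w1, hw1⟩ := hTV _ b2
    obtain ⟨w2, hw2⟩ := hTV _ b3
    have hw : ∀ x < 1024, piW (w1 ++ w2) x = tv v.2 (tv v.1 x) := fun x hx => by
      rw [piW_append, hw1 x hx, hw2 _ (tv_lt b2 hx)]
    refine ⟨w1 ++ w2, by rw [hw 33 (by norm_num), b4 33 (by simp)], ?_⟩
    have e2 : (aL.take k).map (piW (w1 ++ w2)) = aL.take k := by
      conv_rhs => rw [← List.map_id (aL.take k)]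
      refine List.map_congr_left fun x hx => ?_
      rw [hw x (take_lt k hk x (List.mem_cons_of_mem _ hx)), b4 x (List.mem_cons_of_mem _ hx)]
      rfl
    rw [e, List.map_append, List.map_cons, e2, hw n hn, b1, take_succ k hk,
      List.append_cons, List.take_left']
    rw [List.length_append, hl]
    rfl
  · exfalso
    unfold dead at h6
    rw [Bool.and_eq_true, decide_eq_true_eq, List.all_eq_true] at h6
    obtain ⟨n', R', rfl⟩ : ∃ n' R', R = n' :: R' := by
      cases R with
      | nil => rw [hR] at hlen; simp at hlen; omega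
      | cons n' R' => exact ⟨n', R', rfl⟩
    have h7 := h6.2 n' (List.mem_range.2 (h4 n' (by simp)).1)
    rw [hc n' (by simp), azb_of (h5.2.1.1 n' (by simp))] at h7
    exact absurd h7 (by decide)

lemma all (hAFF : S_AFF) (hTV : S_TV) {m : ℕ} {L : List ℕ} (h : Frame m L) (k : ℕ) (hk : k ≤ 10) :
    ∃ w, piW w m = 33 ∧ (L.map (piW w)).take k = aL.take k := by
  induction k with
  | zero =>
    obtain ⟨w, hw⟩ := hTV (m ^^^ 33) (Nat.xor_lt_two_pow (n := 10) h.1 (by norm_num))
    refine ⟨w, ?_, rfl⟩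
    have e : m ^^^ (m ^^^ 33) = 33 := by rw [← Nat.xor_assoc, Nat.xor_self, Nat.zero_xor]
    rw [hw m h.1, tv, e, if_pos]
    rw [h.2.1]
    decide
  | succ k ih =>
    obtain ⟨w, h1, h2⟩ := ih (by omega)
    have hF := frame_map hAFF w h
    rw [h1] at hF
    obtain ⟨w', h3, h4⟩ := step hTV (by omega) hF h2
    refine ⟨w ++ w', by rw [piW_append, h1, h3], ?_⟩
    rw [← h4, List.map_map]
    congr 2
    funext x
    exact piW_append w w' x

end FrmA

open FrmA in
theorem p_FRM (hAFF : S_AFF) (hTV : S_TV) :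
    S_FRM := by
  intro m L h
  obtain ⟨w, h1, h2⟩ := all hAFF hTV h 10 le_rfl
  rw [List.take_of_length_le (by rw [List.length_map, h.2.2.1]),
    List.take_of_length_le (by decide)] at h2
  refine ⟨w.reverse, by rw [← h1, ((hAFF w).1 m h.1).2.2], ?_⟩
  rw [← h2, List.map_map]
  conv_rhs => rw [← List.map_id L]
  exact List.map_congr_left fun x hx => ((hAFF w).1 x (h.2.2.2.1 x hx).1).2.2

end Pool.Agent.P.MP_abfee5_ag
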