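import Pool.Agent.P.MP_abfee5_ag.CT.Iface

/-! Step GCL of the cubic threefold theta project. -/

namespace Pool.Agent.P.MP_abfee5_ag

open Complex Filter Topology MvPolynomial

namespace GclA

lemma key (hWORD : S_WORD) (w : List ℕ) {τ : Mat} (hτ : τ ∈ Siegel) :
    moveW w τ ∈ Siegel ∧ ∃ a b : ℂ, a ≠ 0 ∧ b ≠ 0 ∧
      (∀ R : List Mono, (∀ m ∈ R, m.2.length = 7) →
        pval (moveW w τ) R = a * pval τ (pact w R)) ∧
      (∀ Y : Mono, Y.2.length = 5 → dval (moveW w τ) Y = b * dval τ (mact w Y)) := by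
  obtain ⟨h1, c, M, hc, hM, -, -, hm, hd⟩ := (hWORD w).2 τ hτ
  refine ⟨h1, c ^ 7, c ^ 5 * M.det, pow_ne_zero _ hc, mul_ne_zero (pow_ne_zero _ hc) hM, ?_, hd⟩
  intro R hR
  induction R with
  | nil => simp [pact, pval]
  | cons m R ih =>
    have h2 := ih fun m' hm' => hR m' (List.mem_cons_of_mem _ hm')
    have h3 := hm m
    rw [hR m List.mem_cons_self] at h3
    simp only [pact, List.map_cons, pval_cons] at h2 ⊢
    rw [h2, h3]; ring

lemma len_pact (w : List ℕ) {P : List Mono} (h : ∀ m ∈ P, m.2.length = 7) :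
    ∀ m ∈ pact w P, m.2.length = 7 := by
  intro m hm
  obtain ⟨m', hm', rfl⟩ := List.mem_map.1 hm
  rw [mact_snd, List.length_map, h m' hm']

lemma act_triv {s : ℕ} (hs : s ∉ letters) (n : ℕ) : act s n = (n, 0) := by
  by_cases h : s / 8 < 5
  · have h40 : s < 40 := by omega
    have hall : ∀ s < 40, s ∉ letters →
        s % 8 ≠ s / 8 ∧ s % 8 ≠ 5 ∧ ¬(s / 8 < s % 8 ∧ s % 8 < 5) := by decide
    obtain ⟨h1, h2, h3⟩ := hall s h40 hs
    simp only [act, if_pos h, if_neg h1, if_neg h2, if_neg h3]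
  · simp only [act, if_neg h]

lemma mact_triv {s : ℕ} (hs : s ∉ letters) (m : Mono) : mact [s] m = (m.1 % 8, m.2) := by
  show mact1 m s = _
  simp [mact1, act_triv hs]

lemma good_triv (X : Mono) (P : List Mono) {s : ℕ} (hs : s ∉ letters) : Good X P [s] := by
  refine ⟨1, one_ne_zero, fun τ _ => ?_⟩
  have h1 : dval τ (mact [s] X) = dval τ X := by
    rw [mact_triv hs]
    simp only [dval, z8_mod]
  have h2 : pval τ (pact [s] P) = pval τ P := by
    simp only [pval, pact, List.map_map]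
    congr 1
    refine List.map_congr_left fun m _ => ?_
    simp only [Function.comp_apply, mact_triv hs, mval, z8_mod]
  rw [h1, h2]; ring

end GclA

open GclA in
theorem p_GCL (hWORD : S_WORD) (hID : S_ID) (hHOL : S_HOL) :
    S_GCL := by
  intro X P hS hNZ
  have hX : X.2.length = 5 := hS.2.1
  have hP : ∀ m ∈ P, m.2.length = 7 := fun m hm => (hS.2.2 m hm).2
  have hp := hHOL.2.2.2.1
  have hd := hHOL.2.2.2.2
  have nz0 : ∃ τ ∈ Siegel, pval τ P ≠ 0 := by
    obtain ⟨τ, hτ, w, hw⟩ := hNZ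
    obtain ⟨h1, a, b, ha, -, h2, -⟩ := key hWORD w hτ
    exact ⟨_, h1, by rw [h2 P hP]; exact mul_ne_zero ha hw⟩
  have nz : ∀ w, ∃ τ ∈ Siegel, pval τ (pact w P) ≠ 0 := by
    intro w
    obtain ⟨τ, hτ, h0⟩ := nz0
    obtain ⟨τ', hτ', rfl⟩ := (hWORD w).1 τ hτ
    obtain ⟨-, a, b, -, -, h2, -⟩ := key hWORD w hτ'
    rw [h2 P hP] at h0
    exact ⟨τ', hτ', right_ne_zero_of_mul h0⟩
  have part1 : ∀ u w, Good X P u → Good X P w → Good X P (u ++ w) := by
    rintro u w ⟨zu, hzu, hu⟩ ⟨zw, hzw, hw⟩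
    refine ⟨zu * zw, mul_ne_zero hzu hzw, fun τ hτ => ?_⟩
    have hH : Hol fun τ => dval τ (mact (u ++ w) X) * pval τ P -
        zu * zw * (pval τ (pact (u ++ w) P) * dval τ X) :=
      DifferentiableOn.sub (DifferentiableOn.mul (hd _) (hp _))
        (DifferentiableOn.const_mul (DifferentiableOn.mul (hp _) (hd _)) _)
    refine sub_eq_zero.1 (hID.2.1 _ _ (hp (pact w P)) hH (fun τ hτ => ?_) (nz w) τ hτ)
    obtain ⟨h1, a, b, ha, hb, h2, h3⟩ := key hWORD w hτ
    have h4 := hu _ h1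
    rw [h2 P hP, h2 _ (len_pact u hP), h3 X hX,
      h3 _ (by rw [mact_snd, List.length_map, hX]), ← mact_append, ← pact_append] at h4
    have h5 : dval τ (mact (u ++ w) X) * pval τ (pact w P) =
        zu * (pval τ (pact (u ++ w) P) * dval τ (mact w X)) := by
      apply mul_left_cancel₀ (mul_ne_zero ha hb)
      linear_combination h4
    have h6 := hw τ hτ
    linear_combination pval τ P * h5 + zu * pval τ (pact (u ++ w) P) * h6
  refine ⟨part1, fun hl w => ?_, fun hg τ hτ hw u hu => ?_⟩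
  · induction w with
    | nil =>
      refine ⟨1, one_ne_zero, fun τ _ => ?_⟩
      have : pact [] P = P := by simp [pact, show mact [] = id from rfl]
      rw [this, mact_nil]; ring
    | cons s w ih =>
      refine part1 [s] w ?_ ih
      by_cases hs : s ∈ letters
      · exact hl s hs
      · exact good_triv X P hs
  · obtain ⟨w, hw⟩ := hw
    obtain ⟨zu, hzu, h1⟩ := hg u
    obtain ⟨zw, hzw, h2⟩ := hg w
    have hH : Hol fun τ => zw * (dval τ (mact u X) * pval τ (pact w P)) -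
        zu * (pval τ (pact u P) * dval τ (mact w X)) :=
      DifferentiableOn.sub (DifferentiableOn.const_mul (DifferentiableOn.mul (hd _) (hp _)) _)
        (DifferentiableOn.const_mul (DifferentiableOn.mul (hp _) (hd _)) _)
    have h3 := hID.2.1 _ _ (hp P) hH (fun τ hτ => by
      linear_combination zw * pval τ (pact w P) * h1 τ hτ - zu * pval τ (pact u P) * h2 τ hτ)
      nz0 τ hτ
    simp only [hu, zero_mul, mul_zero, zero_sub, neg_eq_zero, mul_eq_zero, hzu, hw, false_or,
      or_false] at h3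
    exact h3

end Pool.Agent.P.MP_abfee5_ag
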