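import Pool.Agent.P.MP_abfee5_ag.CT.Iface4
import Pool.Agent.P.MP_abfee5_ag.CT.Iface
import Pool.Agent.P.MP_abfee5_ag.CT.Iface2

/-! Step GGEN of the cubic threefold theta project. -/

namespace Pool.Agent.P.MP_abfee5_ag

open Complex Filter Topology MvPolynomial

namespace GgenA

lemma transfer (hDREL : S_DREL) {X : Mono} {P : List Mono} {u s : List ℕ} {k : ℕ}
    (hX : X.2.length = 5) (h1 : (mact u X).2.Perm (mact s X).2) (h2 : PEq k (pact u P) (pact s P)) :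
    Good X P u ↔ Good X P s := by
  obtain ⟨ε, e0, e⟩ := hDREL.2.2 _ _ (by rw [mact_snd, List.length_map, hX]) h1
  have z : z8 ^ k ≠ 0 := pow_ne_zero _ z8_ne
  simp only [Good, e, h2.val]
  constructor
  · rintro ⟨ζ, z0, h⟩
    refine ⟨ε⁻¹ * ζ * z8 ^ k, by positivity, fun τ hτ => mul_left_cancel₀ e0 ?_⟩
    rw [← mul_assoc, h τ hτ]
    field_simp
  · rintro ⟨ζ, z0, h⟩
    refine ⟨ε * ζ * (z8 ^ k)⁻¹, by positivity, fun τ hτ => ?_⟩
    rw [mul_assoc, h τ hτ]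
    field_simp

/-- The product of the words with indices `l` has the same effect as the word `s`. -/
def ck (s l : List ℕ) (k : ℕ) : Bool :=
  l.all (fun i => Nat.blt i 11) && ((mrun (pick gT 0 l) X0).2.isPerm (mact s X0).2 &&
    peqB k ((Pn 149).map (mrun (pick gT 0 l))) (pact s (Pn 149)))

lemma ck_lt {s l : List ℕ} {k : ℕ} (h : ck s l k = true) : ∀ i ∈ l, i < 11 := fun i hi => by
  rw [ck, Bool.and_eq_true] at h
  exact Nat.blt_eq.mp (List.all_eq_true.1 h.1 i hi)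

lemma of_ck (hAFF : S_AFF) (hTABG : S_TABG) (hDREL : S_DREL) (hS : Shape X0 (Pn 149))
    {s l : List ℕ} {k : ℕ} (h : ck s l k = true) :
    Good X0 (Pn 149) (pick gW [] l).flatten ↔ Good X0 (Pn 149) s := by
  have t := isTab_pick hTABG l (ck_lt h)
  rw [ck, Bool.and_eq_true, Bool.and_eq_true] at h
  exact transfer hDREL hS.2.1 (mrun_snd hAFF t hS.1 ▸ List.isPerm_iff.1 h.2.1)
    (peq_mrun hAFF t (fun a ha => (hS.2.2 a ha).1) (peq_of h.2.2))

lemma ck1 : ∀ i < 4, ck [] [7 + i] (tK.getD i 0) = true := by decide +kernel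

lemma ck2 : ∀ c ∈ chainL, ck [c.1] c.2.1 c.2.2 = true := by decide +kernel

lemma nonvan (hDIAG : S_DIAG) : ∃ τ ∈ Siegel, pval τ (Pn 149) ≠ 0 := by
  obtain ⟨τ, hτ, h⟩ := hDIAG
  have e : Pn 149 = (2, [0, 21, 34, 120, 137, 387, 744]) :: (Pn 149).tail := by decide +kernel
  have e1 : ∀ m ∈ (Pn 149).tail, ∃ n ∈ m.2, ((n >>> 5) &&& n) % 32 ≠ 0 := by decide +kernel
  have e2 : ∀ n ∈ [0, 21, 34, 120, 137, 387, 744], ((n >>> 5) &&& n) % 32 = 0 := by decide +kernel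
  have z : pval τ (Pn 149).tail = 0 := List.sum_eq_zero fun x hx => by
    obtain ⟨m, hm, rfl⟩ := List.mem_map.1 hx
    obtain ⟨n, a, b⟩ := e1 m hm
    exact mul_eq_zero_of_right _ (List.prod_eq_zero (List.mem_map.2 ⟨n, a, (h n).2 b⟩))
  refine ⟨τ, hτ, ?_⟩
  rw [e, pval_cons, z, add_zero]
  refine mul_ne_zero (pow_ne_zero _ z8_ne) (List.prod_ne_zero fun a => ?_)
  obtain ⟨n, a, b⟩ := List.mem_map.1 a
  exact (h n).1 b (e2 n a)

lemma low (hSTAB : S_STAB) (hFAY : S_FAY) {i : ℕ} (hi : i < 7) :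
    Good X0 (Pn 149) (gW.getD i []) := by
  obtain ⟨h1, h2⟩ := hSTAB.2 i hi
  obtain ⟨h3, h4⟩ := h2 149 (by decide)
  have z : z8 ^ gD.getD i 0 ≠ 0 := pow_ne_zero _ z8_ne
  refine ⟨(z8 ^ gD.getD i 0)⁻¹, inv_ne_zero z, fun τ hτ => ?_⟩
  have e : dval τ (mact (gW.getD i []) X0) = z8 ^ (mact (gW.getD i []) (0, kap ++ [149])).1 *
      dval τ (0, kap ++ [piW (gW.getD i []) 149]) := by
    rw [dval, dval, mact_snd, X0, List.map_append, h1, pow_zero, one_mul]
    rfl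
  rw [e, h4.val, mul_assoc, hFAY _ h3 τ hτ, pow_add]
  field_simp

end GgenA

open GgenA in
theorem p_GGEN (hAFF : S_AFF) (hTABG : S_TABG) (hSTAB : S_STAB) (hFAY : S_FAY) (hGCL : S_GCL) (hDREL : S_DREL) (hDIAG : S_DIAG) :
    S_GGEN := by
  have hS : Shape X0 (Pn 149) :=
    ⟨show ∀ n ∈ X0.2, n < 1024 by decide, by decide, hSTAB.1 149 (by decide)⟩
  have hN : ∃ τ ∈ Siegel, ∃ w, pval τ (pact w (Pn 149)) ≠ 0 := by
    obtain ⟨τ, a, b⟩ := nonvan hDIAG
    exact ⟨τ, a, [], by rwa [pact, show mact [] = id from rfl, List.map_id]⟩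
  obtain ⟨g1, g2, -⟩ := hGCL _ _ hS hN
  have g0 : Good X0 (Pn 149) [] := ⟨1, one_ne_zero, fun τ _ => by
    rw [pact, show mact [] = id from rfl, List.map_id, one_mul, mul_comm, id]⟩
  have g3 : ∀ i < 11, Good X0 (Pn 149) (gW.getD i []) := fun i hi => by
    rcases lt_or_ge i 7 with a | a
    · exact low hSTAB hFAY a
    · obtain ⟨j, rfl⟩ := Nat.exists_eq_add_of_le a
      simpa only [pick, List.map_cons, List.map_nil, List.flatten_singleton] using
        (of_ck hAFF hTABG hDREL hS (ck1 j (by omega))).2 g0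
  have g4 : ∀ l : List ℕ, (∀ i ∈ l, i < 11) → Good X0 (Pn 149) (pick gW [] l).flatten := by
    intro l hl
    induction l with
    | nil => exact g0
    | cons i l ih =>
      exact g1 _ _ (g3 i (hl i List.mem_cons_self)) (ih fun j hj => hl j (List.mem_cons_of_mem _ hj))
  refine ⟨hS, hN, g2 fun s hs => ?_⟩
  rw [show letters = chainL.map Prod.fst by decide] at hs
  obtain ⟨c, hc, rfl⟩ := List.mem_map.1 hs
  exact (of_ck hAFF hTABG hDREL hS (ck2 c hc)).1 (g4 _ (ck_lt (ck2 c hc)))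

end Pool.Agent.P.MP_abfee5_ag
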