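import Pool.Agent.P.MP_abfee5_ag.CT.Iface

/-! Step HOL of the cubic threefold theta project. -/

namespace Pool.Agent.P.MP_abfee5_ag

open Complex Filter Topology MvPolynomial

theorem p_HOL (hDIFF : S_DIFF) :
    S_HOL := by
  have hS : ∀ p, Gr p → Hol (S p) := fun p hp τ hτ => by
    obtain ⟨L, hL, -⟩ := hDIFF p hp τ hτ
    exact hL.hasFDerivAt.differentiableAt.differentiableWithinAt
  have h1 : ∀ n, Hol (th n) := fun n => hS _ (gr_chi n)
  have h2 : ∀ n j, Hol fun τ => gr n τ j := fun n j => hS _ ((gr_coord j).mul (gr_chi n))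
  have h3 : ∀ m, Hol fun τ => mval τ m := by
    rintro ⟨p, L⟩
    refine DifferentiableOn.const_mul ?_ _
    induction L with
    | nil => simp
    | cons a L ih =>
      simp only [List.map_cons, List.prod_cons]
      exact (h1 a).mul ih
  refine ⟨h1, h2, h3, fun P => ?_, fun X => ?_⟩
  · induction P with
    | nil => exact differentiableOn_const (0 : ℂ)
    | cons a L ih =>
      simp only [pval_cons]
      exact (h3 a).add ih
  · refine DifferentiableOn.const_mul ?_ _
    simp only [Matrix.det_apply', Matrix.of_apply]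
    refine DifferentiableOn.fun_sum fun σ _ => DifferentiableOn.const_mul ?_ _
    simp only [Fin.prod_univ_five]
    exact ((((h2 _ _).mul (h2 _ _)).mul (h2 _ _)).mul (h2 _ _)).mul (h2 _ _)

end Pool.Agent.P.MP_abfee5_ag
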