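import Pool.Agent.P.MP_abfee5_ag.CT.Iface

/-! Step ID of the cubic threefold theta project. -/

namespace Pool.Agent.P.MP_abfee5_ag

open Complex Filter Topology MvPolynomial

namespace IdA

theorem one (hO : IsOpen Om) (hC : Convex ℝ Om) (f : Mat → ℂ) (hf : DifferentiableOn ℂ f Om)
    (τ₀ : Mat) (h₀ : τ₀ ∈ Siegel) (h : ∀ᶠ τ in 𝓝[Siegel] τ₀, f τ = 0) (τ : Mat)
    (hτ : τ ∈ Siegel) : f τ = 0 := by
  set L : ℂ → Mat := fun s => τ₀ + s • (τ - τ₀) with hL
  have hLd : Differentiable ℂ L := by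
    rw [hL]; fun_prop
  have hD : IsOpen (L ⁻¹' Om) := hO.preimage hLd.continuous
  have hDc : Convex ℝ (L ⁻¹' Om) := by
    intro x hx y hy a b ha hb hab
    have := hC hx hy ha hb hab
    show L _ ∈ Om
    have e : L (a • x + b • y) = a • L x + b • L y := by
      funext j k
      have hab' : (a : ℂ) + b = 1 := by exact_mod_cast hab
      simp only [hL, Pi.add_apply, Pi.smul_apply, Pi.sub_apply, smul_eq_mul, Complex.real_smul]
      linear_combination (-τ₀ j k) * hab'
    rw [e]; exact this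
  have h0 : L 0 = τ₀ := by simp [hL]
  have h1 : L 1 = τ := by simp [hL]
  have hS : ∀ s ∈ L ⁻¹' Om, L s ∈ Siegel := fun s hs => ⟨fun j k => by
    simp only [hL, Pi.add_apply, Pi.smul_apply, Pi.sub_apply, h₀.1 j k, hτ.1 j k], hs⟩
  have hm0 : (0 : ℂ) ∈ L ⁻¹' Om := by
    show L 0 ∈ Om
    rw [h0]; exact h₀.2
  have hm1 : (1 : ℂ) ∈ L ⁻¹' Om := by
    show L 1 ∈ Om
    rw [h1]; exact hτ.2
  have hA : AnalyticOnNhd ℂ (f ∘ L) (L ⁻¹' Om) :=
    (hf.comp hLd.differentiableOn fun _ hs => hs).analyticOnNhd hD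
  have ht : Tendsto L (𝓝 0) (𝓝[Siegel] τ₀) := by
    refine tendsto_nhdsWithin_iff.2 ⟨?_, ?_⟩
    · rw [← h0]; exact hLd.continuous.tendsto 0
    · filter_upwards [hD.mem_nhds hm0] using hS
  have := hA.eqOn_zero_of_preconnected_of_eventuallyEq_zero hDc.isPreconnected hm0
    (ht.eventually h) hm1
  rw [← h1]; exact this

end IdA

theorem p_ID (hSUM : S_SUM) :
    S_ID := by
  have hO : IsOpen Om := hSUM.1.1
  have hC : Convex ℝ Om := hSUM.1.2
  have hc : ∀ f, Hol f → ∀ τ ∈ Siegel, ContinuousAt f τ := fun f hf τ hτ =>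
    (DifferentiableOn.continuousOn hf).continuousAt (hO.mem_nhds hτ.2)
  refine ⟨fun f hf => IdA.one hO hC f hf, ?_, ?_⟩
  · rintro f g hf hg h ⟨τ₁, h₁, hne⟩
    refine IdA.one hO hC g hg τ₁ h₁ ?_
    filter_upwards [self_mem_nhdsWithin, nhdsWithin_le_nhds ((hc f hf τ₁ h₁).eventually_ne hne)]
      with τ hτ h2
    exact (mul_eq_zero.1 (h τ hτ)).resolve_left h2
  · intro K c E τ₀ h₀ hcH hE hz hd hs l
    refine IdA.one hO hC _ (hE l) τ₀ h₀ ?_
    have hdet : ContinuousAt (fun τ => (Matrix.of fun k l => c k l τ).det) τ₀ := by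
      have h1 : ContinuousAt (fun τ => (Matrix.of fun k l => c k l τ)) τ₀ :=
        continuousAt_pi.2 fun k => continuousAt_pi.2 fun l => hc _ (hcH k l) τ₀ h₀
      exact (continuous_id.matrix_det).continuousAt.comp h1
    have hne : (Matrix.of fun k l => c k l τ₀).det ≠ 0 := by
      rw [Matrix.det_of_isLowerTriangular (Matrix.of fun k l => c k l τ₀)
        fun k l hkl => hz k l hkl]
      exact Finset.prod_ne_zero_iff.2 fun k _ => hd k
    filter_upwards [self_mem_nhdsWithin, nhdsWithin_le_nhds (hdet.eventually_ne hne)]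
      with τ hτ h2
    exact congrFun (Matrix.eq_zero_of_mulVec_eq_zero (v := fun l => E l τ) h2
      (funext fun k => hs τ hτ k)) l

end Pool.Agent.P.MP_abfee5_ag
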