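import Pool.Agent.P.MP_abfee5_ag.CT.Iface3

/-! Step INV of the cubic threefold theta project. -/

namespace Pool.Agent.P.MP_abfee5_ag

open Complex Filter Topology MvPolynomial

namespace InvA

/-- The integer test of one row. -/
def Row (n : ℕ) (T W : List (List (ℤ × ℤ))) (S p q : ℤ) (i : ℕ) : Prop :=
  q * ∑ j ∈ Finset.range n,
      (|(if i = j then S else 0) - ∑ k ∈ Finset.range n,
          ((ent W i k).1 * (ent T k j).1 - (ent W i k).2 * (ent T k j).2)| +
        |∑ k ∈ Finset.range n, ((ent W i k).1 * (ent T k j).2 + (ent W i k).2 * (ent T k j).1)|) +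
    n * p * ∑ k ∈ Finset.range n, (|(ent W i k).1| + |(ent W i k).2|) < q * S

instance (n : ℕ) (T W : List (List (ℤ × ℤ))) (S p q : ℤ) (i : ℕ) : Decidable (Row n T W S p q i) :=
  inferInstanceAs (Decidable (_ < _))

lemma norm_le (a b : ℤ) : ‖(a : ℂ) + b * I‖ ≤ ((|a| + |b| : ℤ) : ℝ) := by
  refine (norm_add_le _ _).trans ?_
  simp

lemma main (n : ℕ) (T W : List (List (ℤ × ℤ))) (S p q : ℤ) (hq : 0 < q)
    (h : ∀ i < n, Row n T W S p q i) (A : Matrix (Fin n) (Fin n) ℂ)
    (hA : ∀ i j : Fin n, ‖A i j - gz (ent T i j)‖ ≤ p / q) : A.det ≠ 0 := by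
  intro h0
  obtain ⟨v, hv, hAv⟩ := Matrix.exists_mulVec_eq_zero_iff.2 h0
  obtain ⟨j0, hj0⟩ := Function.ne_iff.1 hv
  obtain ⟨i, -, hi⟩ := Finset.exists_max_image Finset.univ (fun i => ‖v i‖) ⟨j0, Finset.mem_univ _⟩
  have hpos : 0 < ‖v i‖ := (norm_pos_iff.2 hj0).trans_le (hi j0 (Finset.mem_univ _))
  have hq' : (0 : ℝ) < q := by exact_mod_cast hq
  have key : (S : ℂ) * v i =
      ∑ j : Fin n, ((if i = j then (S : ℂ) else 0) -
        ∑ k : Fin n, gz (ent W i k) * gz (ent T k j)) * v j -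
      ∑ k : Fin n, gz (ent W i k) * ∑ j : Fin n, (A k j - gz (ent T k j)) * v j := by
    have h1 : ∀ k, ∑ j, A k j * v j = 0 := fun k => congrFun hAv k
    simp only [sub_mul, Finset.sum_sub_distrib, h1, ite_mul, zero_mul, Finset.sum_ite_eq,
      Finset.mem_univ, if_true, zero_sub, mul_neg, Finset.sum_neg_distrib, Finset.sum_mul,
      Finset.mul_sum, mul_assoc]
    rw [Finset.sum_comm]
    ring
  have hr := h i i.2
  unfold Row at hr
  simp only [Finset.sum_range] at hr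
  have hr' := (Int.cast_lt (R := ℝ)).2 hr
  rw [Int.cast_add, Int.cast_mul, Int.cast_mul, Int.cast_mul, Int.cast_mul, Int.cast_sum,
    Int.cast_sum, Int.cast_natCast] at hr'
  have b1 : ‖∑ j : Fin n, ((if i = j then (S : ℂ) else 0) -
      ∑ k : Fin n, gz (ent W i k) * gz (ent T k j)) * v j‖ ≤
      (∑ j : Fin n, ((|(if (i : ℕ) = j then S else 0) - ∑ k : Fin n,
          ((ent W i k).1 * (ent T k j).1 - (ent W i k).2 * (ent T k j).2)| +
        |∑ k : Fin n, ((ent W i k).1 * (ent T k j).2 + (ent W i k).2 * (ent T k j).1)| : ℤ) : ℝ)) *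
        ‖v i‖ := by
    rw [Finset.sum_mul]
    refine (norm_sum_le _ _).trans (Finset.sum_le_sum fun j _ => ?_)
    rw [norm_mul]
    refine mul_le_mul ?_ (hi j (Finset.mem_univ _)) (norm_nonneg _) (by positivity)
    rw [← abs_neg (∑ k : Fin n, ((ent W i k).1 * (ent T k j).2 + (ent W i k).2 * (ent T k j).1))]
    refine le_trans (le_of_eq (congrArg _ ?_)) (norm_le _ _)
    have e : ∀ k : Fin n, gz (ent W i k) * gz (ent T k j) =
        (((ent W i k).1 * (ent T k j).1 - (ent W i k).2 * (ent T k j).2 : ℤ) : ℂ) +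
        (((ent W i k).1 * (ent T k j).2 + (ent W i k).2 * (ent T k j).1 : ℤ) : ℂ) * I := fun k => by
      simp only [gz]
      push_cast
      linear_combination ((ent W i k).2 : ℂ) * (ent T k j).2 * I_sq
    simp only [e, Finset.sum_add_distrib, ← Finset.sum_mul, Fin.ext_iff, Int.cast_sub,
      Int.cast_neg, Int.cast_add, Int.cast_sum, Int.cast_ite, Int.cast_zero]
    ring
  have b2 : ‖∑ k : Fin n, gz (ent W i k) * ∑ j : Fin n, (A k j - gz (ent T k j)) * v j‖ ≤
      (∑ k : Fin n, ((|(ent W i k).1| + |(ent W i k).2| : ℤ) : ℝ)) * (n * (p / q) * ‖v i‖) := by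
    rw [Finset.sum_mul]
    refine (norm_sum_le _ _).trans (Finset.sum_le_sum fun k _ => ?_)
    rw [norm_mul]
    refine mul_le_mul (norm_le _ _) ((norm_sum_le _ _).trans ?_) (norm_nonneg _) (by positivity)
    refine (Finset.sum_le_card_nsmul _ _ (p / q * ‖v i‖) fun j _ => ?_).trans (le_of_eq ?_)
    · rw [norm_mul]
      exact mul_le_mul (hA k j) (hi j (Finset.mem_univ _)) (norm_nonneg _)
        ((norm_nonneg _).trans (hA k j))
    · simp [mul_assoc]
  have b3 : (S : ℝ) * ‖v i‖ ≤ ‖(S : ℂ) * v i‖ := by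
    rw [norm_mul, Complex.norm_intCast]
    exact mul_le_mul_of_nonneg_right (le_abs_self _) hpos.le
  have b4 := b3.trans ((key ▸ norm_sub_le _ _).trans (add_le_add b1 b2))
  generalize (∑ j : Fin n, ((|(if (i : ℕ) = j then S else 0) - ∑ k : Fin n,
          ((ent W i k).1 * (ent T k j).1 - (ent W i k).2 * (ent T k j).2)| +
        |∑ k : Fin n, ((ent W i k).1 * (ent T k j).2 + (ent W i k).2 * (ent T k j).1)| : ℤ) : ℝ))
    = x at hr' b4
  generalize (∑ k : Fin n, ((|(ent W i k).1| + |(ent W i k).2| : ℤ) : ℝ)) = y at hr' b4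
  have b5 : (S : ℝ) ≤ x + y * (n * (p / q)) := le_of_mul_le_mul_right (by linarith) hpos
  have b6 : (q : ℝ) * (x + y * (n * (p / q))) = q * x + n * p * y := by field_simp
  nlinarith

lemma c21 : ∀ i < 21, Row 21 mt21 wt21 (2 ^ 68) 1024 1 i := by decide +kernel

lemma c16 : ∀ i < 16, Row 16 at16 wt16 (2 ^ 18) 1 50 i := by decide +kernel

lemma scale {n : ℕ} {A : Matrix (Fin n) (Fin n) ℂ} (c : ℂ) (h : (c • A).det ≠ 0) : A.det ≠ 0 :=
  fun h0 => h (by rw [Matrix.det_smul, h0, mul_zero])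

end InvA

open InvA in
theorem p_INV :
    S_INV := by
  refine ⟨fun A hA => scale (2 ^ 56) (main 21 _ _ _ _ _ one_pos c21 _ fun i j => ?_),
    fun A hA => scale 4 (main 16 _ _ _ _ _ (by norm_num) c16 _ fun i j => ?_)⟩
  · have e : ((2 : ℂ) ^ 56 • A) i j - gz (ent mt21 i j) =
        2 ^ 56 * (A i j - gz (ent mt21 i j) / 2 ^ 56) := by
      rw [Matrix.smul_apply, smul_eq_mul]; ring
    rw [e, norm_mul]
    refine (mul_le_mul_of_nonneg_left (hA i j) (norm_nonneg _)).trans ?_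
    norm_num
  · have e : ((4 : ℂ) • A) i j - gz (ent at16 i j) = 4 * (A i j - gz (ent at16 i j) / 4) := by
      rw [Matrix.smul_apply, smul_eq_mul]; ring
    rw [e, norm_mul]
    refine (mul_le_mul_of_nonneg_left (hA i j) (norm_nonneg _)).trans ?_
    norm_num

end Pool.Agent.P.MP_abfee5_ag
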