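import Pool.Agent.P.MP_abfee5_ag.CT.Iface3
import Pool.Agent.P.MP_abfee5_ag.CT.Iface

/-! Step JAC of the cubic threefold theta project. -/

namespace Pool.Agent.P.MP_abfee5_ag

open Complex Filter Topology MvPolynomial

namespace JacA

theorem fr : ∀ i : Fin 21, Frame 1023 (frL.getD i []) ∧ xsum (frL.getD i []) < 1024 ∧
    (List.ofFn fun t : Fin 10 => (frL.getD i []).getD t 0) = frL.getD i [] ∧
    ∀ t : Fin 10, ((frL.getD i []).getD t 0 < 1024 ∧ par ((frL.getD i []).getD t 0) = 0) ∧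
      (frL.getD i []).getD t 0 ^^^ xsum (frL.getD i []) < 1024 ∧
      par ((frL.getD i []).getD t 0 ^^^ xsum (frL.getD i [])) = 0 := by
  unfold Frame azy
  decide +kernel

theorem dprod {ι : Type} (s : Finset ι) (q : ι → MvPolynomial F2 ℂ) (x : F2 → ℂ) (v : F2)
    (h : ∀ t, eval x (q t) ≠ 0) : eval x (pderiv v (∏ t ∈ s, q t)) =
      eval x (∏ t ∈ s, q t) * ∑ t ∈ s, eval x (pderiv v (q t)) / eval x (q t) := by
  classical
  induction s using Finset.induction_on with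
  | empty => simp
  | insert a s ha ih =>
    rw [Finset.prod_insert ha, Finset.sum_insert ha, pderiv_mul, map_add, map_mul, map_mul,
      map_mul, ih]
    have := h a
    field_simp

end JacA

open JacA in
theorem p_JAC (hENC : S_ENC) (hEVQ : S_EVQ) :
    S_JAC := by
  obtain ⟨-, ⟨e1, -, e3, e4, -, e6⟩, e7, e8⟩ := hENC
  have hL : ∀ i, (List.ofFn fun t => enc (frC i t)) = frL.getD i [] := fun i => by
    rw [← (fr i).2.2.1]
    exact congrArg _ (funext fun t => e3 _ ((fr i).2.2.2 t).1.1)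
  refine ⟨fun i => (e8 _ _ (by rw [e6]; rfl)).2 ?_, fun x hx hb hd => ?_⟩
  · rw [hL, e3 _ (by norm_num)]
    exact (fr i).1
  have hs : ∀ i t, frC i t + ∑ j, frC i j =
      dec ((frL.getD i []).getD t 0 ^^^ xsum (frL.getD i [])) := fun i t => by
    rw [e4, ← hL i, ← e7, e1, hL]
    rfl
  have n1 : ∀ i t, eval x (Q (frC i t)) ≠ 0 := fun i t =>
    hx _ ((fr i).2.2.2 t).1.1 ((fr i).2.2.2 t).1.2
  have n2 : ∀ i t, eval x (Q (frC i t + ∑ j, frC i j)) ≠ 0 := fun i t =>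
    hs i t ▸ hx _ ((fr i).2.2.2 t).2.1 ((fr i).2.2.2 t).2.2
  have dq : ∀ n ρ, par n = 0 → eval x (pderiv (dec5 ρ) (Q (dec n))) / eval x (Q (dec n)) =
      2 * dl (fun σ => x (dec5 σ)) n ρ := fun n ρ h => by
    rw [hEVQ.2 n ρ x h, hEVQ.1, dl, Qx, mul_assoc, mul_div_assoc]
    norm_num
  have e : (Matrix.of fun i j : Fin 21 =>
      eval x (pderiv (dec5 (rhoL.getD j 0)) (binom (frC i)))) =
      Matrix.of fun i j : Fin 21 => (2 * eval x (∏ t, Q (frC i t))) *
        Matrix.of (fun i j : Fin 21 => (2 : ℂ) ^ rhoE.getD j 0 *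
          M21 (fun σ => x (dec5 σ)) i j) i j := by
    ext i j
    have h1 := hb i
    rw [binom, map_sub, sub_eq_zero] at h1
    simp only [Matrix.of_apply, M21]
    rw [binom, map_sub, map_sub, dprod _ _ _ _ (n1 i), dprod _ _ _ _ (n2 i), ← h1, ← mul_sub,
      ← Finset.sum_sub_distrib, mul_div_cancel₀ _ (pow_ne_zero _ two_ne_zero), mul_comm 2,
      mul_assoc]
    congr 1
    generalize hy : xsum (frL.getD i []) = y
    rw [← (fr i).2.2.1, List.map_ofFn, List.sum_ofFn, Finset.mul_sum]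
    refine Finset.sum_congr rfl fun t _ => ?_
    rw [hs, dq _ _ ((fr i).2.2.2 t).2.2, frC, dq _ _ ((fr i).2.2.2 t).1.2, hy, ← mul_sub]
    rfl
  rw [e, Matrix.det_mul_column, Matrix.det_mul_row]
  refine mul_ne_zero (Finset.prod_ne_zero_iff.2 fun i _ => mul_ne_zero two_ne_zero ?_)
    (mul_ne_zero (Finset.prod_ne_zero_iff.2 fun _ _ => pow_ne_zero _ two_ne_zero) hd)
  rw [map_prod]
  exact Finset.prod_ne_zero_iff.2 fun t _ => n1 i t

end Pool.Agent.P.MP_abfee5_ag
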