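import Pool.Agent.P.MP_abfee5_ag.CT.Iface3

/-! Step JMAP of the cubic threefold theta project. -/

namespace Pool.Agent.P.MP_abfee5_ag

open Complex Filter Topology MvPolynomial

theorem p_JMAP :
    S_JMAP := by
  intro d ρ π u hu h3 hp hQ hprod m
  have h1 : ∀ (n : Fin 10 → Ch) (a : Ch), π (a + ∑ j, n j) = π a + ∑ j, π (n j) := fun n a => by
    have h : ∀ a b c, π (a + (b + c)) = π a + (π b + π c) := fun a b c => by
      rw [← add_assoc, h3, add_assoc]
    have h' : ∀ a b c e, π (a + (b + (c + e))) = π (a + e) + (π b + π c) := fun a b c e => by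
      rw [← h]
      congr 1
      abel
    simp only [Fin.sum_univ_succ, Fin.sum_univ_zero, add_zero]
    rw [h', h', h', h', h]
    abel
  have h2 : ∀ n : Fin 10 → Ch, msub d ρ (binom n) = C (∏ i, u (n i)) * binom fun i => π (n i) := by
    intro n
    simp only [binom, map_sub, map_prod (msub d ρ), hQ, Finset.prod_mul_distrib, ← map_prod C,
      ← hprod, h1, mul_sub]
  have h4 : ∀ n : Fin 10 → Ch, IsFrame (π m) (fun i => π (n i)) ↔ IsFrame m n := fun n => by
    simp only [IsFrame, ← h3, hp]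
  rw [J, J, Ideal.map_span]
  refine le_antisymm (Ideal.span_le.mpr ?_) (Ideal.span_le.mpr ?_)
  · rintro _ ⟨_, ⟨n, hn, rfl⟩, rfl⟩
    rw [h2]
    exact Ideal.mul_mem_left _ _ (Ideal.subset_span ⟨_, (h4 n).mpr hn, rfl⟩)
  · rintro _ ⟨n, hn, rfl⟩
    obtain ⟨n, rfl⟩ : ∃ n' : Fin 10 → Ch, n = fun i => π (n' i) :=
      ⟨fun i => π.symm (n i), by simp⟩
    refine (Ideal.unit_mul_mem_iff_mem _ ((isUnit_iff_ne_zero.mpr
      (Finset.prod_ne_zero_iff.mpr fun i (_ : i ∈ Finset.univ) => hu (n i))).map C)).mp ?_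
    rw [← h2]
    exact Ideal.subset_span ⟨_, ⟨n, (h4 n).mp hn, rfl⟩, rfl⟩

end Pool.Agent.P.MP_abfee5_ag
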