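import Pool.Agent.P.MP_abfee5_ag.CT.Iface4
import Pool.Agent.P.MP_abfee5_ag.CT.Iface
import Pool.Agent.P.MP_abfee5_ag.CT.Iface2

/-! Step JRB of the cubic threefold theta project. -/

namespace Pool.Agent.P.MP_abfee5_ag

open Complex Filter Topology MvPolynomial

namespace JrbA

/-- The ten term relation. -/
def R10 : Rel := r0.map fun p =>
  ((if p.2 = 1 then 0 else 4, [p.1 ^^^ 379, p.1 ^^^ 528, p.1 ^^^ 379 ^^^ 528]), p.1)

theorem z6 : z8 ^ 6 = -I := by rw [show z8 ^ 6 = z8 ^ 4 * z8 ^ 2 by ring, z8_four, z8_sq]; ring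

end JrbA

open JrbA in
theorem p_JRB (hRCK : S_RCK) (hDREL : S_DREL) (hEIG : S_EIG) :
    S_JRB := by
  intro τ hτ
  have o := siegel_om hτ
  obtain ⟨e0, e1, e2, e3⟩ := hEIG
  constructor
  · have a := (hRCK 379 (by norm_num) 528 (by norm_num) r0 (-16) (by norm_num) (by decide)).2 e0
      (by decide) τ o
    rw [← show R10.filter (fun p => p.2 ∉ kap) = rb by decide]
    refine hDREL.1 kap R10 τ rfl fun j => ?_
    rw [← a j]
    simp [R10, r0, mval, z8_four, mul_assoc]
  · have a1 := (hRCK 379 (by norm_num) 579 (by norm_num) r1a (-16) (by norm_num) (by decide)).1 e1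
      (by decide) τ o
    have a2 := (hRCK 296 (by norm_num) 528 (by norm_num) r1b (-16) (by norm_num) (by decide)).1 e2
      (by decide) τ o
    have a3 := (hRCK 83 (by norm_num) 824 (by norm_num) r1c (-16) (by norm_num) (by decide)).1 e3
      (by decide) τ o
    have b : rb.map (fun p => (p.1, Pn p.2)) =
      [((4, [336, 571, 832]), [(2, [100, 198, 207, 237, 248, 387, 744]), (2, [100, 415, 756, 911,
      922, 945, 952]), (2, [120, 259, 278, 308, 317, 415, 744]), (2, [120, 387, 598, 607, 616,
      637, 756]), (2, [198, 317, 598, 794, 813, 824, 945]), (6, [207, 308, 607, 794, 804, 817,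
      952]), (6, [237, 278, 637, 774, 817, 824, 922]), (2, [248, 259, 616, 774, 804, 813, 911])]),
      ((4, [317, 598, 813]), [(2, [9, 128, 162, 198, 248, 387, 744]), (2, [9, 415, 756, 911, 945,
      981, 1015]), (6, [21, 278, 308, 336, 366, 415, 744]), (2, [21, 387, 517, 571, 607, 637,
      756]), (2, [128, 278, 637, 774, 824, 860, 1015]), (6, [162, 308, 607, 794, 804, 860, 981]),
      (6, [198, 336, 571, 794, 824, 832, 945]), (6, [248, 366, 517, 774, 804, 832, 911])]), ((0,
      [308, 607, 804]), [(2, [0, 137, 162, 207, 248, 387, 744]), (2, [0, 415, 756, 911, 952, 981,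
      1022]), (2, [28, 278, 317, 336, 359, 415, 744]), (2, [28, 387, 524, 571, 598, 637, 756]),
      (2, [137, 278, 637, 774, 817, 860, 1022]), (6, [162, 317, 598, 794, 813, 860, 981]), (6,
      [207, 336, 571, 794, 817, 832, 952]), (2, [248, 359, 524, 774, 813, 832, 911])]), ((0, [278,
      637, 774]), [(2, [34, 128, 137, 237, 248, 387, 744]), (6, [34, 415, 756, 911, 922, 1015,
      1022]), (2, [62, 308, 317, 325, 336, 415, 744]), (6, [62, 387, 558, 571, 598, 607, 756]),
      (2, [128, 317, 598, 813, 824, 860, 1015]), (6, [137, 308, 607, 804, 817, 860, 1022]), (6,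
      [237, 336, 571, 817, 824, 832, 922]), (2, [248, 325, 558, 804, 813, 832, 911])]), ((4, [415,
      756, 911]), [(2, [0, 9, 34, 100, 248, 387, 744]), (2, [0, 308, 607, 804, 952, 981, 1022]),
      (6, [9, 317, 598, 813, 945, 981, 1015]), (6, [34, 278, 637, 774, 922, 1015, 1022]), (6,
      [100, 336, 571, 832, 922, 945, 952]), (6, [183, 278, 308, 317, 336, 460, 744]), (6, [183,
      387, 571, 598, 607, 637, 679]), (6, [248, 460, 679, 774, 804, 813, 832])]), ((0, [744, 387,
      248]), [(2, [0, 9, 34, 100, 415, 756, 911]), (6, [0, 137, 162, 207, 308, 607, 804]), (2, [9,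
      128, 162, 198, 317, 598, 813]), (6, [34, 128, 137, 237, 278, 637, 774]), (2, [100, 198, 207,
      237, 336, 571, 832]), (2, [278, 308, 317, 336, 415, 699, 960]), (2, [464, 571, 598, 607,
      637, 756, 960]), (2, [464, 699, 774, 804, 813, 832, 911])])] := by decide +kernel
    rw [show (rb.map fun p => mval τ p.1 * pval τ (Pn p.2)) =
      (rb.map fun p => (p.1, Pn p.2)).map fun q => mval τ q.1 * pval τ q.2 by rw [List.map_map]; rfl,
      b]
    simp only [r1a, r1b, r1c, List.map_cons, List.map_nil, List.sum_cons, List.sum_nil,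
      List.prod_cons, List.prod_nil, Nat.reduceXor, mval, pval, z8_four, z8_sq, z6, Int.cast_neg,
      Int.cast_one] at a1 a2 a3 ⊢
    linear_combination
      -I * (th 278 τ * th 308 τ * th 317 τ * th 336 τ * th 415 τ * th 744 τ) * a1 -
      I * (th 387 τ * th 571 τ * th 598 τ * th 607 τ * th 637 τ * th 756 τ) * a2 -
      I * (th 248 τ * th 774 τ * th 804 τ * th 813 τ * th 832 τ * th 911 τ) * a3

end Pool.Agent.P.MP_abfee5_ag
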