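import Pool.Agent.P.MP_abfee5_ag.CT.Iface2
import Pool.Agent.P.MP_abfee5_ag.CT.Iface

/-! Step JRT of the cubic threefold theta project. -/

namespace Pool.Agent.P.MP_abfee5_ag

open Complex Filter Topology MvPolynomial

namespace JrtA

theorem pull {α : Type} (R : List α) (f g : α → ℂ) (c : ℂ) (hc : c ≠ 0)
    (h : ∀ p ∈ R, f p = c * g p) (h0 : (R.map f).sum = 0) : (R.map g).sum = 0 := by
  rw [List.map_congr_left h, List.sum_map_mul_left] at h0
  exact (mul_eq_zero.1 h0).resolve_left hc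

theorem mval_ph (τ : Mat) (k : ℕ) : mval τ (k, []) = z8 ^ k := by simp [mval]

theorem dval_ph (τ : Mat) (X : Mono) : dval τ X = z8 ^ X.1 * dval τ (0, X.2) := by simp [dval]

theorem pval_w {τ τ' : Mat} {c : ℂ} {w : List ℕ}
    (h : ∀ m : Mono, mval τ' m = c ^ m.2.length * mval τ (mact w m)) (P : List Mono)
    (hP : ∀ m ∈ P, m.2.length = 7) : pval τ' P = c ^ 7 * pval τ (pact w P) := by
  rw [pval, pval, pact, List.map_map, ← List.sum_map_mul_left]
  exact congrArg _ (List.map_congr_left fun m hm => by rw [h, hP m hm]; rfl)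

end JrtA

open JrtA

theorem p_JRT (hWORD : S_WORD) :
    S_JRT := by
  intro κ Pn E g δ R hκ hg hE hR hJ τ hτ
  obtain ⟨hτ', c, M, hc, hM, -, -, h1, h2⟩ := (hWORD g).2 τ hτ
  obtain ⟨j1, j2⟩ := hJ _ hτ'
  unfold ract
  rw [List.map_map, List.map_map]
  refine ⟨pull R _ _ (c ^ 8 * M.det) (mul_ne_zero (pow_ne_zero _ hc) hM) (fun p hp => ?_) j1,
    pull R _ _ (c ^ 10 * z8 ^ δ) (mul_ne_zero (pow_ne_zero _ hc) (pow_ne_zero _ z8_ne))
      (fun p hp => ?_) j2⟩
  · rw [h1, h2 _ (by simp [hκ]), (hR p hp).1, dval_ph τ (mact g _), mact_snd, List.map_append, hg]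
    simp only [Function.comp_apply, mval_mmul, mval_ph, List.map_cons, List.map_nil]
    ring
  · obtain ⟨e1, e2⟩ := hE _ (hR p hp).2
    rw [h1, pval_w h1 _ e1, (hR p hp).1, e2.val]
    simp only [Function.comp_apply, mval_mmul, mval_ph]
    ring

end Pool.Agent.P.MP_abfee5_ag
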