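import Pool.Agent.P.MP_abfee5_ag.CT.Iface

/-! Step LA1 of the cubic threefold theta project. -/

namespace Pool.Agent.P.MP_abfee5_ag

open Complex Filter Topology MvPolynomial

namespace La1A

theorem of_eq {R : Type} [CommRing R] {J : Ideal R} {x y : R} (h : x ∈ J) (e : y = x) : y ∈ J :=
  e ▸ h

theorem X_mem {σ : Type} (v : σ) : (X v : MvPolynomial σ ℂ) ∈ idealOfVars σ ℂ :=
  Ideal.subset_span ⟨v, rfl⟩

theorem ord0 {σ : Type} (p : MvPolynomial σ ℂ) : p - C (constantCoeff p) ∈ idealOfVars σ ℂ := by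
  induction p using MvPolynomial.induction_on with
  | C a => simp
  | add p q hp hq =>
    rw [map_add, map_add, add_sub_add_comm]
    exact Ideal.add_mem _ hp hq
  | mul_X p s _ =>
    rw [map_mul, constantCoeff_X, mul_zero, map_zero, sub_zero]
    exact Ideal.mul_mem_left _ _ (X_mem s)

theorem ord1 {σ : Type} [Fintype σ] [DecidableEq σ] (p : MvPolynomial σ ℂ) :
    p - C (constantCoeff p) - ∑ v, C (constantCoeff (pderiv v p)) * X v ∈ idealOfVars σ ℂ ^ 2 := by
  induction p using MvPolynomial.induction_on with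
  | C a => simp
  | add p q hp hq =>
    simp only [map_add, add_mul, Finset.sum_add_distrib]
    exact of_eq (Ideal.add_mem _ hp hq) (by ring)
  | mul_X p s _ =>
    have e : ∀ v, constantCoeff (pderiv v (p * X s)) = if v = s then constantCoeff p else 0 :=
      fun v => by
        by_cases h : v = s
        · simp [h]
        · simp [h, pderiv_X_of_ne (Ne.symm h)]
    simp only [e, apply_ite C, ite_mul, map_zero, zero_mul, Finset.sum_ite_eq', Finset.mem_univ,
      if_true, map_mul, constantCoeff_X, mul_zero, sub_zero, ← sub_mul, sq]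
    exact Ideal.mul_mem_mul (ord0 p) (X_mem s)

variable {α β : Type} (K : Ideal (MvPolynomial (α ⊕ β) ℂ))

/-- `F` has order `k` and its leading part is a polynomial in the second group of variables. -/
def Ld (k : ℕ) (F : MvPolynomial (α ⊕ β) ℂ) : Prop :=
  F ∈ idealOfVars (α ⊕ β) ℂ ^ k ∧ ∃ a : MvPolynomial β ℂ,
    rename Sum.inr a ∈ idealOfVars (α ⊕ β) ℂ ^ k ∧
      F - rename Sum.inr a ∈ K ⊔ idealOfVars (α ⊕ β) ℂ ^ (k + 1)

variable {K}

theorem Ld.add {k : ℕ} {F G : MvPolynomial (α ⊕ β) ℂ} (h : Ld K k F) (h' : Ld K k G) :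
    Ld K k (F + G) := by
  obtain ⟨h1, a, h2, h3⟩ := h
  obtain ⟨g1, b, g2, g3⟩ := h'
  refine ⟨Ideal.add_mem _ h1 g1, a + b, ?_, ?_⟩ <;> rw [map_add]
  · exact Ideal.add_mem _ h2 g2
  · rw [add_sub_add_comm]; exact Ideal.add_mem _ h3 g3

theorem Ld.nil (k : ℕ) : Ld K k 0 := ⟨Ideal.zero_mem _, 0, by simp, by simp⟩

theorem Ld.sum {k : ℕ} {γ : Type} (s : Finset γ) {F : γ → MvPolynomial (α ⊕ β) ℂ}
    (h : ∀ i, Ld K k (F i)) : Ld K k (∑ i ∈ s, F i) :=
  Finset.sum_induction _ _ (fun _ _ => Ld.add) (Ld.nil k) fun i _ => h i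

theorem Ld.mul {k l : ℕ} {F G : MvPolynomial (α ⊕ β) ℂ} (h : Ld K k F) (h' : Ld K l G) :
    Ld K (k + l) (F * G) := by
  obtain ⟨h1, a, h2, h3⟩ := h
  obtain ⟨g1, b, g2, g3⟩ := h'
  have t : ∀ {i j : ℕ} {x y : MvPolynomial (α ⊕ β) ℂ}, x ∈ idealOfVars (α ⊕ β) ℂ ^ i →
      y ∈ K ⊔ idealOfVars (α ⊕ β) ℂ ^ (j + 1) → x * y ∈ K ⊔ idealOfVars (α ⊕ β) ℂ ^ (i + j + 1) :=
    fun hx hy => by
      obtain ⟨u, hu, w, hw, rfl⟩ := Submodule.mem_sup.1 hy
      rw [mul_add, add_assoc, pow_add]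
      exact Submodule.add_mem_sup (Ideal.mul_mem_left _ _ hu) (Ideal.mul_mem_mul hx hw)
  refine ⟨pow_add (idealOfVars (α ⊕ β) ℂ) k l ▸ Ideal.mul_mem_mul h1 g1, a * b, ?_, ?_⟩ <;>
    rw [map_mul]
  · exact pow_add (idealOfVars (α ⊕ β) ℂ) k l ▸ Ideal.mul_mem_mul h2 g2
  · have c := t g1 h3
    rw [add_comm l k] at c
    exact of_eq (Ideal.add_mem _ c (t h2 g3)) (by ring)

theorem Ld.zero (F : MvPolynomial (α ⊕ β) ℂ) : Ld K 0 F :=
  ⟨by simp, C (constantCoeff F), by simp, by
    rw [rename_C, zero_add, pow_one]; exact Ideal.mem_sup_right (ord0 F)⟩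

theorem Ld.left {k : ℕ} {G : MvPolynomial (α ⊕ β) ℂ} (F : MvPolynomial (α ⊕ β) ℂ) (h : Ld K k G) :
    Ld K k (F * G) := by simpa using (Ld.zero F).mul h

end La1A

open La1A in
theorem p_LA1 :
    S_LA1 := by
  intro α β _ _ _ _ f h0 hd
  set K := Ideal.span (Set.range f)
  set M : Matrix α α ℂ := Matrix.of fun i j => constantCoeff (pderiv (Sum.inl j) (f i)) with hM
  have h1 : ∀ i, Ld K 1 (∑ j, C (M i j) * X (Sum.inl j)) := fun i => by
    refine ⟨?_, -∑ b, C (constantCoeff (pderiv (Sum.inr b) (f i))) * X b, ?_, ?_⟩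
    · exact Ideal.sum_mem _ fun j _ => Ideal.mul_mem_left _ _ (by simpa using X_mem _)
    · simp only [map_neg, map_sum, map_mul, rename_X]
      exact Submodule.neg_mem _ (Ideal.sum_mem _ fun j _ => Ideal.mul_mem_left _ _
        (by simpa using X_mem _))
    · have a := ord1 (f i)
      rw [h0, map_zero, sub_zero, Fintype.sum_sum_type] at a
      have b := Submodule.add_mem_sup (S := K) (Ideal.subset_span ⟨i, rfl⟩) (Submodule.neg_mem _ a)
      simp only [map_neg, map_sum, map_mul, rename_X, rename_C, hM, Matrix.of_apply]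
      exact of_eq b (by ring)
  have h2 : ∀ v, Ld K 1 (X v) := by
    rintro (j | b)
    · have a := Ld.sum Finset.univ fun i => Ld.left (C (M⁻¹ j i)) (h1 i)
      simp only [Finset.mul_sum, ← mul_assoc, ← map_mul] at a
      rw [Finset.sum_comm] at a
      simpa only [← Finset.sum_mul, ← map_sum, ← Matrix.mul_apply,
        Matrix.nonsing_inv_mul M hd.isUnit, Matrix.one_apply, apply_ite C, map_one, map_zero,
        ite_mul, one_mul, zero_mul, Finset.sum_ite_eq, Finset.mem_univ, if_true] using a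
    · exact ⟨by simpa using X_mem _, X b, by simpa using X_mem _, by simp⟩
  have h3 : ∀ F ∈ idealOfVars (α ⊕ β) ℂ, Ld K 1 F := fun F hF => by
    induction hF using Submodule.span_induction with
    | mem x hx => obtain ⟨v, rfl⟩ := hx; exact h2 v
    | zero => exact Ld.nil 1
    | add x y _ _ a b => exact a.add b
    | smul r x _ a => exact a.left r
  have h4 : ∀ k, ∀ F ∈ idealOfVars (α ⊕ β) ℂ ^ k, Ld K k F := fun k => by
    induction k with
    | zero => exact fun F _ => Ld.zero F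
    | succ k ih =>
      intro F hF
      rw [pow_succ] at hF
      exact Submodule.mul_induction_on hF (fun x hx y hy => (ih x hx).mul (h3 y hy))
        fun _ _ => Ld.add
  intro k F
  induction k with
  | zero => exact ⟨0, by simp⟩
  | succ k ih =>
    obtain ⟨a, ha⟩ := ih
    obtain ⟨u, hu, w, hw, e⟩ := Submodule.mem_sup.1 ha
    obtain ⟨-, b, -, hb⟩ := h4 k w hw
    refine ⟨a + b, ?_⟩
    rw [map_add, ← sub_sub, ← e, add_sub_assoc]
    exact Ideal.add_mem _ (Ideal.mem_sup_left hu) hb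

end Pool.Agent.P.MP_abfee5_ag
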