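import Pool.Agent.P.MP_abfee5_ag.CT.Iface

/-! Step LA2 of the cubic threefold theta project. -/

namespace Pool.Agent.P.MP_abfee5_ag

open Complex Filter Topology MvPolynomial

namespace La2A

open Asymptotics

theorem one_var (k : ℕ) (g : Polynomial ℂ)
    (h : (fun s : ℂ => g.eval s) =O[𝓝 0] fun s => ‖s‖ ^ k) : Polynomial.X ^ k ∣ g := by
  induction k with
  | zero => simp
  | succ k ih =>
    have h1 : (fun s : ℂ => ‖s‖ ^ (k + 1)) =O[𝓝 0] fun s => ‖s‖ ^ k := by
      have := (isBigO_refl (fun s : ℂ => ‖s‖ ^ k) (𝓝 0)).mul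
        ((continuous_norm.tendsto (0 : ℂ)).isBigO_one ℝ)
      simpa only [mul_one, ← pow_succ] using this
    obtain ⟨g₁, rfl⟩ := ih (h.trans h1)
    rw [pow_succ]
    refine mul_dvd_mul_left _ (Polynomial.X_dvd_iff.2 ?_)
    obtain ⟨C, hC⟩ := h.bound
    have h2 : ∀ᶠ s in 𝓝[≠] (0 : ℂ), ‖g₁.eval s‖ ≤ C * ‖s‖ := by
      filter_upwards [nhdsWithin_le_nhds hC, self_mem_nhdsWithin] with s hs h0
      have h3 : 0 < ‖s‖ ^ k := pow_pos (norm_pos_iff.2 h0) k
      simp only [Polynomial.eval_mul, Polynomial.eval_pow, Polynomial.eval_X, norm_mul, norm_pow,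
        norm_norm] at hs
      refine le_of_mul_le_mul_left (hs.trans_eq ?_) h3
      ring
    have h4 : ‖g₁.eval 0‖ ≤ C * ‖(0 : ℂ)‖ :=
      le_of_tendsto_of_tendsto ((g₁.continuous.norm.tendsto 0).mono_left nhdsWithin_le_nhds)
        (((continuous_const.mul continuous_norm).tendsto 0).mono_left nhdsWithin_le_nhds) h2
    rw [Polynomial.coeff_zero_eq_eval_zero]
    simpa using h4

variable {β : Type} [Fintype β]

omit [Fintype β] in
theorem bdd (a : MvPolynomial β ℂ) : (fun t : β → ℂ => eval t a) =O[𝓝 0] fun _ => (1 : ℝ) :=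
  ((MvPolynomial.continuous_eval a).tendsto 0).isBigO_one ℝ

theorem lin {a : MvPolynomial β ℂ} (h : a ∈ idealOfVars β ℂ) :
    (fun t : β → ℂ => eval t a) =O[𝓝 0] fun t => ‖t‖ := by
  induction h using Submodule.span_induction with
  | mem x hx =>
    obtain ⟨b, rfl⟩ := hx
    exact IsBigO.of_bound' (Eventually.of_forall fun t => by simpa using norm_le_pi_norm t b)
  | zero => simpa using isBigO_zero _ _
  | add x y _ _ hx hy => simpa using hx.add hy
  | smul c x _ hx => simpa using (bdd c).mul hx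

theorem fwd (k : ℕ) {a : MvPolynomial β ℂ} (h : a ∈ idealOfVars β ℂ ^ k) :
    (fun t : β → ℂ => eval t a) =O[𝓝 0] fun t => ‖t‖ ^ k := by
  induction k generalizing a with
  | zero => simpa only [pow_zero] using bdd a
  | succ k ih =>
    rw [pow_succ] at h
    refine Submodule.mul_induction_on h (fun m hm n hn => ?_) fun x y hx hy => ?_
    · simpa only [map_mul, pow_succ] using (ih hm).mul (lin hn)
    · simpa only [map_add] using hx.add hy

theorem bwd (k : ℕ) {a : MvPolynomial β ℂ}
    (h : (fun t : β → ℂ => eval t a) =O[𝓝 0] fun t => ‖t‖ ^ k) {d : ℕ} (hd : d < k) :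
    homogeneousComponent d a = 0 := by
  classical
  refine MvPolynomial.funext fun t => ?_
  set g : Polynomial ℂ :=
    ∑ x ∈ a.support, Polynomial.monomial x.degree (coeff x a * ∏ i, t i ^ x i) with hg
  have h1 : ∀ s : ℂ, g.eval s = eval (s • t) a := fun s => by
    rw [hg, Polynomial.eval_finsetSum, eval_eq']
    refine Finset.sum_congr rfl fun x _ => ?_
    simp only [Polynomial.eval_monomial, Pi.smul_apply, smul_eq_mul, mul_pow,
      Finset.prod_mul_distrib, Finset.prod_pow_eq_pow_sum, Finsupp.degree_eq_sum]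
    ring
  have h2 : Tendsto (fun s : ℂ => s • t) (𝓝 0) (𝓝 0) := by
    exact Continuous.tendsto' (by fun_prop) _ _ (zero_smul _ _)
  have h3 : (fun s : ℂ => g.eval s) =O[𝓝 0] fun s => ‖s‖ ^ k := by
    simp only [h1]
    refine (h.comp_tendsto h2).trans (IsBigO.of_bound (‖t‖ ^ k) (Eventually.of_forall fun s => ?_))
    simp [norm_smul, mul_pow, mul_comm]
  have h4 := Polynomial.X_pow_dvd_iff.1 (one_var k g h3) d hd
  rw [hg, Polynomial.finsetSum_coeff] at h4
  rw [homogeneousComponent_apply, map_sum, Finset.sum_filter, map_zero]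
  refine Eq.trans (Finset.sum_congr rfl fun x _ => ?_) h4
  rw [Polynomial.coeff_monomial, eval_monomial, Finsupp.prod_fintype _ _ fun i => pow_zero _]

end La2A

theorem p_LA2 :
    S_LA2 := by
  intro β _ k a
  refine ⟨La2A.fwd k, fun h => (mem_pow_idealOfVars_iff' k a).2 fun x hx => ?_⟩
  have h1 := coeff_homogeneousComponent x.degree a x
  rw [La2A.bwd k h hx, if_pos rfl] at h1
  exact h1.symm

end Pool.Agent.P.MP_abfee5_ag
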