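import Pool.Agent.P.MP_abfee5_ag.CT.Iface

/-! Step LA3 of the cubic threefold theta project. -/

namespace Pool.Agent.P.MP_abfee5_ag

open Complex Filter Topology MvPolynomial

namespace La3A

theorem krull {R : Type} [CommRing R] [IsNoetherianRing R] (K m : Ideal R) (F : R)
    (h : ∀ k, F ∈ K ⊔ m ^ k) : ∃ r ∈ m, (1 - r) * F ∈ K := by
  have h1 : Submodule.mkQ K F ∈ (⨅ k : ℕ, m ^ k • ⊤ : Submodule R (R ⧸ K)) := by
    refine (Submodule.mem_iInf _).2 fun k => ?_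
    obtain ⟨a, ha, b, hb, rfl⟩ := Submodule.mem_sup.1 (h k)
    rw [map_add, (Submodule.Quotient.mk_eq_zero K).2 ha |> (Submodule.mkQ_apply K a).trans, zero_add,
      ← mul_one b, ← smul_eq_mul, map_smul]
    exact Submodule.smul_mem_smul hb trivial
  obtain ⟨r, hr⟩ := (Ideal.mem_iInf_smul_pow_eq_bot_iff m _).1 h1
  refine ⟨r, r.2, (Submodule.Quotient.mk_eq_zero K).1 ?_⟩
  rw [← Submodule.mkQ_apply, ← smul_eq_mul, map_smul, sub_smul, one_smul, hr, sub_self]

end La3A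

theorem p_LA3 (hLA1 : S_LA1) (hLA2 : S_LA2) :
    S_LA3 := by
  intro α β _ _ _ _ f h0 hd ψ hψ ψ0 hz F hF
  have hO : ψ =O[𝓝 0] fun t => t := by simpa [ψ0] using hψ.isBigO_sub
  have hT : Tendsto ψ (𝓝 0) (𝓝 0) := by simpa [ψ0] using hψ.continuousAt.tendsto
  obtain ⟨r, hr, h⟩ := La3A.krull (Ideal.span (Set.range f)) (idealOfVars (α ⊕ β) ℂ) F fun k => by
    obtain ⟨a, ha⟩ := hLA1 α β f h0 hd k F
    obtain ⟨c, hc, r, hr, e⟩ := Submodule.mem_sup.1 ha
    have h1 : (fun t => eval (ψ t) r) =O[𝓝 0] fun t : β → ℂ => ‖t‖ ^ k :=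
      (((hLA2 _ k r).1 hr).comp_tendsto hT).trans (hO.norm_norm.pow k)
    have h2 : a ∈ idealOfVars β ℂ ^ k := (hLA2 _ k a).2 (h1.neg_left.congr' (by
      filter_upwards [hz, hF] with t ht h3
      have h4 : eval (ψ t) c = 0 := (Ideal.span_le (I := RingHom.ker (eval (ψ t)))).2
        (by rintro _ ⟨i, rfl⟩; exact ht.1 i) hc
      have h5 := congrArg (eval (ψ t)) e
      rw [map_add, map_sub, h3, h4, eval_rename, show ψ t ∘ Sum.inr = t from funext ht.2] at h5
      linear_combination -h5) EventuallyEq.rfl)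
    have h3 : rename Sum.inr a ∈ idealOfVars (α ⊕ β) ℂ ^ k := by
      have := Ideal.mem_map_of_mem (rename (R := ℂ) (Sum.inr : β → α ⊕ β)) h2
      rw [Ideal.map_pow] at this
      refine Ideal.pow_right_mono ?_ k this
      rw [idealOfVars, Ideal.map_span]
      refine Ideal.span_mono ?_
      rintro _ ⟨_, ⟨b, rfl⟩, rfl⟩
      exact ⟨Sum.inr b, (rename_X _ _).symm⟩
    exact sub_add_cancel F (rename Sum.inr a) ▸ add_mem ha (Submodule.mem_sup_right h3)
  refine ⟨1 - r, ?_, h⟩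
  have : constantCoeff r = 0 := (Ideal.span_le (I := RingHom.ker constantCoeff)).2
    (by rintro _ ⟨i, rfl⟩; exact constantCoeff_X ℂ i) hr
  simp [this]

end Pool.Agent.P.MP_abfee5_ag
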