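import Pool.Agent.P.MP_abfee5_ag.CT.Iface

/-! Step LA4 of the cubic threefold theta project. -/

namespace Pool.Agent.P.MP_abfee5_ag

open Complex Filter Topology MvPolynomial

namespace La4A

variable {ι : Type} [Fintype ι] [DecidableEq ι]

omit [DecidableEq ι] in
theorem an_eval (p : MvPolynomial ι ℂ) (x : ι → ℂ) : AnalyticAt ℂ (fun y => eval y p) x := by
  induction p using MvPolynomial.induction_on with
  | C c => simpa using analyticAt_const
  | add p q hp hq => simp only [map_add]; exact hp.add hq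
  | mul_X p s hp =>
    simp only [map_mul, eval_X]
    exact hp.mul ((ContinuousLinearMap.proj (R := ℂ) (φ := fun _ : ι => ℂ) s).analyticAt x)

theorem fd_eval (p : MvPolynomial ι ℂ) (x : ι → ℂ) : HasFDerivAt (fun y => eval y p)
    (∑ v, eval x (pderiv v p) • ContinuousLinearMap.proj (R := ℂ) (φ := fun _ : ι => ℂ) v) x := by
  induction p using MvPolynomial.induction_on with
  | C c =>
    simp only [eval_C]
    refine (hasFDerivAt_const (𝕜 := ℂ) c x).congr_fderiv (ContinuousLinearMap.ext fun y => ?_)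
    simp
  | add p q hp hq =>
    have h := hp.add hq
    simp only [map_add]
    refine HasFDerivAt.congr_fderiv h (ContinuousLinearMap.ext fun y => ?_)
    simp [add_mul, Finset.sum_add_distrib]
  | mul_X p s hp =>
    have h := hp.mul (ContinuousLinearMap.proj (R := ℂ) (φ := fun _ : ι => ℂ) s).hasFDerivAt
    simp only [map_mul, eval_X]
    refine HasFDerivAt.congr_fderiv h (ContinuousLinearMap.ext fun y => ?_)
    simp [add_mul, Finset.sum_add_distrib, Finset.mul_sum, pderiv_X, Pi.single_apply, mul_assoc,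
      apply_ite]

end La4A

open La4A in
theorem p_LA4 :
    S_LA4 := by
  intro α β _ _ _ _ f h0 hdet
  let Φ : (α ⊕ β → ℂ) → (α ⊕ β → ℂ) := fun x s => eval x (Sum.elim f (fun b => X (Sum.inr b)) s)
  have hΦ : AnalyticAt ℂ Φ 0 := analyticAt_pi_iff.2 fun s => an_eval _ _
  let L : (α ⊕ β → ℂ) →L[ℂ] (α ⊕ β → ℂ) := ContinuousLinearMap.pi fun s =>
    ∑ v, eval 0 (pderiv v (Sum.elim f (fun b => X (Sum.inr b)) s)) •
      ContinuousLinearMap.proj (R := ℂ) (φ := fun _ : α ⊕ β => ℂ) v
  have hL : HasFDerivAt Φ L 0 := hasFDerivAt_pi.2 fun s => fd_eval _ _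
  have hinj : Function.Injective (L : (α ⊕ β → ℂ) →ₗ[ℂ] (α ⊕ β → ℂ)) := by
    refine (injective_iff_map_eq_zero _).2 fun h hh => ?_
    have h1 : ∀ s, ∑ v, constantCoeff (pderiv v (Sum.elim f (fun b => X (Sum.inr b)) s)) * h v = 0 := by
      intro s
      simpa [L] using congrFun hh s
    have h2 : ∀ b, h (Sum.inr b) = 0 := by
      intro b
      have := h1 (Sum.inr b)
      rw [Finset.sum_eq_single (Sum.inr b)] at this
      · simpa using this
      · intro v _ hv; simp [pderiv_X, hv.symm]
      · simp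
    have h3 : (fun a => h (Sum.inl a)) = 0 := by
      refine Matrix.eq_zero_of_mulVec_eq_zero hdet (funext fun i => ?_)
      have := h1 (Sum.inl i)
      simpa [Fintype.sum_sum_type, h2, Matrix.mulVec, dotProduct] using this
    funext s
    rcases s with a | b
    · exact congrFun h3 a
    · exact h2 b
  let e := (LinearEquiv.ofInjectiveEndo _ hinj).toContinuousLinearEquiv
  have he : fderiv ℂ Φ 0 = (e : (α ⊕ β → ℂ) →L[ℂ] (α ⊕ β → ℂ)) := hL.fderiv
  have hs : HasStrictFDerivAt Φ (e : (α ⊕ β → ℂ) →L[ℂ] (α ⊕ β → ℂ)) 0 := he ▸ hΦ.hasStrictFDerivAt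
  have hΦ0 : Φ 0 = 0 := by
    funext s
    rcases s with a | b <;> simp [Φ, h0]
  have hA : AnalyticAt ℂ (hs.localInverse Φ e 0) (Φ 0) :=
    (hs.toOpenPartialHomeomorph Φ).analyticAt_symm' hs.mem_toOpenPartialHomeomorph_source hΦ he
  let j : (β → ℂ) → (α ⊕ β → ℂ) := fun t => Sum.elim 0 t
  have hj0 : j 0 = Φ 0 := by
    rw [hΦ0]; funext s; rcases s with a | b <;> rfl
  have hj : AnalyticAt ℂ j 0 := by
    refine analyticAt_pi_iff.2 fun s => ?_
    rcases s with a | b
    · exact analyticAt_const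
    · exact (ContinuousLinearMap.proj (R := ℂ) (φ := fun _ : β => ℂ) b).analyticAt 0
  refine ⟨fun t => hs.localInverse Φ e 0 (j t), (hj0 ▸ hA).comp hj, ?_, ?_, ?_⟩
  · show hs.localInverse Φ e 0 (j 0) = 0
    rw [hj0]; exact hs.localInverse_apply_image
  · have := hj.continuousAt.tendsto.eventually (hj0 ▸ hs.eventually_right_inverse)
    filter_upwards [this] with t ht
    refine ⟨fun i => congrFun ht (Sum.inl i), fun b => ?_⟩
    simpa [Φ, j] using congrFun ht (Sum.inr b)
  · filter_upwards [hs.eventually_left_inverse] with x hx hf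
    have : j (fun b => x (Sum.inr b)) = Φ x := by
      funext s
      rcases s with a | b
      · exact (hf a).symm
      · simp [Φ, j]
    show hs.localInverse Φ e 0 (j _) = x
    rw [this, hx]

end Pool.Agent.P.MP_abfee5_ag
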