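import Pool.Agent.P.MP_abfee5_ag.CT.Iface

/-! Step LA5 of the cubic threefold theta project. -/

namespace Pool.Agent.P.MP_abfee5_ag

open Complex Filter Topology MvPolynomial

namespace La5A

/-- The polynomials that vanish on the image of a neighbourhood of the origin. -/
def van {ι β : Type} (ψ : (β → ℂ) → ι → ℂ) : Ideal (MvPolynomial ι ℂ) where
  carrier := {F | ∀ᶠ t in 𝓝 0, eval (ψ t) F = 0}
  zero_mem' := Eventually.of_forall fun _ => map_zero _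
  add_mem' := fun a b => (Eventually.and a b).mono fun _ h => by rw [map_add, h.1, h.2, add_zero]
  smul_mem' := fun _ _ a => Eventually.mono a fun _ h => by rw [smul_eq_mul, map_mul, h, mul_zero]

theorem prime {ι β : Type} [Fintype ι] [Fintype β] {ψ : (β → ℂ) → ι → ℂ}
    (h : AnalyticAt ℂ ψ 0) : (van ψ).IsPrime := by
  refine ⟨fun e => ?_, fun {F G} a => ?_⟩
  · have : (1 : MvPolynomial ι ℂ) ∈ van ψ := e ▸ Submodule.mem_top
    simpa using Eventually.self_of_nhds this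
  obtain ⟨r, hr, b⟩ := Metric.eventually_nhds_iff_ball.1 (Eventually.and a h.eventually_analyticAt)
  have an : ∀ F : MvPolynomial ι ℂ, AnalyticOnNhd ℂ (fun t => eval (ψ t) F) (Metric.ball 0 r) :=
    fun F t ht => (AnalyticOnNhd.eval_mvPolynomial F _ (Set.mem_univ _)).comp (b t ht).2
  by_cases c : ∀ t ∈ Metric.ball (0 : β → ℂ) r, eval (ψ t) F = 0
  · exact Or.inl (eventually_of_mem (Metric.ball_mem_nhds 0 hr) c)
  simp only [not_forall] at c
  obtain ⟨t, ht, c⟩ := c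
  refine Or.inr (eventually_of_mem (Metric.ball_mem_nhds 0 hr)
    ((an G).eqOn_zero_of_preconnected_of_eventuallyEq_zero (convex_ball _ _).isPreconnected ht ?_))
  filter_upwards [(an F t ht).continuousAt.eventually_ne c, Metric.isOpen_ball.mem_nhds ht]
    with s h1 h2
  have := (b s h2).1
  rw [map_mul] at this
  exact (mul_eq_zero.1 this).resolve_left h1

end La5A

theorem p_LA5 (hLA3 : S_LA3) (hLA4 : S_LA4) :
    S_LA5 := by
  intro E _ _ _ α β κ _ _ _ _ _ Jd f γ ξ γ' ξ' e₀ hγ hξ γ0 ξ0 hf hv hd hs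
  have h0 : ∀ i, constantCoeff (f i) = 0 := fun i => by
    have := (hv _ (hf i)).self_of_nhds γ0
    rwa [ξ0, eval_zero] at this
  obtain ⟨ψ, ψa, ψ0, ψ1, ψ2⟩ := hLA4 α β f h0 hd
  let r : (α ⊕ β → ℂ) →L[ℂ] β → ℂ :=
    ContinuousLinearMap.pi fun b => ContinuousLinearMap.proj (Sum.inr b)
  have hΦ := (hγ.prodMk (r.hasStrictFDerivAt.comp e₀ hξ)).map_nhds_eq_of_surj (by
    rw [eq_top_iff]
    rintro ⟨u, t⟩ -
    obtain ⟨h, a, b⟩ := hs u t
    exact ⟨h, Prod.ext a (funext b)⟩)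
  have tξ : Tendsto ξ (𝓝 e₀) (𝓝 0) := ξ0 ▸ hξ.continuousAt.tendsto
  have tr : Tendsto r (𝓝 0) (𝓝 0) := by simpa using r.continuous.tendsto 0
  have I1 : ∀ᶠ y in 𝓝 e₀, γ y = 0 → ψ (r (ξ y)) = ξ y := by
    filter_upwards [tξ.eventually ψ2, eventually_all.2 fun i => hv _ (hf i)] with y a b c
    exact a fun i => b i c
  have I2 : ∀ W ∈ 𝓝 e₀, ∀ᶠ t in 𝓝 0, ∃ y ∈ W, γ y = 0 ∧ ξ y = ψ t := fun W hW => by
    have a := image_mem_map (m := fun y => (γ y, r (ξ y))) (inter_mem hW I1)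
    have e : map (fun y => (γ y, r (ξ y))) (𝓝 e₀) = 𝓝 (0, 0) := by
      simpa [γ0, ξ0] using hΦ
    rw [e] at a
    filter_upwards [(Continuous.prodMk_right (0 : κ → ℂ)).continuousAt.preimage_mem_nhds a]
      with t ⟨y, hy, c⟩
    obtain ⟨c1, c2⟩ := Prod.mk.inj c
    exact ⟨y, hy.1, c1, by rw [← c2, hy.2 c1]⟩
  have P2 : ∀ F, F ∈ La5A.van ψ ↔ ∀ᶠ y in 𝓝 e₀, γ y = 0 → eval (ξ y) F = 0 := fun F => by
    refine ⟨fun a => ?_, fun a => ?_⟩
    · filter_upwards [(tr.comp tξ).eventually a, I1] with y b c d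
      rw [← c d]; exact b
    · filter_upwards [I2 _ a] with t ⟨y, b, c, d⟩
      rw [← d]; exact b c
  have le : Jd ≤ La5A.van ψ := fun F hF => (P2 F).2 (hv F hF)
  have pr := La5A.prime ψa
  have nm : ∀ g, eval (ξ e₀) g ≠ 0 → g ∉ La5A.van ψ := fun g hg a =>
    hg (by rw [ξ0, ← ψ0]; exact Eventually.self_of_nhds (p := fun t => eval (ψ t) g = 0) a)
  have P1 : ∀ F, F ∈ La5A.van ψ ↔ ∃ g, eval (ξ e₀) g ≠ 0 ∧ g * F ∈ Jd := fun F => by
    refine ⟨fun a => ?_, fun ⟨g, a, b⟩ => (pr.mem_or_mem (le b)).resolve_left (nm g a)⟩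
    obtain ⟨g, b, c⟩ := hLA3 α β f h0 hd ψ ψa.differentiableAt ψ0 ψ1 F a
    exact ⟨g, by rwa [ξ0, eval_zero], Ideal.span_le.2 (by rintro _ ⟨i, rfl⟩; exact hf i) c⟩
  refine ⟨La5A.van ψ, ⟨⟨pr, le⟩, fun q hq hle F hF => ?_⟩, P1, P2, fun W hW => ?_⟩
  · obtain ⟨g, a, b⟩ := (P1 F).1 hF
    exact (hq.1.mem_or_mem (hq.2 b)).resolve_left fun c => nm g a (hle c)
  · rw [ξ0]
    filter_upwards [tr.eventually (I2 W hW), ψ2] with x ⟨y, a, b, c⟩ d e
    exact ⟨y, a, b, c.trans (d fun i => e _ (hf i))⟩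

end Pool.Agent.P.MP_abfee5_ag
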