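import Pool.Agent.P.MP_abfee5_ag.CT.Iface

/-! Step LOC of the cubic threefold theta project. -/

namespace Pool.Agent.P.MP_abfee5_ag

open Complex Filter Topology MvPolynomial

namespace LocA

variable {ι σ : Type}

/-- Renaming and translating the variables. -/
noncomputable def tr (r : ι → σ) (c : ι → ℂ) : MvPolynomial ι ℂ →ₐ[ℂ] MvPolynomial σ ℂ :=
  aeval fun i => X (r i) + C (c i)

theorem tr_X (r : ι → σ) (c : ι → ℂ) (i : ι) : tr r c (X i) = X (r i) + C (c i) := aeval_X _ _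

theorem tr_C (r : ι → σ) (c : ι → ℂ) (a : ℂ) : tr r c (C a) = C a := aeval_C _ _

theorem eval_tr (r : ι → σ) (c : ι → ℂ) (z : σ → ℂ) (F : MvPolynomial ι ℂ) :
    eval z (tr r c F) = eval (fun i => z (r i) + c i) F := by
  induction F using MvPolynomial.induction_on with
  | C a => simp
  | add p q hp hq => simp [hp, hq]
  | mul_X p i hp => simp [hp, tr_X]

theorem tr_tr (r : ι → σ) (r' : σ → ι) (c : ι → ℂ) (c' : σ → ℂ) (h : ∀ i, r' (r i) = i)
    (hc : ∀ i, c' (r i) + c i = 0) (F : MvPolynomial ι ℂ) : tr r' c' (tr r c F) = F := by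
  induction F using MvPolynomial.induction_on with
  | C a => simp
  | add p q hp hq => simp [hp, hq]
  | mul_X p i hp =>
    rw [map_mul, map_mul, hp, tr_X, map_add, tr_X, tr_C, h, add_assoc, ← C_add, hc, C_0, add_zero]

theorem pderiv_tr (e : σ ≃ ι) (c : ι → ℂ) (v : σ) (F : MvPolynomial ι ℂ) :
    pderiv v (tr e.symm c F) = tr e.symm c (pderiv (e v) F) := by
  classical
  induction F using MvPolynomial.induction_on with
  | C a => simp
  | add p q hp hq => simp [hp, hq]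
  | mul_X p i hp =>
    obtain ⟨u, rfl⟩ := e.surjective i
    by_cases h : u = v
    · subst h
      simp [hp, tr_X]
    · have h' : e u ≠ e v := fun k => h (e.injective k)
      simp [hp, tr_X, pderiv_X_of_ne h, pderiv_X_of_ne h']

end LocA

open LocA in
theorem p_LOC (hLA5 : S_LA5) :
    S_LOC := by
  intro E _ _ _ ι α β κ _ _ _ _ _ _ _ e Jd f γ ξ γ' ξ' e₀ hγ hξ hγ0 hf hJ hdet hsur
  obtain ⟨A, hA⟩ : ∃ A, A = tr e.symm (ξ e₀) := ⟨_, rfl⟩
  obtain ⟨B, hB⟩ : ∃ B, B = tr e fun v => -ξ e₀ (e v) := ⟨_, rfl⟩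
  obtain ⟨T, hT⟩ : ∃ T : (ι → ℂ) → α ⊕ β → ℂ, T = fun x v => x (e v) + -ξ e₀ (e v) := ⟨_, rfl⟩
  have hBA : ∀ F, B (A F) = F := by
    rw [hA, hB]
    exact tr_tr _ _ _ _ e.apply_symm_apply fun i => by simp
  have hAB : ∀ G, A (B G) = G := by
    rw [hA, hB]
    exact tr_tr _ _ _ _ e.symm_apply_apply fun v => by simp
  have evB : ∀ x G, eval x (B G) = eval (T x) G := fun x G => by rw [hB, hT, eval_tr]
  have evA : ∀ x F, eval (T x) (A F) = eval x F := fun x F => by rw [← evB, hBA]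
  have hT0 : T (ξ e₀) = 0 := by
    rw [hT]
    funext v
    simp
  have hTc : Continuous T := by
    rw [hT]
    fun_prop
  have hTi : Function.Injective T := by
    rw [hT]
    intro x y h
    funext i
    obtain ⟨v, rfl⟩ := e.surjective i
    exact add_right_cancel (congrFun h v)
  have hd : HasStrictFDerivAt (fun y => T (ξ y))
      (ContinuousLinearMap.pi fun v => (ContinuousLinearMap.proj (e v)).comp ξ') e₀ := by
    rw [hT]
    exact hasStrictFDerivAt_pi.2 fun v => (hasStrictFDerivAt_pi'.1 hξ (e v)).add_const _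
  obtain ⟨p, hp, h1, h2, h3⟩ := hLA5 E α β κ (Jd.comap B) (fun i => A (f i)) γ (fun y => T (ξ y))
    γ' _ e₀ hγ hd hγ0 hT0 (fun i => by rw [Ideal.mem_comap, hBA]; exact hf i)
    (fun G hG => by simpa only [evB] using hJ _ hG)
    (by
      have : ∀ i j, constantCoeff (pderiv (Sum.inl j) (A (f i))) =
          eval (ξ e₀) (pderiv (e (Sum.inl j)) (f i)) := fun i j => by
        rw [← evA, hT0, hA, pderiv_tr, eval_zero]
      simpa only [this] using hdet) hsur
  have k1 : ∀ F, F ∈ p.comap A ↔ ∃ g, eval (ξ e₀) g ≠ 0 ∧ g * F ∈ Jd := fun F => by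
    rw [Ideal.mem_comap, h1]
    constructor
    · rintro ⟨g, hg, hm⟩
      refine ⟨B g, by rwa [evB], ?_⟩
      rwa [Ideal.mem_comap, map_mul, hBA] at hm
    · rintro ⟨g, hg, hm⟩
      refine ⟨A g, by rwa [evA], ?_⟩
      rwa [Ideal.mem_comap, map_mul, hBA, hBA]
  have k2 : ∀ F, F ∈ p.comap A ↔ ∀ᶠ y in 𝓝 e₀, γ y = 0 → eval (ξ y) F = 0 := fun F => by
    rw [Ideal.mem_comap, h2]
    simp only [evA]
  have hpp : p.IsPrime := hp.1.1
  refine ⟨p.comap A, ⟨⟨Ideal.comap_isPrime A p, fun F hF => (k1 F).2 ⟨1, by simp, by simpa⟩⟩,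
    fun q hq hqp F hF => ?_⟩, k1, k2, fun W hW => ?_⟩
  · obtain ⟨g, hg, hm⟩ := (k1 F).1 hF
    exact (hq.1.mem_or_mem (hq.2 hm)).resolve_left fun h =>
      hg (((k2 g).1 (hqp h)).self_of_nhds hγ0)
  · filter_upwards [hTc.continuousAt.eventually (h3 W hW)] with x hx hv
    obtain ⟨y, hy, hy0, hyx⟩ := hx fun G hG => by rw [← evB]; exact hv _ hG
    exact ⟨y, hy, hy0, hTi hyx⟩

end Pool.Agent.P.MP_abfee5_ag
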