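import Pool.Agent.P.MP_abfee5_ag.CT.Iface3

/-! Integer model for step MENC of the cubic threefold theta project. -/

namespace Pool.Agent.P.MP_abfee5_ag

namespace MencA

/-- Product of pairs. -/
def gm (a b : ℤ × ℤ) : ℤ × ℤ := (a.1 * b.1 - a.2 * b.2, a.1 * b.2 + a.2 * b.1)

/-- Sum of pairs. -/
def ga (a b : ℤ × ℤ) : ℤ × ℤ := (a.1 + b.1, a.2 + b.2)

/-- Difference of pairs. -/
def gs (a b : ℤ × ℤ) : ℤ × ℤ := (a.1 - b.1, a.2 - b.2)

/-- Sign change. -/
def sg (e : ℕ) (a : ℤ × ℤ) : ℤ × ℤ := if e = 0 then a else (-a.1, -a.2)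

/-- Sum of the absolute values. -/
def l1 (a : ℤ × ℤ) : ℕ := a.1.natAbs + a.2.natAbs

/-- Table value. -/
def tX (s : ℕ) : ℤ × ℤ := xt.getD s (0, 0)

/-- Model of the quadric, scale `2 ^ 448`. -/
def QI (n : ℕ) : ℤ × ℤ :=
  (List.range 32).foldr
    (fun s acc => ga (sg (pop5 (s &&& n)) (gm (tX s) (tX (s ^^^ (n >>> 5))))) acc) (0, 0)

/-- Approximate inverse, scale `2 ^ 140`. -/
def inv (q : ℤ × ℤ) : ℤ × ℤ :=
  (q.1 * 2 ^ 588 / (q.1 * q.1 + q.2 * q.2), -q.2 * 2 ^ 588 / (q.1 * q.1 + q.2 * q.2))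

/-- Check of the inverse. -/
def ok (n : ℕ) (r : ℤ × ℤ) : Bool :=
  decide (n < 1024) && decide (l1 (gs (gm (QI n) r) (2 ^ 588, 0)) ≤ 2 ^ 453) &&
    decide (l1 r ≤ 2 ^ 215)

/-- Model of one term, scale `2 ^ 364`. -/
def tm (n : ℕ) (r : ℤ × ℤ) (ρ : ℕ) : ℤ × ℤ :=
  sg (pop5 (ρ &&& n)) (gm (tX (ρ ^^^ (n >>> 5))) r)

/-- Model of one entry, scale `2 ^ 364`. -/
def en (L : List ℕ) (s ρ : ℕ) : ℤ × ℤ :=
  L.foldr (fun n acc =>
    ga (gs (tm n (inv (QI n)) ρ) (tm (n ^^^ s) (inv (QI (n ^^^ s))) ρ)) acc) (0, 0)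

/-- Check of one row. -/
def rowOk (i : ℕ) : Bool :=
  (frL.getD i []).all (fun n => ok n (inv (QI n)) &&
    ok (n ^^^ xsum (frL.getD i [])) (inv (QI (n ^^^ xsum (frL.getD i []))))) &&
  (List.range 21).all fun j => decide (l1 (gs
    (en (frL.getD i []) (xsum (frL.getD i [])) (rhoL.getD j 0))
    (gm (ent mt21 i j) (2 ^ (308 + rhoE.getD j 0), 0))) ≤ 2 ^ (314 + rhoE.getD j 0))

theorem r0 : (List.range' 0 7).all rowOk = true := by decide +kernel

theorem r1 : (List.range' 7 7).all rowOk = true := by decide +kernel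

theorem r2 : (List.range' 14 7).all rowOk = true := by decide +kernel

theorem rows (i : ℕ) (hi : i < 21) : rowOk i = true := by
  have h0 := List.all_eq_true.1 r0
  have h1 := List.all_eq_true.1 r1
  have h2 := List.all_eq_true.1 r2
  by_cases a : i < 7
  · exact h0 i (List.mem_range'_1.2 ⟨by omega, by omega⟩)
  by_cases b : i < 14
  · exact h1 i (List.mem_range'_1.2 ⟨by omega, by omega⟩)
  · exact h2 i (List.mem_range'_1.2 ⟨by omega, by omega⟩)

theorem xb : (List.range 32).all (fun s => decide (l1 (tX s) ≤ 2 ^ 224 + 2 ^ 222)) = true := by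
  decide +kernel

theorem len : (List.range 21).all (fun i => decide ((frL.getD i []).length = 10) &&
    decide (rhoL.getD i 0 < 32)) = true := by
  decide +kernel

end MencA

end Pool.Agent.P.MP_abfee5_ag
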