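import Pool.Agent.P.MP_abfee5_ag.CT.Iface3
import Pool.Agent.P.MP_abfee5_ag.CT.Menc1

/-! Step MENC of the cubic threefold theta project. -/

namespace Pool.Agent.P.MP_abfee5_ag

open Complex Filter Topology MvPolynomial

namespace MencA

theorem gz_gm (a b : ℤ × ℤ) : gz (gm a b) = gz a * gz b := by
  simp only [gz, gm]
  push_cast
  linear_combination (-(a.2 : ℂ) * b.2) * I_mul_I

theorem gz_ga (a b : ℤ × ℤ) : gz (ga a b) = gz a + gz b := by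
  simp only [gz, ga]
  push_cast
  ring

theorem gz_gs (a b : ℤ × ℤ) : gz (gs a b) = gz a - gz b := by
  simp only [gz, gs]
  push_cast
  ring

theorem gz_sg (y : ℕ) (a : ℤ × ℤ) : gz (sg (pop5 y) a) = (-1) ^ pop5 y * gz a := by
  have h : pop5 y < 2 := Nat.mod_lt _ (by norm_num)
  by_cases h0 : pop5 y = 0
  · simp [sg, h0]
  · have h1 : pop5 y = 1 := by omega
    simp only [sg, h1, gz]
    norm_num
    ring

theorem gz_pow (k : ℕ) : gz (2 ^ k, 0) = 2 ^ k := by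
  simp [gz]

theorem norm_gz (a : ℤ × ℤ) : ‖gz a‖ ≤ (l1 a : ℝ) := by
  have h1 : ‖(a.1 : ℂ)‖ = (a.1.natAbs : ℝ) := by
    rw [Complex.norm_intCast, Nat.cast_natAbs, Int.cast_abs]
  have h2 : ‖(a.2 : ℂ) * I‖ = (a.2.natAbs : ℝ) := by
    rw [norm_mul, Complex.norm_I, mul_one, Complex.norm_intCast, Nat.cast_natAbs, Int.cast_abs]
  calc ‖gz a‖ ≤ ‖(a.1 : ℂ)‖ + ‖(a.2 : ℂ) * I‖ := norm_add_le _ _
    _ = (l1 a : ℝ) := by rw [h1, h2, l1]; push_cast; ring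

theorem norm_div_le (a : ℤ × ℤ) (k : ℕ) (c : ℝ) (m : ℕ) (h : l1 a ≤ m)
    (hc : (m : ℝ) ≤ c * 2 ^ k) : ‖gz a / 2 ^ k‖ ≤ c := by
  have h2 : (0 : ℝ) < 2 ^ k := by positivity
  rw [norm_div, norm_pow, Complex.norm_ofNat, div_le_iff₀ h2]
  calc ‖gz a‖ ≤ (l1 a : ℝ) := norm_gz a
    _ ≤ (m : ℝ) := by exact_mod_cast h
    _ ≤ c * 2 ^ k := hc

theorem gz_foldr (f : ℕ → ℤ × ℤ) (L : List ℕ) :
    gz (L.foldr (fun s acc => ga (f s) acc) (0, 0)) = (L.map fun s => gz (f s)).sum := by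
  induction L with
  | nil => simp [gz]
  | cons a L ih => simp only [List.foldr_cons, List.map_cons, List.sum_cons, gz_ga, ih]

theorem tb (s : ℕ) (hs : s < 32) : ‖gz (tX s) / 2 ^ 224‖ ≤ 5 / 4 := by
  have h := List.all_eq_true.1 xb s (List.mem_range.2 hs)
  refine norm_div_le _ _ _ _ (of_decide_eq_true h) ?_
  push_cast
  norm_num

theorem sh_lt (n : ℕ) (hn : n < 1024) (s : ℕ) (hs : s < 32) : s ^^^ (n >>> 5) < 32 := by
  have h1 : n >>> 5 < 2 ^ 5 := by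
    rw [Nat.shiftRight_eq_div_pow]
    omega
  exact Nat.xor_lt_two_pow (n := 5) hs h1

theorem norm_sgn (e : ℕ) : ‖(-1 : ℂ) ^ e‖ = 1 := by
  rw [norm_pow, norm_neg, norm_one, one_pow]

theorem qerr (x : ℕ → ℂ) (hx : Encl x) (n : ℕ) (hn : n < 1024) :
    ‖Qx x n - gz (QI n) / 2 ^ 448‖ ≤ 1 / 2 ^ 203 := by
  have e : gz (QI n) = ∑ s ∈ Finset.range 32,
      gz (sg (pop5 (s &&& n)) (gm (tX s) (tX (s ^^^ (n >>> 5))))) := by
    rw [QI, gz_foldr]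
    rfl
  rw [e, Finset.sum_div, Qx, ← Finset.sum_sub_distrib]
  refine (norm_sum_le _ _).trans ?_
  have key : ∀ s ∈ Finset.range 32,
      ‖(-1 : ℂ) ^ pop5 (s &&& n) * x s * x (s ^^^ (n >>> 5)) -
        gz (sg (pop5 (s &&& n)) (gm (tX s) (tX (s ^^^ (n >>> 5))))) / 2 ^ 448‖ ≤ 1 / 2 ^ 208 := by
    intro s hs
    have hs' := Finset.mem_range.1 hs
    have hu := sh_lt n hn s hs'
    have a1 : ‖x s - gz (tX s) / 2 ^ 224‖ ≤ 1 / 2 ^ 210 := hx s hs'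
    have a2 : ‖x (s ^^^ (n >>> 5)) - gz (tX (s ^^^ (n >>> 5))) / 2 ^ 224‖ ≤ 1 / 2 ^ 210 := hx _ hu
    have b1 := tb s hs'
    have b2 := tb _ hu
    rw [gz_sg, gz_gm]
    generalize x s = u at *
    generalize x (s ^^^ (n >>> 5)) = v at *
    generalize gz (tX s) = a at *
    generalize gz (tX (s ^^^ (n >>> 5))) = b at *
    have hv : ‖v‖ ≤ 2 := by
      have : ‖v‖ ≤ ‖v - b / 2 ^ 224‖ + ‖b / 2 ^ 224‖ := by
        generalize b / 2 ^ 224 = c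
        simpa using norm_add_le (v - c) c
      have h3 : (1 : ℝ) / 2 ^ 210 ≤ 3 / 4 := by norm_num
      linarith
    have e2 : (-1 : ℂ) ^ pop5 (s &&& n) * u * v - (-1) ^ pop5 (s &&& n) * (a * b) / 2 ^ 448 =
        (-1) ^ pop5 (s &&& n) * ((u - a / 2 ^ 224) * v + a / 2 ^ 224 * (v - b / 2 ^ 224)) := by
      rw [show (2 : ℂ) ^ 448 = 2 ^ 224 * 2 ^ 224 from pow_add 2 224 224]
      generalize (2 : ℂ) ^ 224 = A
      ring
    rw [e2, norm_mul, norm_sgn, one_mul]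
    refine (norm_add_le _ _).trans ?_
    rw [norm_mul, norm_mul]
    have c1 : ‖u - a / 2 ^ 224‖ * ‖v‖ ≤ 1 / 2 ^ 210 * 2 :=
      mul_le_mul a1 hv (norm_nonneg _) (by positivity)
    have c2 : ‖a / 2 ^ 224‖ * ‖v - b / 2 ^ 224‖ ≤ 5 / 4 * (1 / 2 ^ 210) :=
      mul_le_mul b1 a2 (norm_nonneg _) (by positivity)
    have c3 : (1 : ℝ) / 2 ^ 210 * 2 + 5 / 4 * (1 / 2 ^ 210) ≤ 1 / 2 ^ 208 := by norm_num
    linarith
  simp only [Nat.cast_one]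
  refine (Finset.sum_le_sum key).trans ?_
  rw [Finset.sum_const, Finset.card_range, nsmul_eq_mul]
  norm_num

theorem inv_err (q t r : ℂ) (h1 : ‖q - t‖ ≤ 1 / 2 ^ 203) (h2 : ‖t * r - 1‖ ≤ 1 / 2 ^ 135)
    (h3 : ‖r‖ ≤ 2 ^ 75) : ‖q⁻¹‖ ≤ 2 ^ 76 ∧ ‖q⁻¹ - r‖ ≤ 129 / 2 ^ 59 := by
  have h4 : ‖q * r - 1‖ ≤ 129 / 2 ^ 135 := by
    have e : q * r - 1 = (q - t) * r + (t * r - 1) := by ring
    rw [e]
    refine (norm_add_le _ _).trans ?_
    rw [norm_mul]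
    have c1 : ‖q - t‖ * ‖r‖ ≤ 1 / 2 ^ 203 * 2 ^ 75 :=
      mul_le_mul h1 h3 (norm_nonneg _) (by positivity)
    have c2 : (1 : ℝ) / 2 ^ 203 * 2 ^ 75 + 1 / 2 ^ 135 ≤ 129 / 2 ^ 135 := by norm_num
    linarith
  have hq : q ≠ 0 := by
    rintro rfl
    rw [zero_mul, zero_sub, norm_neg, norm_one] at h4
    norm_num at h4
  have e : q⁻¹ - r = -(q⁻¹ * (q * r - 1)) := by
    field_simp
    ring
  have h5 : ‖q⁻¹ - r‖ ≤ ‖q⁻¹‖ * (129 / 2 ^ 135) := by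
    rw [e, norm_neg, norm_mul]
    exact mul_le_mul_of_nonneg_left h4 (norm_nonneg _)
  have h6 : ‖q⁻¹‖ ≤ ‖q⁻¹ - r‖ + ‖r‖ := by
    simpa using norm_add_le (q⁻¹ - r) r
  have h7 : ‖q⁻¹‖ * (129 / 2 ^ 135) ≤ ‖q⁻¹‖ * (1 / 2) :=
    mul_le_mul_of_nonneg_left (by norm_num) (norm_nonneg _)
  have h8 : ‖q⁻¹‖ ≤ 2 ^ 76 := by
    have : (2 : ℝ) ^ 76 = 2 * 2 ^ 75 := by norm_num
    linarith
  refine ⟨h8, h5.trans ?_⟩
  calc ‖q⁻¹‖ * (129 / 2 ^ 135) ≤ 2 ^ 76 * (129 / 2 ^ 135) :=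
        mul_le_mul_of_nonneg_right h8 (by positivity)
    _ = 129 / 2 ^ 59 := by norm_num

theorem terr (x : ℕ → ℂ) (hx : Encl x) (n : ℕ) (r : ℤ × ℤ) (h : ok n r = true) (ρ : ℕ)
    (hρ : ρ < 32) : ‖dl x n ρ - gz (tm n r ρ) / 2 ^ 364‖ ≤ 162 / 2 ^ 59 := by
  simp only [ok, Bool.and_eq_true, decide_eq_true_eq] at h
  obtain ⟨⟨hn, h1⟩, h2⟩ := h
  have k1 := qerr x hx n hn
  have k2 : ‖gz (QI n) / 2 ^ 448 * (gz r / 2 ^ 140) - 1‖ ≤ 1 / 2 ^ 135 := by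
    have := norm_div_le _ 588 (1 / 2 ^ 135) _ h1 (by
      rw [Nat.cast_pow, Nat.cast_ofNat, show (2 : ℝ) ^ 588 = 2 ^ 135 * 2 ^ 453 from
        pow_add 2 135 453, ← mul_assoc, one_div_mul_cancel (by positivity), one_mul])
    rw [gz_gs, gz_gm, gz_pow] at this
    have e : gz (QI n) / 2 ^ 448 * (gz r / 2 ^ 140) - 1 =
        (gz (QI n) * gz r - 2 ^ 588) / 2 ^ 588 := by
      have e1 : (2 : ℂ) ^ 588 = 2 ^ 448 * 2 ^ 140 := pow_add 2 448 140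
      have p1 : (2 : ℂ) ^ 448 ≠ 0 := pow_ne_zero _ two_ne_zero
      have p2 : (2 : ℂ) ^ 140 ≠ 0 := pow_ne_zero _ two_ne_zero
      rw [e1]
      generalize (2 : ℂ) ^ 448 = A at *
      generalize (2 : ℂ) ^ 140 = B at *
      field_simp
    rw [e]
    exact this
  have k3 : ‖gz r / 2 ^ 140‖ ≤ 2 ^ 75 := norm_div_le _ 140 _ _ h2 (by push_cast; norm_num)
  obtain ⟨k4, k5⟩ := inv_err _ _ _ k1 k2 k3
  have hu := sh_lt n hn ρ hρ
  have a2 : ‖x (ρ ^^^ (n >>> 5)) - gz (tX (ρ ^^^ (n >>> 5))) / 2 ^ 224‖ ≤ 1 / 2 ^ 210 := hx _ hu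
  have b2 := tb _ hu
  rw [dl, tm, gz_sg, gz_gm, div_eq_mul_inv _ (Qx x n)]
  simp only [Nat.cast_one]
  generalize (Qx x n)⁻¹ = w at *
  generalize x (ρ ^^^ (n >>> 5)) = v at *
  generalize gz (tX (ρ ^^^ (n >>> 5))) = b at *
  generalize gz r = c at *
  have e2 : (-1 : ℂ) ^ pop5 (ρ &&& n) * v * w - (-1) ^ pop5 (ρ &&& n) * (b * c) / 2 ^ 364 =
      (-1) ^ pop5 (ρ &&& n) * ((v - b / 2 ^ 224) * w + b / 2 ^ 224 * (w - c / 2 ^ 140)) := by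
    rw [show (2 : ℂ) ^ 364 = 2 ^ 224 * 2 ^ 140 from pow_add 2 224 140]
    generalize (2 : ℂ) ^ 224 = A
    generalize (2 : ℂ) ^ 140 = B
    ring
  rw [e2, norm_mul, norm_sgn, one_mul]
  refine (norm_add_le _ _).trans ?_
  rw [norm_mul, norm_mul]
  have c1 : ‖v - b / 2 ^ 224‖ * ‖w‖ ≤ 1 / 2 ^ 210 * 2 ^ 76 :=
    mul_le_mul a2 k4 (norm_nonneg _) (by positivity)
  have c2 : ‖b / 2 ^ 224‖ * ‖w - c / 2 ^ 140‖ ≤ 5 / 4 * (129 / 2 ^ 59) :=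
    mul_le_mul b2 k5 (norm_nonneg _) (by positivity)
  have c3 : (1 : ℝ) / 2 ^ 210 * 2 ^ 76 + 5 / 4 * (129 / 2 ^ 59) ≤ 162 / 2 ^ 59 := by norm_num
  linarith

theorem serr (x : ℕ → ℂ) (hx : Encl x) (s ρ : ℕ) (hρ : ρ < 32) (L : List ℕ)
    (h : ∀ n ∈ L, ok n (inv (QI n)) = true ∧ ok (n ^^^ s) (inv (QI (n ^^^ s))) = true) :
    ‖(L.map fun n => dl x n ρ - dl x (n ^^^ s) ρ).sum - gz (en L s ρ) / 2 ^ 364‖ ≤
      L.length * (324 / 2 ^ 59) := by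
  induction L with
  | nil => simp [en, gz]
  | cons a L ih =>
    have i1 := ih fun n hn => h n (List.mem_cons_of_mem _ hn)
    obtain ⟨h1, h2⟩ := h a List.mem_cons_self
    have t1 := terr x hx _ _ h1 ρ hρ
    have t2 := terr x hx _ _ h2 ρ hρ
    have e0 : en (a :: L) s ρ = ga (gs (tm a (inv (QI a)) ρ)
        (tm (a ^^^ s) (inv (QI (a ^^^ s))) ρ)) (en L s ρ) := rfl
    rw [e0, gz_ga, gz_gs, List.map_cons, List.sum_cons, List.length_cons]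
    generalize (L.map fun n => dl x n ρ - dl x (n ^^^ s) ρ).sum = A at *
    generalize gz (en L s ρ) = B at *
    generalize dl x a ρ = u at *
    generalize dl x (a ^^^ s) ρ = v at *
    generalize gz (tm a (inv (QI a)) ρ) = c at *
    generalize gz (tm (a ^^^ s) (inv (QI (a ^^^ s))) ρ) = d at *
    have e : u - v + A - (c - d + B) / 2 ^ 364 =
        (u - c / 2 ^ 364) - (v - d / 2 ^ 364) + (A - B / 2 ^ 364) := by
      generalize (2 : ℂ) ^ 364 = D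
      ring
    rw [e]
    have n1 := norm_add_le ((u - c / 2 ^ 364) - (v - d / 2 ^ 364)) (A - B / 2 ^ 364)
    have n2 := norm_sub_le (u - c / 2 ^ 364) (v - d / 2 ^ 364)
    push_cast
    have e3 : ((L.length : ℝ) + 1) * (324 / 2 ^ 59) =
        L.length * (324 / 2 ^ 59) + (162 / 2 ^ 59 + 162 / 2 ^ 59) := by ring
    rw [e3]
    linarith

end MencA

open MencA in
theorem p_MENC :
    S_MENC := by
  intro x hx i j
  have hr := rows i i.2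
  simp only [rowOk, Bool.and_eq_true, List.all_eq_true, decide_eq_true_eq] at hr
  obtain ⟨h1, h2⟩ := hr
  have h3 := h2 j (List.mem_range.2 j.2)
  have l1' := List.all_eq_true.1 len i (List.mem_range.2 i.2)
  have l2' := List.all_eq_true.1 len j (List.mem_range.2 j.2)
  simp only [Bool.and_eq_true, decide_eq_true_eq] at l1' l2'
  have h4 := serr x hx (xsum (frL.getD i [])) (rhoL.getD j 0) l2'.2 (frL.getD i []) h1
  rw [l1'.1] at h4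
  have h5 := norm_div_le _ (364 + rhoE.getD j 0) (1 / 2 ^ 50) _ h3 (by
    rw [Nat.cast_pow, Nat.cast_ofNat,
      show 364 + rhoE.getD j 0 = 50 + (314 + rhoE.getD j 0) by omega, pow_add (2 : ℝ) 50,
      ← mul_assoc, one_div_mul_cancel (by positivity), one_mul])
  rw [gz_gs, gz_gm, gz_pow] at h5
  simp only [M21, Matrix.of_apply]
  generalize ((frL.getD i []).map fun n => dl x n (rhoL.getD j 0) -
    dl x (n ^^^ xsum (frL.getD i [])) (rhoL.getD j 0)).sum = A at *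
  generalize gz (en (frL.getD i []) (xsum (frL.getD i [])) (rhoL.getD j 0)) = B at *
  generalize gz (ent mt21 i j) = c at *
  generalize rhoE.getD j 0 = e at *
  have hp : (2 : ℂ) ^ e ≠ 0 := pow_ne_zero _ two_ne_zero
  have e1 : A / 2 ^ e - c / 2 ^ 56 =
      (A - B / 2 ^ 364) / 2 ^ e + (B - c * 2 ^ (308 + e)) / 2 ^ (364 + e) := by
    have p1 : (2 : ℂ) ^ 308 ≠ 0 := pow_ne_zero _ two_ne_zero
    have p2 : (2 : ℂ) ^ 56 ≠ 0 := pow_ne_zero _ two_ne_zero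
    rw [pow_add (2 : ℂ) 308, pow_add (2 : ℂ) 364,
      show (2 : ℂ) ^ 364 = 2 ^ 308 * 2 ^ 56 from pow_add 2 308 56]
    generalize (2 : ℂ) ^ 308 = D at *
    generalize (2 : ℂ) ^ 56 = E at *
    generalize (2 : ℂ) ^ e = F at *
    field_simp
    ring
  rw [e1]
  refine (norm_add_le _ _).trans ?_
  have h6 : ‖(A - B / 2 ^ 364) / 2 ^ e‖ ≤ ‖A - B / 2 ^ 364‖ := by
    rw [norm_div, norm_pow, Complex.norm_ofNat]
    exact div_le_self (norm_nonneg _) (one_le_pow₀ (by norm_num))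
  have h7 : ((10 : ℕ) : ℝ) * (324 / 2 ^ 59) + 1 / 2 ^ 50 ≤ 1 / 2 ^ 46 := by norm_num
  linarith

end Pool.Agent.P.MP_abfee5_ag
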