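import Pool.Agent.P.MP_abfee5_ag.CT.Iface

/-! Step MVH of the cubic threefold theta project. -/

namespace Pool.Agent.P.MP_abfee5_ag

open Complex Filter Topology MvPolynomial

namespace MvhA

/-- Inversion in one coordinate. -/
noncomputable def mv (j : Fin 5) (τ : Mat) : Mat := fun p q =>
  if p = j then (if q = j then -1 / τ p p else τ p q / τ p p)
  else if q = j then τ p q / τ q q else τ p q - τ p j * τ j q / τ j j

theorem move_eq {j : ℕ} (hj : j < 5) (τ : Mat) : move (8 * j + 5) τ = mv (fj j) τ := by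
  have a : (8 * j + 5) / 8 = j := by omega
  have b : (8 * j + 5) % 8 = 5 := by omega
  simp only [move, a, b, if_pos hj, if_neg (show ¬5 = j by omega), if_true]
  rfl

theorem diag {τ : Mat} (h : τ ∈ Siegel) (j : Fin 5) : 0 < (τ j j).im := by
  simpa [Pi.single_apply] using h.2 (Pi.single j 1) (by simp)

theorem ne0 {τ : Mat} (h : τ ∈ Siegel) (j : Fin 5) : τ j j ≠ 0 := fun e => by
  simpa [e] using diag h j

theorem herm {τ : Mat} (h : τ ∈ Siegel) {w : Fin 5 → ℂ} (hw : w ≠ 0) :
    0 < (∑ p, (starRingEnd ℂ) (w p) * ∑ q, τ p q * w q).im := by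
  have n : ∀ x : Fin 5 → ℝ, 0 ≤ ∑ j, ∑ k, x j * (τ j k).im * x k := fun x => by
    by_cases e : x = 0
    · simp [e]
    · exact (h.2 x e).le
  have s : ∑ p, ∑ q, (w p).re * (τ p q).re * (w q).im =
      ∑ p, ∑ q, (w p).im * (τ p q).re * (w q).re := by
    rw [Finset.sum_comm]
    exact Finset.sum_congr rfl fun p _ => Finset.sum_congr rfl fun q _ => by rw [h.1 q p]; ring
  have e : (∑ p, (starRingEnd ℂ) (w p) * ∑ q, τ p q * w q).im =
      ∑ p, ∑ q, (w p).re * (τ p q).im * (w q).re + ∑ p, ∑ q, (w p).im * (τ p q).im * (w q).im +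
      (∑ p, ∑ q, (w p).re * (τ p q).re * (w q).im - ∑ p, ∑ q, (w p).im * (τ p q).re * (w q).re) := by
    simp only [Finset.mul_sum, im_sum, ← Finset.sum_add_distrib, ← Finset.sum_sub_distrib]
    refine Finset.sum_congr rfl fun p _ => Finset.sum_congr rfl fun q _ => ?_
    simp only [mul_im, mul_re, conj_re, conj_im]
    ring
  rw [e, s, sub_self, add_zero]
  by_cases a : (fun p => (w p).re) = 0
  · exact add_pos_of_nonneg_of_pos (n _) (h.2 _ fun b =>
      hw (funext fun p => Complex.ext (congrFun a p) (congrFun b p)))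
  · exact add_pos_of_pos_of_nonneg (h.2 _ a) (n _)

theorem mv_mem {τ : Mat} (h : τ ∈ Siegel) (j : Fin 5) : mv j τ ∈ Siegel := by
  have t0 := ne0 h j
  refine ⟨fun p q => ?_, fun x hx => ?_⟩
  · unfold mv
    by_cases a : p = j <;> by_cases b : q = j <;> simp only [a, b, if_true, if_false]
    · rw [h.1 j q]
    · rw [h.1 p j]
    · rw [h.1 p q, h.1 p j, h.1 q j, mul_comm]
  set u : ℂ := ∑ q ∈ Finset.univ.erase j, τ j q * x q with hu
  set s : ℂ := (x j - u) / τ j j with hs
  set w : Fin 5 → ℂ := Function.update (fun p => (x p : ℂ)) j s with hw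
  have sp := fun f : Fin 5 → ℂ => (Finset.add_sum_erase Finset.univ f (Finset.mem_univ j)).symm
  have w1 : ∀ p, ∑ q, τ p q * w q = τ p j * s + ∑ q ∈ Finset.univ.erase j, τ p q * x q := fun p => by
    rw [sp, hw, Function.update_self]
    exact congrArg _ (Finset.sum_congr rfl fun q hq => by
      rw [Function.update_of_ne (Finset.ne_of_mem_erase hq)])
  have h3 : ∑ q, τ j q * w q = x j := by rw [w1, ← hu, hs]; field_simp; ring
  have h2 : ∑ q, mv j τ j q * x q = -s := by
    rw [sp, Finset.sum_congr rfl (g := fun q => τ j q * x q / τ j j) fun q hq => by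
      simp only [mv, if_true, if_neg (Finset.ne_of_mem_erase hq)]; ring, ← Finset.sum_div, ← hu, hs]
    simp only [mv, if_true]
    ring
  have h1 : ∀ p, p ≠ j → ∑ q, mv j τ p q * x q = ∑ q, τ p q * w q := fun p hp => by
    rw [w1, sp, Finset.sum_congr rfl
      (g := fun q => τ p q * x q - τ p j / τ j j * (τ j q * x q)) fun q hq => by
        simp only [mv, if_neg hp, if_neg (Finset.ne_of_mem_erase hq)]; ring,
      Finset.sum_sub_distrib, ← Finset.mul_sum, ← hu, hs]
    simp only [mv, if_true, if_neg hp]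
    ring
  have w0 : w ≠ 0 := fun a => hx (funext fun p => by
    by_cases b : p = j
    · simpa [a, b] using h3.symm
    · simpa [hw, Function.update_of_ne b] using congrFun a p)
  refine (herm h w0).trans_eq ?_
  calc _ = (∑ p, (x p : ℂ) * ∑ q, mv j τ p q * x q).im := by
        rw [sp, sp fun p => (x p : ℂ) * _, h3, h2, add_im, add_im, hw, Function.update_self]
        congr 1
        · simp [mul_comm]
        · exact congrArg _ (Finset.sum_congr rfl fun p hp => by
            rw [h1 p (Finset.ne_of_mem_erase hp), Function.update_of_ne (Finset.ne_of_mem_erase hp),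
              conj_ofReal])
    _ = _ := by simp [Finset.mul_sum, im_sum, mul_assoc]

theorem mv_mv {τ : Mat} {j : Fin 5} (h : τ j j ≠ 0) : mv j (mv j τ) = fun p q =>
    (if p = j then -1 else 1) * (if q = j then -1 else 1) * τ p q := by
  funext p q
  by_cases a : p = j <;> by_cases b : q = j <;> simp only [mv, a, b, if_true, if_false] <;>
    field_simp
  ring

end MvhA

open MvhA in
theorem p_MVH :
    S_MVH := by
  intro j hj
  simp only [move_eq hj]
  refine ⟨fun τ h => ⟨diag h _, mv_mem h _⟩, fun τ h =>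
    ⟨_, mv_mem (mv_mem (mv_mem h (fj j)) (fj j)) (fj j), ?_⟩⟩
  rw [mv_mv (ne0 (mv_mem (mv_mem h _) _) _), mv_mv (ne0 h _)]
  funext p q
  beta_reduce
  split_ifs <;> ring

end Pool.Agent.P.MP_abfee5_ag
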