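import Pool.Agent.P.MP_abfee5_ag.CT.Iface

/-! Step MVJ of the cubic threefold theta project. -/

namespace Pool.Agent.P.MP_abfee5_ag

open Complex Filter Topology MvPolynomial

namespace MvjA

theorem bit (n i : ℕ) : (n >>> i) % 2 = (n.testBit i).toNat := by
  rw [Nat.toNat_testBit, Nat.shiftRight_eq_div_pow]

theorem bit_xor (x y i : ℕ) : ((x ^^^ y) >>> i) % 2 = (x >>> i) % 2 ^^^ (y >>> i) % 2 := by
  simp only [bit, Nat.testBit_xor]
  cases x.testBit i <;> cases y.testBit i <;> rfl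

theorem bit_sh {d : ℕ} (hd : d < 2) (j i : ℕ) : ((d <<< j) >>> i) % 2 = if j = i then d else 0 := by
  interval_cases d
  · simp
  · rw [bit, Nat.one_shiftLeft, Nat.testBit_two_pow]
    split_ifs with h <;> simp [h]

theorem act_eq {j : ℕ} (hj : j < 5) (n : ℕ) : act (8 * j + 5) n =
    (n ^^^ ((ab n j ^^^ bb n j) <<< j) ^^^ ((ab n j ^^^ bb n j) <<< (5 + j)),
      6 * (ab n j * bb n j)) := by
  interval_cases j <;> rfl

theorem bits {j k : ℕ} (hj : j < 5) (hk : k < 5) (n : ℕ) :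
    ab (act (8 * j + 5) n).1 k = (if j = k then bb n j else ab n k) ∧
    bb (act (8 * j + 5) n).1 k = if j = k then ab n j else bb n k := by
  have a := ab_lt n j
  have b := bb_lt n j
  have d : ab n j ^^^ bb n j < 2 := Nat.xor_lt_two_pow (n := 1) a b
  rw [act_eq hj, ab.eq_1 _ k, bb.eq_1 _ k]
  simp only [bit_xor, bit_sh d, ← ab.eq_1 n k, ← bb.eq_1 n k]
  rw [if_neg (by omega : j ≠ 5 + k), if_neg (by omega : 5 + j ≠ k)]
  by_cases h : j = k
  · subst h
    simp [Nat.xor_comm (ab n j) (bb n j), Nat.xor_left_comm (ab n j) (bb n j)]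
  · simp [h]

theorem hs {γ : Type} {f g : γ → ℂ} {a b : ℂ} (h : HasSum f a) (e : ∀ x, g x = f x) (e' : b = a) :
    HasSum g b := by rw [e', _root_.funext e]; exact h

variable (J : Fin 5)

/-- The mixed term. -/
noncomputable def uu (τ : Mat) (N : Fin 4 → ℤ) : ℂ := ∑ k, τ J (J.succAbove k) * N k

/-- The part of the summand that does not depend on the coordinate `J`. -/
noncomputable def qq (τ : Mat) (N : Fin 4 → ℤ) : ℂ :=
  ∑ k, ∑ l, (N k : ℂ) * τ (J.succAbove k) (J.succAbove l) * N l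

/-- The weight of the other coordinates. -/
noncomputable def rest (n : ℕ) (N : Fin 4 → ℤ) : ℂ :=
  if ∀ k, N k % 2 = (ab n (J.succAbove k) : ℤ) then I ^ (∑ k, N k * (bb n (J.succAbove k) : ℤ))
  else 0

theorem qf_ins {τ : Mat} (h : τ ∈ Siegel) (x : ℤ) (N : Fin 4 → ℤ) :
    qf τ (J.insertNth x N) = τ J J * x ^ 2 + 2 * x * uu J τ N + qq J τ N := by
  simp only [qf, Fin.sum_univ_succAbove _ J, Fin.insertNth_apply_same,
    Fin.insertNth_apply_succAbove, Finset.sum_add_distrib, uu, qq, h.1 _ J, Finset.mul_sum,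
    two_mul, add_mul]
  simp only [mul_comm, mul_left_comm, sq]
  ring

theorem chi_ins (n : ℕ) (x : ℤ) (N : Fin 4 → ℤ) : chi n (J.insertNth x N) =
    (if x % 2 = (ab n J : ℤ) then I ^ (x * (bb n J : ℤ)) else 0) * rest J n N := by
  simp only [chi, rest, Fin.forall_iff_succAbove J, Fin.sum_univ_succAbove _ J,
    Fin.insertNth_apply_same, Fin.insertNth_apply_succAbove, zpow_add₀ I_ne_zero]
  split_ifs with a b c <;> first | rfl | tauto | simp

theorem key (hS : S_SUM) {τ : Mat} (h : τ ∈ Siegel) (n e : ℕ) {W : V → ℂ} (hW : Gr W)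
    {w : (Fin 4 → ℤ) → ℂ} (hw : ∀ x N, W (J.insertNth x N) = x ^ e * w N) :
    HasSum (fun N => w N * rest J n N * cexp (Real.pi * I / 4 * qq J τ N) *
      j1 (ab n J) (bb n J) e (τ J J) (uu J τ N)) (S (fun N => W N * chi n N) τ) := by
  have a := (((Equiv.prodComm _ _).trans (Fin.insertNthEquiv (fun _ => ℤ) J)).hasSum_iff).2
    (hS.2.2.2 _ (hW.mul (gr_chi n)) τ (siegel_om h)).of_norm.hasSum
  refine a.prod_fiberwise fun N => ?_
  refine hs (a.summable.prod_factor N).hasSum (fun _ => rfl) ?_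
  rw [j1, ← tsum_mul_left]
  refine tsum_congr fun x => ?_
  show _ = W (J.insertNth x N) * chi n (J.insertNth x N) * ex τ (J.insertNth x N)
  rw [hw, chi_ins, ex, qf_ins J h, mul_add _ _ (qq J τ N), Complex.exp_add]
  split_ifs <;> ring

end MvjA

open MvjA in
theorem p_MVJ (hSUM : S_SUM) (hMVH : S_MVH) (hPOI : S_POI) :
    S_MVJ := by
  intro j hj τ hτ
  obtain ⟨t0, h'⟩ := (hMVH j hj).1 τ hτ
  obtain ⟨c, c0, hc⟩ := hPOI _ t0
  refine ⟨c, c0, fun n => ?_⟩
  set J := fj j with hJ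
  have vJ : (J : ℕ) = j := Nat.mod_eq_of_lt hj
  have t1 : τ J J ≠ 0 := fun e => by simp [e] at t0
  have mv : move (8 * j + 5) τ = fun p q =>
      if p = J then (if q = J then -1 / τ p p else τ p q / τ p p)
      else if q = J then τ p q / τ q q else τ p q - τ p J * τ J q / τ J J := by
    rw [hJ]
    interval_cases j <;> rfl
  have e1 : move (8 * j + 5) τ J J = -1 / τ J J := by simp [mv]
  have e2 : ∀ N, uu J (move (8 * j + 5) τ) N = uu J τ N / τ J J := fun N => by
    simp only [uu, mv, if_true, Fin.succAbove_ne, if_false, Finset.sum_div]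
    exact Finset.sum_congr rfl fun k _ => by ring
  have e3 : ∀ N, qq J (move (8 * j + 5) τ) N = qq J τ N - uu J τ N ^ 2 / τ J J := fun N => by
    simp only [qq, uu, mv, Fin.succAbove_ne, if_false, Finset.sum_div, sq, Finset.sum_mul_sum,
      ← Finset.sum_sub_distrib, hτ.1 _ J]
    exact Finset.sum_congr rfl fun k _ => Finset.sum_congr rfl fun l _ => by ring
  set m := (act (8 * j + 5) n).1 with hm
  have b1 : ab m J = bb n J := by rw [vJ, (bits hj hj n).1, if_pos rfl]
  have b2 : bb m J = ab n J := by rw [vJ, (bits hj hj n).2, if_pos rfl]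
  have b3 : rest J m = rest J n := _root_.funext fun N => by
    have a : ∀ k : Fin 4, j ≠ J.succAbove k := fun k e =>
      Fin.succAbove_ne J k (Fin.ext (e.symm.trans vJ.symm))
    simp only [rest, hm, bits hj (J.succAbove _).2 n, a, if_false]
  have b4 : (act (8 * j + 5) n).2 = 6 * (ab n J * bb n J) := by rw [act_eq hj, vJ]
  have x1 : ∀ N, cexp (Real.pi * I / 4 * (qq J τ N - uu J τ N ^ 2 / τ J J)) =
      cexp (Real.pi * I / 4 * qq J τ N) * (cexp (Real.pi * I / 4 * (uu J τ N ^ 2 / τ J J)))⁻¹ :=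
    fun N => by rw [mul_sub, Complex.exp_sub, div_eq_mul_inv]
  have k0 : ∀ {W : V → ℂ} {w : (Fin 4 → ℤ) → ℂ}, Gr W →
      (∀ x N, W (J.insertNth x N) = x ^ 0 * w N) →
      S (fun N => W N * chi n N) (move (8 * j + 5) τ) =
        c * z8 ^ (act (8 * j + 5) n).2 * S (fun N => W N * chi m N) τ := fun hW hw => by
    refine (key J hSUM h' n 0 hW hw).unique ?_
    refine hs ((key J hSUM hτ m 0 hW hw).mul_left _) (fun N => ?_) rfl
    rw [e1, e2, e3, (hc _ (ab_lt _ _) _ (bb_lt _ _) _).1, b1, b2, b3, b4, x1]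
    field_simp
  refine ⟨by simpa [th] using k0 (w := fun _ => 1) (gr_const 1) (by simp), fun k => ?_⟩
  split_ifs with hk
  · subst hk
    refine (key J hSUM h' n 1 (w := fun _ => 1) (gr_coord J) (by simp)).unique ?_
    rw [Fin.sum_univ_succAbove _ J]
    refine hs ((((key J hSUM hτ m 1 (w := fun _ => 1) (gr_coord J)
      (by simp)).mul_left (τ J J)).add (hasSum_sum fun k _ => (key J hSUM hτ m 0
        (w := fun N => N k) (gr_coord (J.succAbove k)) (by simp)).mul_left
          (τ J (J.succAbove k)))).mul_left _) (fun N => ?_) rfl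
    rw [e1, e2, e3, (hc _ (ab_lt _ _) _ (bb_lt _ _) _).2, b1, b2, b3, b4, x1]
    simp only [← mul_assoc, ← Finset.sum_mul]
    rw [← uu]
    field_simp
  · obtain ⟨l, rfl⟩ := Fin.exists_succAbove_eq hk
    exact k0 (w := fun N => N l) (gr_coord _) (by simp)

end Pool.Agent.P.MP_abfee5_ag
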