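import Pool.Agent.P.MP_abfee5_ag.CT.Iface

/-! Step ODD of the cubic threefold theta project. -/

namespace Pool.Agent.P.MP_abfee5_ag

open Complex Filter Topology MvPolynomial

namespace OddA

lemma par_eq (n : ℕ) : par n = (∑ j : Fin 5, ab n j * bb n j) % 2 := by
  have h : ∀ j, (((n >>> 5) &&& n) >>> j) % 2 = ab n j * bb n j := by
    intro j
    rw [Nat.shiftRight_and_distrib, ← Nat.shiftRight_add, Nat.and_mod_two_pow (n := 1)]
    have h1 := ab_lt n j
    have h2 := bb_lt n j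
    change ab n j &&& bb n j = _
    interval_cases ab n j <;> interval_cases bb n j <;> rfl
  have hx : ∀ x y : ℕ, (x ^^^ y) % 2 = (x % 2 + y % 2) % 2 := by
    intro x y
    rw [Nat.xor_mod_two_pow (n := 1)]
    have h1 : x % 2 < 2 := Nat.mod_lt _ (by norm_num)
    have h2 : y % 2 < 2 := Nat.mod_lt _ (by norm_num)
    change x % 2 ^^^ y % 2 = _
    interval_cases x % 2 <;> interval_cases y % 2 <;> rfl
  have h0 := h 0
  rw [Nat.shiftRight_zero] at h0
  rw [par, pop5, hx, hx, hx, hx, h0, h 1, h 2, h 3, h 4, Fin.sum_univ_five]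
  simp only [Fin.val_zero, Fin.val_one, Fin.val_two, show ((3 : Fin 5) : ℕ) = 3 from rfl,
    show ((4 : Fin 5) : ℕ) = 4 from rfl]
  omega

lemma chi_neg (n : ℕ) (N : V) : chi n (-N) = (-1) ^ par n * chi n N := by
  unfold chi
  have hiff : (∀ j : Fin 5, (-N) j % 2 = (ab n j : ℤ)) ↔ ∀ j : Fin 5, N j % 2 = (ab n j : ℤ) := by
    refine forall_congr' fun j => ?_
    rw [Pi.neg_apply, Int.neg_emod_two]
  by_cases h : ∀ j : Fin 5, N j % 2 = (ab n j : ℤ)
  · rw [if_pos (hiff.2 h), if_pos h]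
    set s := ∑ j : Fin 5, N j * (bb n j : ℤ) with hs
    have h1 : ∑ j : Fin 5, (-N) j * (bb n j : ℤ) = -s := by
      rw [hs, ← Finset.sum_neg_distrib]; simp
    have h2 : s % 2 = (par n : ℤ) := by
      rw [par_eq, hs]
      push_cast
      rw [Finset.sum_int_mod, Finset.sum_int_mod (f := fun j : Fin 5 => (ab n j : ℤ) * bb n j)]
      congr 1
      refine Finset.sum_congr rfl fun j _ => ?_
      have h3 := ab_lt n j
      have h4 := bb_lt n j
      have h5 := h j
      interval_cases ab n j <;> interval_cases bb n j <;> simp at h5 ⊢ <;> omega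
    obtain ⟨k, hk⟩ : ∃ k : ℤ, s = 2 * k + par n := ⟨s / 2, by omega⟩
    have hI : (I : ℂ) ≠ 0 := I_ne_zero
    have h4 : I ^ (4 * k) = 1 := by rw [zpow_mul]; simp [zpow_ofNat]
    rw [h1, show -s = s + (-(4 * k) + -(2 * (par n : ℤ))) by omega, zpow_add₀ hI, zpow_add₀ hI,
      zpow_neg, zpow_neg, h4, zpow_mul, zpow_natCast]
    have : (I : ℂ) ^ (2 : ℤ) = -1 := by simp [zpow_ofNat]
    rw [this, ← inv_pow]
    simp [mul_comm]
  · rw [if_neg (fun h' => h (hiff.1 h')), if_neg h, mul_zero]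

lemma ex_neg (τ : Mat) (N : V) : ex τ (-N) = ex τ N := by
  simp [ex, qf]

end OddA

open OddA in
theorem p_ODD :
    S_ODD := by
  intro n τ
  refine ⟨fun h => ?_, fun h j => ?_⟩
  · have : th n τ = -th n τ := by
      conv_lhs => rw [th, S, ← (Equiv.neg V).tsum_eq]
      rw [th, S, ← tsum_neg]
      simp [chi_neg, ex_neg, h]
    linear_combination (1 / 2) * this
  · have : gr n τ j = -gr n τ j := by
      conv_lhs => rw [gr, S, ← (Equiv.neg V).tsum_eq]
      rw [gr, S, ← tsum_neg]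
      simp [chi_neg, ex_neg, h]
    linear_combination (1 / 2) * this

end Pool.Agent.P.MP_abfee5_ag
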