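import Pool.Agent.P.MP_abfee5_ag.CT.Iface2
import Pool.Agent.P.MP_abfee5_ag.CT.Iface

/-! Step PEEL of the cubic threefold theta project. -/

namespace Pool.Agent.P.MP_abfee5_ag

open Complex Filter Topology MvPolynomial

namespace PeelA

/-- Regrouping a sum over a relation by the second entries. -/
lemma regroup {K : ℕ} (ord : Fin K → ℕ) (hinj : Function.Injective ord) (x : ℕ)
    (hx : ∀ k, ord k ≠ x) (τ : Mat) (F : ℕ → ℂ) (hF : F x = 0) (R : Rel)
    (hR : ∀ p ∈ R, p.2 = x ∨ ∃ l, p.2 = ord l) :
    ∑ l, pval τ ((R.filter fun p => p.2 = ord l).map Prod.fst) * F (ord l) =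
      (R.map fun p => mval τ p.1 * F p.2).sum := by
  induction R with
  | nil => simp [pval]
  | cons p R ih =>
    have ih' := ih fun q hq => hR q (List.mem_cons_of_mem _ hq)
    have key : ∀ l, pval τ (((p :: R).filter fun q => q.2 = ord l).map Prod.fst) * F (ord l) =
        (if p.2 = ord l then mval τ p.1 * F (ord l) else 0) +
          pval τ ((R.filter fun q => q.2 = ord l).map Prod.fst) * F (ord l) := by
      intro l
      by_cases h : p.2 = ord l
      · rw [List.filter_cons_of_pos (by simpa using h), if_pos h, List.map_cons, pval_cons]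
        ring
      · rw [List.filter_cons_of_neg (by simpa using h), if_neg h, zero_add]
    rw [Finset.sum_congr rfl fun l _ => key l, Finset.sum_add_distrib, ih', List.map_cons,
      List.sum_cons]
    congr 1
    rcases hR p List.mem_cons_self with h | ⟨l, h⟩
    · rw [h, hF, mul_zero]
      refine Finset.sum_eq_zero fun l _ => if_neg fun e => hx l e.symm
    · rw [h, Finset.sum_eq_single l]
      · rw [if_pos rfl]
      · intro b _ hb
        exact if_neg fun e => hb (hinj e).symm
      · intro h'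
        exact absurd (Finset.mem_univ l) h'

lemma pval_eq_zero (τ : Mat) (P : List Mono) (h : ∀ m ∈ P, mval τ m = 0) : pval τ P = 0 := by
  induction P with
  | nil => rfl
  | cons m P ih =>
    rw [pval_cons, h m List.mem_cons_self, ih fun q hq => h q (List.mem_cons_of_mem _ hq),
      add_zero]

lemma sum_split (τ : Mat) (A B : ℕ → ℂ) (a b : ℂ) (R : Rel) :
    (R.map fun p => mval τ p.1 * (A p.2 * a - B p.2 * b)).sum =
      (R.map fun p => mval τ p.1 * A p.2).sum * a - (R.map fun p => mval τ p.1 * B p.2).sum * b := by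
  induction R with
  | nil => simp
  | cons p R ih =>
    simp only [List.map_cons, List.sum_cons, ih]
    ring

end PeelA

theorem p_PEEL (hID : S_ID) (hHOL : S_HOL) (hDIAG : S_DIAG) :
    S_PEEL := by
  intro κ Pn x K ord rel hinj hx hJ hlow hdiag
  obtain ⟨τ₀, hτ₀, hth⟩ := hDIAG
  have hz : ∀ m : Mono, ¬nzd m → mval τ₀ m = 0 := by
    intro m hm
    unfold nzd at hm
    push Not at hm
    obtain ⟨n, hn, hn'⟩ := hm
    unfold mval
    rw [List.prod_eq_zero (List.mem_map.2 ⟨n, hn, (hth n).2 hn'⟩), mul_zero]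
  have hnz : ∀ m : Mono, nzd m → mval τ₀ m ≠ 0 := by
    intro m hm
    unfold mval
    refine mul_ne_zero (pow_ne_zero _ z8_ne) (List.prod_ne_zero fun h0 => ?_)
    obtain ⟨n, hn, hn'⟩ := List.mem_map.1 h0
    exact (hth n).1 hn' (hm n hn)
  have main := hID.2.2 K
    (fun k l τ => pval τ (((rel k).filter fun p => p.2 = ord l).map Prod.fst))
    (fun l τ => dval τ (0, κ ++ [ord l]) * pval τ (Pn x) -
      pval τ (Pn (ord l)) * dval τ (0, κ ++ [x])) τ₀ hτ₀
    (fun k l => hHOL.2.2.2.1 _)
    (fun l => ((hHOL.2.2.2.2 _).mul (hHOL.2.2.2.1 _)).sub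
      ((hHOL.2.2.2.1 _).mul (hHOL.2.2.2.2 _)))
    (by
      intro k l hkl
      refine PeelA.pval_eq_zero _ _ fun m hm => ?_
      obtain ⟨p, hp, rfl⟩ := List.mem_map.1 hm
      obtain ⟨hp1, hp2⟩ := List.mem_filter.1 hp
      have hp3 : p.2 = ord l := by simpa using hp2
      rcases hlow k p hp1 with h | ⟨l', h, h'⟩
      · exact absurd (hp3.symm.trans h) (hx l)
      · have e : l' = l := hinj (h.symm.trans hp3)
        subst e
        exact hz _ (h' hkl))
    (by
      intro k
      obtain ⟨c, hc, hc'⟩ := hdiag k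
      show pval τ₀ (((rel k).filter fun p => p.2 = ord k).map Prod.fst) ≠ 0
      rw [hc, List.map_cons, List.map_nil, pval_cons, pval_nil, add_zero]
      exact hnz c hc')
    (by
      intro τ hτ k
      have h1 := PeelA.regroup ord hinj x hx τ
        (fun n => dval τ (0, κ ++ [n]) * pval τ (Pn x) - pval τ (Pn n) * dval τ (0, κ ++ [x]))
        (by ring) (rel k) fun p hp => (hlow k p hp).imp id fun ⟨l, h, _⟩ => ⟨l, h⟩
      have h2 := PeelA.sum_split τ (fun n => dval τ (0, κ ++ [n])) (fun n => pval τ (Pn n))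
        (pval τ (Pn x)) (dval τ (0, κ ++ [x])) (rel k)
      have h3 := hJ k τ hτ
      refine h1.trans (h2.trans ?_)
      rw [h3.1, h3.2]
      ring)
  intro k τ hτ
  exact sub_eq_zero.1 (main k τ hτ)

end Pool.Agent.P.MP_abfee5_ag
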