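import Pool.Agent.P.MP_abfee5_ag.CT.Iface

/-! Step PHS of the cubic threefold theta project. -/

namespace Pool.Agent.P.MP_abfee5_ag

open Complex Filter Topology MvPolynomial

namespace PhsA

theorem bb_xor (i a b : ℕ) : bb (a ^^^ b) i = (bb a i + bb b i) % 2 := by
  unfold bb
  rw [Nat.shiftRight_xor_distrib, Nat.xor_mod_two_eq]
  omega

theorem bb_xsum (i : ℕ) (L : List ℕ) : bb (xsum L) i = (L.map (bb · i)).sum % 2 := by
  induction L with
  | nil => simp [xsum, bb]
  | cons a L ih =>
    rw [show xsum (a :: L) = a ^^^ xsum L from rfl, bb_xor, ih, List.map_cons, List.sum_cons]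
    omega

theorem two (n i : ℕ) : bb n i = 0 ∨ bb n i = 1 := by
  have := bb_lt n i
  omega

theorem diag (i e : ℕ) (L : List ℕ) :
    (L.map fun n => bb (n ^^^ e) i).sum + 2 * (bb e i * (L.map (bb · i)).sum) =
      (L.map (bb · i)).sum + bb e i * L.length := by
  induction L with
  | nil => simp
  | cons a L ih =>
    simp only [List.map_cons, List.sum_cons, List.length_cons] at ih ⊢
    rw [bb_xor]
    rcases two e i with h | h <;> rcases two a i with h' | h' <;> rw [h] at ih <;>
      rw [h, h'] <;> omega

theorem off (i k e : ℕ) (L : List ℕ) :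
    (L.map fun n => bb (n ^^^ e) i * bb (n ^^^ e) k).sum % 2 =
      ((L.map fun n => bb n i * bb n k).sum + bb e i * bb e k * L.length +
        bb e i * (L.map (bb · k)).sum + bb e k * (L.map (bb · i)).sum) % 2 := by
  induction L with
  | nil => simp
  | cons a L ih =>
    simp only [List.map_cons, List.sum_cons, List.length_cons] at ih ⊢
    rw [bb_xor i, bb_xor k]
    have h1 := two e i
    have h2 := two e k
    have h3 := two a i
    have h4 := two a k
    generalize bb e i = x at *
    generalize bb e k = y at *
    generalize bb a i = u at *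
    generalize bb a k = v at *
    rcases h1 with rfl | rfl <;> rcases h2 with rfl | rfl <;> rcases h3 with rfl | rfl <;>
      rcases h4 with rfl | rfl <;> omega

theorem summod (f g : ℕ → ℕ) (h : ∀ n, f n % 4 = 2 * g n % 4) (L : List ℕ) :
    (L.map f).sum % 4 = 2 * (L.map g).sum % 4 := by
  induction L with
  | nil => rfl
  | cons a L ih =>
    have := h a
    simp only [List.map_cons, List.sum_cons]
    omega

theorem main (f : ℕ → ℕ) (i k : ℕ) (h : ∀ n, f n % 4 = 2 * (bb n i * bb n k) % 4) (L : List ℕ)
    (hL : L.length = 10) : (L.map f).sum % 4 = (L.map fun n => f (n ^^^ xsum L)).sum % 4 := by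
  rw [summod f _ h, summod _ _ fun n => h (n ^^^ xsum L)]
  have h0 := off i k (xsum L) L
  have h1 := bb_xsum i L
  have h2 := bb_xsum k L
  rw [hL] at h0
  rcases two (xsum L) i with a | a <;> rcases two (xsum L) k with b | b <;>
    rw [a] at h0 h1 <;> rw [b] at h2 <;> (try rw [b] at h0) <;> omega

end PhsA

open PhsA

theorem p_PHS :
    S_PHS := by
  intro s L hL
  unfold act
  by_cases h1 : s / 8 < 5
  · by_cases h2 : s % 8 = s / 8
    · simp only [if_pos h1, if_pos h2]
      have h0 := diag (5 + s / 8) (xsum L) L
      have h3 := bb_xsum (5 + s / 8) L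
      rw [hL] at h0
      show (L.map (bb · (5 + s / 8))).sum % 4 = (L.map fun n => bb (n ^^^ xsum L) (5 + s / 8)).sum % 4
      rcases two (xsum L) (5 + s / 8) with a | a <;> rw [a] at h0 h3 <;> omega
    · by_cases h3 : s % 8 = 5
      · simp only [if_pos h1, if_neg h2, if_pos h3]
        exact main (fun n => 6 * (ab n (s / 8) * bb n (s / 8))) (5 + s / 8) (s / 8)
          (fun n => by
            show 6 * (bb n (5 + s / 8) * bb n (s / 8)) % 4 = _
            omega) L hL
      · by_cases h4 : s / 8 < s % 8 ∧ s % 8 < 5
        · simp only [if_pos h1, if_neg h2, if_neg h3, if_pos h4]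
          exact main (fun n => ab n (s / 8) * ab n (s % 8) *
            (6 + 4 * bb n (s / 8) + 4 * bb n (s % 8)) % 8) (5 + s / 8) (5 + s % 8)
            (fun n => by
              show bb n (5 + s / 8) * bb n (5 + s % 8) * _ % 8 % 4 = _
              rcases two n (5 + s / 8) with a | a <;> rcases two n (5 + s % 8) with b | b <;>
                rw [a, b] <;> omega) L hL
        · simp only [if_pos h1, if_neg h2, if_neg h3, if_neg h4]
  · simp only [if_neg h1]

end Pool.Agent.P.MP_abfee5_ag
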