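import Pool.Agent.P.MP_abfee5_ag.CT.Iface

/-! Step POI of the cubic threefold theta project. -/

namespace Pool.Agent.P.MP_abfee5_ag

open Complex Filter Topology MvPolynomial

namespace PoiA

/-- The prefactor. -/
noncomputable def pre (a b : ℕ) (t u : ℂ) : ℂ :=
  cexp (Real.pi * I * (a * b / 2 + t * a ^ 2 / 4 + a * u / 2))

lemma I_zpow (k : ℤ) : I ^ k = cexp (k * (Real.pi / 2 * I)) := by
  rw [exp_int_mul, exp_pi_div_two_mul_I]

lemma j1_eq {a : ℕ} (ha : a < 2) (b e : ℕ) (t u : ℂ) : j1 a b e t u =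
    pre a b t u * ∑' n : ℤ, (2 * n + a : ℂ) ^ e * jacobiTheta₂_term n ((t * a + u + b) / 2) t := by
  have hi : Function.Injective fun n : ℤ => 2 * n + (a : ℤ) := fun m n h => by
    simp only at h; omega
  rw [j1, ← hi.tsum_eq, ← tsum_mul_left]
  · refine tsum_congr fun n => ?_
    rw [if_pos (by omega), I_zpow, pre, jacobiTheta₂_term, mul_assoc, ← Complex.exp_add,
      mul_left_comm (cexp _), ← Complex.exp_add]
    push_cast
    congr 2
    ring
  · intro N hN
    have : N % 2 = (a : ℤ) := by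
      by_contra h
      exact hN (if_neg h)
    exact ⟨N / 2, by simp only; omega⟩

lemma j1_zero {a : ℕ} (ha : a < 2) (b : ℕ) (t u : ℂ) :
    j1 a b 0 t u = pre a b t u * jacobiTheta₂ ((t * a + u + b) / 2) t := by
  simp only [j1_eq ha, pow_zero, one_mul, jacobiTheta₂]

lemma j1_one {a : ℕ} (ha : a < 2) (b : ℕ) {t : ℂ} (ht : 0 < t.im) (u : ℂ) :
    j1 a b 1 t u = pre a b t u * (a * jacobiTheta₂ ((t * a + u + b) / 2) t +
      jacobiTheta₂' ((t * a + u + b) / 2) t / (Real.pi * I)) := by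
  rw [j1_eq ha]
  congr 1
  have h := ((hasSum_jacobiTheta₂_term ((t * a + u + b) / 2) ht).mul_left (a : ℂ)).add
    ((hasSum_jacobiTheta₂'_term ((t * a + u + b) / 2) ht).div_const (Real.pi * I))
  rw [← h.tsum_eq]
  refine tsum_congr fun n => ?_
  have : (Real.pi : ℂ) ≠ 0 := ofReal_ne_zero.2 Real.pi_ne_zero
  rw [jacobiTheta₂'_term]
  field_simp
  ring

lemma per {a : ℕ} (ha : a < 2) (w t : ℂ) :
    jacobiTheta₂ (w + a) t = jacobiTheta₂ w t ∧ jacobiTheta₂' (w + a) t = jacobiTheta₂' w t := by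
  obtain rfl | rfl : a = 0 ∨ a = 1 := by omega
  · simp
  · simp [jacobiTheta₂_add_left, jacobiTheta₂'_add_left]

end PoiA

open PoiA in
theorem p_POI :
    S_POI := by
  intro t ht
  have t0 : t ≠ 0 := fun h => by simp [h] at ht
  have ht' : 0 < (-1 / t).im := by
    rw [neg_div, neg_im, one_div, inv_im, neg_div, neg_neg]
    exact div_pos ht (normSq_pos.2 t0)
  have c0 : (-I * t) ^ (1 / 2 : ℂ) ≠ 0 := by
    rw [Ne, cpow_eq_zero_iff, not_and_or]
    exact Or.inl (mul_ne_zero (neg_ne_zero.2 I_ne_zero) t0)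
  refine ⟨_, c0, fun a ha b hb u => ?_⟩
  obtain ⟨w, hw⟩ : ∃ w : ℂ, w = (b * t + u - a) / 2 := ⟨_, rfl⟩
  have e1 : (-1 / t * a + u / t + b) / 2 = w / t := by rw [hw]; field_simp; ring
  have e2 : (t * b + u + a) / 2 = w + a := by rw [hw]; ring
  have f1 := jacobiTheta₂_functional_equation w t
  have f2 := jacobiTheta₂'_functional_equation w t
  generalize (-I * t) ^ (1 / 2 : ℂ) = c at c0 f1 f2 ⊢
  have k : pre a b (-1 / t) (u / t) = z8 ^ (6 * (a * b)) *
      cexp (Real.pi * I / 4 * (u ^ 2 / t)) * pre b a t u * cexp (-Real.pi * I * w ^ 2 / t) := by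
    rw [z8, ← Complex.exp_nat_mul, pre, pre, ← Complex.exp_add, ← Complex.exp_add,
      ← Complex.exp_add, Complex.exp_eq_exp_iff_exists_int]
    refine ⟨-(a * b : ℕ), ?_⟩
    rw [hw]
    push_cast
    field_simp
    ring
  have hp : (Real.pi : ℂ) ≠ 0 := ofReal_ne_zero.2 Real.pi_ne_zero
  rw [j1_zero ha, j1_one ha b ht', j1_zero hb, j1_one hb a ht, e1, e2, (per ha w t).1,
    (per ha w t).2, f1, f2, k]
  constructor
  · field_simp
  · have : u = 2 * w + a - b * t := by rw [hw]; ring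
    generalize cexp (Real.pi * I / 4 * (u ^ 2 / t)) = E, pre b a t u = P
    rw [this]
    field_simp
    ring

end Pool.Agent.P.MP_abfee5_ag
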