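import Pool.Agent.P.MP_abfee5_ag.CT.Iface

/-! Step PROD of the cubic threefold theta project. -/

namespace Pool.Agent.P.MP_abfee5_ag

open Complex Filter Topology MvPolynomial

namespace ProdA

theorem gen {α : Type} : ∀ (n : ℕ) (a : Fin n → α → ℂ), (∀ k, Summable fun x => ‖a k x‖) →
    (Summable fun N : Fin n → α => ‖∏ k, a k (N k)‖) ∧
      ∑' N : Fin n → α, ∏ k, a k (N k) = ∏ k, ∑' x, a k x
  | 0, a, _ => ⟨.of_finite, by simp⟩
  | n + 1, a, h => by
    obtain ⟨h1, h2⟩ := gen n (fun k => a k.succ) fun k => h k.succ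
    refine ⟨(Fin.consEquiv fun _ => α).summable_iff.1 ?_, ?_⟩
    · refine ((h 0).mul_norm h1).congr fun p => ?_
      simp [Fin.prod_univ_succ, Fin.consEquiv]
    · rw [← (Fin.consEquiv fun _ => α).tsum_eq, Fin.prod_univ_succ, ← h2,
        tsum_mul_tsum_of_summable_norm (h 0) h1]
      refine tsum_congr fun p => ?_
      simp [Fin.prod_univ_succ, Fin.consEquiv]

theorem up {y C K t K' : ℝ} (h : y ≤ C * Real.exp (K * t)) (ht : 0 ≤ t) (hK : |K| ≤ K') :
    y ≤ |C| * Real.exp (K' * t) :=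
  h.trans (mul_le_mul (le_abs_self C) (Real.exp_le_exp.2
    (mul_le_mul_of_nonneg_right ((le_abs_self K).trans hK) ht)) (Real.exp_pos _).le (abs_nonneg C))

end ProdA

theorem p_PROD (hSUM : S_SUM) :
    S_PROD := by
  have hs := hSUM.2.2.2
  have p1 : ∀ (c : Fin 4 → ℕ) Ψ, Gr4 Ψ → ∀ τ ∈ Om,
      Summable fun N : Fin 4 → V => ‖Ψ N * ∏ k, (chi (c k) (N k) * ex τ (N k))‖ := by
    rintro c Ψ ⟨C, K, h⟩ τ hτ
    have h1 := (ProdA.gen 4 (fun k N => (Real.exp (K * ∑ j, |(N j : ℝ)|) : ℂ) * chi (c k) N * ex τ N)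
      fun k => hs _ (Gr.mul ⟨1, K, fun N => by
        rw [Complex.norm_real, Real.norm_of_nonneg (Real.exp_pos _).le, one_mul]⟩ (gr_chi _)) τ hτ).1
    refine (h1.mul_left C).of_nonneg_of_le (fun _ => norm_nonneg _) fun N => ?_
    rw [norm_mul]
    refine (mul_le_mul_of_nonneg_right (h N) (norm_nonneg _)).trans_eq ?_
    simp only [mul_assoc]
    rw [Finset.prod_mul_distrib (f := fun k => (Real.exp (K * ∑ j, |(N k j : ℝ)|) : ℂ)), norm_mul,
      ← Complex.ofReal_prod, ← Real.exp_sum, ← Finset.mul_sum, Complex.norm_real,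
      Real.norm_of_nonneg (Real.exp_pos _).le]
  refine ⟨p1, fun ψ h => ?_, fun c ψ h τ hτ => ?_, fun c ι s a Ψ h => ⟨?_, fun τ hτ => ?_⟩⟩
  · choose C K h using h
    refine ⟨∏ k, |C k|, ∑ k, |K k|, fun N => ?_⟩
    rw [norm_prod, Finset.mul_sum, Real.exp_sum, ← Finset.prod_mul_distrib]
    exact Finset.prod_le_prod (fun _ _ => norm_nonneg _) fun k _ => ProdA.up (h k _)
      (by positivity) (Finset.single_le_sum (fun i _ => abs_nonneg (K i)) (Finset.mem_univ k))
  · simp only [T4, S, ← Finset.prod_mul_distrib, ← mul_assoc]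
    exact (ProdA.gen 4 (fun k N => ψ k N * chi (c k) N * ex τ N)
      fun k => hs _ ((h k).mul (gr_chi _)) τ hτ).2
  · choose C K h using h
    refine ⟨∑ i ∈ s, ‖a i‖ * |C i|, ∑ i ∈ s, |K i|, fun N => (norm_sum_le _ _).trans ?_⟩
    rw [Finset.sum_mul]
    refine Finset.sum_le_sum fun i hi => ?_
    rw [norm_mul, mul_assoc]
    exact mul_le_mul_of_nonneg_left (ProdA.up (h i N) (by positivity)
      (Finset.single_le_sum (fun i _ => abs_nonneg (K i)) hi)) (norm_nonneg _)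
  · simp only [T4, Finset.sum_mul, mul_assoc]
    rw [Summable.tsum_finsetSum fun i _ => (p1 c _ (h i) τ hτ).of_norm.mul_left _]
    simp only [tsum_mul_left]

end Pool.Agent.P.MP_abfee5_ag
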