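import Pool.Agent.P.MP_abfee5_ag.CT.Iface4
import Pool.Agent.P.MP_abfee5_ag.CT.Iface
import Pool.Agent.P.MP_abfee5_ag.CT.Iface2

/-! Step PVAN of the cubic threefold theta project. -/

namespace Pool.Agent.P.MP_abfee5_ag

open Complex Filter Topology MvPolynomial

theorem p_PVAN (hRCK : S_RCK) (hEIGB : S_EIGB) (hEXD : S_EXD) (hCLOS : S_CLOS) (hEXT : S_EXT) (hGGEN : S_GGEN) (hGCL : S_GCL) (hDREL : S_DREL) :
    S_PVAN := by
  intro τ hτ hN m hm u hu
  have h1 := (hRCK 320 (by norm_num) 729 (by norm_num) ((45, 4) :: r2) (-16) (by norm_num)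
    (by decide +kernel)).2 hEIGB (by decide +kernel)
  have e : r2.map Prod.fst = os36 := by decide +kernel
  have h2 := hEXD (kap ++ [149]) (kap ++ ext) 320 729 45 4 r2 (by decide +kernel) (by norm_num)
    (by decide +kernel) (fun τ hτ => h1 τ (siegel_om hτ)) (e ▸ hCLOS) hEXT τ hτ hN
  refine (hGCL X0 (Pn 149) hGGEN.1 hGGEN.2.1).2.2 hGGEN.2.2 τ hτ h2 u
    (hDREL.2.1 _ τ ?_ m hu hm)
  rw [mact_snd, List.length_map]
  decide +kernel

end Pool.Agent.P.MP_abfee5_ag
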