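import Pool.Agent.P.MP_abfee5_ag.CT.Iface3

/-! Step QNZ of the cubic threefold theta project. -/

namespace Pool.Agent.P.MP_abfee5_ag

open Complex Filter Topology MvPolynomial

set_option exponentiation.threshold 500

namespace QnzA

/-- A sum over an initial segment. -/
def sm (f : ℕ → ℤ) (k : ℕ) : ℤ := Nat.rec 0 (fun k a => a + f k) k

theorem sm_eq (f : ℕ → ℤ) (k : ℕ) : sm f k = ∑ s ∈ Finset.range k, f s := by
  induction k with
  | zero => rfl
  | succ k ih => rw [Finset.sum_range_succ, ← ih]; rfl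

/-- Table entry. -/
def tb (s : ℕ) : ℤ × ℤ := xt.getD s (0, 0)

/-- Signed value. -/
def sgd (e : ℕ) (a : ℤ) : ℤ := bif Nat.beq e 0 then a else -a

/-- Real part of the scaled quadric. -/
def qr (n : ℕ) : ℤ := sm (fun s => sgd (pop5 (s &&& n))
  ((tb s).1 * (tb (s ^^^ (n >>> 5))).1 - (tb s).2 * (tb (s ^^^ (n >>> 5))).2)) 32

/-- Imaginary part of the scaled quadric. -/
def qi (n : ℕ) : ℤ := sm (fun s => sgd (pop5 (s &&& n))
  ((tb s).1 * (tb (s ^^^ (n >>> 5))).2 + (tb s).2 * (tb (s ^^^ (n >>> 5))).1)) 32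

theorem chk : (List.range 1024).all (fun n =>
    Nat.beq (par n) 1 || Nat.ble (2 ^ 298) ((qr n).natAbs + (qi n).natAbs)) = true := by
  decide +kernel

theorem chk2 : ∀ s < 32, (tb s).1.natAbs + (tb s).2.natAbs ≤ 2 ^ 225 := by
  decide +kernel

theorem sgd_eq {e : ℕ} (he : e < 2) (a : ℤ) : (sgd e a : ℂ) = (-1) ^ e * a := by
  interval_cases e <;> simp [sgd, show Nat.beq 1 0 = false from rfl]

theorem norm_gz (p : ℤ × ℤ) : ‖gz p‖ ≤ ((p.1.natAbs + p.2.natAbs : ℕ) : ℝ) := by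
  refine (norm_add_le _ _).trans_eq ?_
  simp

theorem Qx_tb (n : ℕ) :
    Qx (fun s => gz (tb s) / 2 ^ 224) n = gz (qr n, qi n) / 2 ^ 448 := by
  rw [gz, qr, qi, sm_eq, sm_eq, Qx]
  push_cast
  rw [Finset.sum_mul, ← Finset.sum_add_distrib, Finset.sum_div]
  refine Finset.sum_congr rfl fun s _ => ?_
  rw [sgd_eq (pop5_lt _), sgd_eq (pop5_lt _), gz, gz]
  push_cast
  linear_combination (-1) ^ pop5 (s &&& n) * (tb s).2 * (tb (s ^^^ (n >>> 5))).2 / 2 ^ 448 * I_sq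

theorem mul_near {a b c d : ℂ} {δ : ℝ} (h1 : ‖a - c‖ ≤ δ) (h2 : ‖b - d‖ ≤ δ) (hc : ‖c‖ ≤ 2)
    (hd : ‖d‖ ≤ 2) (hδ : δ ≤ 1) : ‖a * b - c * d‖ ≤ 5 * δ := by
  have d0 := (norm_nonneg _).trans h1
  rw [show a * b - c * d = (a - c) * (b - d) + (a - c) * d + c * (b - d) by ring]
  refine (norm_add₃_le).trans ?_
  rw [norm_mul, norm_mul, norm_mul]
  have := mul_le_mul h1 (h2.trans hδ) (norm_nonneg _) d0
  have := mul_le_mul h1 hd (norm_nonneg _) d0
  have := mul_le_mul hc h2 (norm_nonneg _) zero_le_two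
  linarith

end QnzA

open QnzA in
theorem p_QNZ :
    S_QNZ := by
  intro x hx n hn hp h0
  have c := List.all_eq_true.1 chk n (List.mem_range.2 hn)
  rw [hp, Bool.or_eq_true, Nat.ble_eq] at c
  have c := c.resolve_left (by decide)
  have y2 : ∀ s < 32, ‖gz (tb s) / 2 ^ 224‖ ≤ 2 := fun s hs => by
    rw [norm_div, norm_pow, Complex.norm_two, div_le_iff₀ (by positivity)]
    refine (norm_gz _).trans (le_trans (Nat.cast_le.2 (chk2 s hs)) ?_)
    norm_num
  have b : ‖Qx x n - Qx (fun s => gz (tb s) / 2 ^ 224) n‖ ≤ 32 * (5 * (1 / 2 ^ 210)) := by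
    rw [Qx, Qx, ← Finset.sum_sub_distrib]
    refine (norm_sum_le _ _).trans ((Finset.sum_le_card_nsmul _ _ (5 * (1 / 2 ^ 210))
      fun s hs => ?_).trans_eq (by simp))
    have h1 := Finset.mem_range.1 hs
    have h2 : s ^^^ (n >>> 5) < 32 := Nat.xor_lt_two_pow (n := 5) h1
      (by rw [Nat.shiftRight_eq_div_pow]; omega)
    rw [mul_assoc, mul_assoc, ← mul_sub, norm_mul]
    exact (mul_le_of_le_one_left (norm_nonneg _) (by simp)).trans
      (mul_near (hx _ h1) (hx _ h2) (y2 _ h1) (y2 _ h2) (by norm_num))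
  rw [h0, zero_sub, norm_neg, Qx_tb, norm_div, norm_pow, Complex.norm_two,
    div_le_iff₀ (by positivity)] at b
  have b1 := (abs_re_le_norm _).trans b
  have b2 := (abs_im_le_norm _).trans b
  have c' : (2 : ℝ) ^ 298 ≤ |(qr n : ℝ)| + |(qi n : ℝ)| := by
    have : ((2 ^ 298 : ℕ) : ℝ) ≤ _ := Nat.cast_le.2 c
    simpa only [Nat.cast_pow, Nat.cast_ofNat, Nat.cast_add, Nat.cast_natAbs, Int.cast_abs] using this
  simp only [gz, add_re, add_im, mul_re, mul_im, intCast_re, intCast_im, I_re, I_im, mul_zero,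
    mul_one, add_zero, zero_add, sub_self] at b1 b2
  have := c'.trans (add_le_add b1 b2)
  norm_num at this

end Pool.Agent.P.MP_abfee5_ag
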