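import Pool.Agent.P.MP_abfee5_ag.CT.Iface

/-! Step QQ of the cubic threefold theta project. -/

namespace Pool.Agent.P.MP_abfee5_ag

open Complex Filter Topology MvPolynomial

namespace QqA

lemma bb_xor (x y j : ℕ) : bb (x ^^^ y) j = (bb x j + bb y j) % 2 := by
  unfold bb
  rw [Nat.shiftRight_xor_distrib, Nat.xor_mod_two_eq]
  omega

lemma bb_and (x y j : ℕ) : bb (x &&& y) j = bb x j * bb y j := by
  unfold bb
  have h := Nat.and_mod_two_pow (a := x >>> j) (b := y >>> j) (n := 1)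
  rw [pow_one] at h
  rw [Nat.shiftRight_and_distrib, h]
  rcases Nat.mod_two_eq_zero_or_one (x >>> j) with h1 | h1 <;>
    rcases Nat.mod_two_eq_zero_or_one (y >>> j) with h2 | h2 <;> simp [h1, h2]

lemma pop5_eq (x : ℕ) : pop5 x = (∑ j : Fin 5, bb x j) % 2 := by
  have h1 := Nat.xor_mod_two_eq (m := x) (n := x >>> 1)
  have h2 := Nat.xor_mod_two_eq (m := x ^^^ x >>> 1) (n := x >>> 2)
  have h3 := Nat.xor_mod_two_eq (m := x ^^^ x >>> 1 ^^^ x >>> 2) (n := x >>> 3)
  have h4 := Nat.xor_mod_two_eq (m := x ^^^ x >>> 1 ^^^ x >>> 2 ^^^ x >>> 3) (n := x >>> 4)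
  rw [Fin.sum_univ_five]
  show (x ^^^ x >>> 1 ^^^ x >>> 2 ^^^ x >>> 3 ^^^ x >>> 4) % 2 =
    (x % 2 + (x >>> 1) % 2 + (x >>> 2) % 2 + (x >>> 3) % 2 + (x >>> 4) % 2) % 2
  omega

lemma ab_eq (n j : ℕ) : ab n j = bb (n >>> 5) j := by
  unfold ab bb
  rw [Nat.shiftRight_add]

lemma chi32 (s : ℕ) (U : V) :
    chi (32 * s) U = if ∀ j : Fin 5, U j % 2 = (bb s j : ℤ) then 1 else 0 := by
  have h1 : (32 * s) >>> 5 = s := by
    rw [Nat.shiftRight_eq_div_pow]
    omega
  have h2 : ∀ j : Fin 5, bb (32 * s) j = 0 := by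
    intro j
    unfold bb
    rw [Nat.shiftRight_eq_div_pow]
    fin_cases j <;> simp <;> omega
  simp [chi, ab_eq, h1, h2]

lemma bb_inj : ∀ s < 32, ∀ s' < 32, (∀ j : Fin 5, bb s j = bb s' j) → s = s' := by
  decide +kernel

lemma bb_surj : ∀ e : Fin 5 → Fin 2, ∃ s < 32, ∀ j : Fin 5, bb s j = e j := by
  decide +kernel

lemma cls (U : V) : ∃ s < 32, ∀ j : Fin 5, U j % 2 = (bb s j : ℤ) := by
  obtain ⟨s, hs, h⟩ := bb_surj fun j => ⟨(U j % 2).toNat, by omega⟩
  refine ⟨s, hs, fun j => ?_⟩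
  have := h j
  simp only at this
  omega

lemma neg_one_zpow {m : ℤ} {k : ℕ} (h : m % 2 = (k : ℤ)) : (-1 : ℂ) ^ m = (-1) ^ k := by
  rw [← Int.emod_add_mul_ediv m 2, h, zpow_add₀ (by norm_num), zpow_mul, zpow_natCast]
  norm_num

lemma chi_mul (n : ℕ) (U W : V) : chi n (U + W) * chi n (U - W) =
    ∑ s ∈ Finset.range 32, (-1 : ℂ) ^ pop5 (s &&& n) * (chi (32 * s) U *
      chi (32 * (s ^^^ (n >>> 5))) W) := by
  obtain ⟨s, hs, h⟩ := cls U
  rw [Finset.sum_eq_single_of_mem s (Finset.mem_range.2 hs), chi32, chi32, if_pos h, one_mul]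
  · by_cases hW : ∀ j : Fin 5, W j % (2 : ℤ) = (bb (s ^^^ (n >>> 5)) j : ℤ)
    · have h1 : ∀ j : Fin 5, (U + W) j % 2 = (ab n j : ℤ) ∧ (U - W) j % 2 = (ab n j : ℤ) := by
        intro j
        have a1 := h j
        have a2 := hW j
        have a3 := ab_lt n j
        rw [bb_xor, ← ab_eq] at a2
        simp only [Pi.add_apply, Pi.sub_apply]
        omega
      rw [if_pos hW, mul_one, chi, chi, if_pos fun j => (h1 j).1, if_pos fun j => (h1 j).2,
        ← zpow_add₀ I_ne_zero, ← Finset.sum_add_distrib]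
      have h2 : ∑ j : Fin 5, ((U + W) j * (bb n j : ℤ) + (U - W) j * (bb n j : ℤ)) =
          2 * ∑ j : Fin 5, U j * (bb n j : ℤ) := by
        rw [Finset.mul_sum]
        refine Finset.sum_congr rfl fun j _ => ?_
        simp only [Pi.add_apply, Pi.sub_apply]
        ring
      rw [h2, zpow_mul, zpow_two, I_mul_I]
      apply neg_one_zpow
      rw [pop5_eq]
      push_cast
      rw [Finset.sum_int_mod, Finset.sum_int_mod _ 2 fun j : Fin 5 => (bb (s &&& n) j : ℤ)]
      congr 1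
      refine Finset.sum_congr rfl fun j _ => ?_
      rw [bb_and, Nat.cast_mul, ← h j, Int.mul_emod (U j % 2), Int.emod_emod, ← Int.mul_emod]
    · rw [if_neg hW, mul_zero, chi, if_neg, zero_mul]
      intro h1
      refine hW fun j => ?_
      have a1 := h j
      have a2 := h1 j
      rw [bb_xor, ← ab_eq]
      simp only [Pi.add_apply] at a2
      omega
  · intro s' hs' hne
    rw [chi32, if_neg, zero_mul, mul_zero]
    intro h1
    exact hne (bb_inj _ (Finset.mem_range.1 hs') _ hs fun j => by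
      exact_mod_cast (h1 j).symm.trans (h j))

lemma ex_mul (τ : Mat) (U W : V) :
    ex τ (U + W) * ex τ (U - W) = ex ((2 : ℂ) • τ) U * ex ((2 : ℂ) • τ) W := by
  unfold ex
  rw [← Complex.exp_add, ← Complex.exp_add, ← mul_add, ← mul_add]
  congr 2
  simp only [qf, ← Finset.sum_add_distrib]
  refine Finset.sum_congr rfl fun j _ => Finset.sum_congr rfl fun k _ => ?_
  simp only [Pi.add_apply, Pi.sub_apply, Pi.smul_apply, smul_eq_mul]
  push_cast
  ring

lemma two_om {τ : Mat} (h : τ ∈ Om) : (2 : ℂ) • τ ∈ Om := by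
  intro x hx
  have h1 := mul_pos two_pos (h x hx)
  refine h1.trans_eq ?_
  simp only [Finset.mul_sum]
  refine Finset.sum_congr rfl fun j _ => Finset.sum_congr rfl fun k _ => ?_
  simp
  ring

/-- The change of variables. -/
def gg (p : V × V) : V × V := (p.1 + p.2, p.1 - p.2)

lemma gg_inj : Function.Injective gg := by
  rintro ⟨U, W⟩ ⟨U', W'⟩ h
  have h1 := congrFun (congrArg Prod.fst h)
  have h2 := congrFun (congrArg Prod.snd h)
  simp only [gg, Pi.add_apply, Pi.sub_apply] at h1 h2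
  refine Prod.ext (funext fun j => ?_) (funext fun j => ?_) <;>
  · have a1 := h1 j
    have a2 := h2 j
    dsimp only
    omega

lemma chi_ne {n : ℕ} {N : V} (h : chi n N ≠ 0) (j : Fin 5) : N j % 2 = (ab n j : ℤ) := by
  by_contra hj
  exact h (if_neg fun h' => hj (h' j))

end QqA

open QqA in
theorem p_QQ (hSUM : S_SUM) :
    S_QQ := by
  intro n _ τ hτ
  have hs := fun m => hSUM.2.2.2 _ (gr_chi m)
  have h2 := two_om hτ
  have h3 : HasSum (fun p : V × V => ∑ s ∈ Finset.range 32, (-1 : ℂ) ^ pop5 (s &&& n) *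
      (chi (32 * s) p.1 * ex ((2 : ℂ) • τ) p.1 *
        (chi (32 * (s ^^^ (n >>> 5))) p.2 * ex ((2 : ℂ) • τ) p.2)))
      (∑ s ∈ Finset.range 32, (-1 : ℂ) ^ pop5 (s &&& n) * xx s τ * xx (s ^^^ (n >>> 5)) τ) := by
    refine hasSum_sum fun s _ => ?_
    rw [mul_assoc]
    refine HasSum.mul_left _ ?_
    have a1 := hs (32 * s) _ h2
    have a2 := hs (32 * (s ^^^ (n >>> 5))) _ h2
    have a3 := (summable_mul_of_summable_norm a1 a2).hasSum
    rw [← tsum_mul_tsum_of_summable_norm a1 a2] at a3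
    exact a3
  refine Eq.trans ?_ (h3.tsum_eq.trans (by simp))
  rw [sq, th, S, tsum_mul_tsum_of_summable_norm (hs _ _ hτ) (hs _ _ hτ),
    ← gg_inj.tsum_eq]
  · refine tsum_congr fun p => ?_
    show chi n (p.1 + p.2) * ex τ (p.1 + p.2) * (chi n (p.1 - p.2) * ex τ (p.1 - p.2)) = _
    rw [mul_mul_mul_comm, chi_mul, ex_mul, Finset.sum_mul]
    refine Finset.sum_congr rfl fun s _ => ?_
    ring
  · rintro ⟨N, M⟩ h
    have h1 := chi_ne (left_ne_zero_of_mul (left_ne_zero_of_mul h))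
    have h2 := chi_ne (left_ne_zero_of_mul (right_ne_zero_of_mul h))
    refine ⟨(fun j => (N j + M j) / 2, fun j => (N j - M j) / 2),
      Prod.ext (funext fun j => ?_) (funext fun j => ?_)⟩ <;>
    · have a1 := h1 j
      have a2 := h2 j
      simp only [gg, Pi.add_apply, Pi.sub_apply] at a1 a2 ⊢
      omega

end Pool.Agent.P.MP_abfee5_ag
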