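import Pool.Agent.P.MP_abfee5_ag.CT.Iface

/-! Step RCK of the cubic threefold theta project. -/

namespace Pool.Agent.P.MP_abfee5_ag

open Complex Filter Topology MvPolynomial

namespace RckA

theorem swap {α : Type} (L : List α) (s : Finset ℕ) (f : α → ℕ → ℂ) (T : ℕ → ℂ) :
    (L.map fun p => ∑ d ∈ s, f p d * T d).sum = ∑ d ∈ s, (L.map fun p => f p d).sum * T d := by
  induction L with
  | nil => simp
  | cons p L ih => simp only [List.map_cons, List.sum_cons, ih, add_mul, Finset.sum_add_distrib]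

theorem xlt {a b : ℕ} (ha : a < 1024) (hb : b < 1024) : a ^^^ b < 1024 :=
  Nat.xor_lt_two_pow (n := 10) ha hb

theorem x1 (d a b : ℕ) : d ^^^ a ^^^ b = d ^^^ b ^^^ a := by
  rw [Nat.xor_assoc, Nat.xor_comm a, Nat.xor_assoc]

theorem x2 (d a b : ℕ) : d ^^^ (d ^^^ a) ^^^ (d ^^^ b) = d ^^^ a ^^^ b := by
  rw [Nat.xor_xor_cancel_left, ← Nat.xor_assoc, Nat.xor_comm a]

theorem eig {a b r : ℕ} (ha : a < 1024) (hb : b < 1024) {R : List (ℕ × ℤ)} {lam : ℤ}
    (hl : lam ≠ 32) (hR : ∀ p ∈ R, p.1 < 1024) (hE : Eig a b r R lam) (T : ℕ → ℂ)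
    (h1 : ∀ p, T p = 1 / 32 * ∑ d ∈ Finset.range 1024,
      (-1) ^ sgn4 p (p ^^^ a) (p ^^^ b) d * T (p ^^^ d))
    (h2 : ∀ d, nodd a b d ≠ r → T d = 0) (h3 : ∀ d, T (d ^^^ a) = T d)
    (h4 : ∀ d, T (d ^^^ b) = T d) : (R.map fun p => (p.2 : ℂ) * T p.1).sum = 0 := by
  have e0 : ∀ R : List (ℕ × ℤ), ((spread a b R).map fun p => (p.2 : ℂ) * T p.1).sum =
      4 * (R.map fun p => (p.2 : ℂ) * T p.1).sum := fun R => by
    induction R with
    | nil => simp [spread]
    | cons p R ih =>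
      rw [spread, List.flatMap_cons, List.map_append, List.sum_append, ← spread, ih]
      simp only [List.map_cons, List.sum_cons, List.map_nil, List.sum_nil, h3, h4]
      ring
  have lt : ∀ p ∈ spread a b R, p.1 < 1024 := fun p hp => by
    obtain ⟨q, hq, hp⟩ := List.mem_flatMap.1 hp
    have := hR q hq
    simp only [List.mem_cons, List.not_mem_nil, or_false] at hp
    rcases hp with rfl | rfl | rfl | rfl
    exacts [this, xlt this ha, xlt this hb, xlt (xlt this ha) hb]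
  have e1 : ((spread a b R).map fun p => 32 * ((p.2 : ℂ) * T p.1)).sum =
      ((spread a b R).map fun p => ∑ d ∈ Finset.range 1024,
        ((p.2 * (-1) ^ sgn4 p.1 (p.1 ^^^ a) (p.1 ^^^ b) (p.1 ^^^ d) : ℤ) : ℂ) * T d).sum :=
    congrArg _ (List.map_congr_left fun p hp => by
      rw [h1 p.1, mul_left_comm, ← mul_assoc 32, mul_one_div_cancel (by norm_num), one_mul,
        Finset.mul_sum]
      refine Finset.sum_nbij' (p.1 ^^^ ·) (p.1 ^^^ ·)
        (fun d hd => Finset.mem_range.2 (xlt (lt p hp) (Finset.mem_range.1 hd)))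
        (fun d hd => Finset.mem_range.2 (xlt (lt p hp) (Finset.mem_range.1 hd)))
        (fun d _ => Nat.xor_xor_cancel_left _ _) (fun d _ => Nat.xor_xor_cancel_left _ _)
        fun d _ => ?_
      rw [Nat.xor_xor_cancel_left]
      push_cast
      ring)
  have e2 : ((spread a b R).map fun p => (p.2 : ℂ) * T p.1).sum =
      ((spread a b R).map fun p => ∑ d ∈ Finset.range 1024,
        ((if p.1 = d then p.2 else 0 : ℤ) : ℂ) * T d).sum :=
    congrArg _ (List.map_congr_left fun p hp => by simp [lt p hp])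
  rw [List.sum_map_mul_left, swap] at e1
  rw [swap] at e2
  have e3 : 32 * ((spread a b R).map fun p => (p.2 : ℂ) * T p.1).sum =
      lam * ((spread a b R).map fun p => (p.2 : ℂ) * T p.1).sum := by
    rw [e1, e2, Finset.mul_sum]
    refine Finset.sum_congr rfl fun d hd => ?_
    by_cases c : nodd a b d = r
    · have := congrArg (fun x : ℤ => (x : ℂ)) (hE d (Finset.mem_range.1 hd) c)
      simp only [Int.cast_mul lam, Int.cast_list_sum, List.map_map, Function.comp_def] at this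
      rw [this, mul_assoc]
    · rw [h2 d c, mul_zero, mul_zero, mul_zero]
  have e4 : (lam : ℂ) ≠ 32 := by exact_mod_cast hl
  rw [e0] at e3
  simpa [e4.symm] using e3

theorem par01 (n : ℕ) : par n = 0 ∨ par n = 1 := by
  have := par_lt n
  omega

end RckA

open RckA in
theorem p_RCK (hPROD : S_PROD) (hRIEM : S_RIEM) (hODD : S_ODD) :
    S_RCK := by
  intro a ha b hb R lam hl hR
  obtain ⟨-, P2, P3, P4⟩ := hPROD
  have ri : ∀ Ψ, Gr4 Ψ → (∀ N, (∀ j, (∑ k, N k j) % 2 = 0) → Ψ (iota N) = Ψ N) → ∀ τ ∈ Om, ∀ p,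
      T4 (c4 p (p ^^^ a) (p ^^^ b)) Ψ τ = 1 / 32 * ∑ d ∈ Finset.range 1024,
        (-1) ^ sgn4 p (p ^^^ a) (p ^^^ b) d *
          T4 (c4 (p ^^^ d) (p ^^^ d ^^^ a) (p ^^^ d ^^^ b)) Ψ τ := fun Ψ g i τ hτ p => by
    simpa only [x1 p a, x1 p b] using hRIEM p (p ^^^ a) (p ^^^ b) Ψ Ψ g g i τ hτ
  refine ⟨fun hE _ τ hτ => ?_, fun hE h1 τ hτ j => ?_⟩
  · have g : ∀ k : Fin 4, Gr ((fun _ _ => 1 : Fin 4 → V → ℂ) k) := fun _ => gr_const 1
    have e : ∀ d, T4 (c4 d (d ^^^ a) (d ^^^ b)) (fun _ => ∏ _k : Fin 4, 1) τ =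
        th d τ * th (d ^^^ a) τ * th (d ^^^ b) τ * th (d ^^^ a ^^^ b) τ := fun d => by
      rw [P3 _ _ g τ hτ, Fin.prod_univ_four, ← x2 d a b]
      simp only [one_mul]
      rfl
    refine eig ha hb hl hR hE
      (fun d => th d τ * th (d ^^^ a) τ * th (d ^^^ b) τ * th (d ^^^ a ^^^ b) τ)
      (fun p => by simpa only [e] using ri _ (P2 _ g) (fun _ _ => rfl) τ hτ p)
      (fun d hd => ?_) (fun d => ?_) fun d => ?_
    · rcases par01 d with c1 | c1 <;> rcases par01 (d ^^^ a) with c2 | c2 <;>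
        rcases par01 (d ^^^ b) with c3 | c3 <;> rcases par01 (d ^^^ a ^^^ b) with c4 | c4 <;>
        simp [nodd, c1, c2, c3, c4, (hODD _ τ).1] at hd ⊢
    · simp only [Nat.xor_xor_cancel_right]
      ring
    · simp only [x1 d b a, Nat.xor_xor_cancel_right]
      ring
  · let ψ : Fin 4 → Fin 4 → V → ℂ := fun i k N => if k = i then (N j : ℂ) else 1
    have g : ∀ i k, Gr (ψ i k) := fun i k => by
      by_cases c : k = i
      · simpa only [ψ, if_pos c] using gr_coord j
      · simpa only [ψ, if_neg c] using gr_const 1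
    have p4 := fun c => P4 c (Fin 4) Finset.univ (fun _ => 1) (fun i N => ∏ k, ψ i k (N k))
      fun i => P2 _ (g i)
    have e : ∀ d, T4 (c4 d (d ^^^ a) (d ^^^ b)) (fun N => ∑ i, 1 * ∏ k, ψ i k (N k)) τ =
        gr d τ j * th (d ^^^ a) τ * th (d ^^^ b) τ * th (d ^^^ a ^^^ b) τ +
        th d τ * gr (d ^^^ a) τ j * th (d ^^^ b) τ * th (d ^^^ a ^^^ b) τ +
        th d τ * th (d ^^^ a) τ * gr (d ^^^ b) τ j * th (d ^^^ a ^^^ b) τ +
        th d τ * th (d ^^^ a) τ * th (d ^^^ b) τ * gr (d ^^^ a ^^^ b) τ j := fun d => by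
      rw [(p4 _).2 τ hτ, ← x2 d a b,
        Finset.sum_congr rfl fun i _ => congrArg _ (P3 _ _ (g i) τ hτ)]
      simp only [Fin.sum_univ_four, Fin.prod_univ_four, ψ, Fin.reduceEq, if_true, if_false, one_mul]
      rfl
    have inv : ∀ N : Fin 4 → V, (∀ j, (∑ k, N k j) % 2 = 0) →
        ∑ i, 1 * ∏ k, ψ i k (iota N k) = ∑ i, 1 * ∏ k, ψ i k (N k) := fun N hN => by
      have := hN j
      simp only [ψ, Finset.prod_ite_eq', Finset.mem_univ, if_true, one_mul, ← Int.cast_sum, iota,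
        Int.cast_inj]
      simp only [Fin.sum_univ_four] at this ⊢
      omega
    have := eig ha hb hl hR hE _
      (fun p => by simpa only [e] using ri _ (p4 0).1 inv τ hτ p)
      (fun d hd => by
        rcases par01 d with c1 | c1 <;> rcases par01 (d ^^^ a) with c2 | c2 <;>
          rcases par01 (d ^^^ b) with c3 | c3 <;> rcases par01 (d ^^^ a ^^^ b) with c4 | c4 <;>
          simp [nodd, c1, c2, c3, c4, (hODD _ τ).1, (hODD _ τ).2] at hd ⊢)
      (fun d => by
        simp only [Nat.xor_xor_cancel_right]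
        ring)
      (fun d => by
        simp only [x1 d b a, Nat.xor_xor_cancel_right]
        ring)
    refine Eq.trans (congrArg _ (List.map_congr_left fun p hp => ?_)) this
    rw [(hODD _ τ).1 (h1 p hp).1]
    ring

end Pool.Agent.P.MP_abfee5_ag
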