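import Pool.Agent.P.MP_abfee5_ag.CT.Iface

/-! Step RIEM of the cubic threefold theta project. -/

namespace Pool.Agent.P.MP_abfee5_ag

open Complex Filter Topology MvPolynomial

namespace RiemA

/-- All row sums are even. -/
def Ev (N : Fin 4 → V) : Prop := ∀ j, (∑ k, N k j) % 2 = 0

lemma ab_xor (a b j : ℕ) : ab (a ^^^ b) j = (ab a j + ab b j) % 2 := by
  simp only [ab, Nat.shiftRight_xor_distrib, Nat.xor_mod_two_eq]
  omega

lemma vanish (c1 c2 c3 : ℕ) {N : Fin 4 → V} (h : ¬Ev N) :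
    ∏ k, chi (c4 c1 c2 c3 k) (N k) = 0 := by
  by_contra hne
  refine h fun j => ?_
  have h1 : ∀ k, N k j % 2 = (ab (c4 c1 c2 c3 k) j : ℤ) := fun k => by
    have := Finset.prod_ne_zero_iff.1 hne k (Finset.mem_univ k)
    unfold chi at this
    split_ifs at this with h2
    · exact h2 j
    · exact absurd rfl this
  have a0 : N 0 j % 2 = (ab c1 j : ℤ) := h1 0
  have a1 : N 1 j % 2 = (ab c2 j : ℤ) := h1 1
  have a2 : N 2 j % 2 = (ab c3 j : ℤ) := h1 2
  have a3 : N 3 j % 2 = (ab (c1 ^^^ c2 ^^^ c3) j : ℤ) := h1 3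
  rw [ab_xor, ab_xor] at a3
  rw [Fin.sum_univ_four]
  omega

lemma row {N : Fin 4 → V} (h : Ev N) (j : Fin 5) : ∑ k, iota N k j = ∑ k, N k j := by
  have := h j
  simp only [iota, Fin.sum_univ_four] at this ⊢
  omega

lemma ev_iota {N : Fin 4 → V} (h : Ev N) : Ev (iota N) := fun j => by rw [row h]; exact h j

lemma iota_iota {N : Fin 4 → V} (h : Ev N) : iota (iota N) = N := by
  funext k j
  show (∑ l, iota N l j) / 2 - iota N k j = _
  rw [row h]
  simp [iota]

lemma ex_iota {N : Fin 4 → V} (h : Ev N) (τ : Mat) : ∏ k, ex τ (iota N k) = ∏ k, ex τ (N k) := by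
  simp only [ex, ← Complex.exp_sum, ← Finset.mul_sum]
  congr 2
  simp only [qf]
  rw [Finset.sum_comm, Finset.sum_comm (s := (Finset.univ : Finset (Fin 4)))]
  refine Finset.sum_congr rfl fun p _ => ?_
  rw [Finset.sum_comm, Finset.sum_comm (s := (Finset.univ : Finset (Fin 4)))]
  refine Finset.sum_congr rfl fun q _ => ?_
  have h1 : ∀ j, (2 : ℂ) * (((∑ l, N l j) / 2 : ℤ) : ℂ) = N 0 j + N 1 j + N 2 j + N 3 j := fun j => by
    have h2 : 2 * ((∑ l, N l j) / 2) = N 0 j + N 1 j + N 2 j + N 3 j := by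
      have := h j
      rw [Fin.sum_univ_four] at this ⊢
      omega
    exact_mod_cast h2
  have hp := h1 p
  have hq := h1 q
  simp only [iota, Int.cast_sub]
  generalize (((∑ l, N l p) / 2 : ℤ) : ℂ) = a at hp ⊢
  generalize (((∑ l, N l q) / 2 : ℤ) : ℂ) = b at hq ⊢
  simp only [Fin.sum_univ_four]
  linear_combination τ p q * b * hp + τ p q * a * hq

open Classical in
/-- The involution of all quadruples. -/
noncomputable def inv (N : Fin 4 → V) : Fin 4 → V := if Ev N then iota N else N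

lemma inv_inv : Function.Involutive inv := fun N => by
  by_cases h : Ev N
  · simp [inv, h, ev_iota h, iota_iota h]
  · simp [inv, h]

end RiemA

open RiemA in
theorem p_RIEM (hRROW : S_RROW) (hPROD : S_PROD) :
    S_RIEM := by
  intro c1 c2 c3 Ψ Ψ' _ hΨ' hι τ hτ
  unfold T4
  rw [← (inv_inv.toPerm _).tsum_eq]
  simp only [← tsum_mul_left]
  rw [← Summable.tsum_finsetSum fun d _ => ((hPROD.1 _ Ψ' hΨ' τ hτ).of_norm).mul_left _,
    ← tsum_mul_left]
  refine tsum_congr fun N => ?_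
  simp only [Function.Involutive.coe_toPerm, Finset.prod_mul_distrib]
  by_cases h : Ev N
  · rw [RiemA.inv, if_pos h, hι N h, ex_iota h, hRROW c1 c2 c3 N h]
    simp only [Finset.mul_sum, Finset.sum_mul]
    exact Finset.sum_congr rfl fun d _ => by ring
  · rw [RiemA.inv, if_neg h]
    simp only [vanish _ _ _ h, zero_mul, mul_zero, Finset.sum_const_zero]

end Pool.Agent.P.MP_abfee5_ag
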