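import Pool.Agent.P.MP_abfee5_ag.CT.Iface

/-! Step RROW of the cubic threefold theta project. -/

namespace Pool.Agent.P.MP_abfee5_ag

open Complex Filter Topology MvPolynomial

namespace RrowA

/-- The product of the four weights of one row, with a sign, as a Gaussian integer. -/
def G (a1 a2 a3 b1 b2 b3 : Bool) (x0 x1 x2 x3 : ℤ) (e : Bool) : GaussianInt :=
  if x0 % 2 = a1.toNat ∧ x1 % 2 = a2.toNat ∧ x2 % 2 = a3.toNat ∧
      x3 % 2 = ((a1 ^^ a2) ^^ a3).toNat then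
    (if e then -1 else 1) * ⟨0, 1⟩ ^ ((x0 * b1.toNat + x1 * b2.toNat + x2 * b3.toNat +
      x3 * ((b1 ^^ b2) ^^ b3).toNat) % 4).toNat
  else 0

/-- The sign bit of one row. -/
def sb (a1 a2 a3 b1 b2 b3 dl et : Bool) : Bool :=
  let t := (((a1 && b1) ^^ (a2 && b2)) ^^ (a3 && b3)) ^^ (((a1 ^^ a2) ^^ a3) && ((b1 ^^ b2) ^^ b3))
  (((dl && ((((b1 && b2) ^^ (b1 && b3)) ^^ (b2 && b3)) ^^ ((b1 ^^ b2) ^^ b3))) ^^ t) ^^
    (et && dl)) ^^ (et && t)

/-- One term of the right side. -/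
def tm (a1 a2 a3 b1 b2 b3 : Bool) (x0 x1 x2 x3 : ℤ) (dl et : Bool) : GaussianInt :=
  G (a1 ^^ dl) (a2 ^^ dl) (a3 ^^ dl) (b1 ^^ et) (b2 ^^ et) (b3 ^^ et) x0 x1 x2 x3
    (sb a1 a2 a3 b1 b2 b3 dl et)

theorem tab : ∀ a1 a2 a3 b1 b2 b3 : Bool, ∀ m r0 r1 r2 : Fin 4,
    2 * G a1 a2 a3 b1 b2 b3 (m - r0) (m - r1) (m - r2) (r0 + r1 + r2 - m) false =
      tm a1 a2 a3 b1 b2 b3 r0 r1 r2 (2 * m - r0 - r1 - r2) true true +
      tm a1 a2 a3 b1 b2 b3 r0 r1 r2 (2 * m - r0 - r1 - r2) true false +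
      (tm a1 a2 a3 b1 b2 b3 r0 r1 r2 (2 * m - r0 - r1 - r2) false true +
      tm a1 a2 a3 b1 b2 b3 r0 r1 r2 (2 * m - r0 - r1 - r2) false false) := by
  decide +kernel

theorem G_mod (a1 a2 a3 b1 b2 b3 : Bool) {x0 x1 x2 x3 y0 y1 y2 y3 : ℤ} (e : Bool)
    (h0 : x0 % 4 = y0 % 4) (h1 : x1 % 4 = y1 % 4) (h2 : x2 % 4 = y2 % 4) (h3 : x3 % 4 = y3 % 4) :
    G a1 a2 a3 b1 b2 b3 x0 x1 x2 x3 e = G a1 a2 a3 b1 b2 b3 y0 y1 y2 y3 e := by
  have h4 : (x0 * b1.toNat + x1 * b2.toNat + x2 * b3.toNat + x3 * ((b1 ^^ b2) ^^ b3).toNat) % 4 =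
      (y0 * b1.toNat + y1 * b2.toNat + y2 * b3.toNat + y3 * ((b1 ^^ b2) ^^ b3).toNat) % 4 :=
    (((Int.ModEq.mul_right _ h0).add (Int.ModEq.mul_right _ h1)).add
      (Int.ModEq.mul_right _ h2)).add (Int.ModEq.mul_right _ h3)
  rw [G, G, h4, show x0 % 2 = y0 % 2 by omega, show x1 % 2 = y1 % 2 by omega,
    show x2 % 2 = y2 % 2 by omega, show x3 % 2 = y3 % 2 by omega]

theorem res (x : ℤ) : ∃ r : Fin 4, x % 4 = (r : ℕ) := ⟨⟨(x % 4).toNat, by omega⟩, by simp; omega⟩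

theorem tab' (a1 a2 a3 b1 b2 b3 : Bool) (m r0 r1 r2 r3 : ℤ) (h : r0 + r1 + r2 + r3 = 2 * m) :
    2 * G a1 a2 a3 b1 b2 b3 (m - r0) (m - r1) (m - r2) (m - r3) false =
      ∑ p : Bool × Bool, tm a1 a2 a3 b1 b2 b3 r0 r1 r2 r3 p.1 p.2 := by
  obtain ⟨m', hm⟩ := res m
  obtain ⟨s0, h0⟩ := res r0
  obtain ⟨s1, h1⟩ := res r1
  obtain ⟨s2, h2⟩ := res r2
  have e : ∀ dl et, tm a1 a2 a3 b1 b2 b3 r0 r1 r2 r3 dl et =
      tm a1 a2 a3 b1 b2 b3 s0 s1 s2 (2 * m' - s0 - s1 - s2) dl et := fun dl et =>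
    G_mod _ _ _ _ _ _ _ (by omega) (by omega) (by omega) (by omega)
  simp only [Fintype.sum_prod_type, Fintype.sum_bool, e]
  rw [← tab]
  exact congrArg _ (G_mod _ _ _ _ _ _ _ (by omega) (by omega) (by omega) (by omega))

/-- The weight of one entry. -/
noncomputable def ch (a b : Bool) (x : ℤ) : ℂ :=
  if x % 2 = a.toNat then I ^ (x * b.toNat) else 0

theorem G_eq (a1 a2 a3 b1 b2 b3 : Bool) (x0 x1 x2 x3 : ℤ) (e : Bool) :
    GaussianInt.toComplex (G a1 a2 a3 b1 b2 b3 x0 x1 x2 x3 e) = (if e then -1 else 1) *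
      (ch a1 b1 x0 * ch a2 b2 x1 * ch a3 b3 x2 * ch ((a1 ^^ a2) ^^ a3) ((b1 ^^ b2) ^^ b3) x3) := by
  rw [G]
  by_cases h : x0 % 2 = a1.toNat ∧ x1 % 2 = a2.toNat ∧ x2 % 2 = a3.toNat ∧
      x3 % 2 = ((a1 ^^ a2) ^^ a3).toNat
  · have hI : GaussianInt.toComplex ⟨0, 1⟩ = I := by simp [GaussianInt.toComplex_def']
    rw [if_pos h, ch, ch, ch, ch, if_pos h.1, if_pos h.2.1, if_pos h.2.2.1, if_pos h.2.2.2,
      ← zpow_add₀ I_ne_zero, ← zpow_add₀ I_ne_zero, ← zpow_add₀ I_ne_zero, I_zpow_eq_zpow_mod,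
      map_mul, map_pow, hI, ← zpow_natCast, Int.toNat_of_nonneg (Int.emod_nonneg _ (by norm_num))]
    cases e <;> simp
  · rw [if_neg h, map_zero, eq_comm]
    simp only [not_and_or] at h
    rcases h with h | h | h | h <;> simp only [ch, if_neg h, mul_zero, zero_mul]

theorem chi_eq (n : ℕ) (N : V) :
    chi n N = ∏ j : Fin 5, ch (n.testBit (5 + j)) (n.testBit j) (N j) := by
  have h1 : ∀ s : Finset (Fin 5), ∀ f : Fin 5 → ℤ, I ^ (∑ j ∈ s, f j) = ∏ j ∈ s, I ^ f j := by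
    intro s f
    induction s using Finset.cons_induction with
    | empty => simp
    | cons a s h ih => rw [Finset.sum_cons, Finset.prod_cons, zpow_add₀ I_ne_zero, ih]
  simp only [chi, ch, ab, bb, Nat.toNat_testBit, Nat.shiftRight_eq_div_pow, Finset.prod_ite_zero,
    Finset.mem_univ, forall_const, h1]

theorem pop_eq (x : ℕ) : (-1 : ℂ) ^ pop5 x = ∏ j : Fin 5, if x.testBit j then -1 else 1 := by
  have h : pop5 x = (x.testBit 0 ^^ x.testBit 1 ^^ x.testBit 2 ^^ x.testBit 3 ^^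
      x.testBit 4).toNat := by
    have h1 := Nat.toNat_testBit (x ^^^ x >>> 1 ^^^ x >>> 2 ^^^ x >>> 3 ^^^ x >>> 4) 0
    rw [pow_zero, Nat.div_one] at h1
    rw [pop5, ← h1]
    simp only [Nat.testBit_xor, Nat.testBit_shiftRight]
  rw [h, Fin.prod_univ_five]
  show _ = ite (x.testBit 0) _ _ * ite (x.testBit 1) _ _ * ite (x.testBit 2) _ _ *
    ite (x.testBit 3) _ _ * ite (x.testBit 4) _ _
  cases x.testBit 0 <;> cases x.testBit 1 <;> cases x.testBit 2 <;> cases x.testBit 3 <;>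
    cases x.testBit 4 <;> simp

theorem sum_bits (F : Fin 5 → Bool × Bool → ℂ) :
    ∑ d ∈ Finset.range 1024, ∏ j : Fin 5, F j (d.testBit (5 + j), d.testBit j) =
      ∏ j, ∑ p, F j p := by
  have hi : Set.InjOn (fun (d : ℕ) (j : Fin 5) => (d.testBit (5 + j), d.testBit j))
      (Finset.range 1024) := by
    intro d hd d' hd' h
    refine Nat.eq_of_testBit_eq fun i => ?_
    by_cases h1 : i < 5
    · exact congrArg Prod.snd (congrFun h ⟨i, h1⟩)
    by_cases h2 : i < 10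
    · have h3 := congrArg Prod.fst (congrFun h ⟨i - 5, by omega⟩)
      simpa only [show 5 + (i - 5) = i by omega] using h3
    · have h3 : 1024 ≤ 2 ^ i := Nat.pow_le_pow_right (n := 2) (i := 10) (by norm_num) (by omega)
      rw [Nat.testBit_lt_two_pow ((Finset.mem_range.mp hd).trans_le h3),
        Nat.testBit_lt_two_pow ((Finset.mem_range.mp hd').trans_le h3)]
  rw [Finset.prod_univ_sum, Fintype.piFinset_univ]
  exact Finset.sum_nbij _ (fun _ _ => Finset.mem_univ _) hi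
    (Finset.surjOn_of_injOn_of_card_le _ (fun _ _ => Finset.mem_univ _) hi (by simp))
    fun _ _ => rfl

theorem prod_chi (c1 c2 c3 : ℕ) (N : Fin 4 → V) (e : Fin 5 → Bool) :
    (∏ j : Fin 5, if e j then (-1 : ℂ) else 1) * ∏ k, chi (c4 c1 c2 c3 k) (N k) =
      ∏ j : Fin 5, GaussianInt.toComplex (G (c1.testBit (5 + j)) (c2.testBit (5 + j))
        (c3.testBit (5 + j)) (c1.testBit j) (c2.testBit j) (c3.testBit j)
        (N 0 j) (N 1 j) (N 2 j) (N 3 j) (e j)) := by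
  simp only [chi_eq, G_eq, ← Nat.testBit_xor, Fin.prod_univ_four, ← Finset.prod_mul_distrib]
  rfl

end RrowA

open RrowA in
theorem p_RROW :
    S_RROW := by
  intro c1 c2 c3 N hN
  have h1 := prod_chi c1 c2 c3 (iota N) fun _ => false
  simp only [Bool.false_eq_true, if_false, Finset.prod_const_one, one_mul] at h1
  have h2 := sum_bits fun j p => GaussianInt.toComplex (tm (c1.testBit (5 + j))
    (c2.testBit (5 + j)) (c3.testBit (5 + j)) (c1.testBit j) (c2.testBit j) (c3.testBit j)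
    (N 0 j) (N 1 j) (N 2 j) (N 3 j) p.1 p.2)
  have h3 : ∀ j, N 0 j + N 1 j + N 2 j + N 3 j = 2 * ((∑ l, N l j) / 2) := fun j => by
    have := hN j
    rw [← Fin.sum_univ_four fun l => N l j]
    omega
  simp only [← map_sum, ← tab' _ _ _ _ _ _ _ _ _ _ _ (h3 _), map_mul, map_ofNat,
    Finset.prod_mul_distrib, Finset.prod_const, Finset.card_univ, Fintype.card_fin] at h2
  rw [h1, Finset.sum_congr rfl fun d _ => ?_, h2]
  · simp only [iota]
    ring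
  · rw [sgn4, pop_eq, prod_chi]
    simp only [tm, sb, Nat.testBit_xor, Nat.testBit_and, Nat.testBit_shiftRight]

end Pool.Agent.P.MP_abfee5_ag
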