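import Pool.Agent.P.MP_abfee5_ag.CT.Iface

/-! Step SPAN of the cubic threefold theta project. -/

namespace Pool.Agent.P.MP_abfee5_ag

open Complex Filter Topology MvPolynomial

namespace SpanA

theorem line {F H : ℂ → ℂ} (hF : Differentiable ℂ F) (hH : Differentiable ℂ H) (h0 : H 0 = 0)
    (f0 : F 0 ≠ 0)
    (e : ∀ a b, H a * F b * F (a + b) + F a * H b * F (a + b) = F a * F b * H (a + b)) :
    F 0 * H 1 = deriv H 0 * F 1 := by
  have h1 : ∀ b, deriv H 0 * F b ^ 2 + F 0 * H b * deriv F b = F 0 * F b * deriv H b := by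
    intro b
    have a1 : HasDerivAt (fun a => F (a + b)) (deriv F b) 0 :=
      HasDerivAt.comp_add_const 0 b (by rw [zero_add]; exact (hF b).hasDerivAt)
    have a2 : HasDerivAt (fun a => H (a + b)) (deriv H b) 0 :=
      HasDerivAt.comp_add_const 0 b (by rw [zero_add]; exact (hH b).hasDerivAt)
    have a3 := ((((hH 0).hasDerivAt.mul_const (F b)).fun_mul a1).fun_add
      (((hF 0).hasDerivAt.mul_const (H b)).fun_mul a1))
    have a4 := ((hF 0).hasDerivAt.mul_const (F b)).fun_mul a2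
    simp only [e] at a3
    have a5 := a3.unique a4
    simp only [zero_add, h0] at a5
    linear_combination a5
  have hG : ∀ s, HasDerivAt (fun s => F 0 * H s - deriv H 0 * (s * F s))
      (F 0 * deriv H s - deriv H 0 * (1 * F s + s * deriv F s)) s := fun s =>
    ((hH s).hasDerivAt.const_mul _).fun_sub
      (((hasDerivAt_id' s).fun_mul (hF s).hasDerivAt).const_mul _)
  obtain ⟨r, hr, hb⟩ := Metric.eventually_nhds_iff_ball.mp (hF.continuous.continuousAt.eventually_ne f0)
  have hq : ∀ s ∈ Metric.ball (0 : ℂ) r,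
      HasDerivAt (fun s => (F 0 * H s - deriv H 0 * (s * F s)) / F s) 0 s := fun s hs => by
    refine ((hG s).fun_div (hF s).hasDerivAt (hb s hs)).congr_deriv (div_eq_zero_iff.mpr (Or.inl ?_))
    linear_combination -h1 s
  have h2 : (fun s => F 0 * H s - deriv H 0 * (s * F s)) =ᶠ[𝓝 0] fun _ => 0 := by
    filter_upwards [Metric.ball_mem_nhds 0 hr] with s hs
    have h3 := Metric.isOpen_ball.is_const_of_deriv_eq_zero (convex_ball 0 r).isPreconnected
      (fun s hs => (hq s hs).differentiableAt.differentiableWithinAt)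
      (fun s hs => (hq s hs).deriv) hs (Metric.mem_ball_self hr)
    simpa [h0, hb s hs] using h3
  have h3 := congrFun (AnalyticOnNhd.eq_of_eventuallyEq
    (fun s _ => Differentiable.analyticAt (fun s => (hG s).differentiableAt) s)
    analyticOnNhd_const h2) 1
  linear_combination h3

/-- Theta series as functions of the vector variable. -/
noncomputable def ff (p : V → ℂ) (τ : Mat) (z : Fin 5 → ℂ) : ℂ :=
  S (fun N => cexp (∑ j, z j * (N j : ℂ)) * p N) τ

/-- The weight of the derivative in the direction `v`. -/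
noncomputable def lc (v : Fin 5 → ℂ) (n : ℕ) (N : V) : ℂ := (∑ j, v j * (N j : ℂ)) * chi n N

theorem gr_lc (v : Fin 5 → ℂ) (n : ℕ) : Gr (lc v n) := (gr_lin v).mul (gr_chi n)

theorem ff_zero (p : V → ℂ) (τ : Mat) : ff p τ 0 = S p τ := by simp [ff]

theorem S_lc (hSUM : S_SUM) {τ : Mat} (hτ : τ ∈ Om) (v : Fin 5 → ℂ) (n : ℕ) :
    S (lc v n) τ = ∑ j, v j * gr n τ j := by
  simp only [gr, S, ← tsum_mul_left]
  rw [← Summable.tsum_finsetSum fun j _ =>
    (hSUM.2.2.2 _ ((gr_coord j).mul (gr_chi n)) τ hτ).of_norm.mul_left (v j)]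
  refine tsum_congr fun N => ?_
  simp only [lc, Finset.sum_mul, mul_assoc]

theorem chi_zero (N : V) : chi 0 N = if ∀ j, N j % 2 = 0 then 1 else 0 := by
  simp [chi, ab, bb]

theorem c4_same (d : ℕ) (k : Fin 4) : c4 d d d k = d := by
  fin_cases k <;> simp [c4]

theorem step1 (hPROD : S_PROD) (hRIEM : S_RIEM) {τ : Mat} (hτ : τ ∈ Om) {v : Fin 5 → ℂ}
    (hv : ∀ d < 1024, S (lc v d) τ = 0) (a b : Fin 5 → ℂ) :
    ff (chi 0) τ 0 * (ff (lc v 0) τ a * ff (chi 0) τ b * ff (chi 0) τ (a + b) +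
      ff (chi 0) τ a * ff (lc v 0) τ b * ff (chi 0) τ (a + b) -
      ff (chi 0) τ a * ff (chi 0) τ b * ff (lc v 0) τ (a + b)) = 0 := by
  obtain ⟨-, p2, p3, p4⟩ := hPROD
  let ψ : (Fin 4 → Fin 5 → ℂ) → Fin 4 → Fin 4 → V → ℂ := fun w i k M =>
    cexp (∑ j, w k j * (M j : ℂ)) * if k = i then ∑ j, v j * (M j : ℂ) else 1
  have g1 : ∀ w i k, Gr (ψ w i k) := fun w i k => (gr_exp _).mul (by
    split_ifs
    · exact gr_lin v
    · exact gr_const 1)
  have g2 : ∀ w i d, T4 (c4 d d d) (fun N => ∏ k, ψ w i k (N k)) τ =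
      ∏ k, if k = i then ff (lc v d) τ (w k) else ff (chi d) τ (w k) := fun w i d => by
    rw [p3 _ _ (g1 w i) τ hτ]
    refine Finset.prod_congr rfl fun k _ => ?_
    by_cases h : k = i <;> simp only [ψ, h, if_true, if_false, ff, lc, c4_same, mul_assoc, one_mul]
  have g3 : ∀ w i (N : Fin 4 → V), ∏ k, ψ w i k (N k) =
      cexp (∑ j, ∑ k, w k j * (N k j : ℂ)) * ∑ j, v j * (N i j : ℂ) := fun w i N => by
    simp only [ψ, Finset.prod_mul_distrib, Finset.prod_ite_eq', Finset.mem_univ, if_true]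
    rw [← Complex.exp_sum, Finset.sum_comm]
  obtain ⟨q1, q2⟩ := p4 (c4 0 0 0) (Fin 4) Finset.univ ![1 / 2, 1 / 2, 1 / 2, -(1 / 2)]
    (fun i N => ∏ k, ψ ![a, b, 0, a + b] i k (N k)) fun i => p2 _ (g1 _ i)
  have h1 := hRIEM 0 0 0 _ (fun N => ∏ k, ψ ![b, a, a + b, 0] 3 k (N k)) q1 (p2 _ (g1 _ 3))
    (fun N hN => by
      have h2 : ∀ k j, (iota N k j : ℂ) = (N 0 j + N 1 j + N 2 j + N 3 j) / 2 - N k j := by
        intro k j
        have h3 : 2 * ((∑ l, N l j) / 2) = ∑ l, N l j := by have := hN j; omega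
        have h4 := congrArg (Int.cast : ℤ → ℂ) h3
        rw [Int.cast_mul, Int.cast_sum, Fin.sum_univ_four (f := fun l => (N l j : ℂ))] at h4
        rw [iota, Int.cast_sub, ← h4]
        push_cast
        ring
      simp only [g3, mul_left_comm _ (cexp _), ← Finset.mul_sum, h2]
      congr 1
      · refine congrArg _ (Finset.sum_congr rfl fun j _ => ?_)
        simp [Fin.sum_univ_four]
        ring
      · simp only [Finset.mul_sum]
        rw [Finset.sum_comm]
        refine Finset.sum_congr rfl fun j _ => ?_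
        simp [Fin.sum_univ_four]
        ring) τ hτ
  rw [q2 τ hτ, Finset.sum_eq_zero (s := Finset.range 1024) fun d hd => by
    rw [Nat.zero_xor, g2, Finset.prod_eq_zero (Finset.mem_univ 3), mul_zero]
    simpa [ff_zero] using hv d (Finset.mem_range.mp hd)] at h1
  have h2 : ff (lc v 0) τ 0 = 0 := by rw [ff_zero, hv 0 (by norm_num)]
  simp only [g2] at h1
  simp [Fin.sum_univ_four, Fin.prod_univ_four, h2] at h1
  linear_combination 2 * h1

theorem per (p : V → ℂ) (τ : Mat) (j : Fin 5) :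
    ff (fun N => p N * chi 0 N) τ (Pi.single j (Real.pi * I)) = S (fun N => p N * chi 0 N) τ := by
  refine congrArg (S · τ) (funext fun N => ?_)
  simp only [chi_zero]
  split_ifs with h
  · obtain ⟨m, hm⟩ := Int.dvd_of_emod_eq_zero (h j)
    rw [← dotProduct, single_dotProduct, hm, show (Real.pi * I * ((2 * m : ℤ) : ℂ)) = m * (2 * Real.pi * I) by push_cast; ring,
      Complex.exp_int_mul_two_pi_mul_I m, one_mul]
  · simp

theorem ex_shift {τ : Mat} (hτ : τ ∈ Siegel) (j : Fin 5) (N : V) :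
    ex τ (N + Pi.single j 2) = cexp (Real.pi * I * τ j j) *
      (cexp (∑ k, Real.pi * I * τ j k * (N k : ℂ)) * ex τ N) := by
  rw [ex, ex, ← Complex.exp_add, ← Complex.exp_add]
  congr 1
  have h : qf τ (N + Pi.single j 2) = qf τ N + 4 * ∑ k, τ j k * (N k : ℂ) + 4 * τ j j := by
    simp only [qf, Pi.add_apply, Int.cast_add, add_mul, mul_add, Finset.sum_add_distrib,
      Pi.single_apply, Int.cast_ite, Int.cast_zero, ite_mul, mul_ite, zero_mul, mul_zero,
      Finset.sum_ite_eq', Finset.mem_univ, if_true, Finset.sum_ite_irrel, Finset.sum_const_zero,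
      Finset.mul_sum, hτ.1 _ j]
    rw [add_assoc, add_assoc, add_right_inj, ← add_assoc, ← Finset.sum_add_distrib]
    congr 1
    · exact Finset.sum_congr rfl fun k _ => by push_cast; ring
    · push_cast; ring
  rw [h]
  simp only [mul_assoc, ← Finset.mul_sum]
  ring

theorem quasi (hSUM : S_SUM) {τ : Mat} (hτ : τ ∈ Siegel) (v : Fin 5 → ℂ) (j : Fin 5) :
    S (lc v 0) τ - 2 * v j * th 0 τ =
      cexp (Real.pi * I * τ j j) * ff (lc v 0) τ fun k => Real.pi * I * τ j k := by
  simp only [th, ff, S, ← tsum_mul_left]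
  rw [← (hSUM.2.2.2 _ (gr_lc v 0) τ hτ.2).of_norm.tsum_sub
    ((hSUM.2.2.2 _ (gr_chi 0) τ hτ.2).of_norm.mul_left _),
    ← (Equiv.addRight (Pi.single j 2 : V)).tsum_eq]
  refine tsum_congr fun N => ?_
  have h1 : chi 0 (N + Pi.single j 2) = chi 0 N := by
    rw [chi_zero, chi_zero]
    refine if_congr (forall_congr' fun k => ?_) rfl rfl
    by_cases h : k = j <;> simp [h]
  have h2 : ∑ k, v k * (((N + Pi.single j 2 : V) k : ℤ) : ℂ) = ∑ k, v k * (N k : ℂ) + 2 * v j := by
    simp [Pi.single_apply, mul_add, Finset.sum_add_distrib, mul_comm]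
  rw [Equiv.coe_addRight, lc, lc, h1, h2, ex_shift hτ]
  ring

end SpanA

open SpanA in
theorem p_SPAN (hSUM : S_SUM) (hZD : S_ZD) (hPROD : S_PROD) (hRIEM : S_RIEM) (hODD : S_ODD) :
    S_SPAN := by
  intro τ hτ h0 v hv
  have hv' : ∀ d < 1024, S (lc v d) τ = 0 := fun d hd => by
    rw [S_lc hSUM hτ.2]
    by_cases h : par d = 1
    · exact hv d hd h
    · simp [(hODD d τ).2 (by have := par_lt d; omega)]
  have hD : ∀ p, Gr p → Differentiable ℂ (ff p τ) := fun p hp z =>
    (hZD p hp τ hτ.2 z).choose_spec.1.differentiableAt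
  have f0 : ff (chi 0) τ 0 ≠ 0 := by rwa [ff_zero]
  obtain ⟨L, hL, hL'⟩ := hZD _ (gr_lc v 0) τ hτ.2 0
  have key : ∀ u, ff (chi 0) τ 0 * ff (lc v 0) τ u = L u * ff (chi 0) τ u := fun u => by
    have hu : Differentiable ℂ fun s : ℂ => s • u := differentiable_id.smul_const u
    have h1 := line (F := fun s => ff (chi 0) τ (s • u)) (H := fun s => ff (lc v 0) τ (s • u))
      ((hD _ (gr_chi 0)).comp hu) ((hD _ (gr_lc v 0)).comp hu)
      (by simp only [zero_smul, ff_zero, hv' 0 (by norm_num)]) (by simpa using f0) fun a b => by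
        simp only [add_smul]
        exact sub_eq_zero.mp ((mul_eq_zero.mp
          (step1 hPROD hRIEM hτ.2 hv' (a • u) (b • u))).resolve_left f0)
    have h2 : HasDerivAt (fun s : ℂ => ff (lc v 0) τ (s • u)) (L ((1 : ℂ) • u)) 0 :=
      HasFDerivAt.comp_hasDerivAt (l := ff (lc v 0) τ) 0 (by rw [zero_smul]; exact hL)
        ((hasDerivAt_id' (0 : ℂ)).smul_const u)
    simpa [h2.deriv] using h1
  have h1 : ∀ u, L u = 0 := fun u => by
    rw [hL']
    refine Finset.sum_eq_zero fun j _ => mul_eq_zero_of_right _ ?_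
    have h2 := key (Pi.single j (Real.pi * I))
    have h3 := per (fun _ => 1) τ j
    have h4 : ff (lc v 0) τ (Pi.single j (Real.pi * I)) = 0 := (per _ τ j).trans (hv' 0 (by norm_num))
    simp only [one_mul] at h3
    rw [h4, mul_zero, h3, hL', ← dotProduct, single_dotProduct] at h2
    simpa [show S (chi 0) τ ≠ 0 from h0] using h2
  funext j
  have h2 := key fun k => Real.pi * I * τ j k
  have h3 := quasi hSUM hτ v j
  rw [h1, zero_mul, mul_eq_zero, or_iff_right f0] at h2
  rw [h2, hv' 0 (by norm_num)] at h3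
  simpa [h0] using h3

end Pool.Agent.P.MP_abfee5_ag
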