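import Pool.Agent.P.MP_abfee5_ag.CT.Iface4
import Pool.Agent.P.MP_abfee5_ag.CT.Iface

/-! Step STAB of the cubic threefold theta project. -/

namespace Pool.Agent.P.MP_abfee5_ag

open Complex Filter Topology MvPolynomial

namespace StabA

theorem part1 : ∀ n ∈ ext, n < 1024 ∧ ∀ m ∈ Pn n, (∀ a ∈ m.2, a < 1024) ∧ m.2.length = 7 := by
  decide +kernel

/-- The check for one word. -/
def chk (T k : ℕ) : Bool :=
  (kap.map fun n => runT [T] (8 * n) / 8) == kap && ext.all fun n =>
    ext.contains (runT [T] (8 * n) / 8) &&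
      peqB (k + (mrun [T] (0, kap ++ [n])).1) ((Pn n).map (mrun [T])) (Pn (runT [T] (8 * n) / 8))

theorem c0 : chk (gT.getD 0 0) (gD.getD 0 0) = true := by decide +kernel
theorem c1 : chk (gT.getD 1 0) (gD.getD 1 0) = true := by decide +kernel
theorem c2 : chk (gT.getD 2 0) (gD.getD 2 0) = true := by decide +kernel
theorem c3 : chk (gT.getD 3 0) (gD.getD 3 0) = true := by decide +kernel
theorem c4 : chk (gT.getD 4 0) (gD.getD 4 0) = true := by decide +kernel
theorem c5 : chk (gT.getD 5 0) (gD.getD 5 0) = true := by decide +kernel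
theorem c6 : chk (gT.getD 6 0) (gD.getD 6 0) = true := by decide +kernel

theorem call (i : ℕ) (hi : i < 7) : chk (gT.getD i 0) (gD.getD i 0) = true := by
  interval_cases i
  exacts [c0, c1, c2, c3, c4, c5, c6]

end StabA

open StabA in
theorem p_STAB (hAFF : S_AFF) (hTABG : S_TABG) :
    S_STAB := by
  refine ⟨fun n hn => (part1 n hn).2, fun i hi => ?_⟩
  have h : List.Forall₂ IsTab [gT.getD i 0] [gW.getD i []] :=
    isTab_pick hTABG [i] fun j hj => by
      rw [List.mem_singleton.mp hj]
      exact hi.trans (by decide)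
  have hk : ∀ n ∈ kap, n < 1024 := by decide
  have hd := fun n hn => runT_div hAFF h (n := n) hn
  have hc := call i hi
  rw [chk, Bool.and_eq_true, beq_iff_eq, List.all_eq_true] at hc
  rw [List.flatten_singleton] at hd
  refine ⟨(List.map_congr_left fun n hn => (hd n (hk n hn)).symm).trans hc.1, fun n hn => ?_⟩
  have h1 := hc.2 n hn
  have h2 := peq_mrun hAFF h (fun m hm => ((part1 n hn).2 m hm).1)
    (peq_of (Bool.and_eq_true _ _ ▸ h1).2)
  have h3 := mrun_fst hAFF h (m := (0, kap ++ [n])) fun a ha =>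
    (List.mem_append.mp ha).elim (hk a) fun h => List.mem_singleton.mp h ▸ (part1 n hn).1
  rw [Bool.and_eq_true, hd n (part1 n hn).1] at h1
  rw [List.flatten_singleton] at h3
  rw [List.flatten_singleton, hd n (part1 n hn).1, h3] at h2
  exact ⟨List.contains_iff_mem.mp h1.1, h2.mono_mod (by omega)⟩

end Pool.Agent.P.MP_abfee5_ag
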