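import Pool.Agent.P.MP_abfee5_ag.CT.Iface

/-! Step SUM of the cubic threefold theta project. -/

namespace Pool.Agent.P.MP_abfee5_ag

open Complex Filter Topology MvPolynomial

namespace SumA

theorem loc {τ : Mat} (h : τ ∈ Om) : ∃ c : ℝ, 0 < c ∧ ∀ᶠ τ' : Mat in 𝓝 τ, ∀ x : Fin 5 → ℝ,
    c * ∑ j, x j ^ 2 ≤ ∑ j, ∑ k, x j * (τ' j k).im * x k := by
  have h1 : ∀ᶠ p : ℝ × Mat in 𝓝 (0, τ), ∀ x ∈ Metric.sphere (0 : Fin 5 → ℝ) 1,
      p.1 * ∑ j, x j ^ 2 < ∑ j, ∑ k, x j * (p.2 j k).im * x k := by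
    refine (isCompact_sphere _ _).eventually_forall_of_forall_eventually fun y hy => ?_
    refine ContinuousAt.eventually_lt (by fun_prop) (by fun_prop) ?_
    simpa using h y (by rintro rfl; simp at hy)
  obtain ⟨c, h2, hc⟩ := ((h1.curry_nhds.filter_mono (nhdsWithin_le_nhds (s := Set.Ioi 0))).and
    self_mem_nhdsWithin).exists
  refine ⟨c, hc, h2.mono fun τ' h3 x => ?_⟩
  rcases eq_or_ne x 0 with rfl | hx
  · simp
  have hn := norm_pos_iff.2 hx
  have h4 := h3 (‖x‖⁻¹ • x) (by simp [norm_smul, hn.ne'])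
  have e1 : ∑ j, (‖x‖⁻¹ • x) j ^ 2 = ‖x‖⁻¹ ^ 2 * ∑ j, x j ^ 2 := by
    simp only [Finset.mul_sum, Pi.smul_apply, smul_eq_mul, mul_pow]
  have e2 : ∑ j, ∑ k, (‖x‖⁻¹ • x) j * (τ' j k).im * (‖x‖⁻¹ • x) k =
      ‖x‖⁻¹ ^ 2 * ∑ j, ∑ k, x j * (τ' j k).im * x k := by
    simp only [Finset.mul_sum, Pi.smul_apply, smul_eq_mul]
    exact Finset.sum_congr rfl fun j _ => Finset.sum_congr rfl fun k _ => by ring
  rw [e1, e2, mul_left_comm] at h4
  exact (lt_of_mul_lt_mul_left h4 (by positivity)).le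

theorem qf_im (τ : Mat) (N : V) :
    (qf τ N).im = ∑ j, ∑ k, (N j : ℝ) * (τ j k).im * (N k : ℝ) := by
  simp [qf, Complex.im_sum]

theorem gauss (c K : ℝ) (hc : 0 < c) :
    Summable fun N : V => Real.exp (K * ∑ j, |(N j : ℝ)| - c * ∑ j, (N j : ℝ) ^ 2) := by
  have hs : Summable fun n : ℤ => Real.exp (K * |(n : ℝ)| - c * (n : ℝ) ^ 2) := by
    refine (summable_pow_mul_jacobiTheta₂_term_bound (K / (2 * Real.pi))
      (div_pos hc Real.pi_pos) 0).congr fun n => ?_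
    rw [pow_zero, one_mul]
    congr 1
    push_cast
    field_simp
    ring
  refine summable_of_sum_le (c := ∏ _j : Fin 5, ∑' n : ℤ,
    Real.exp (K * |(n : ℝ)| - c * (n : ℝ) ^ 2)) (fun _ => (Real.exp_pos _).le) fun u => ?_
  calc _ ≤ ∑ N ∈ Fintype.piFinset fun j => u.image fun N : V => N j,
        Real.exp (K * ∑ j, |((N j : ℤ) : ℝ)| - c * ∑ j, ((N j : ℤ) : ℝ) ^ 2) :=
        Finset.sum_le_sum_of_subset_of_nonneg (fun N hN => Fintype.mem_piFinset.2 fun j =>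
          Finset.mem_image_of_mem _ hN) fun _ _ _ => (Real.exp_pos _).le
    _ = ∏ j : Fin 5, ∑ n ∈ u.image fun N : V => N j,
        Real.exp (K * |((n : ℤ) : ℝ)| - c * ((n : ℤ) : ℝ) ^ 2) := by
        rw [Finset.prod_univ_sum]
        refine Finset.sum_congr rfl fun N _ => ?_
        rw [← Real.exp_sum, Finset.sum_sub_distrib, Finset.mul_sum, Finset.mul_sum]
    _ ≤ _ := Finset.prod_le_prod (fun _ _ => Finset.sum_nonneg fun _ _ => (Real.exp_pos _).le)
        fun _ _ => hs.sum_le_tsum _ fun _ _ => (Real.exp_pos _).le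

end SumA

open SumA in
theorem p_SUM :
    S_SUM := by
  refine ⟨⟨isOpen_iff_mem_nhds.2 fun τ h => ?_, fun τ h τ' h' a b ha hb hab x hx => ?_⟩,
    fun τ h => ?_, gauss, fun p ⟨C, K, hp⟩ τ h => ?_⟩
  · obtain ⟨c, hc, h1⟩ := loc h
    refine h1.mono fun τ' h2 x hx => lt_of_lt_of_le (mul_pos hc ?_) (h2 x)
    obtain ⟨j, hj⟩ := Function.ne_iff.1 hx
    exact Finset.sum_pos' (fun _ _ => sq_nonneg _) ⟨j, Finset.mem_univ _, sq_pos_of_ne_zero hj⟩
  · have e : ∑ j, ∑ k, x j * ((a • τ + b • τ') j k).im * x k =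
        a * ∑ j, ∑ k, x j * (τ j k).im * x k + b * ∑ j, ∑ k, x j * (τ' j k).im * x k := by
      simp only [Finset.mul_sum, ← Finset.sum_add_distrib]
      refine Finset.sum_congr rfl fun j _ => Finset.sum_congr rfl fun k _ => ?_
      simp
      ring
    rw [e]
    have h1 := h x hx
    have h2 := h' x hx
    rcases ha.eq_or_lt with rfl | ha
    · rw [zero_add] at hab
      simpa [hab] using h2
    · positivity
  · obtain ⟨c, hc, h1⟩ := loc h
    exact ⟨c, hc, h1.mono fun τ' h2 N => (qf_im τ' N).symm ▸ h2 fun j => N j⟩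
  · obtain ⟨c, hc, h1⟩ := loc h
    have h2 := h1.self_of_nhds
    refine .of_nonneg_of_le (fun _ => norm_nonneg _) (fun N => ?_)
      ((gauss (Real.pi / 4 * c) K (by positivity)).mul_left C)
    have e : ‖ex τ N‖ = Real.exp (-(Real.pi / 4 * (qf τ N).im)) := by
      rw [ex, Complex.norm_exp]
      simp [div_mul_eq_mul_div, mul_assoc, neg_div]
    rw [norm_mul, e, sub_eq_add_neg, Real.exp_add, ← mul_assoc]
    refine mul_le_mul (hp N) (Real.exp_le_exp.2 (neg_le_neg ?_)) (Real.exp_pos _).le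
      ((norm_nonneg _).trans (hp N))
    rw [mul_assoc, qf_im]
    exact mul_le_mul_of_nonneg_left (h2 fun j => N j) (by positivity)

end Pool.Agent.P.MP_abfee5_ag
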