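import Pool.Agent.P.MP_abfee5_ag.CT.Iface3
import Pool.Agent.P.MP_abfee5_ag.CT.Iface

/-! Step SURJ of the cubic threefold theta project. -/

namespace Pool.Agent.P.MP_abfee5_ag

open Complex Filter Topology MvPolynomial

namespace SurjA

lemma sum_single {ι : Type} [Fintype ι] (K L : ι → Fin 5) (z : ι → ℂ) (f : Fin 5 → Fin 5 → ℂ) :
    ∑ k, ∑ l, (∑ c, if k = K c ∧ l = L c then z c else 0) * f k l =
      ∑ c, z c * f (K c) (L c) := by
  simp_rw [Finset.sum_mul]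
  rw [Finset.sum_congr rfl fun k _ => Finset.sum_comm, Finset.sum_comm]
  refine Finset.sum_congr rfl fun c _ => ?_
  simp [ite_and, Finset.sum_ite_eq']

/-- The tangent direction with coordinates `z`. -/
noncomputable def dirH (z : Fin 16 → ℂ) : Mat := fun k l =>
  4 / (Real.pi * I) * ∑ c : Fin 15,
    if k = fj (klL.getD (c.succ : ℕ) (0, 0)).1 ∧ l = fj (klL.getD (c.succ : ℕ) (0, 0)).2
    then z c.succ else 0

lemma sum_dirH (z : Fin 16 → ℂ) (p : V → ℂ) (τ : Mat) :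
    Real.pi * I / 4 * ∑ k, ∑ l, dirH z k l * S (fun N => (N k : ℂ) * (N l : ℂ) * p N) τ =
      ∑ c : Fin 15, z c.succ * S (fun N => wq (c.succ : ℕ) N * p N) τ := by
  have h : (Real.pi : ℂ) * I ≠ 0 := mul_ne_zero (ofReal_ne_zero.2 Real.pi_ne_zero) I_ne_zero
  have h1 : (Real.pi : ℂ) * I / 4 * (4 / (Real.pi * I)) = 1 := by field_simp
  simp only [dirH, mul_assoc (4 / ((Real.pi : ℂ) * I)), ← Finset.mul_sum]
  rw [← mul_assoc, h1, one_mul, sum_single]
  rfl

lemma piL_lt : ∀ b : Fin 11, piL.getD b 0 < 32 := by decide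

end SurjA

open SurjA in
theorem p_SURJ (hDIFF : S_DIFF) (hBRV : S_BRV) (hENC : S_ENC) (hT0 : S_T0) :
    S_SURJ := by
  intro hdet
  have hO : tau0 ∈ Om := siegel_om hT0.1
  have hO2 : (2 : ℂ) • tau0 ∈ Om := hT0.2.2.2.2 _ hO
  choose L hL hLf using fun i : Fin 5 =>
    hDIFF (fun N => (N i : ℂ) * chi 1023 N) ((gr_coord i).mul (gr_chi _)) tau0 hO
  have hD : ∀ ε : F2, ∃ D : ℂ × Mat →L[ℂ] ℂ,
      HasStrictFDerivAt (fun y : ℂ × Mat => (y.1 • Th y.2) ε) D (1, tau0) ∧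
      ∀ (l : ℂ) (z : Fin 16 → ℂ), D (l, dirH z) = l * xx (enc5 ε) tau0 + 2 * ∑ c : Fin 15,
        z c.succ * S (fun N => wq (c.succ : ℕ) N * chi (32 * enc5 ε) N) ((2 : ℂ) • tau0) := by
    intro ε
    obtain ⟨M, hM, hMf⟩ := hDIFF (chi (32 * enc5 ε)) (gr_chi _) _ hO2
    have h1 : HasStrictFDerivAt (fun y : ℂ × Mat => (2 : ℂ) • y.2)
        ((2 : ℂ) • ContinuousLinearMap.snd ℂ ℂ Mat) (1, tau0) :=
      ((2 : ℂ) • ContinuousLinearMap.snd ℂ ℂ Mat).hasStrictFDerivAt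
    have h2 := HasStrictFDerivAt.comp (f := fun y : ℂ × Mat => (2 : ℂ) • y.2) (1, tau0) hM h1
    have h3 := (hasStrictFDerivAt_fst (𝕜 := ℂ) (p := ((1 : ℂ), tau0))).mul h2
    have h4 : (fun y : ℂ × Mat => (y.1 • Th y.2) ε) =
        fun y : ℂ × Mat => y.1 * S (chi (32 * enc5 ε)) ((2 : ℂ) • y.2) := by
      funext y
      have := hBRV.2.2 (enc5 ε) y.2
      rw [hENC.1.1] at this
      rw [Pi.smul_apply, this]
      rfl
    refine ⟨_, by rw [h4]; exact h3, fun l z => ?_⟩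
    have h5 : M ((2 : ℂ) • dirH z) = 2 * ∑ c : Fin 15,
        z c.succ * S (fun N => wq (c.succ : ℕ) N * chi (32 * enc5 ε) N) ((2 : ℂ) • tau0) := by
      rw [map_smul, hMf, sum_dirH, smul_eq_mul]
    simp only [ContinuousLinearMap.add_apply, ContinuousLinearMap.smul_apply,
      ContinuousLinearMap.comp_apply, ContinuousLinearMap.coe_snd', ContinuousLinearMap.coe_fst',
      smul_eq_mul, one_mul, h5]
    rw [add_comm, mul_comm _ l]
    rfl
  choose D hD hDf using hD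
  refine ⟨ContinuousLinearMap.pi fun i => (L i).comp (ContinuousLinearMap.snd ℂ ℂ Mat),
    ContinuousLinearMap.pi D,
    hasStrictFDerivAt_pi.2 fun i =>
      HasStrictFDerivAt.comp (f := fun y : ℂ × Mat => y.2) (1, tau0) (hL i) hasStrictFDerivAt_snd,
    hasStrictFDerivAt_pi.2 hD, fun u t => ?_⟩
  have hU : IsUnit A16 := (Matrix.isUnit_iff_isUnit_det _).2 (isUnit_iff_ne_zero.2 hdet)
  obtain ⟨z, hz⟩ := Matrix.mulVec_surjective_iff_isUnit.2 hU fun i : Fin 16 =>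
    if h : (i : ℕ) < 5 then 2 ^ 40 * u ⟨i, h⟩ / (I * z8 ^ 5)
    else 2 ^ piE.getD (i - 5) 0 * t ⟨i - 5, by omega⟩
  have hI : I * z8 ^ 5 ≠ 0 := mul_ne_zero I_ne_zero (pow_ne_zero _ z8_ne)
  refine ⟨(z 0, dirH z), funext fun i => ?_, fun b => ?_⟩
  · have h1 := congrFun hz ⟨i, by omega⟩
    have h2 : fj i = i := Fin.ext (Nat.mod_eq_of_lt i.2)
    rw [Matrix.mulVec, dotProduct, Fin.sum_univ_succ] at h1
    simp only [A16, Matrix.of_apply, i.2, if_true, dif_pos, Fin.val_zero, zero_mul, zero_add,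
      Fin.val_succ, Nat.succ_ne_zero, if_false, h2, Fin.eta] at h1
    show L i (dirH z) = u i
    rw [hLf, sum_dirH]
    apply mul_left_cancel₀ (a := (2 : ℂ) ^ 40 / (I * z8 ^ 5)) (div_ne_zero (by norm_num) hI)
    rw [div_mul_eq_mul_div _ _ (u i), ← h1, Finset.mul_sum]
    refine Finset.sum_congr rfl fun c _ => ?_
    simp only [Fin.val_succ]
    ring
  · have h1 := congrFun hz ⟨b + 5, by omega⟩
    have h2 : ¬(b : ℕ) + 5 < 5 := by omega
    rw [Matrix.mulVec, dotProduct, Fin.sum_univ_succ] at h1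
    simp only [A16, Matrix.of_apply, h2, if_true, dif_neg, not_false_eq_true, Fin.val_zero,
      Fin.val_succ, Nat.succ_ne_zero, if_false, Nat.add_sub_cancel, Fin.eta] at h1
    show D (dec5 (piL.getD b 0)) (z 0, dirH z) = t b
    rw [hDf, hENC.1.2.2.1 _ (piL_lt b)]
    apply mul_left_cancel₀ (a := (2 : ℂ) ^ piE.getD b 0) (pow_ne_zero _ two_ne_zero)
    rw [← h1, mul_add, Finset.mul_sum, Finset.mul_sum]
    congr 1
    · ring
    · refine Finset.sum_congr rfl fun c _ => ?_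
      simp only [Fin.val_succ]
      ring

end Pool.Agent.P.MP_abfee5_ag
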