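import Pool.Agent.P.MP_abfee5_ag.CT.Iface3
import Pool.Agent.P.MP_abfee5_ag.CT.Iface

/-! Step SYG of the cubic threefold theta project. -/

namespace Pool.Agent.P.MP_abfee5_ag

open Complex Filter Topology MvPolynomial

namespace SygA

/-- Add coordinate `K` to coordinate `J`. -/
def Uf {R : Type} [AddCommGroup R] (J K : Fin 5) (x : Fin 5 → R) : Fin 5 → R :=
  fun i => x i + if i = J then x K else 0

/-- Subtract coordinate `J` from coordinate `K`. -/
def Lf {R : Type} [AddCommGroup R] (J K : Fin 5) (x : Fin 5 → R) : Fin 5 → R :=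
  fun i => x i - if i = K then x J else 0

variable {J K : Fin 5}

lemma LU {R : Type} [AddCommGroup R] (h : J ≠ K) (x : Fin 5 → R) : Lf K J (Uf J K x) = x := by
  funext i; simp [Lf, Uf, h.symm]

lemma UL {R : Type} [AddCommGroup R] (h : J ≠ K) (x : Fin 5 → R) : Uf J K (Lf K J x) = x := by
  funext i; simp [Lf, Uf, h.symm]

/-- The elementary move as a bijection. -/
def Ue (R : Type) [AddCommGroup R] (h : J ≠ K) : (Fin 5 → R) ≃ (Fin 5 → R) :=
  ⟨Uf J K, Lf K J, LU h, UL h⟩

lemma Uf_add {R : Type} [AddCommGroup R] (x y : Fin 5 → R) :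
    Uf J K (x + y) = Uf J K x + Uf J K y := by
  funext i; simp only [Uf, Pi.add_apply]; split_ifs <;> abel

lemma Lf_add {R : Type} [AddCommGroup R] (x y : Fin 5 → R) :
    Lf J K (x + y) = Lf J K x + Lf J K y := by
  funext i; simp only [Lf, Pi.add_apply]; split_ifs <;> abel

lemma Uf_zero {R : Type} [AddCommGroup R] : Uf J K (0 : Fin 5 → R) = 0 := by
  funext i; simp [Uf]

lemma Lf_zero {R : Type} [AddCommGroup R] : Lf J K (0 : Fin 5 → R) = 0 := by
  funext i; simp [Lf]

lemma dot {R : Type} [CommRing R] (h : J ≠ K) (x w : Fin 5 → R) :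
    ∑ i, Uf J K x i * Lf J K w i = ∑ i, x i * w i := by
  simp [Uf, Lf, mul_sub, add_mul, Finset.sum_add_distrib, Finset.sum_sub_distrib, h.symm]

/-- The move on period matrices. -/
def sf {R : Type} [AddCommGroup R] (J K : Fin 5) (τ : Fin 5 → Fin 5 → R) : Fin 5 → Fin 5 → R :=
  Uf K J fun a => Uf K J (τ a)

lemma sf_apply {R : Type} [AddCommGroup R] (τ : Fin 5 → Fin 5 → R) (p q : Fin 5) :
    sf J K τ p q = τ p q + (if q = K then τ p J else 0) +
      if p = K then τ J q + (if q = K then τ J J else 0) else 0 := by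
  simp only [sf, Uf, Pi.add_apply]; split_ifs <;> simp [Uf, *]

lemma quad {R : Type} [CommRing R] (τ : Fin 5 → Fin 5 → R) (x : Fin 5 → R) :
    ∑ p, ∑ q, x p * sf J K τ p q * x q = ∑ p, ∑ q, Uf J K x p * τ p q * Uf J K x q := by
  simp [sf_apply, Uf, mul_add, add_mul, Finset.sum_add_distrib]
  ring

/-- The move on period matrices as a homeomorphism. -/
noncomputable def sh (h : J ≠ K) : Mat ≃ₜ Mat where
  toFun := sf J K
  invFun σ := fun a => Lf J K (Lf J K σ a)
  left_inv τ := by funext a; simp only [sf, LU h.symm]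
  right_inv σ := by simp only [sf, UL h.symm]
  continuous_toFun := by
    refine continuous_pi fun p => continuous_pi fun q => ?_
    simp only [sf_apply]; split_ifs <;> fun_prop
  continuous_invFun := by
    refine continuous_pi fun p => continuous_pi fun q => ?_
    simp only [Lf, Pi.sub_apply]; split_ifs <;> fun_prop

lemma siegel (h : J ≠ K) (τ : Mat) : sf J K τ ∈ Siegel ↔ τ ∈ Siegel := by
  have ht : sf J K (fun p q => τ q p) = fun p q => sf J K τ q p := by
    funext p q; simp only [sf_apply]; split_ifs <;> ring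
  have him : ∀ p q, (sf J K τ p q).im = sf J K (fun a b => (τ a b).im) p q := by
    intro p q; simp only [sf_apply]; split_ifs <;> simp
  refine and_congr ⟨fun H p q => ?_, fun H p q => ?_⟩ ?_
  · have : (fun p q => τ q p) = τ := (sh h).injective (by
      show sf J K _ = sf J K τ
      rw [ht]; funext p q; exact H q p)
    exact (congrFun (congrFun this p) q).symm
  · have : (fun p q => τ q p) = τ := by funext p q; exact H q p
    rw [this] at ht
    exact congrFun (congrFun ht p) q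
  · simp only [him, quad]
    refine ⟨fun H x hx => ?_, fun H x hx => H _ fun h0 => hx ?_⟩
    · have := H (Lf K J x) fun h0 => hx (by rw [← UL h x, h0, Uf_zero])
      rwa [UL h] at this
    · rw [← LU h x, h0, Lf_zero]

lemma theta_sf (h : J ≠ K) (a b : Fin 5 → ℝ) (τ : Mat) (z : Fin 5 → ℂ) :
    theta a b (sf J K τ) z = theta (Uf J K a) (Lf J K b) τ (Lf J K z) := by
  unfold theta
  refine Eq.trans ?_ ((Ue ℤ h).tsum_eq _)
  refine tsum_congr fun n => ?_
  have h1 : ∀ i, (((Ue ℤ h) n i : ℤ) : ℂ) + (Uf J K a i : ℝ) =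
      Uf J K (fun i => (n i : ℂ) + a i) i := by
    intro i; simp only [Ue, Equiv.coe_fn_mk, Uf]; split_ifs <;> push_cast <;> ring
  have h2 : ∀ i, Lf J K z i + (Lf J K b i : ℝ) = Lf J K (fun i => z i + b i) i := by
    intro i; simp only [Lf]; split_ifs <;> push_cast <;> ring
  simp only [h1, h2]
  rw [quad τ (fun i => (n i : ℂ) + a i), dot h]

lemma theta_per (a b : Fin 5 → ℝ) (p q : Fin 5 → ℤ) (τ : Mat) (z : Fin 5 → ℂ) :
    theta (fun i => a i + p i) (fun i => b i + q i) τ z =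
      cexp (2 * Real.pi * I * ∑ i, (a i : ℂ) * q i) * theta a b τ z := by
  unfold theta
  rw [← tsum_mul_left]
  refine Eq.trans ?_ ((Equiv.addRight p).tsum_eq _)
  refine tsum_congr fun n => ?_
  have h1 : ∀ i, (((Equiv.addRight p) n i : ℤ) : ℂ) + a i = n i + ((a i + p i : ℝ) : ℂ) := by
    intro i; simp only [Equiv.coe_addRight, Pi.add_apply]; push_cast; ring
  simp only [h1]
  rw [← Complex.exp_add, Complex.exp_eq_exp_iff_exists_int]
  refine ⟨∑ i, (n i + p i) * q i, ?_⟩
  push_cast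
  simp only [Fin.sum_univ_five]
  ring

lemma half_U (ε : F2) : ∃ p : Fin 5 → ℤ, Uf J K (half ε) = fun i => half (Uf J K ε) i + p i := by
  have key : ∀ u v : ZMod 2, (u.val : ℤ) + v.val = (u + v).val + 2 * (u.val * v.val) := by decide
  refine ⟨fun i => if i = J then (ε i).val * (ε K).val else 0, funext fun i => ?_⟩
  simp only [Uf, half]
  split_ifs
  · have := congrArg (Int.cast : ℤ → ℝ) (key (ε i) (ε K))
    push_cast at this ⊢
    linarith
  · simp

lemma half_L (ε : F2) : ∃ p : Fin 5 → ℤ, Lf J K (half ε) = fun i => half (Lf J K ε) i + p i := by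
  have key : ∀ u v : ZMod 2, (u.val : ℤ) - v.val = (u - v).val + 2 * ((u.val - 1) * v.val) := by
    decide
  refine ⟨fun i => if i = K then ((ε i).val - 1) * (ε J).val else 0, funext fun i => ?_⟩
  simp only [Lf, half]
  split_ifs
  · have := congrArg (Int.cast : ℤ → ℝ) (key (ε i) (ε J))
    push_cast at this ⊢
    linarith
  · simp

/-- The move on characteristics. -/
def pe (h : J ≠ K) : Ch ≃ Ch := (Ue (ZMod 2) h).prodCongr (Ue (ZMod 2) h.symm).symm

lemma pe_apply (h : J ≠ K) (m : Ch) : pe h m = (Uf J K m.1, Lf J K m.2) := rfl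

lemma thetaC_sf (h : J ≠ K) (m : Ch) : ∃ c : ℂ, c ≠ 0 ∧ ∀ τ z,
    thetaC m (sf J K τ) z = c * thetaC (pe h m) τ (Lf J K z) := by
  obtain ⟨p, hp⟩ := half_U (J := J) (K := K) m.1
  obtain ⟨q, hq⟩ := half_L (J := J) (K := K) m.2
  exact ⟨_, Complex.exp_ne_zero _, fun τ z => by
    rw [thetaC, theta_sf h, hp, hq, theta_per]; rfl⟩

lemma Th_sf (h : J ≠ K) (τ : Mat) (ε : F2) : Th (sf J K τ) ε = Th τ (Uf J K ε) := by
  obtain ⟨p, hp⟩ := half_U (J := J) (K := K) ε
  have h2 : (2 : ℂ) • sf J K τ = sf J K ((2 : ℂ) • τ) := by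
    funext p q; simp only [sf_apply, Pi.smul_apply, smul_eq_mul]; split_ifs <;> ring
  have := theta_per (half (Uf J K ε)) 0 p 0 ((2 : ℂ) • τ) 0
  simp only [Th]
  rw [h2, theta_sf h, hp, Lf_zero, Lf_zero]
  simpa [Pi.zero_def] using this

/-- The move on the abelian variable. -/
noncomputable def Lc (h : J ≠ K) : (Fin 5 → ℂ) ≃L[ℂ] (Fin 5 → ℂ) :=
  LinearEquiv.toContinuousLinearEquiv
    { toFun := Lf J K
      invFun := Uf K J
      map_add' := Lf_add
      map_smul' := fun c x => by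
        funext i; simp only [Lf, Pi.smul_apply, smul_eq_mul, RingHom.id_apply]; split_ifs <;> ring
      left_inv := UL h.symm
      right_inv := LU h.symm }

lemma par_pe (h : J ≠ K) (m : Ch) : parity (pe h m) = parity m := dot h _ _

lemma loc (h : J ≠ K) (m : Ch) (τ : Mat) : τ ∈ Loc (pe h m) ↔ sf J K τ ∈ Loc m := by
  refine and_congr (siegel h τ).symm (and_congr ?_ ?_)
  · obtain ⟨c, hc, H⟩ := thetaC_sf h m
    have : thetaC m (sf J K τ) = c • (thetaC (pe h m) τ ∘ Lc h) := funext fun z => H τ z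
    rw [this, fderiv_const_smul_field, Pi.smul_apply, ContinuousLinearEquiv.comp_right_fderiv,
      map_zero]
    refine ⟨fun h0 => by rw [h0]; simp, fun h0 => ?_⟩
    ext1 v
    have := congrArg (fun T => T ((Lc h).symm v)) h0
    simpa [hc] using this
  · rw [← (pe h).forall_congr_right]
    refine forall_congr' fun n => ?_
    obtain ⟨c, hc, H⟩ := thetaC_sf h n
    rw [par_pe, H, Lf_zero]
    simp [hc]

lemma msub_Q (h : J ≠ K) (m : Ch) :
    msub (fun _ => 1) (Ue (ZMod 2) h) (Q m) = C (1 : ℂ) * Q (pe h m) := by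
  rw [C_1, one_mul, Q, Q, map_sum, ← (Ue (ZMod 2) h).sum_comp
    fun σ => (-1) ^ (∑ j, σ j * (pe h m).2 j).val * X σ * X (σ + (pe h m).1)]
  refine Finset.sum_congr rfl fun σ _ => ?_
  have := dot h σ m.2
  simp only [msub, pe_apply, Ue, Equiv.coe_fn_mk, this, map_mul, map_pow, map_neg, map_one,
    aeval_X, one_mul, Uf_add]

lemma dec_gact (hENC : S_ENC) (j : ℕ) (hj : j < 5) (k : ℕ) (hk : k < 5) (n : ℕ) :
    dec (gact j k n) = (Uf ⟨j, hj⟩ ⟨k, hk⟩ (dec n).1, Lf ⟨j, hj⟩ ⟨k, hk⟩ (dec n).2) := by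
  have h1 : ∀ j : Fin 5, ∀ c < (2 : ℕ), dec (c <<< (5 + (j : ℕ))) =
      (fun i => if i = j then (c : ZMod 2) else 0, 0) := by decide
  have h2 : ∀ j : Fin 5, ∀ c < (2 : ℕ), dec (c <<< (j : ℕ)) =
      (0, fun i => -if i = j then (c : ZMod 2) else 0) := by decide
  rw [gact, hENC.2.1.2.2.2.1, hENC.2.1.2.2.2.1, h1 ⟨j, hj⟩ _ (ab_lt n k), h2 ⟨k, hk⟩ _ (bb_lt n j)]
  refine Prod.ext (funext fun i => ?_) (funext fun i => ?_)
  · simp [Uf, dec, dec5, ab, Nat.shiftRight_add]
  · simp [Lf, dec, dec5, bb, sub_eq_add_neg]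

end SygA

open SygA in
theorem p_SYG (hENC : S_ENC) (hBRV : S_BRV) (hBRG : S_BRG) (hJMAP : S_JMAP) :
    S_SYG := by
  intro j hj k hk hjk n _
  have h : (⟨j, hj⟩ : Fin 5) ≠ ⟨k, hk⟩ := fun e => hjk (congrArg Fin.val e)
  rw [dec_gact hENC j hj k hk, ← pe_apply h]
  refine ⟨sh h, fun _ => 1, Ue (ZMod 2) h, fun _ => one_ne_zero, loc h _, fun τ σ => ?_, ?_⟩
  · rw [one_mul]; exact Th_sf h τ σ
  · refine hJMAP _ _ (pe h) (fun _ => 1) (fun _ => one_ne_zero) (fun a b c => ?_) (par_pe h)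
      (msub_Q h) (fun _ => rfl) _
    simp only [pe_apply, Prod.fst_add, Prod.snd_add, Uf_add, Lf_add, Prod.mk_add_mk]

end Pool.Agent.P.MP_abfee5_ag
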