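import Pool.Agent.P.MP_abfee5_ag.CT.Iface3

/-! Step SYM of the cubic threefold theta project. -/

namespace Pool.Agent.P.MP_abfee5_ag

open Complex Filter Topology MvPolynomial

namespace SymB

lemma z8_zpow (a b : ℤ) (h : (a - b) % 8 = 0) : z8 ^ a = z8 ^ b := by
  obtain ⟨k, hk⟩ : ∃ k, a = b + 8 * k := ⟨(a - b) / 8, by omega⟩
  have : z8 ^ (8 : ℤ) = 1 := by exact_mod_cast z8_eight
  rw [hk, zpow_add₀ z8_ne, zpow_mul, this, one_zpow, mul_one]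

lemma term (hT0 : S_T0) (N : V) : chi 1023 N * ex tau0 N =
    if ∀ j, N j % 2 = 1 then (1 / 16) ^ Gf N * z8 ^ (2 * ∑ j, N j + Pf N) else 0 := by
  have ha : ∀ j : Fin 5, (ab 1023 j : ℤ) = 1 := by decide
  have hb : ∀ j : Fin 5, (bb 1023 j : ℤ) = 1 := by decide
  simp only [chi, ha, hb, mul_one]
  split_ifs with h
  · rw [hT0.2.1, zpow_add₀ z8_ne, zpow_mul, show z8 ^ (2 : ℤ) = I by exact_mod_cast z8_sq]
    ring
  · simp

lemma inv (hT0 : S_T0) (U : V → V) (h1 : ∀ N, Gf (U N) = Gf N)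
    (h2 : ∀ N, (∀ j, U N j % 2 = 1) ↔ ∀ j, N j % 2 = 1)
    (h3 : ∀ N, (∀ j, N j % 2 = 1) →
      (2 * ∑ j, U N j + Pf (U N) - (2 * ∑ j, N j + Pf N)) % 8 = 0) (N : V) :
    chi 1023 (U N) * ex tau0 (U N) = chi 1023 N * ex tau0 N := by
  rw [term hT0, term hT0]
  by_cases h : ∀ j, N j % 2 = 1
  · rw [if_pos h, if_pos ((h2 N).2 h), h1, z8_zpow _ _ (h3 N h)]
  · rw [if_neg h, if_neg fun h' => h ((h2 N).1 h')]

/-- The cyclic shift. -/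
def cy : V ≃ V := Equiv.arrowCongr (Equiv.addRight (-1 : Fin 5)) (Equiv.refl ℤ)

lemma cy_apply (N : V) (j : Fin 5) : cy N j = N (j + 1) := by
  simp [cy, Equiv.arrowCongr_apply]

/-- The involution. -/
def uu (N : V) : V := ![-N 0 - N 3 + N 4, -N 0 + N 1 - N 2, -N 2 + N 3 - N 4, N 3, N 4]

lemma uu_inv : Function.Involutive uu := by
  intro N
  funext j
  fin_cases j <;> simp [uu] <;> ring

lemma Gf_eq (N : V) : Gf N = 4 * (N 0 ^ 2 + N 1 ^ 2 + N 2 ^ 2 + N 3 ^ 2 + N 4 ^ 2) -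
    4 * (N 0 * N 1 + N 1 * N 2 + N 2 * N 3 + N 3 * N 4 + N 4 * N 0) +
    2 * (N 0 * N 2 + N 1 * N 3 + N 2 * N 4 + N 3 * N 0 + N 4 * N 1) := by
  simp only [Gf, Fin.sum_univ_five]; rfl

lemma Pf_eq (N : V) : Pf N = N 0 * N 1 + N 1 * N 2 + N 2 * N 3 + N 3 * N 4 + N 4 * N 0 := by
  simp only [Pf, Fin.sum_univ_five]; rfl

lemma all5 (p : Fin 5 → Prop) : (∀ j, p j) ↔ p 0 ∧ p 1 ∧ p 2 ∧ p 3 ∧ p 4 := by
  simp [Fin.forall_fin_succ]

lemma cy_inv (hT0 : S_T0) (N : V) :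
    chi 1023 (cy N) * ex tau0 (cy N) = chi 1023 N * ex tau0 N := by
  have e0 : ∀ N : V, cy N 0 = N 1 := fun N => cy_apply N 0
  have e1 : ∀ N : V, cy N 1 = N 2 := fun N => cy_apply N 1
  have e2 : ∀ N : V, cy N 2 = N 3 := fun N => cy_apply N 2
  have e3 : ∀ N : V, cy N 3 = N 4 := fun N => cy_apply N 3
  have e4 : ∀ N : V, cy N 4 = N 0 := fun N => cy_apply N 4
  refine inv hT0 cy (fun N => ?_) (fun N => ?_) (fun N _ => ?_) N
  · rw [Gf_eq, Gf_eq, e0, e1, e2, e3, e4]; ring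
  · rw [all5, all5, e0, e1, e2, e3, e4]; tauto
  · rw [Pf_eq, Pf_eq, Fin.sum_univ_five, Fin.sum_univ_five, e0, e1, e2, e3, e4]
    ring_nf
    rfl

lemma uu_inv' (hT0 : S_T0) (N : V) :
    chi 1023 (uu N) * ex tau0 (uu N) = chi 1023 N * ex tau0 N := by
  have e0 : ∀ N : V, uu N 0 = -N 0 - N 3 + N 4 := fun N => rfl
  have e1 : ∀ N : V, uu N 1 = -N 0 + N 1 - N 2 := fun N => rfl
  have e2 : ∀ N : V, uu N 2 = -N 2 + N 3 - N 4 := fun N => rfl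
  have e3 : ∀ N : V, uu N 3 = N 3 := fun N => rfl
  have e4 : ∀ N : V, uu N 4 = N 4 := fun N => rfl
  refine inv hT0 uu (fun N => ?_) (fun N => ?_) (fun N h => ?_) N
  · rw [Gf_eq, Gf_eq, e0, e1, e2, e3, e4]; ring
  · rw [all5, all5, e0, e1, e2, e3, e4]; omega
  · rw [Pf_eq, Pf_eq, Fin.sum_univ_five, Fin.sum_univ_five, e0, e1, e2, e3, e4]
    obtain ⟨a, ha⟩ : ∃ a, N 0 = 2 * a + 1 := ⟨N 0 / 2, by have := h 0; omega⟩
    obtain ⟨b, hb⟩ : ∃ a, N 1 = 2 * a + 1 := ⟨N 1 / 2, by have := h 1; omega⟩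
    obtain ⟨c, hc⟩ : ∃ a, N 2 = 2 * a + 1 := ⟨N 2 / 2, by have := h 2; omega⟩
    obtain ⟨d, hd⟩ : ∃ a, N 3 = 2 * a + 1 := ⟨N 3 / 2, by have := h 3; omega⟩
    obtain ⟨e, he⟩ : ∃ a, N 4 = 2 * a + 1 := ⟨N 4 / 2, by have := h 4; omega⟩
    rw [ha, hb, hc, hd, he]
    obtain ⟨a2, ha2⟩ := Int.even_mul_succ_self a
    obtain ⟨c2, hc2⟩ := Int.even_mul_succ_self c
    obtain ⟨d2, hd2⟩ := Int.even_mul_succ_self d
    obtain ⟨e2, he2⟩ := Int.even_mul_succ_self e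
    have k1 : a ^ 2 = 2 * a2 - a := by linarith
    have k2 : c ^ 2 = 2 * c2 - c := by linarith
    have k3 : d ^ 2 = 2 * d2 - d := by linarith
    have k4 : e ^ 2 = 2 * e2 - e := by linarith
    ring_nf
    omega

end SymB

open SymB in
theorem p_SYM (hSUM : S_SUM) (hT0 : S_T0) :
    S_SYM := by
  have hs : ∀ j, Summable fun N : V => (N j : ℂ) * chi 1023 N * ex tau0 N := fun j =>
    (hSUM.2.2.2 _ ((gr_coord j).mul (gr_chi 1023)) tau0 (siegel_om hT0.1)).of_norm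
  have h1 : ∀ j, gr 1023 tau0 j = gr 1023 tau0 (j + 1) := by
    intro j
    rw [gr, S, ← cy.tsum_eq, gr, S]
    refine tsum_congr fun N => ?_
    rw [mul_assoc, cy_inv hT0, cy_apply, mul_assoc]
  have h2 : gr 1023 tau0 0 = -gr 1023 tau0 0 - gr 1023 tau0 3 + gr 1023 tau0 4 := by
    conv_lhs => rw [gr, S, ← uu_inv.toPerm.tsum_eq]
    simp only [gr, S]
    rw [← tsum_neg, ← (hs 0).neg.tsum_sub (hs 3), ← ((hs 0).neg.sub (hs 3)).tsum_add (hs 4)]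
    refine tsum_congr fun N => ?_
    rw [Function.Involutive.coe_toPerm, mul_assoc, uu_inv' hT0,
      show uu N 0 = -N 0 - N 3 + N 4 from rfl]
    push_cast; ring
  have a0 := h1 0
  have a1 := h1 1
  have a2 := h1 2
  have a3 := h1 3
  change gr 1023 tau0 0 = gr 1023 tau0 1 at a0
  change gr 1023 tau0 1 = gr 1023 tau0 2 at a1
  change gr 1023 tau0 2 = gr 1023 tau0 3 at a2
  change gr 1023 tau0 3 = gr 1023 tau0 4 at a3
  have z0 : gr 1023 tau0 0 = 0 := by linear_combination (1 / 2) * h2 - (1 / 2) * a3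
  rw [S_SYM, all5]
  refine ⟨z0, ?_, ?_, ?_, ?_⟩
  · rw [← a0, z0]
  · rw [← a1, ← a0, z0]
  · rw [← a2, ← a1, ← a0, z0]
  · rw [← a3, ← a2, ← a1, ← a0, z0]

end Pool.Agent.P.MP_abfee5_ag
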