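import Pool.Agent.P.MP_abfee5_ag.CT.Iface3
import Pool.Agent.P.MP_abfee5_ag.CT.Iface

/-! Step SYT of the cubic threefold theta project. -/

namespace Pool.Agent.P.MP_abfee5_ag

open Complex Filter Topology MvPolynomial

namespace SytA

theorem ab_val (n : ℕ) (j : Fin 5) : ab n j = ((dec n).1 j).val := by
  show _ = ((((n >>> 5) >>> (j : ℕ)) % 2 : ℕ) : ZMod 2).val
  rw [ZMod.val_natCast, ab, Nat.shiftRight_add, Nat.mod_mod]

theorem bb_val (n : ℕ) (j : Fin 5) : bb n j = ((dec n).2 j).val := by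
  show _ = (((n >>> (j : ℕ)) % 2 : ℕ) : ZMod 2).val
  rw [ZMod.val_natCast, bb, Nat.mod_mod]

theorem dec_sh : ∀ (J : Fin 5) (c : ZMod 2), dec (c.val <<< (J : ℕ)) = (0, Pi.single J c) := by
  decide

theorem one_sub : ∀ c : ZMod 2, 1 - c.val = (1 + c).val := by decide

theorem dot_single (σ B : F2) (J : Fin 5) (c : ZMod 2) :
    ∑ j, σ j * (B + Pi.single J c : F2) j = ∑ j, σ j * B j + σ J * c := by
  simp only [Pi.add_apply, mul_add, Finset.sum_add_distrib]
  congr 1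
  rw [Finset.sum_eq_single J (fun p _ hp => by simp [hp]) (by simp)]
  simp

theorem neg_pow8 (t : ℕ) : (-1 : ℂ) ^ t = z8 ^ (4 * t) := by rw [pow_mul, z8_four]

theorem z8_eq {a b : ℕ} (h : a % 8 = b % 8) : z8 ^ a = z8 ^ b := by
  rw [← z8_mod a, h, z8_mod]

theorem desc (hx : ∀ a b, dec (a ^^^ b) = dec a + dec b) (s : ℕ)
    (hs : ¬(s / 8 < 5 ∧ s % 8 = 5)) :
    (∀ τ, move s τ = τ + move s 0) ∧ ∃ (π : Ch → Ch) (φ : Ch → ℕ),
      (∀ n, dec (act s n).1 = π (dec n)) ∧ (∀ n, (act s n).2 = φ (dec n)) ∧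
      (∀ m, (π m).1 = m.1) ∧ ∀ (m : Ch) (σ : F2),
        (4 * (∑ j, σ j * m.2 j).val + (φ (σ, 0) + φ (π (σ, 0))) +
          (φ (σ + m.1, 0) + φ (π (σ + m.1, 0)))) % 8 =
        (2 * φ m + 4 * (∑ j, σ j * (π m).2 j).val) % 8 := by
  have triv : (∀ τ, move s τ = τ) → (∀ n, act s n = (n, 0)) →
      (∀ τ, move s τ = τ + move s 0) ∧ ∃ (π : Ch → Ch) (φ : Ch → ℕ),
      (∀ n, dec (act s n).1 = π (dec n)) ∧ (∀ n, (act s n).2 = φ (dec n)) ∧
      (∀ m, (π m).1 = m.1) ∧ ∀ (m : Ch) (σ : F2),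
        (4 * (∑ j, σ j * m.2 j).val + (φ (σ, 0) + φ (π (σ, 0))) +
          (φ (σ + m.1, 0) + φ (π (σ + m.1, 0)))) % 8 =
        (2 * φ m + 4 * (∑ j, σ j * (π m).2 j).val) % 8 := fun h1 h2 =>
    ⟨fun τ => by simp [h1], id, fun _ => 0, fun n => by simp [h2], fun n => by simp [h2],
      fun _ => rfl, fun m σ => by simp⟩
  by_cases hj : s / 8 < 5
  swap
  · exact triv (fun τ => by simp only [move, if_neg hj]) fun n => by simp only [act, if_neg hj]
  have h5 : ¬s % 8 = 5 := fun h => hs ⟨hj, h⟩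
  obtain ⟨J, hJ⟩ : ∃ J : Fin 5, s / 8 = J := ⟨⟨_, hj⟩, rfl⟩
  by_cases hk : s % 8 = s / 8
  · refine ⟨fun τ => ?_, fun m => (m.1, m.2 + Pi.single J (1 + m.1 J)), fun m => (m.1 J).val,
      fun n => ?_, fun n => ?_, fun _ => rfl, fun m σ => ?_⟩
    · simp only [move, if_pos hj, if_pos hk]
      funext p q
      simp
    · simp only [act, if_pos hj, if_pos hk]
      rw [hJ, hx, ab_val, one_sub, dec_sh]
      exact Prod.ext (add_zero _) rfl
    · simp only [act, if_pos hj, if_pos hk]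
      rw [hJ, ab_val]
    · simp only [dot_single]
      simp only [Pi.add_apply]
      generalize (∑ j, σ j * m.2 j) = t
      generalize σ J = x
      generalize m.1 J = a
      revert t x a
      decide
  by_cases hl : s / 8 < s % 8 ∧ s % 8 < 5
  swap
  · exact triv (fun τ => by simp only [move, if_pos hj, if_neg hk, if_neg h5, if_neg hl])
      fun n => by simp only [act, if_pos hj, if_neg hk, if_neg h5, if_neg hl]
  obtain ⟨K, hK⟩ : ∃ K : Fin 5, s % 8 = K := ⟨⟨_, hl.2⟩, rfl⟩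
  have JK : J ≠ K := fun h => hk (by rw [hJ, hK, h])
  refine ⟨fun τ => ?_, fun m => (m.1, m.2 + Pi.single K (m.1 J) + Pi.single J (m.1 K)),
    fun m => ((m.1 J).val * (m.1 K).val * (6 + 4 * (m.2 J).val + 4 * (m.2 K).val)) % 8,
    fun n => ?_, fun n => ?_, fun _ => rfl, fun m σ => ?_⟩
  · simp only [move, if_pos hj, if_neg hk, if_neg h5, if_pos hl]
    funext p q
    simp
  · simp only [act, if_pos hj, if_neg hk, if_neg h5, if_pos hl]
    rw [hJ, hK, hx, hx, ab_val, ab_val, dec_sh, dec_sh]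
    exact Prod.ext ((add_zero _).trans (add_zero _)) rfl
  · simp only [act, if_pos hj, if_neg hk, if_neg h5, if_pos hl]
    rw [hJ, hK, ab_val, ab_val, bb_val, bb_val]
  · simp only [dot_single]
    simp only [Pi.add_apply, Pi.zero_apply, Pi.single_eq_same,
      Pi.single_eq_of_ne JK, Pi.single_eq_of_ne JK.symm]
    generalize (∑ j, σ j * m.2 j) = t
    generalize σ J = x
    generalize σ K = y
    generalize m.1 J = a
    generalize m.1 K = b
    generalize m.2 J = c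
    generalize m.2 K = e
    revert t x y a b c e
    decide

end SytA

open SytA

theorem p_SYT (hMVT : S_MVT) (hAFF : S_AFF) (hPHS : S_PHS) (hENC : S_ENC) (hBRV : S_BRV) (hBRG : S_BRG) (hJMAP : S_JMAP) :
    S_SYT := by
  intro s hs n hn
  obtain ⟨⟨e1, e2, -, -, -⟩, ⟨f1, f2, f3, f4, f5, f6⟩, f7, -⟩ := hENC
  obtain ⟨hE, π, φ, hπ, hφ, h1, hT⟩ := desc f4 s hs
  obtain ⟨m1, m2, m3⟩ := hMVT s hs
  obtain ⟨a1, a2⟩ := hAFF [s]
  have a1' : ∀ n < 1024, (act s n).1 < 1024 ∧ par (act s n).1 = par n ∧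
      (act s (act s n).1).1 = n := a1
  have a2' : ∀ a < 1024, ∀ b < 1024, ∀ c < 1024,
      (act s (a ^^^ b ^^^ c)).1 = (act s a).1 ^^^ (act s b).1 ^^^ (act s c).1 := a2
  have hth : ∀ n τ, th n (move s τ) = z8 ^ (act s n).2 * th (act s n).1 τ := fun n τ => by
    simp only [th, S, m3]
    exact tsum_mul_left
  have hgr : ∀ n τ j, gr n (move s τ) j = z8 ^ (act s n).2 * gr (act s n).1 τ j := fun n τ j => by
    simp only [gr, S, mul_assoc, m3]
    rw [← tsum_mul_left]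
    exact tsum_congr fun N => by ring
  have hz : ∀ k : ℕ, z8 ^ k ≠ 0 := fun k => pow_ne_zero _ z8_ne
  have hπ' : ∀ m, π m = dec (act s (enc m)).1 := fun m => by rw [hπ, f1]
  have hφ' : ∀ m, φ m = (act s (enc m)).2 := fun m => by rw [hφ, f1]
  have inv : Function.Involutive π := fun m => by
    rw [hπ' m, ← hπ, (a1' _ (f2 m)).2.2, f1]
  have e0 : ∀ σ : F2, enc (σ, 0) = 32 * enc5 σ := fun σ => by simp [enc, enc5]
  refine ⟨Homeomorph.addRight (move s 0), fun σ => z8 ^ (φ (σ, 0) + φ (π (σ, 0))), Equiv.refl _,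
    fun σ => hz _, fun τ => ?_, fun τ σ => ?_, ?_⟩
  · show _ ↔ τ + move s 0 ∈ _
    rw [← hE, hBRG.2, hBRG.2, f3 _ hn, f3 _ (a1' _ hn).1]
    refine and_congr ⟨m1 τ, fun h => ?_⟩ (and_congr ?_ ⟨fun h k hk hp => ?_, fun h k hk hp => ?_⟩)
    · obtain ⟨τ', h', e⟩ := m2 _ h
      rw [hE τ', hE τ] at e
      exact add_right_cancel e ▸ h'
    · simp only [hgr, mul_eq_zero, hz, false_or]
    · rw [hth]
      exact mul_ne_zero (hz _) (h _ (a1' _ hk).1 ((a1' _ hk).2.1.trans hp))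
    · have := h _ (a1' _ hk).1 ((a1' _ hk).2.1.trans hp)
      rw [hth, (a1' _ hk).2.2] at this
      exact right_ne_zero_of_mul this
  · show Th (τ + move s 0) σ = z8 ^ (φ (σ, 0) + φ (π (σ, 0))) * Th τ σ
    have h2 : (2 : ℂ) • (τ + move s 0) = move s (move s ((2 : ℂ) • τ)) := by
      rw [hE (move s _), hE ((2 : ℂ) • τ), smul_add, two_smul ℂ (move s 0), add_assoc]
    have hl : 32 * enc5 σ < 1024 := by have := e2 σ; omega
    have hp : φ (π (σ, 0)) = (act s (act s (32 * enc5 σ)).1).2 := by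
      rw [hπ', ← hφ, e0]
    have hb : ∀ τ, Th τ σ = th (32 * enc5 σ) ((2 : ℂ) • τ) := fun τ => by
      rw [← xx, ← hBRV.2.2, e1]
    rw [hb, hb, h2, hth, hth, (a1' _ hl).2.2, hp, hφ', e0, pow_add, mul_assoc]
  · rw [hπ]
    refine hJMAP _ (Equiv.refl _) inv.toPerm (fun m => z8 ^ (2 * φ m)) (fun m => hz _)
      (fun a b c => ?_) (fun m => ?_) (fun m => ?_) (fun v => ?_) (dec n)
    · show π _ = π a + π b + π c
      rw [hπ', hπ' a, hπ' b, hπ' c, f5, f5, a2' _ (f2 a) _ (f2 b) _ (f2 c), f4, f4]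
    · show parity (π m) = _
      rw [hπ', f6, (a1' _ (f2 m)).2.1, ← f6, f1]
    · show _ = _ * Q (π m)
      simp only [Q, msub, map_sum, map_mul, map_pow, map_neg, map_one, aeval_X, Finset.mul_sum,
        Equiv.refl_apply, h1]
      refine Finset.sum_congr rfl fun σ _ => ?_
      have h := congrArg (C : ℂ → MvPolynomial F2 ℂ) (z8_eq (hT m σ))
      rw [pow_add, pow_add, pow_add z8 (2 * φ m), ← neg_pow8, ← neg_pow8] at h
      simp only [map_mul, map_pow, map_neg, map_one] at h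
      linear_combination (X σ * X (σ + m.1)) * h
    · rw [Finset.prod_pow_eq_pow_sum, Finset.prod_pow_eq_pow_sum, ← Finset.mul_sum,
        ← Finset.mul_sum]
      have h := hPHS s (List.ofFn fun i => enc (v i)) (by simp)
      rw [List.map_ofFn, List.map_ofFn, List.sum_ofFn, List.sum_ofFn, ← f7] at h
      simp only [Function.comp_apply, ← f5, ← hφ'] at h
      exact z8_eq (by omega)

end Pool.Agent.P.MP_abfee5_ag
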