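import Pool.Agent.P.MP_abfee5_ag.CT.Iface3

/-! Step T0 of the cubic threefold theta project. -/

namespace Pool.Agent.P.MP_abfee5_ag

open Complex Filter Topology MvPolynomial

namespace T0A

/-- The scale of the imaginary part. -/
noncomputable def y : ℝ := 4 / Real.pi * Real.log 16

lemma y_pos : 0 < y := by
  unfold y
  have h1 : 0 < Real.log 16 := Real.log_pos (by norm_num)
  have h2 := Real.pi_pos
  positivity

/-- The explicit table of the base point. -/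
noncomputable def tab (u : ℂ) : Mat :=
  ![![u * 4, u * (-2) + 1 / 2, u, u, u * (-2) + 1 / 2],
    ![u * (-2) + 1 / 2, u * 4, u * (-2) + 1 / 2, u, u],
    ![u, u * (-2) + 1 / 2, u * 4, u * (-2) + 1 / 2, u],
    ![u, u, u * (-2) + 1 / 2, u * 4, u * (-2) + 1 / 2],
    ![u * (-2) + 1 / 2, u, u, u * (-2) + 1 / 2, u * 4]]

lemma tau_eq : tau0 = tab (I * (y : ℂ)) := by
  funext j k
  unfold tau0 tab
  rw [show (4 / Real.pi * Real.log 16 : ℝ) = y from rfl]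
  generalize I * (y : ℂ) = u
  fin_cases j <;> fin_cases k <;> simp

lemma ineq (a b c d e : ℝ) :
    6 * a ^ 2 + (a ^ 2 + b ^ 2 + c ^ 2 + d ^ 2 + e ^ 2) ≤
      4 * (4 * (a ^ 2 + b ^ 2 + c ^ 2 + d ^ 2 + e ^ 2) - 4 * (a * b + b * c + c * d + d * e + e * a)
        + 2 * (a * c + b * d + c * e + d * a + e * b)) := by
  have h : 4 * (4 * (a ^ 2 + b ^ 2 + c ^ 2 + d ^ 2 + e ^ 2)
      - 4 * (a * b + b * c + c * d + d * e + e * a)
        + 2 * (a * c + b * d + c * e + d * a + e * b))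
      - (6 * a ^ 2 + (a ^ 2 + b ^ 2 + c ^ 2 + d ^ 2 + e ^ 2)) =
      9 * (a - 8 / 9 * b + 4 / 9 * c + 4 / 9 * d - 8 / 9 * e) ^ 2
      + 71 / 9 * (b - 40 / 71 * c + 68 / 71 * d - 28 / 71 * e) ^ 2
      + 761 / 71 * (c - 392 / 761 * d + 412 / 761 * e) ^ 2
      + 2391 / 761 * (d + 1160 / 2391 * e) ^ 2 + 6649 / 2391 * e ^ 2 := by ring
  have : 0 ≤ 9 * (a - 8 / 9 * b + 4 / 9 * c + 4 / 9 * d - 8 / 9 * e) ^ 2
      + 71 / 9 * (b - 40 / 71 * c + 68 / 71 * d - 28 / 71 * e) ^ 2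
      + 761 / 71 * (c - 392 / 761 * d + 412 / 761 * e) ^ 2
      + 2391 / 761 * (d + 1160 / 2391 * e) ^ 2 + 6649 / 2391 * e ^ 2 := by positivity
  linarith

lemma Gf_eq (N : V) : Gf N =
    4 * (N 0 ^ 2 + N 1 ^ 2 + N 2 ^ 2 + N 3 ^ 2 + N 4 ^ 2)
      - 4 * (N 0 * N 1 + N 1 * N 2 + N 2 * N 3 + N 3 * N 4 + N 4 * N 0)
      + 2 * (N 0 * N 2 + N 1 * N 3 + N 2 * N 4 + N 3 * N 0 + N 4 * N 1) := by
  unfold Gf
  simp only [Fin.sum_univ_five]
  rfl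

lemma Pf_eq (N : V) : Pf N = N 0 * N 1 + N 1 * N 2 + N 2 * N 3 + N 3 * N 4 + N 4 * N 0 := by
  unfold Pf
  simp only [Fin.sum_univ_five]
  rfl

lemma qf_tab (u : ℂ) (N : V) : qf (tab u) N = u * (Gf N : ℂ) + (Pf N : ℂ) := by
  rw [Gf_eq, Pf_eq]
  unfold qf tab
  simp only [Fin.sum_univ_five]
  simp
  ring

lemma qf_smul (c : ℂ) (τ : Mat) (N : V) : qf (c • τ) N = c * qf τ N := by
  unfold qf
  simp only [Finset.mul_sum, Pi.smul_apply, smul_eq_mul]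
  refine Finset.sum_congr rfl fun j _ => Finset.sum_congr rfl fun k _ => by ring

lemma e16 : cexp (Real.pi * I / 4 * (I * (y : ℂ))) = 1 / 16 := by
  have hp : (Real.pi : ℂ) ≠ 0 := by exact_mod_cast Real.pi_ne_zero
  have h : Real.pi * I / 4 * (I * (y : ℂ)) = ((-Real.log 16 : ℝ) : ℂ) := by
    unfold y
    have : (Real.pi : ℂ) * I / 4 * (I * ((4 / Real.pi * Real.log 16 : ℝ) : ℂ)) =
        (I * I) * ((Real.pi : ℂ) / Real.pi) * ((Real.log 16 : ℝ) : ℂ) := by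
      rw [Complex.ofReal_mul, Complex.ofReal_div]
      simp only [Complex.ofReal_ofNat]
      ring
    rw [this, I_mul_I, div_self hp, Complex.ofReal_neg]
    ring
  rw [h, ← Complex.ofReal_exp, Real.exp_neg, Real.exp_log (by norm_num)]
  norm_num

lemma ex1 (N : V) : ex tau0 N = (1 / 16) ^ Gf N * z8 ^ Pf N := by
  unfold ex
  rw [tau_eq, qf_tab, mul_add, Complex.exp_add, ← mul_assoc, mul_comm _ (Gf N : ℂ),
    mul_comm _ (Pf N : ℂ), Complex.exp_int_mul, Complex.exp_int_mul, e16]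
  rfl

lemma ex2 (N : V) : ex ((2 : ℂ) • tau0) N = (1 / 256) ^ Gf N * I ^ Pf N := by
  have h : ex ((2 : ℂ) • tau0) N = ex tau0 N * ex tau0 N := by
    unfold ex
    rw [qf_smul, ← Complex.exp_add]
    congr 1
    ring
  have hz : z8 * z8 = I := by rw [← sq, z8_sq]
  rw [h, ex1, mul_mul_mul_comm, ← mul_zpow, ← mul_zpow, hz]
  norm_num

lemma bound (N : V) (j : Fin 5) : 6 * N j ^ 2 + ∑ k, N k ^ 2 ≤ 4 * Gf N := by
  rw [Gf_eq, Fin.sum_univ_five]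
  have key : ∀ a b c d e : ℤ, 6 * a ^ 2 + (a ^ 2 + b ^ 2 + c ^ 2 + d ^ 2 + e ^ 2) ≤
      4 * (4 * (a ^ 2 + b ^ 2 + c ^ 2 + d ^ 2 + e ^ 2) - 4 * (a * b + b * c + c * d + d * e + e * a)
        + 2 * (a * c + b * d + c * e + d * a + e * b)) := by
    intro a b c d e
    exact_mod_cast ineq a b c d e
  fin_cases j
  · have := key (N 0) (N 1) (N 2) (N 3) (N 4)
    show 6 * N 0 ^ 2 + _ ≤ _
    linarith
  · have := key (N 1) (N 2) (N 3) (N 4) (N 0)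
    show 6 * N 1 ^ 2 + _ ≤ _
    linarith
  · have := key (N 2) (N 3) (N 4) (N 0) (N 1)
    show 6 * N 2 ^ 2 + _ ≤ _
    linarith
  · have := key (N 3) (N 4) (N 0) (N 1) (N 2)
    show 6 * N 3 ^ 2 + _ ≤ _
    linarith
  · have := key (N 4) (N 0) (N 1) (N 2) (N 3)
    show 6 * N 4 ^ 2 + _ ≤ _
    linarith

lemma im_tab (x : Fin 5 → ℝ) : ∑ j, ∑ k, x j * (tab (I * (y : ℂ)) j k).im * x k =
    y * (4 * (x 0 ^ 2 + x 1 ^ 2 + x 2 ^ 2 + x 3 ^ 2 + x 4 ^ 2)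
      - 4 * (x 0 * x 1 + x 1 * x 2 + x 2 * x 3 + x 3 * x 4 + x 4 * x 0)
      + 2 * (x 0 * x 2 + x 1 * x 3 + x 2 * x 4 + x 3 * x 0 + x 4 * x 1)) := by
  unfold tab
  simp only [Fin.sum_univ_five]
  simp
  ring

lemma sieg : tau0 ∈ Siegel := by
  rw [tau_eq]
  refine ⟨fun j k => ?_, fun x hx => ?_⟩
  · unfold tab
    fin_cases j <;> fin_cases k <;> rfl
  · rw [im_tab]
    refine mul_pos y_pos ?_
    have h := ineq (x 0) (x 1) (x 2) (x 3) (x 4)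
    have hp : 0 < ∑ k, x k ^ 2 := by
      obtain ⟨k, hk⟩ := Function.ne_iff.1 hx
      exact Finset.sum_pos' (fun i _ => sq_nonneg _)
        ⟨k, Finset.mem_univ _, sq_pos_of_ne_zero hk⟩
    rw [Fin.sum_univ_five] at hp
    have := sq_nonneg (x 0)
    linarith

lemma om2 (τ : Mat) (h : τ ∈ Om) : (2 : ℂ) • τ ∈ Om := by
  intro x hx
  have h1 := h x hx
  have : ∑ j, ∑ k, x j * (((2 : ℂ) • τ) j k).im * x k =
      2 * ∑ j, ∑ k, x j * (τ j k).im * x k := by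
    simp only [Finset.mul_sum, Pi.smul_apply, smul_eq_mul]
    refine Finset.sum_congr rfl fun j _ => Finset.sum_congr rfl fun k _ => ?_
    simp
    ring
  rw [this]
  linarith

end T0A

theorem p_T0 :
    S_T0 :=
  ⟨T0A.sieg, T0A.ex1, T0A.ex2, T0A.bound, T0A.om2⟩

end Pool.Agent.P.MP_abfee5_ag
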