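import Pool.Agent.P.MP_abfee5_ag.CT.Iface4

/-! Step TABG of the cubic threefold theta project. -/

namespace Pool.Agent.P.MP_abfee5_ag

open Complex Filter Topology MvPolynomial

namespace TabgA

theorem t0 : isTabB gT0 (gW.getD 0 []) = true := by decide +kernel
theorem t1 : isTabB gT1 (gW.getD 1 []) = true := by decide +kernel
theorem t2 : isTabB gT2 (gW.getD 2 []) = true := by decide +kernel
theorem t3 : isTabB gT3 (gW.getD 3 []) = true := by decide +kernel
theorem t4 : isTabB gT4 (gW.getD 4 []) = true := by decide +kernel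
theorem t5 : isTabB gT5 (gW.getD 5 []) = true := by decide +kernel
theorem t6 : isTabB gT6 (gW.getD 6 []) = true := by decide +kernel
theorem t7 : isTabB gT7 (gW.getD 7 []) = true := by decide +kernel
theorem t8 : isTabB gT8 (gW.getD 8 []) = true := by decide +kernel
theorem t9 : isTabB gT9 (gW.getD 9 []) = true := by decide +kernel
theorem t10 : isTabB gT10 (gW.getD 10 []) = true := by decide +kernel

end TabgA

open TabgA

theorem p_TABG :
    S_TABG :=
  .cons (isTab_of t0) <| .cons (isTab_of t1) <| .cons (isTab_of t2) <| 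
  .cons (isTab_of t3) <| .cons (isTab_of t4) <| .cons (isTab_of t5) <| 
  .cons (isTab_of t6) <| .cons (isTab_of t7) <| .cons (isTab_of t8) <| 
  .cons (isTab_of t9) <| .cons (isTab_of t10) <| .nil

end Pool.Agent.P.MP_abfee5_ag
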