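import Pool.Agent.P.MP_abfee5_ag.CT.Iface4

/-! Step TABH of the cubic threefold theta project. -/

namespace Pool.Agent.P.MP_abfee5_ag

open Complex Filter Topology MvPolynomial

namespace TabhA

lemma t0 : IsTab hT0 [0] :=
  isTab_of (by decide +kernel)

lemma t1 : IsTab hT1 [13, 1, 0, 5, 0, 5, 0, 1, 13] :=
  isTab_of (by decide +kernel)

lemma t2 : IsTab hT2 [10, 18, 21, 18, 21, 18, 10] :=
  isTab_of (by decide +kernel)

lemma t3 : IsTab hT3 [29, 18, 21, 11, 10, 13, 9, 13, 10, 11, 21, 18, 29] :=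
  isTab_of (by decide +kernel)

lemma t4 : IsTab hT4 [20, 19, 18, 21, 18, 21, 18, 19, 20] :=
  isTab_of (by decide +kernel)

lemma t5 : IsTab hT5 [37, 27, 29, 21, 12, 11, 10, 13, 9, 13, 10, 11, 12, 21, 29, 27, 37] :=
  isTab_of (by decide +kernel)

lemma t6 : IsTab hT6 [18, 21, 18, 21, 18] :=
  isTab_of (by decide +kernel)

lemma t7 : IsTab hT7 [27, 29, 21, 11, 10, 13, 9, 13, 10, 11, 21, 29, 27] :=
  isTab_of (by decide +kernel)

lemma t8 : IsTab hT8 [20, 18, 21, 18, 21, 18, 20] :=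
  isTab_of (by decide +kernel)

end TabhA

theorem p_TABH :
    S_TABH := by
  unfold S_TABH hT hW
  exact .cons TabhA.t0 <|
    .cons TabhA.t1 <|
    .cons TabhA.t2 <|
    .cons TabhA.t3 <|
    .cons TabhA.t4 <|
    .cons TabhA.t5 <|
    .cons TabhA.t6 <|
    .cons TabhA.t7 <|
    .cons TabhA.t8 <|
    .nil

end Pool.Agent.P.MP_abfee5_ag
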