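import Pool.Agent.P.MP_abfee5_ag.CT.Iface3
import Pool.Agent.P.MP_abfee5_ag.CT.Iface

/-! Step TAIL of the cubic threefold theta project. -/

namespace Pool.Agent.P.MP_abfee5_ag

open Complex Filter Topology MvPolynomial

namespace TailA

open Finset

/-- Tail terms. -/
noncomputable def u (p : ℝ) (m n : ℕ) : ℝ := if m ≤ n then (n : ℝ) ^ 3 * p ^ n ^ 2 else 0

theorem u_nonneg {p : ℝ} (hp : 0 ≤ p) (m n : ℕ) : 0 ≤ u p m n := by
  unfold u; split_ifs <;> positivity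

theorem u_le {p : ℝ} (hp : 0 ≤ p) (hp1 : p ≤ 1) {m : ℕ} (hm : 1 ≤ m) (n : ℕ) :
    u p m (m + n) ≤ m ^ 3 * p ^ m ^ 2 * (8 * p ^ (2 * m + 1)) ^ n := by
  have h1 : m + n ≤ m * 2 ^ n := by
    have := (Nat.lt_two_pow_self (n := n))
    nlinarith
  have h2 : ((m + n : ℕ) : ℝ) ^ 3 ≤ m ^ 3 * 8 ^ n := by
    have h3 : ((m + n : ℕ) : ℝ) ≤ m * 2 ^ n := by exact_mod_cast h1
    refine (pow_le_pow_left₀ (by positivity) h3 3).trans (le_of_eq ?_)
    rw [mul_pow, ← pow_mul, mul_comm n 3, pow_mul]; norm_num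
  have h4 : p ^ (m + n) ^ 2 ≤ p ^ (m ^ 2 + (2 * m + 1) * n) :=
    pow_le_pow_of_le_one hp hp1 (by nlinarith [Nat.le_mul_self n])
  rw [u, if_pos (Nat.le_add_right _ _)]
  refine (mul_le_mul h2 h4 (by positivity) (by positivity)).trans (le_of_eq ?_)
  rw [pow_add, pow_mul, mul_pow]
  ring

theorem nat_le {p : ℝ} (hp : 0 ≤ p) (hp1 : p ≤ 1) {m : ℕ} (hm : 1 ≤ m)
    (hr : 8 * p ^ (2 * m + 1) < 1) (t : Finset ℕ) :
    ∑ n ∈ t, u p m n ≤ m ^ 3 * p ^ m ^ 2 * (1 - 8 * p ^ (2 * m + 1))⁻¹ := by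
  obtain ⟨B, hB⟩ := t.exists_nat_subset_range
  refine (sum_le_sum_of_subset_of_nonneg (hB.trans (range_mono (Nat.le_add_left B m)))
    fun n _ _ => u_nonneg hp m n).trans ?_
  rw [sum_range_add, sum_eq_zero (f := u p m) fun n hn => if_neg (by simpa using hn), zero_add]
  refine (sum_le_sum fun n _ => u_le hp hp1 hm n).trans ?_
  exact sum_le_hasSum _ (fun n _ => by positivity)
    ((hasSum_geometric_of_lt_one (by positivity) hr).mul_left _)

theorem int_le {F : ℕ → ℝ} {C : ℝ} (h : ∀ t : Finset ℕ, ∑ n ∈ t, F n ≤ C) (s : Finset ℤ) :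
    ∑ x ∈ s, F x.natAbs ≤ 2 * C := by
  rw [← sum_filter_add_sum_filter_not s (0 ≤ ·), two_mul]
  refine add_le_add ?_ ?_
  · rw [← sum_image (g := Int.natAbs) (f := F) fun x hx y hy e => by
      have := (mem_filter.1 hx).2; have := (mem_filter.1 hy).2; omega]
    exact h _
  · rw [← sum_image (g := Int.natAbs) (f := F) fun x hx y hy e => by
      have := (mem_filter.1 hx).2; have := (mem_filter.1 hy).2; omega]
    exact h _

/-- One variable terms. -/
noncomputable def a (q : ℝ) (x : ℤ) : ℝ := max 1 (|(x : ℝ)| ^ 3) * q ^ x.natAbs ^ 2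

theorem a_nonneg {q : ℝ} (hq : 0 ≤ q) (x : ℤ) : 0 ≤ a q x := by unfold a; positivity

theorem mx {x : ℤ} (h : 1 ≤ x.natAbs) : max 1 (|(x : ℝ)| ^ 3) = (x.natAbs : ℝ) ^ 3 := by
  rw [Nat.cast_natAbs, Int.cast_abs, max_eq_right]
  refine one_le_pow₀ ?_
  rw [← Int.cast_abs, ← Nat.cast_natAbs]
  exact_mod_cast h

theorem a_le {q : ℝ} (hq : 0 ≤ q) (hq1 : q ≤ 1) (hr : 8 * q ^ (2 * 3 + 1) < 1) (s : Finset ℤ) :
    ∑ x ∈ s, a q x ≤
      1 + 2 * q + 16 * q ^ 4 + 2 * ((3 : ℕ) ^ 3 * q ^ 3 ^ 2 * (1 - 8 * q ^ (2 * 3 + 1))⁻¹) := by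
  have h1 : ∀ x, a q x =
      (if x ∈ ({-2, -1, 0, 1, 2} : Finset ℤ) then a q x else 0) + u q 3 x.natAbs := by
    intro x
    by_cases h : 3 ≤ x.natAbs
    · rw [if_neg (by simp only [mem_insert, mem_singleton]; omega), u, if_pos h, a,
        mx (by omega), zero_add]
    · rw [if_pos (by simp only [mem_insert, mem_singleton]; omega), u, if_neg h, add_zero]
  rw [sum_congr rfl fun x _ => h1 x, sum_add_distrib, sum_ite_mem]
  refine add_le_add ((sum_le_sum_of_subset_of_nonneg inter_subset_right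
    fun x _ _ => a_nonneg hq x).trans (le_of_eq ?_)) (int_le (nat_le hq hq1 (by norm_num) hr) s)
  simp [a]
  norm_num
  ring

/-- The general estimate. -/
theorem gen (hT0 : S_T0) {q A T : ℝ} (hq : 0 < q) (hq1 : q ≤ 1) {m : ℕ} (hm : 1 ≤ m)
    (hA : ∀ s : Finset ℤ, ∑ x ∈ s, a q x ≤ A)
    (hT : ∀ s : Finset ℤ, ∑ x ∈ s, u (q ^ 7) m x.natAbs ≤ T) (s : Finset V)
    (hs : ∀ N ∈ s, ∃ j, m ≤ (N j).natAbs) :
    ∑ N ∈ s, (∏ j, max 1 (|(N j : ℝ)| ^ 3)) * (q ^ 4) ^ Gf N ≤ 5 * (A ^ 4 * T) := by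
  let g : Fin 5 → Fin 5 → ℤ → ℝ := fun j k x => if k = j then u (q ^ 7) m x.natAbs else a q x
  have g0 : ∀ j k x, 0 ≤ g j k x := fun j k x => by
    simp only [g]; split_ifs
    · exact u_nonneg (by positivity) _ _
    · exact a_nonneg hq.le _
  have h1 : ∀ N ∈ s, (∏ j, max 1 (|(N j : ℝ)| ^ 3)) * (q ^ 4) ^ Gf N ≤
      ∑ j, ∏ k, g j k (N k) := by
    intro N hN
    obtain ⟨j, hj⟩ := hs N hN
    refine le_trans ?_ (single_le_sum (f := fun j => ∏ k, g j k (N k))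
      (fun j _ => prod_nonneg fun k _ => g0 _ _ _) (mem_univ j))
    have e1 : ∀ k, g j k (N k) =
        a q (N k) * if k = j then q ^ (6 * (N j).natAbs ^ 2) else 1 := by
      intro k
      by_cases h : k = j
      · subst h
        simp only [g, if_true, u, if_pos hj, a, mx (hm.trans hj)]
        rw [← pow_mul, mul_assoc, ← pow_add]
        congr 2
        ring
      · simp [g, h]
    simp only [e1, prod_mul_distrib, prod_ite_eq', mem_univ, if_true, a, prod_pow_eq_pow_sum]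
    rw [mul_assoc, ← pow_add]
    refine mul_le_mul_of_nonneg_left ?_ (by positivity)
    rw [← zpow_natCast q 4, ← zpow_mul, ← zpow_natCast]
    refine zpow_le_zpow_right_of_le_one₀ hq hq1 ?_
    have := hT0.2.2.2.1 N j
    push_cast
    simp only [sq_abs]
    linarith
  have A0 : 0 ≤ A := by simpa using hA ∅
  refine (sum_le_sum h1).trans ?_
  rw [sum_comm]
  refine (sum_le_card_nsmul _ _ (A ^ 4 * T) fun j _ => ?_).trans (by simp)
  refine (sum_le_sum_of_subset_of_nonneg (t := Fintype.piFinset fun k => s.image (· k))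
    (fun N hN => Fintype.mem_piFinset.2 fun k => mem_image_of_mem _ hN)
    fun N _ _ => prod_nonneg fun k _ => g0 _ _ _).trans ?_
  rw [← prod_univ_sum]
  refine (prod_le_prod (g := fun k => if k = j then T else A)
    (fun k _ => sum_nonneg fun x _ => g0 _ _ _) fun k _ => ?_).trans (le_of_eq ?_)
  · by_cases h : k = j
    · simpa [g, h] using hT _
    · simpa [g, h] using hA _
  · rw [← mul_prod_erase _ _ (mem_univ j), if_pos rfl, mul_comm,
      prod_congr rfl fun k hk => if_neg (ne_of_mem_erase hk)]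
    simp

theorem tail (hSUM : S_SUM) (hT0 : S_T0) {w : V → ℂ} (hw : Wt3 w) (hg : Gr w) {τ : Mat}
    (hτ : τ ∈ Om) {q A T : ℝ} (hq : 0 < q) (hq1 : q ≤ 1) (R : ℕ)
    (he : ∀ N, ‖ex τ N‖ = (q ^ 4) ^ Gf N) (hA : ∀ s : Finset ℤ, ∑ x ∈ s, a q x ≤ A)
    (hT : ∀ s : Finset ℤ, ∑ x ∈ s, u (q ^ 7) (R + 1) x.natAbs ≤ T) :
    ‖S w τ - ∑ N ∈ box R, w N * ex τ N‖ ≤ 5 * (A ^ 4 * T) := by
  have hs := hSUM.2.2.2 w hg τ hτ
  rw [S, ← hs.of_norm.sum_add_tsum_compl (s := box R), add_sub_cancel_left]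
  refine (norm_tsum_le_tsum_norm (hs.subtype _)).trans ((hs.subtype _).tsum_le_of_sum_le fun s => ?_)
  have h := gen hT0 hq hq1 (Nat.le_add_left 1 R) hA hT (s.map (Function.Embedding.subtype _)) ?_
  · rw [sum_map] at h
    refine le_trans (sum_le_sum fun N _ => ?_) h
    simp only [Function.comp, norm_mul, he]
    exact mul_le_mul_of_nonneg_right (hw _) (by positivity)
  · intro N hN
    obtain ⟨⟨N, h1⟩, -, rfl⟩ := mem_map.1 hN
    by_contra h2
    refine h1 (mem_coe.2 (Fintype.mem_piFinset.2 fun j => mem_Icc.2 ?_))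
    have h3 : ¬ R + 1 ≤ (N j).natAbs := fun h => h2 ⟨j, h⟩
    omega

end TailA

open TailA

theorem p_TAIL (hSUM : S_SUM) (hT0 : S_T0) :
    S_TAIL := by
  intro w hw
  have hg : Gr w := by
    refine ⟨1, 3, fun N => (hw N).trans ?_⟩
    rw [one_mul, Finset.mul_sum, Real.exp_sum]
    refine Finset.prod_le_prod (fun j _ => by positivity) fun j _ => max_le ?_ ?_
    · exact Real.one_le_exp (by positivity)
    · rw [show (3 : ℝ) = (3 : ℕ) by norm_num, Real.exp_nat_mul]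
      exact pow_le_pow_left₀ (abs_nonneg _) (by linarith [Real.add_one_le_exp |(N j : ℝ)|]) 3
  have h1 : tau0 ∈ Om := siegel_om hT0.1
  have h2 := hT0.2.2.2.2 _ h1
  have e1 : ∀ N, ‖ex tau0 N‖ = ((1 / 2 : ℝ) ^ 4) ^ Gf N := fun N => by
    rw [hT0.2.1, norm_mul, norm_zpow, norm_zpow, norm_z8]; norm_num
  have e2 : ∀ N, ‖ex ((2 : ℂ) • tau0) N‖ = ((1 / 4 : ℝ) ^ 4) ^ Gf N := fun N => by
    rw [hT0.2.2.1, norm_mul, norm_zpow, norm_zpow, norm_I]; norm_num
  have A1 : ∀ s : Finset ℤ, ∑ x ∈ s, a (1 / 2) x ≤ 16 / 5 := fun s =>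
    (a_le (by norm_num) (by norm_num) (by norm_num) s).trans (by norm_num)
  have A2 : ∀ s : Finset ℤ, ∑ x ∈ s, a (1 / 4) x ≤ 8 / 5 := fun s =>
    (a_le (by norm_num) (by norm_num) (by norm_num) s).trans (by norm_num)
  refine ⟨hg, ?_, ?_, ?_⟩
  · exact (tail hSUM hT0 hw hg h2 (by norm_num) (by norm_num) 3 e2 A2
      (int_le (nat_le (by norm_num) (by norm_num) (by norm_num) (by norm_num)))).trans (by norm_num)
  · exact (tail hSUM hT0 hw hg h2 (by norm_num) (by norm_num) 2 e2 A2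
      (int_le (nat_le (by norm_num) (by norm_num) (by norm_num) (by norm_num)))).trans (by norm_num)
  · exact (tail hSUM hT0 hw hg h1 (by norm_num) (by norm_num) 2 e1 A1
      (int_le (nat_le (by norm_num) (by norm_num) (by norm_num) (by norm_num)))).trans (by norm_num)

end Pool.Agent.P.MP_abfee5_ag
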