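import Pool.Agent.P.MP_abfee5_ag.CT.Iface3

/-! Step TRN of the cubic threefold theta project. -/

namespace Pool.Agent.P.MP_abfee5_ag

open Complex Filter Topology MvPolynomial

namespace TrnA

/-- The substitution on points. -/
def Dm (d : F2 → ℂ) (ρ : F2 ≃ F2) (x : F2 → ℂ) : F2 → ℂ := fun σ => d σ * x (ρ σ)

theorem aeval_msub (d : F2 → ℂ) (ρ : F2 ≃ F2) (x : F2 → ℂ) (F : MvPolynomial F2 ℂ) :
    aeval x (msub d ρ F) = aeval (Dm d ρ x) F := by
  have : (aeval x).comp (msub d ρ) = aeval (Dm d ρ x) := by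
    ext σ
    simp [msub, Dm]
  exact DFunLike.congr_fun this F

theorem eval_msub (d : F2 → ℂ) (ρ : F2 ≃ F2) (x : F2 → ℂ) (F : MvPolynomial F2 ℂ) :
    eval x (msub d ρ F) = eval (Dm d ρ x) F := by
  have := aeval_msub d ρ x F
  simpa [aeval_eq_eval] using this

theorem Dm_cont (d : F2 → ℂ) (ρ : F2 ≃ F2) : Continuous (Dm d ρ) := by
  unfold Dm
  fun_prop

theorem Dm_smul (d : F2 → ℂ) (ρ : F2 ≃ F2) (c : ℂ) (x : F2 → ℂ) :
    Dm d ρ (c • x) = c • Dm d ρ x := by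
  funext σ
  simp only [Dm, Pi.smul_apply, smul_eq_mul]
  ring

theorem Dm_inj (d : F2 → ℂ) (ρ : F2 ≃ F2) (hd : ∀ σ, d σ ≠ 0) :
    Function.Injective (Dm d ρ) := by
  intro x y h
  funext σ
  have := congrFun h (ρ.symm σ)
  simp only [Dm, Equiv.apply_symm_apply] at this
  exact mul_left_cancel₀ (hd _) this

theorem Dm_surj (d : F2 → ℂ) (ρ : F2 ≃ F2) (hd : ∀ σ, d σ ≠ 0) :
    Function.Surjective (Dm d ρ) := by
  intro y
  refine ⟨fun σ => (d (ρ.symm σ))⁻¹ * y (ρ.symm σ), ?_⟩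
  funext σ
  simp only [Dm, Equiv.symm_apply_apply]
  rw [← mul_assoc, mul_inv_cancel₀ (hd _), one_mul]

/-- The substitution as an automorphism. -/
noncomputable def al (d : F2 → ℂ) (ρ : F2 ≃ F2) (hd : ∀ σ, d σ ≠ 0) :
    MvPolynomial F2 ℂ ≃ₐ[ℂ] MvPolynomial F2 ℂ :=
  AlgEquiv.ofAlgHom (msub d ρ) (msub (fun σ => (d (ρ.symm σ))⁻¹) ρ.symm)
    (by
      ext1 σ
      simp only [msub, AlgHom.comp_apply, aeval_X, map_mul, aeval_C, algebraMap_eq,
        Equiv.apply_symm_apply, AlgHom.id_apply]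
      rw [← mul_assoc, ← C_mul, inv_mul_cancel₀ (hd _), C_1, one_mul])
    (by
      ext1 σ
      simp only [msub, AlgHom.comp_apply, aeval_X, map_mul, aeval_C, algebraMap_eq,
        Equiv.symm_apply_apply, AlgHom.id_apply]
      rw [← mul_assoc, ← C_mul, mul_inv_cancel₀ (hd _), C_1, one_mul])

theorem al_apply (d : F2 → ℂ) (ρ : F2 ≃ F2) (hd : ∀ σ, d σ ≠ 0) (F : MvPolynomial F2 ℂ) :
    al d ρ hd F = msub d ρ F := rfl

theorem aeval_symm (d : F2 → ℂ) (ρ : F2 ≃ F2) (hd : ∀ σ, d σ ≠ 0) (x : F2 → ℂ)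
    (F : MvPolynomial F2 ℂ) : aeval (Dm d ρ x) ((al d ρ hd).symm F) = aeval x F := by
  rw [← aeval_msub, ← al_apply d ρ hd, AlgEquiv.apply_symm_apply]

end TrnA

open TrnA in
theorem p_TRN :
    S_TRN := by
  rintro m m' ⟨s, d, ρ, hd, hL, hT, hJ⟩ ⟨τ₀, hτ, p, hp, h1, ⟨W₀, hW₀, h2⟩, h3⟩
  have hD : ∀ τ, Dm d ρ (Th τ) = Th (s τ) := fun τ => funext fun σ => (hT τ σ).symm
  have hJ' : ∀ F, F ∈ J m' ↔ (al d ρ hd).symm F ∈ J m := by
    intro F
    rw [← hJ, Ideal.mem_map_iff_of_surjective (msub d ρ) (al d ρ hd).surjective]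
    constructor
    · rintro ⟨G, hG, rfl⟩
      rwa [← al_apply d ρ hd, AlgEquiv.symm_apply_apply]
    · intro h
      exact ⟨_, h, (al d ρ hd).apply_symm_apply F⟩
  have hJc : J m' = (J m).comap (al d ρ hd).symm := Ideal.ext fun F => hJ' F
  have hC : ∀ (W : Set Mat) x, x ∈ cone (Loc m' ∩ W) ↔
      Dm d ρ x ∈ cone (Loc m ∩ s.symm ⁻¹' W) := by
    intro W x
    constructor
    · rintro ⟨τ, ⟨a, b⟩, c, rfl⟩
      exact ⟨s τ, ⟨(hL τ).1 a, by simpa using b⟩, c, by rw [Dm_smul, hD]⟩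
    · rintro ⟨τ, ⟨a, b⟩, c, h⟩
      refine ⟨s.symm τ, ⟨(hL _).2 (by simpa using a), b⟩, c, Dm_inj d ρ hd ?_⟩
      rw [h, Dm_smul, hD, Homeomorph.apply_symm_apply]
  have hN : ∀ W ∈ 𝓝 (s.symm τ₀), s.symm ⁻¹' W ∈ 𝓝 τ₀ := fun W hW =>
    s.symm.continuous.continuousAt.preimage_mem_nhds hW
  have hD0 : Dm d ρ (Th (s.symm τ₀)) = Th τ₀ := by rw [hD, Homeomorph.apply_symm_apply]
  refine ⟨s.symm τ₀, (hL _).2 (by simpa using hτ), p.comap (al d ρ hd).symm, ?_, ?_,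
    ⟨s ⁻¹' W₀, ?_, ?_⟩, ?_⟩
  · rw [hJc]
    have := Ideal.comap_minimalPrimes_eq_of_surjective
      (f := ((al d ρ hd).symm : MvPolynomial F2 ℂ →+* MvPolynomial F2 ℂ))
      (al d ρ hd).symm.surjective (J m)
    exact this.ge ⟨p, hp, rfl⟩
  · intro F
    rw [Ideal.mem_comap, h1]
    constructor
    · rintro ⟨g, hg, h⟩
      refine ⟨al d ρ hd g, ?_, ?_⟩
      · rwa [al_apply, eval_msub, hD0]
      · rwa [hJ', map_mul, AlgEquiv.symm_apply_apply]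
    · rintro ⟨g, hg, h⟩
      refine ⟨(al d ρ hd).symm g, ?_, ?_⟩
      · rwa [← hD0, ← eval_msub, ← al_apply d ρ hd, AlgEquiv.apply_symm_apply]
      · rwa [hJ', map_mul] at h
  · apply s.continuous.continuousAt.preimage_mem_nhds
    simpa using hW₀
  · intro W hW hWW
    rw [← h2 (s.symm ⁻¹' W) (hN W hW) (fun τ h => by simpa using hWW h)]
    ext F
    rw [Ideal.mem_comap, mem_vanishingIdeal_iff, mem_vanishingIdeal_iff]
    constructor
    · intro h y hy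
      obtain ⟨x, rfl⟩ := Dm_surj d ρ hd y
      rw [aeval_symm]
      exact h x ((hC W x).2 hy)
    · intro h x hx
      rw [← aeval_symm d ρ hd]
      exact h _ ((hC W x).1 hx)
  · intro W hW
    have h4 := h3 _ (hN W hW)
    rw [← hD0] at h4
    filter_upwards [(Dm_cont d ρ).continuousAt.eventually h4] with x hx hz
    refine (hC W x).2 (hx ?_)
    rw [mem_zeroLocus_iff] at hz ⊢
    intro F hF
    rw [← aeval_msub]
    exact hz _ (by rw [← hJ]; exact Ideal.mem_map_of_mem _ hF)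

end Pool.Agent.P.MP_abfee5_ag
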