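import Pool.Agent.P.MP_abfee5_ag.CT.Iface3
import Pool.Agent.P.MP_abfee5_ag.CT.Iface

/-! Step VAN of the cubic threefold theta project. -/

namespace Pool.Agent.P.MP_abfee5_ag

open Complex Filter Topology MvPolynomial

namespace VanA

lemma eval_smul_Q (c : ℂ) (x : F2 → ℂ) (k : Ch) :
    eval (c • x) (Q k) = c ^ 2 * eval x (Q k) := by
  unfold Q
  simp only [map_sum, map_mul, map_pow, map_neg, map_one, eval_X, Pi.smul_apply, smul_eq_mul,
    Finset.mul_sum]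
  refine Finset.sum_congr rfl fun σ _ => ?_
  ring

lemma part1 (hEVQ : S_EVQ) (hBRV : S_BRV) (hQQ : S_QQ) :
    ∀ n < 1024, ∀ τ ∈ Om, eval (Th τ) (Q (dec n)) = th n τ ^ 2 := by
  intro n hn τ hτ
  rw [hEVQ.1 n (Th τ), hQQ n hn τ hτ]
  refine Finset.sum_congr rfl fun σ _ => ?_
  rw [hBRV.2.2, hBRV.2.2]

end VanA

theorem p_VAN (hENC : S_ENC) (hEVQ : S_EVQ) (hBRV : S_BRV) (hBRG : S_BRG) (hQQ : S_QQ) :
    S_VAN := by
  refine ⟨VanA.part1 hEVQ hBRV hQQ, ?_⟩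
  intro hB m hm
  unfold J
  rw [Ideal.span_le]
  rintro f ⟨n, hn, rfl⟩
  rw [SetLike.mem_coe, mem_vanishingIdeal_iff]
  rintro x ⟨τ, hτ, c, rfl⟩
  obtain ⟨hS, hg, hNV⟩ := (hBRG.2 m τ).1 hτ
  have hfr := (hENC.2.2.2 m n hm).1 hn
  have hbin := hB _ _ hfr τ hS hNV hg
  have hq : ∀ k : Ch, eval (Th τ) (Q k) = th (enc k) τ ^ 2 := by
    intro k
    have h := VanA.part1 hEVQ hBRV hQQ (enc k) (hENC.2.1.2.1 k) τ (siegel_om hS)
    rwa [hENC.2.1.1 k] at h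
  rw [List.map_ofFn, List.map_ofFn, List.prod_ofFn, List.prod_ofFn, ← hENC.2.2.1 n] at hbin
  have he : aeval (c • Th τ) (binom n) = eval (c • Th τ) (binom n) := rfl
  rw [he]
  unfold binom
  simp only [map_sub, map_prod, VanA.eval_smul_Q, hq, hENC.2.1.2.2.2.2.1,
    Finset.prod_mul_distrib]
  simp only [Function.comp_def] at hbin
  rw [hbin, sub_self]

end Pool.Agent.P.MP_abfee5_ag
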