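import Pool.Agent.P.MP_abfee5_ag.CT.Iface

/-! Step WORD of the cubic threefold theta project. -/

namespace Pool.Agent.P.MP_abfee5_ag

open Complex Filter Topology MvPolynomial

namespace WordA

lemma letter (hMVT : S_MVT) (hMVH : S_MVH) (hMVJ : S_MVJ) (s : ℕ) :
    (∀ τ ∈ Siegel, ∃ τ' ∈ Siegel, move s τ' = τ) ∧
    ∀ τ ∈ Siegel, move s τ ∈ Siegel ∧ ∃ (c : ℂ) (M : Matrix (Fin 5) (Fin 5) ℂ),
      c ≠ 0 ∧ M.det ≠ 0 ∧
      (∀ n, th n (move s τ) = c * z8 ^ (act s n).2 * th (act s n).1 τ) ∧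
      (∀ n, gr n (move s τ) = (c * z8 ^ (act s n).2) • M.mulVec (gr (act s n).1 τ)) := by
  by_cases h : s / 8 < 5 ∧ s % 8 = 5
  · obtain ⟨j, hj, rfl⟩ : ∃ j < 5, s = 8 * j + 5 := ⟨s / 8, h.1, by omega⟩
    refine ⟨(hMVH j hj).2, fun τ hτ => ⟨((hMVH j hj).1 τ hτ).2, ?_⟩⟩
    obtain ⟨c, hc, h1⟩ := hMVJ j hj τ hτ
    refine ⟨c, (1 : Matrix (Fin 5) (Fin 5) ℂ).updateRow (fj j) (τ (fj j)), hc, ?_,
      fun n => (h1 n).1, fun n => funext fun k => ?_⟩
    · have e : τ (fj j) = ∑ k, τ (fj j) k • (1 : Matrix (Fin 5) (Fin 5) ℂ) k := by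
        funext l
        simp [Finset.sum_apply, Matrix.one_apply]
      rw [e, Matrix.det_updateRow_sum, Matrix.det_one, smul_eq_mul, mul_one]
      intro h0
      have := ((hMVH j hj).1 τ hτ).1
      rw [h0] at this
      simp at this
    · rw [(h1 n).2 k, Pi.smul_apply, smul_eq_mul]
      congr 1
      by_cases hk : k = fj j
      · rw [if_pos hk, hk, Matrix.mulVec, Matrix.updateRow_self]
        rfl
      · rw [if_neg hk, Matrix.mulVec, Matrix.updateRow_ne hk]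
        simp [dotProduct, Matrix.one_apply]
  · obtain ⟨h1, h2, h3⟩ := hMVT s h
    refine ⟨h2, fun τ hτ => ⟨h1 τ hτ, 1, 1, one_ne_zero, by simp, fun n => ?_,
      fun n => funext fun k => ?_⟩⟩
    · rw [one_mul, th, th, S, S, ← tsum_mul_left]
      exact tsum_congr fun N => h3 n τ N
    · rw [one_mul, Matrix.one_mulVec, Pi.smul_apply, smul_eq_mul, gr, gr, S, S, ← tsum_mul_left]
      refine tsum_congr fun N => ?_
      rw [mul_assoc, h3 n τ N]
      ring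

lemma word (hMVT : S_MVT) (hMVH : S_MVH) (hMVJ : S_MVJ) (w : List ℕ) :
    (∀ τ ∈ Siegel, ∃ τ' ∈ Siegel, moveW w τ' = τ) ∧
    ∀ τ ∈ Siegel, moveW w τ ∈ Siegel ∧ ∃ (c : ℂ) (M : Matrix (Fin 5) (Fin 5) ℂ),
      c ≠ 0 ∧ M.det ≠ 0 ∧
      (∀ n, th n (moveW w τ) = c * z8 ^ (actW w n).2 * th (piW w n) τ) ∧
      (∀ n, gr n (moveW w τ) = (c * z8 ^ (actW w n).2) • M.mulVec (gr (piW w n) τ)) := by
  induction w with
  | nil =>
    exact ⟨fun τ hτ => ⟨τ, hτ, rfl⟩, fun τ hτ => ⟨hτ, 1, 1, one_ne_zero, by simp,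
      fun n => by simp [moveW, actW, piW_nil], fun n => by simp [moveW, actW, piW_nil]⟩⟩
  | cons s w ih =>
    obtain ⟨l1, l2⟩ := letter hMVT hMVH hMVJ s
    refine ⟨fun τ hτ => ?_, fun τ hτ => ?_⟩
    · obtain ⟨τ1, h1, e1⟩ := l1 τ hτ
      obtain ⟨τ2, h2, e2⟩ := ih.1 τ1 h1
      exact ⟨τ2, h2, by rw [moveW, e2, e1]⟩
    · obtain ⟨h1, c, M, hc, hM, a1, a2⟩ := ih.2 τ hτ
      obtain ⟨h2, c', M', hc', hM', b1, b2⟩ := l2 _ h1
      refine ⟨h2, c' * c, M' * M, mul_ne_zero hc' hc, by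
        rw [Matrix.det_mul]; exact mul_ne_zero hM' hM, fun n => ?_, fun n => ?_⟩
      · rw [moveW, b1, a1, piW_cons, actW, z8_mod, pow_add]
        ring
      · rw [moveW, b2, a2, piW_cons, actW, z8_mod, pow_add, Matrix.mulVec_smul,
          Matrix.mulVec_mulVec, smul_smul]
        congr 1
        ring

lemma prod_c (c : ℂ) (f : ℕ → ℂ) (L : List ℕ) :
    (L.map fun n => c * f n).prod = c ^ L.length * (L.map f).prod := by
  induction L with
  | nil => simp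
  | cons a L ih => rw [List.map_cons, List.prod_cons, ih, List.map_cons, List.prod_cons,
      List.length_cons]; ring

lemma det_rows (a : Fin 5 → ℂ) (M : Matrix (Fin 5) (Fin 5) ℂ) (G : Fin 5 → Fin 5 → ℂ) :
    Matrix.det (Matrix.of fun i j : Fin 5 => (a i • M.mulVec (G i)) j) =
      (∏ i, a i) * M.det * Matrix.det (Matrix.of fun i j : Fin 5 => G i j) := by
  have e : (Matrix.of fun i j : Fin 5 => (a i • M.mulVec (G i)) j) =
      Matrix.diagonal a * ((Matrix.of fun i j : Fin 5 => G i j) * M.transpose) := by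
    ext i j
    rw [Matrix.diagonal_mul, Matrix.mul_apply, Matrix.of_apply, Pi.smul_apply, smul_eq_mul]
    congr 1
    simp only [Matrix.mulVec, dotProduct, Matrix.of_apply, Matrix.transpose_apply]
    exact Finset.sum_congr rfl fun k _ => mul_comm _ _
  rw [e, Matrix.det_mul, Matrix.det_mul, Matrix.det_diagonal, Matrix.det_transpose]
  ring

end WordA

open WordA in
theorem p_WORD (hMVT : S_MVT) (hMVH : S_MVH) (hMVJ : S_MVJ) :
    S_WORD := by
  intro w
  obtain ⟨h1, h2⟩ := word hMVT hMVH hMVJ w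
  refine ⟨h1, fun τ hτ => ?_⟩
  obtain ⟨h3, c, M, hc, hM, a1, a2⟩ := h2 τ hτ
  refine ⟨h3, c, M, hc, hM, a1, a2, fun m => ?_, fun X hX => ?_⟩
  · rw [mval_mact, mval]
    simp only [a1, mul_assoc]
    rw [prod_c]
    ring
  · obtain ⟨p, L⟩ := X
    obtain ⟨n0, n1, n2, n3, n4, rfl⟩ : ∃ n0 n1 n2 n3 n4, L = [n0, n1, n2, n3, n4] := by
      match L, hX with
      | [n0, n1, n2, n3, n4], _ => exact ⟨n0, n1, n2, n3, n4, rfl⟩
    rw [dval, dval, z8_mact, mact_snd]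
    simp only [a2]
    rw [det_rows]
    have e : (Matrix.of fun i j : Fin 5 => gr (piW w ([n0, n1, n2, n3, n4].getD i 0)) τ j) =
        Matrix.of fun i j : Fin 5 => gr (([n0, n1, n2, n3, n4].map (piW w)).getD i 0) τ j := by
      ext i j
      fin_cases i <;> rfl
    rw [e, Fin.prod_univ_five]
    simp only [List.map_cons, List.map_nil, List.prod_cons, List.prod_nil]
    show _ * (c * z8 ^ (actW w n0).2 * (c * z8 ^ (actW w n1).2) * (c * z8 ^ (actW w n2).2) *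
      (c * z8 ^ (actW w n3).2) * (c * z8 ^ (actW w n4).2) * _ * _) = _
    ring

end Pool.Agent.P.MP_abfee5_ag
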