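import Pool.Agent.P.MP_abfee5_ag.CT.Iface3

/-! Step XENC of the cubic threefold theta project. -/

namespace Pool.Agent.P.MP_abfee5_ag

open Complex Filter Topology MvPolynomial

namespace XencA

/-- The integers of absolute value at most three in a residue class. -/
def rs (b : ℕ) : Finset ℤ :=
  if b = 0 then ⟨↑([-2, 0, 2] : List ℤ), by decide⟩ else ⟨↑([-3, -1, 1, 3] : List ℤ), by decide⟩

/-- Real part (`r = 0`) or imaginary part (`r = 3`) of a scaled term. -/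
def tm (r G P : ℤ) : ℤ :=
  if (P + r) % 2 = 0 then (1 - (P + r) % 4) * ((2 ^ (3600 - 8 * G.toNat) : ℕ) : ℤ) else 0

/-- The scaled finite sum. -/
def sm (r : ℤ) (σ : ℕ) : ℤ :=
  ∑ a ∈ rs (bb σ 0), ∑ b ∈ rs (bb σ 1), ∑ c ∈ rs (bb σ 2), ∑ d ∈ rs (bb σ 3), ∑ e ∈ rs (bb σ 4),
    tm r (4 * (a * a + b * b + c * c + d * d) - 4 * (a * b + b * c + c * d) +
        2 * (a * c + b * d + d * a) + e * (2 * (b + c) - 4 * (a + d) + 4 * e))
      (a * b + b * c + c * d + e * (a + d))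

/-- The numerical test. -/
def ok (σ : ℕ) : Bool :=
  (sm 0 σ - (xt.getD σ (0, 0)).1 * 2 ^ 3376).natAbs +
    (sm 3 σ - (xt.getD σ (0, 0)).2 * 2 ^ 3376).natAbs ≤ 2 ^ 3389

theorem ok0 : ∀ σ < 8, ok σ = true := by decide +kernel
theorem ok1 : ∀ σ < 8, ok (8 + σ) = true := by decide +kernel
theorem ok2 : ∀ σ < 8, ok (16 + σ) = true := by decide +kernel
theorem ok3 : ∀ σ < 8, ok (24 + σ) = true := by decide +kernel

theorem okA {σ : ℕ} (h : σ < 32) : ok σ = true := by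
  obtain a | a | a | a : σ < 8 ∨ σ = 8 + (σ - 8) ∧ σ < 16 ∨ σ = 16 + (σ - 16) ∧ σ < 24 ∨
    σ = 24 + (σ - 24) := by omega
  · exact ok0 σ a
  · rw [a.1]; exact ok1 _ (by omega)
  · rw [a.1]; exact ok2 _ (by omega)
  · rw [a]; exact ok3 _ (by omega)

theorem mem_rs {b : ℕ} (hb : b < 2) (x : ℤ) : x ∈ rs b ↔ (-3 ≤ x ∧ x ≤ 3) ∧ x % 2 = b := by
  interval_cases b <;> simp [rs] <;> omega

theorem bits : ∀ σ < 32, ∀ j : Fin 5, ab (32 * σ) j = bb σ j ∧ bb (32 * σ) j = 0 := by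
  decide +kernel

theorem sum_succ {n : ℕ} (s : Fin (n + 1) → Finset ℤ) (F : (Fin (n + 1) → ℤ) → ℂ) :
    ∑ N ∈ Fintype.piFinset s, F N =
      ∑ a ∈ s 0, ∑ M ∈ Fintype.piFinset fun j => s j.succ, F (Fin.cons a M) := by
  rw [← Finset.sum_product' (f := fun a M => F (Fin.cons a M))]
  refine Finset.sum_nbij' (fun N => (N 0, Fin.tail N)) (fun p => Fin.cons p.1 p.2)
    (fun N h => ?_) (fun p h => ?_) (fun N _ => Fin.cons_self_tail N) (fun p _ => rfl)
    fun N _ => by rw [Fin.cons_self_tail]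
  · simp only [Finset.mem_product, Fintype.mem_piFinset] at h ⊢
    exact ⟨h 0, fun j => h _⟩
  · simp only [Finset.mem_product, Fintype.mem_piFinset] at h ⊢
    exact Fin.cases h.1 h.2

theorem sum_five (s : Fin 5 → Finset ℤ) (F : V → ℂ) : ∑ N ∈ Fintype.piFinset s, F N =
    ∑ a ∈ s 0, ∑ b ∈ s 1, ∑ c ∈ s 2, ∑ d ∈ s 3, ∑ e ∈ s 4, F ![a, b, c, d, e] := by
  simp only [sum_succ, Fintype.piFinset_of_isEmpty, Finset.univ_unique, Finset.sum_singleton]
  rfl

theorem scale {n g : ℕ} (h : 8 * g ≤ n) :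
    (1 / 256 : ℂ) ^ g = ((2 ^ (n - 8 * g) : ℕ) : ℂ) / 2 ^ n := by
  rw [eq_div_iff (pow_ne_zero _ two_ne_zero), ← Nat.sub_add_cancel h, pow_add, pow_mul,
    Nat.add_sub_cancel, mul_left_comm, ← mul_pow]
  norm_num

theorem term {G : ℤ} (h0 : 0 ≤ G) (h1 : G ≤ 450) (P : ℤ) :
    (1 / 256 : ℂ) ^ G * I ^ P = ((tm 0 G P : ℤ) + (tm 3 G P : ℤ) * I) / 2 ^ 3600 := by
  lift G to ℕ using h0
  rw [zpow_natCast, scale (n := 3600) (by omega), tm, tm, Int.toNat_natCast, I_zpow_eq_zpow_mod,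
    div_mul_eq_mul_div]
  congr 1
  generalize 2 ^ (3600 - 8 * G) = t
  obtain a | a | a | a : P % 4 = 0 ∨ P % 4 = 1 ∨ P % 4 = 2 ∨ P % 4 = 3 := by omega
  · rw [if_pos (by omega), if_neg (by omega), add_zero, a]; simp
  · rw [if_neg (by omega), if_pos (by omega), show (P + 3) % 4 = 0 by omega, a]; simp
  · rw [if_pos (by omega), if_neg (by omega), add_zero, a]; simp [zpow_ofNat]
  · rw [if_neg (by omega), if_pos (by omega), show (P + 3) % 4 = 2 by omega, a]; simp [zpow_ofNat]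

theorem pr {x y : ℤ} (hx : -3 ≤ x ∧ x ≤ 3) (hy : -3 ≤ y ∧ y ≤ 3) : -9 ≤ x * y ∧ x * y ≤ 9 := by
  constructor <;> nlinarith [hx.1, hx.2, hy.1, hy.2]

theorem fin (hT0 : S_T0) {σ : ℕ} (h : σ < 32) :
    ∑ N ∈ box 3, chi (32 * σ) N * ex ((2 : ℂ) • tau0) N =
      ((sm 0 σ : ℤ) + (sm 3 σ : ℤ) * I) / 2 ^ 3600 := by
  have e : (box 3).filter (fun N => ∀ j : Fin 5, N j % 2 = (bb σ j : ℤ)) =
      Fintype.piFinset fun j : Fin 5 => rs (bb σ j) := by
    ext N
    simp only [box, Finset.mem_filter, Fintype.mem_piFinset, Finset.mem_Icc, mem_rs (bb_lt _ _),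
      forall_and]
  simp only [chi, bits σ h, Nat.cast_zero, mul_zero, Finset.sum_const_zero, zpow_zero, ite_mul,
    one_mul, zero_mul]
  rw [← Finset.sum_filter, e, sum_five]
  simp only [sm, Int.cast_sum, Finset.sum_mul, ← Finset.sum_add_distrib, Finset.sum_div]
  refine Finset.sum_congr rfl fun a ha => Finset.sum_congr rfl fun b hb =>
    Finset.sum_congr rfl fun c hc => Finset.sum_congr rfl fun d hd =>
      Finset.sum_congr rfl fun f hf => ?_
  have g : Gf ![a, b, c, d, f] = 4 * (a * a + b * b + c * c + d * d) - 4 * (a * b + b * c + c * d) +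
      2 * (a * c + b * d + d * a) + f * (2 * (b + c) - 4 * (a + d) + 4 * f) := by
    simp only [Gf, Fin.sum_univ_five]
    show 4 * (a ^ 2 + b ^ 2 + c ^ 2 + d ^ 2 + f ^ 2) - 4 * (a * b + b * c + c * d + d * f + f * a) +
      2 * (a * c + b * d + c * f + d * a + f * b) = _
    ring
  have p : Pf ![a, b, c, d, f] = a * b + b * c + c * d + f * (a + d) := by
    simp only [Pf, Fin.sum_univ_five]
    show a * b + b * c + c * d + d * f + f * a = _
    ring
  rw [hT0.2.2.1, ← g, ← p]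
  refine term ?_ ?_ _
  · exact le_of_mul_le_mul_left (le_trans (by positivity) (hT0.2.2.2.1 ![a, b, c, d, f] 0))
      four_pos
  · replace ha := ((mem_rs (bb_lt _ _) _).1 ha).1
    replace hb := ((mem_rs (bb_lt _ _) _).1 hb).1
    replace hc := ((mem_rs (bb_lt _ _) _).1 hc).1
    replace hd := ((mem_rs (bb_lt _ _) _).1 hd).1
    replace hf := ((mem_rs (bb_lt _ _) _).1 hf).1
    rw [g]
    linarith [pr ha ha, pr hb hb, pr hc hc, pr hd hd, pr hf hf, pr ha hb, pr hb hc, pr hc hd,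
      pr ha hc, pr hb hd, pr hd ha, pr hf ha, pr hf hb, pr hf hc, pr hf hd]

theorem close {R S x y : ℤ} {a b c e : ℕ} (h1 : a + b = c + e)
    (h : (R - x * 2 ^ b).natAbs + (S - y * 2 ^ b).natAbs ≤ 2 ^ c) :
    ‖((R : ℂ) + S * I) / 2 ^ (a + b) - gz (x, y) / 2 ^ a‖ ≤ 1 / 2 ^ e := by
  have e1 : ((R : ℂ) + S * I) / 2 ^ (a + b) - gz (x, y) / 2 ^ a =
      (((R - x * 2 ^ b : ℤ) : ℂ) + (S - y * 2 ^ b : ℤ) * I) / 2 ^ (a + b) := by
    rw [gz, pow_add]
    push_cast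
    field_simp
    ring
  have e2 : ((R - x * 2 ^ b).natAbs : ℝ) + (S - y * 2 ^ b).natAbs ≤ 2 ^ c := by exact_mod_cast h
  rw [e1, norm_div, norm_pow, Complex.norm_two, h1, pow_add, div_le_div_iff₀ (by positivity)
    (by positivity), one_mul]
  refine mul_le_mul_of_nonneg_right ((norm_add_le _ _).trans ?_) (by positivity)
  rwa [norm_mul, norm_I, mul_one, Complex.norm_intCast, Complex.norm_intCast, ← Int.cast_abs,
    ← Int.cast_abs, ← Nat.cast_natAbs, ← Nat.cast_natAbs]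

end XencA

open XencA in
theorem p_XENC (hT0 : S_T0) (hTAIL : S_TAIL) :
    S_XENC := by
  intro σ h
  have a := (hTAIL (chi (32 * σ)) fun N => (norm_chi_le _ N).trans
    (Finset.one_le_prod fun _ _ => le_max_left _ _)).2.1
  have b := close (a := 224) (b := 3376) (c := 3389) (e := 211) rfl (of_decide_eq_true (okA h))
  rw [fin hT0 h] at a
  refine (norm_sub_le_norm_sub_add_norm_sub _ _ _).trans ((add_le_add a b).trans_eq ?_)
  norm_num

end Pool.Agent.P.MP_abfee5_ag
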