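import Pool.Agent.P.MP_abfee5_ag.CT.Iface

/-! Step ZD of the cubic threefold theta project. -/

namespace Pool.Agent.P.MP_abfee5_ag

open Complex Filter Topology MvPolynomial

namespace ZdA

/-- The linear form of a lattice vector. -/
noncomputable def lin (N : V) : (Fin 5 → ℂ) →L[ℂ] ℂ :=
  ∑ j, (N j : ℂ) • ContinuousLinearMap.proj j

lemma lin_apply (N : V) (z : Fin 5 → ℂ) : lin N z = ∑ j, z j * (N j : ℂ) := by
  simp [lin, mul_comm]

lemma norm_lin (N : V) : ‖lin N‖ ≤ ∑ j, |(N j : ℝ)| := by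
  refine ContinuousLinearMap.opNorm_le_bound _ (by positivity) fun z => ?_
  rw [lin_apply, Finset.sum_mul]
  refine (norm_sum_le _ _).trans (Finset.sum_le_sum fun j _ => ?_)
  rw [norm_mul, Complex.norm_intCast, mul_comm]
  exact mul_le_mul_of_nonneg_left (norm_le_pi_norm z j) (abs_nonneg _)

lemma gr_w (R : ℝ) : Gr fun N => ((Real.exp (R * ∑ j, |(N j : ℝ)|) : ℝ) : ℂ) :=
  ⟨1, R, fun N => by rw [Complex.norm_real, Real.norm_eq_abs, abs_of_pos (Real.exp_pos _), one_mul]⟩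

end ZdA

open ZdA in
theorem p_ZD (hSUM : S_SUM) :
    S_ZD := by
  intro p hp τ hτ z
  have hs := hSUM.2.2.2
  let D : V → (Fin 5 → ℂ) → (Fin 5 → ℂ) →L[ℂ] ℂ := fun N y =>
    (cexp (lin N y) * p N * ex τ N) • lin N
  have hD : ∀ N y, HasFDerivAt (fun y : Fin 5 → ℂ => cexp (lin N y) * p N * ex τ N) (D N y) y := by
    intro N y
    refine (((lin N).hasFDerivAt.cexp.mul_const (p N)).mul_const (ex τ N)).congr_fderiv ?_
    simp only [D, smul_smul]
    congr 1; ring
  have hu := hs _ ((gr_w (‖z‖ + 2)).mul hp) τ hτ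
  have hb : ∀ N, ∀ y ∈ Metric.ball z 1, ‖D N y‖ ≤
      ‖((Real.exp ((‖z‖ + 2) * ∑ j, |(N j : ℝ)|) : ℝ) : ℂ) * p N * ex τ N‖ := by
    intro N y hy
    have h1 : ‖y‖ ≤ ‖z‖ + 1 := (norm_le_of_mem_closedBall (Metric.ball_subset_closedBall hy))
    have h0 : 0 ≤ ∑ j, |(N j : ℝ)| := by positivity
    have h2 : ‖cexp (lin N y)‖ ≤ Real.exp ((‖z‖ + 1) * ∑ j, |(N j : ℝ)|) := by
      rw [Complex.norm_exp, Real.exp_le_exp, mul_comm]
      exact (Complex.re_le_norm _).trans (((lin N).le_opNorm y).trans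
        (mul_le_mul (norm_lin N) h1 (norm_nonneg _) h0))
    have h3 : ‖lin N‖ ≤ Real.exp (∑ j, |(N j : ℝ)|) :=
      (norm_lin N).trans (by linarith [Real.add_one_le_exp (∑ j, |(N j : ℝ)|)])
    simp only [D, norm_smul, norm_mul, Complex.norm_real, Real.norm_eq_abs,
      abs_of_pos (Real.exp_pos _)]
    calc _ ≤ Real.exp ((‖z‖ + 1) * ∑ j, |(N j : ℝ)|) * ‖p N‖ * ‖ex τ N‖ *
          Real.exp (∑ j, |(N j : ℝ)|) := by gcongr
      _ = _ := by
        rw [show (‖z‖ + 2) * ∑ j, |(N j : ℝ)| = (‖z‖ + 1) * ∑ j, |(N j : ℝ)| + ∑ j, |(N j : ℝ)| by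
          ring, Real.exp_add]
        ring
  have h0 : Summable fun N => cexp (lin N z) * p N * ex τ N := by
    simpa only [lin_apply] using (hs _ ((gr_exp z).mul hp) τ hτ).of_norm
  have key := hasFDerivAt_tsum_of_isPreconnected hu Metric.isOpen_ball
    (convex_ball z 1).isPreconnected (fun N y _ => hD N y) hb (Metric.mem_ball_self one_pos) h0
    (Metric.mem_ball_self one_pos)
  refine ⟨_, by simpa only [lin_apply, S] using key, fun h => ?_⟩
  have hsum : Summable fun N => D N z :=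
    Summable.of_norm_bounded hu fun N => hb N z (Metric.mem_ball_self one_pos)
  have e := (ContinuousLinearMap.apply ℂ ℂ h).map_tsum hsum
  simp only [ContinuousLinearMap.apply_apply] at e
  rw [e]
  simp only [S, ← tsum_mul_left]
  rw [← Summable.tsum_finsetSum fun k _ =>
    (hs _ ((gr_coord k).mul ((gr_exp z).mul hp)) τ hτ).of_norm.mul_left (h k)]
  refine tsum_congr fun N => ?_
  simp only [D, ContinuousLinearMap.smul_apply, lin_apply N h, smul_eq_mul, Finset.mul_sum,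
    lin_apply N z]
  exact Finset.sum_congr rfl fun k _ => by ring

end Pool.Agent.P.MP_abfee5_ag
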