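import Pool.Agent.P.MP_abfee5_ag.CT.Top
import Pool.Agent.P.MP_abfee5_ag.CT.Sum
import Pool.Agent.P.MP_abfee5_ag.CT.Diff
import Pool.Agent.P.MP_abfee5_ag.CT.Zd
import Pool.Agent.P.MP_abfee5_ag.CT.Hol
import Pool.Agent.P.MP_abfee5_ag.CT.Id
import Pool.Agent.P.MP_abfee5_ag.CT.Odd
import Pool.Agent.P.MP_abfee5_ag.CT.Brv
import Pool.Agent.P.MP_abfee5_ag.CT.Enc
import Pool.Agent.P.MP_abfee5_ag.CT.Evq
import Pool.Agent.P.MP_abfee5_ag.CT.Brg
import Pool.Agent.P.MP_abfee5_ag.CT.Mvt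
import Pool.Agent.P.MP_abfee5_ag.CT.Mvh
import Pool.Agent.P.MP_abfee5_ag.CT.Poi
import Pool.Agent.P.MP_abfee5_ag.CT.Mvj
import Pool.Agent.P.MP_abfee5_ag.CT.Word
import Pool.Agent.P.MP_abfee5_ag.CT.Aff
import Pool.Agent.P.MP_abfee5_ag.CT.Rrow
import Pool.Agent.P.MP_abfee5_ag.CT.Prod
import Pool.Agent.P.MP_abfee5_ag.CT.Riem
import Pool.Agent.P.MP_abfee5_ag.CT.Rck
import Pool.Agent.P.MP_abfee5_ag.CT.Span
import Pool.Agent.P.MP_abfee5_ag.CT.Qsq
import Pool.Agent.P.MP_abfee5_ag.CT.Diag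
import Pool.Agent.P.MP_abfee5_ag.CT.Tv
import Pool.Agent.P.MP_abfee5_ag.CT.Frm
import Pool.Agent.P.MP_abfee5_ag.CT.Phs
import Pool.Agent.P.MP_abfee5_ag.CT.Avg
import Pool.Agent.P.MP_abfee5_ag.CT.Gcl
import Pool.Agent.P.MP_abfee5_ag.CT.La1
import Pool.Agent.P.MP_abfee5_ag.CT.La2
import Pool.Agent.P.MP_abfee5_ag.CT.La3
import Pool.Agent.P.MP_abfee5_ag.CT.La4
import Pool.Agent.P.MP_abfee5_ag.CT.La5
import Pool.Agent.P.MP_abfee5_ag.CT.Loc
import Pool.Agent.P.MP_abfee5_ag.CT.Phi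
import Pool.Agent.P.MP_abfee5_ag.CT.Jrt
import Pool.Agent.P.MP_abfee5_ag.CT.Peel
import Pool.Agent.P.MP_abfee5_ag.CT.Drel
import Pool.Agent.P.MP_abfee5_ag.CT.Exd
import Pool.Agent.P.MP_abfee5_ag.CT.Clos
import Pool.Agent.P.MP_abfee5_ag.CT.Ext
import Pool.Agent.P.MP_abfee5_ag.CT.Avf
import Pool.Agent.P.MP_abfee5_ag.CT.T0
import Pool.Agent.P.MP_abfee5_ag.CT.Sym
import Pool.Agent.P.MP_abfee5_ag.CT.Tail
import Pool.Agent.P.MP_abfee5_ag.CT.Xenc
import Pool.Agent.P.MP_abfee5_ag.CT.Aenc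
import Pool.Agent.P.MP_abfee5_ag.CT.Qnz
import Pool.Agent.P.MP_abfee5_ag.CT.Menc
import Pool.Agent.P.MP_abfee5_ag.CT.Inv
import Pool.Agent.P.MP_abfee5_ag.CT.Surj
import Pool.Agent.P.MP_abfee5_ag.CT.Jac
import Pool.Agent.P.MP_abfee5_ag.CT.Van
import Pool.Agent.P.MP_abfee5_ag.CT.Finz
import Pool.Agent.P.MP_abfee5_ag.CT.Trn
import Pool.Agent.P.MP_abfee5_ag.CT.Jmap
import Pool.Agent.P.MP_abfee5_ag.CT.Syt
import Pool.Agent.P.MP_abfee5_ag.CT.Syg
import Pool.Agent.P.MP_abfee5_ag.CT.Orb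
import Pool.Agent.P.MP_abfee5_ag.CT.Tabg
import Pool.Agent.P.MP_abfee5_ag.CT.Tabh
import Pool.Agent.P.MP_abfee5_ag.CT.Eig
import Pool.Agent.P.MP_abfee5_ag.CT.Eigb
import Pool.Agent.P.MP_abfee5_ag.CT.Jrb
import Pool.Agent.P.MP_abfee5_ag.CT.Stab
import Pool.Agent.P.MP_abfee5_ag.CT.Fay
import Pool.Agent.P.MP_abfee5_ag.CT.Ggen
import Pool.Agent.P.MP_abfee5_ag.CT.Pvan
import Pool.Agent.P.MP_abfee5_ag.CT.Base

/-! All steps of the project CT. -/

namespace Pool.Agent.P.MP_abfee5_ag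

theorem all_SUM : S_SUM := p_SUM
theorem all_DIFF : S_DIFF := p_DIFF all_SUM
theorem all_ZD : S_ZD := p_ZD all_SUM
theorem all_HOL : S_HOL := p_HOL all_DIFF
theorem all_ID : S_ID := p_ID all_SUM
theorem all_ODD : S_ODD := p_ODD
theorem all_BRV : S_BRV := p_BRV
theorem all_ENC : S_ENC := p_ENC
theorem all_EVQ : S_EVQ := p_EVQ all_ENC
theorem all_BRG : S_BRG := p_BRG all_ZD all_BRV all_ENC
theorem all_MVT : S_MVT := p_MVT
theorem all_MVH : S_MVH := p_MVH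
theorem all_POI : S_POI := p_POI
theorem all_MVJ : S_MVJ := p_MVJ all_SUM all_MVH all_POI
theorem all_WORD : S_WORD := p_WORD all_MVT all_MVH all_MVJ
theorem all_AFF : S_AFF := p_AFF
theorem all_RROW : S_RROW := p_RROW
theorem all_PROD : S_PROD := p_PROD all_SUM
theorem all_RIEM : S_RIEM := p_RIEM all_RROW all_PROD
theorem all_RCK : S_RCK := p_RCK all_PROD all_RIEM all_ODD
theorem all_SPAN : S_SPAN := p_SPAN all_SUM all_ZD all_PROD all_RIEM all_ODD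
theorem all_QQ : S_QQ := p_QQ all_SUM
theorem all_DIAG : S_DIAG := p_DIAG all_SUM
theorem all_TV : S_TV := p_TV all_AFF
theorem all_FRM : S_FRM := p_FRM all_AFF all_TV
theorem all_PHS : S_PHS := p_PHS
theorem all_AVG : S_AVG := p_AVG all_AFF
theorem all_GCL : S_GCL := p_GCL all_WORD all_ID all_HOL
theorem all_LA1 : S_LA1 := p_LA1
theorem all_LA2 : S_LA2 := p_LA2
theorem all_LA3 : S_LA3 := p_LA3 all_LA1 all_LA2
theorem all_LA4 : S_LA4 := p_LA4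
theorem all_LA5 : S_LA5 := p_LA5 all_LA3 all_LA4
theorem all_LOC : S_LOC := p_LOC all_LA5
theorem all_PHI : S_PHI := p_PHI all_WORD all_AFF all_PHS all_FRM
theorem all_JRT : S_JRT := p_JRT all_WORD
theorem all_PEEL : S_PEEL := p_PEEL all_ID all_HOL all_DIAG
theorem all_DREL : S_DREL := p_DREL
theorem all_EXD : S_EXD := p_EXD all_SPAN all_AFF all_WORD
theorem all_CLOS : S_CLOS := p_CLOS all_AFF all_TV
theorem all_EXT : S_EXT := p_EXT all_AFF all_TV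
theorem all_AVF : S_AVF := p_AVF all_AFF all_AVG
theorem all_T0 : S_T0 := p_T0
theorem all_SYM : S_SYM := p_SYM all_SUM all_T0
theorem all_TAIL : S_TAIL := p_TAIL all_SUM all_T0
theorem all_XENC : S_XENC := p_XENC all_T0 all_TAIL
theorem all_AENC : S_AENC := p_AENC all_T0 all_TAIL
theorem all_QNZ : S_QNZ := p_QNZ
theorem all_MENC : S_MENC := p_MENC
theorem all_INV : S_INV := p_INV
theorem all_SURJ : S_SURJ := p_SURJ all_DIFF all_BRV all_ENC all_T0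
theorem all_JAC : S_JAC := p_JAC all_ENC all_EVQ
theorem all_VAN : S_VAN := p_VAN all_ENC all_EVQ all_BRV all_BRG all_QQ
theorem all_FINZ : S_FINZ := p_FINZ all_SUM all_HOL all_ENC all_BRV all_BRG all_T0
theorem all_TRN : S_TRN := p_TRN
theorem all_JMAP : S_JMAP := p_JMAP
theorem all_SYT : S_SYT := p_SYT all_MVT all_AFF all_PHS all_ENC all_BRV all_BRG all_JMAP
theorem all_SYG : S_SYG := p_SYG all_ENC all_BRV all_BRG all_JMAP
theorem all_ORB : S_ORB := p_ORB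
theorem all_TABG : S_TABG := p_TABG
theorem all_TABH : S_TABH := p_TABH
theorem all_EIG : S_EIG := p_EIG
theorem all_EIGB : S_EIGB := p_EIGB
theorem all_JRB : S_JRB := p_JRB all_RCK all_DREL all_EIG
theorem all_STAB : S_STAB := p_STAB all_AFF all_TABG
theorem all_FAY : S_FAY := p_FAY all_AFF all_TABG all_JRT all_PEEL all_JRB all_STAB
theorem all_GGEN : S_GGEN := p_GGEN all_AFF all_TABG all_STAB all_FAY all_GCL all_DREL all_DIAG
theorem all_PVAN : S_PVAN := p_PVAN all_RCK all_EIGB all_EXD all_CLOS all_EXT all_GGEN all_GCL all_DREL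
theorem all_BASE : S_BASE := p_BASE all_AFF all_TABG all_TABH all_STAB all_AVF all_PVAN

end Pool.Agent.P.MP_abfee5_ag
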