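import Pool.Agent.P.MP_abfee5_ag.Defs

/-! Internal definitions of the project CT.
A characteristic is a number `n = 32 A + B < 1024`; bit `5 + j` is `A j`, bit `j` is `B j`.
`th n τ = ∑ over N ≡ A mod 2 of I ^ (N · B) * exp (π I / 4 * N τ N)`; addition is `^^^`. -/

namespace Pool.Agent.P.MP_abfee5_ag

open Complex

/-- Lattice vectors. -/
abbrev V : Type := Fin 5 → ℤ

/-- Arrays (not necessarily symmetric) with positive definite imaginary part; open, convex. -/
def Om : Set Mat := {τ | ∀ x : Fin 5 → ℝ, x ≠ 0 → 0 < ∑ j, ∑ k, x j * (τ j k).im * x k}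

/-- The quadratic form. -/
noncomputable def qf (τ : Mat) (N : V) : ℂ := ∑ j, ∑ k, (N j : ℂ) * τ j k * (N k : ℂ)

/-- The exponential term. -/
noncomputable def ex (τ : Mat) (N : V) : ℂ := cexp (Real.pi * I / 4 * qf τ N)

/-- Weights of at most exponential growth. -/
def Gr (p : V → ℂ) : Prop := ∃ C K : ℝ, ∀ N, ‖p N‖ ≤ C * Real.exp (K * ∑ j, |(N j : ℝ)|)

/-- Weighted theta series. -/
noncomputable def S (p : V → ℂ) (τ : Mat) : ℂ := ∑' N : V, p N * ex τ N

/-- Bit `A j` of a characteristic. -/
def ab (n j : ℕ) : ℕ := (n >>> (5 + j)) % 2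

/-- Bit `B j` of a characteristic. -/
def bb (n j : ℕ) : ℕ := (n >>> j) % 2

/-- The weight of the characteristic `n`. -/
noncomputable def chi (n : ℕ) (N : V) : ℂ :=
  if ∀ j : Fin 5, N j % 2 = (ab n j : ℤ) then I ^ (∑ j : Fin 5, N j * (bb n j : ℤ)) else 0

/-- Theta constant. -/
noncomputable def th (n : ℕ) (τ : Mat) : ℂ := S (chi n) τ

/-- Gradient component (up to the factor `π I`). -/
noncomputable def gr (n : ℕ) (τ : Mat) (j : Fin 5) : ℂ := S (fun N => (N j : ℂ) * chi n N) τ

/-- Second order theta constant, `σ < 32`. -/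
noncomputable def xx (σ : ℕ) (τ : Mat) : ℂ := th (32 * σ) ((2 : ℂ) • τ)

/-- Parity of the five lowest bits. -/
def pop5 (x : ℕ) : ℕ := (x ^^^ x >>> 1 ^^^ x >>> 2 ^^^ x >>> 3 ^^^ x >>> 4) % 2

/-- Parity of a characteristic. -/
def par (n : ℕ) : ℕ := pop5 ((n >>> 5) &&& n)

/-- The primitive eighth root of unity. -/
noncomputable def z8 : ℂ := cexp (Real.pi * I / 4)

/-- Index from a number. -/
def fj (j : ℕ) : Fin 5 := ⟨j % 5, Nat.mod_lt _ (by norm_num)⟩

/-- Action of the letter `s = 8 j + k` on characteristics, with the phase (a power of `z8`):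
`k = j` is `τ + E j j`, `j < k < 5` is `τ + E j k + E k j`, `k = 5` is the inversion in the
coordinate `j`; other letters act trivially. -/
def act (s n : ℕ) : ℕ × ℕ :=
  let j := s / 8
  let k := s % 8
  if j < 5 then
    if k = j then (n ^^^ ((1 - ab n j) <<< j), ab n j)
    else if k = 5 then
      (n ^^^ ((ab n j ^^^ bb n j) <<< j) ^^^ ((ab n j ^^^ bb n j) <<< (5 + j)), 6 * (ab n j * bb n j))
    else if j < k ∧ k < 5 then
      (n ^^^ (ab n j <<< k) ^^^ (ab n k <<< j),
        (ab n j * ab n k * (6 + 4 * bb n j + 4 * bb n k)) % 8)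
    else (n, 0)
  else (n, 0)

/-- Action of the letter `s` on period matrices. -/
noncomputable def move (s : ℕ) (τ : Mat) : Mat :=
  let j := s / 8
  let k := s % 8
  if j < 5 then
    if k = j then fun p q => τ p q + if p = fj j ∧ q = fj j then 1 else 0
    else if k = 5 then fun p q =>
      if p = fj j then (if q = fj j then -1 / τ p p else τ p q / τ p p)
      else if q = fj j then τ p q / τ q q
      else τ p q - τ p (fj j) * τ (fj j) q / τ (fj j) (fj j)
    else if j < k ∧ k < 5 then
      fun p q => τ p q + if (p = fj j ∧ q = fj k) ∨ (p = fj k ∧ q = fj j) then 1 else 0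
    else τ
  else τ

/-- Action of a word on characteristics (first letter first), with the phase. -/
def actW : List ℕ → ℕ → ℕ × ℕ
  | [], n => (n, 0)
  | s :: w, n => ((actW w (act s n).1).1, ((act s n).2 + (actW w (act s n).1).2) % 8)

/-- Action of a word on characteristics, without the phase. -/
def piW (w : List ℕ) (n : ℕ) : ℕ := w.foldl (fun a s => (act s a).1) n

/-- Action of a word on period matrices (last letter first). -/
noncomputable def moveW : List ℕ → Mat → Mat
  | [], τ => τ
  | s :: w, τ => move s (moveW w τ)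

/-- A monomial: a phase and a list of characteristics. -/
abbrev Mono : Type := ℕ × List ℕ

/-- Value of a monomial in theta constants. -/
noncomputable def mval (τ : Mat) (m : Mono) : ℂ := z8 ^ m.1 * (m.2.map fun n => th n τ).prod

/-- Value of a sum of monomials. -/
noncomputable def pval (τ : Mat) (P : List Mono) : ℂ := (P.map (mval τ)).sum

/-- Jacobian determinant of five characteristics, with a phase. -/
noncomputable def dval (τ : Mat) (X : Mono) : ℂ :=
  z8 ^ X.1 * Matrix.det (Matrix.of fun i j : Fin 5 => gr (X.2.getD i 0) τ j)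

/-- One letter on a monomial. -/
def mact1 (m : Mono) (s : ℕ) : Mono :=
  ((m.1 + (m.2.map fun n => (act s n).2).sum) % 8, m.2.map fun n => (act s n).1)

/-- A word on a monomial. -/
def mact (w : List ℕ) (m : Mono) : Mono := w.foldl mact1 m

/-- A word on a sum of monomials. -/
def pact (w : List ℕ) (P : List Mono) : List Mono := P.map (mact w)

/-- All characteristics of a monomial are below 1024. -/
def Mono.ok (m : Mono) : Prop := ∀ n ∈ m.2, n < 1024

/-- Product of monomials. -/
def mmul (a b : Mono) : Mono := ((a.1 + b.1) % 8, a.2 ++ b.2)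

/-- No even theta constant vanishes. -/
def NV (τ : Mat) : Prop := ∀ n < 1024, par n = 0 → th n τ ≠ 0

/-- The transvection along `v`, on characteristics. -/
def tv (v n : ℕ) : ℕ := if par (n ^^^ v) = par n then n ^^^ v else n

/-- Sum of a list of characteristics. -/
def xsum (L : List ℕ) : ℕ := L.foldr (· ^^^ ·) 0

/-- Azygetic triple. -/
def azy (a b c : ℕ) : Prop := (par a + par b + par c + par (a ^^^ b ^^^ c)) % 2 = 1

/-- Frames: an odd characteristic and ten even ones, azygetic. -/
def Frame (m : ℕ) (L : List ℕ) : Prop :=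
  m < 1024 ∧ par m = 1 ∧ L.length = 10 ∧ (∀ n ∈ L, n < 1024 ∧ par n = 0) ∧ L.Pairwise (azy m)

/-- The binomial identity of a frame. -/
def Bin (m : ℕ) (L : List ℕ) : Prop :=
  ∀ τ ∈ Siegel, NV τ → (∀ j, gr m τ j = 0) →
    (L.map fun n => th n τ ^ 2).prod = (L.map fun n => th (n ^^^ xsum L) τ ^ 2).prod

/-- Decoding of five bits. -/
def dec5 (x : ℕ) : F2 := fun j => (((x >>> (j : ℕ)) % 2 : ℕ) : ZMod 2)

/-- Encoding of five bits. -/
def enc5 (ε : F2) : ℕ := ∑ j : Fin 5, (ε j).val * 2 ^ (j : ℕ)

/-- Decoding of a characteristic. -/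
def dec (n : ℕ) : Ch := (dec5 (n >>> 5), dec5 n)

/-- Encoding of a characteristic. -/
def enc (m : Ch) : ℕ := 32 * enc5 m.1 + enc5 m.2

end Pool.Agent.P.MP_abfee5_ag
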