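import Pool.Agent.P.MP_abfee5_ag.CT.Iface

/-! Step DIAG of the cubic threefold theta project. -/

namespace Pool.Agent.P.MP_abfee5_ag

open Complex Filter Topology MvPolynomial

namespace DiagA

theorem prod_tsum : ∀ (n : ℕ) (f : Fin n → ℤ → ℂ), (∀ j, Summable fun x => ‖f j x‖) →
    (Summable fun N : Fin n → ℤ => ‖∏ j, f j (N j)‖) ∧
      ∑' N : Fin n → ℤ, ∏ j, f j (N j) = ∏ j, ∑' x, f j x
  | 0, f, _ => ⟨Summable.of_finite, by simp⟩
  | n + 1, f, h => by
    obtain ⟨h1, h2⟩ := prod_tsum n (fun j => f j.succ) fun j => h j.succ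
    have e : ∀ p : ℤ × (Fin n → ℤ), ∏ j, f j (Fin.consEquiv (fun _ => ℤ) p j) =
        f 0 p.1 * ∏ j : Fin n, f j.succ (p.2 j) := fun p => by
      rw [Fin.prod_univ_succ]
      rfl
    constructor
    · rw [← (Fin.consEquiv fun _ => ℤ).summable_iff]
      exact ((h 0).mul_norm h1).congr fun p => by rw [Function.comp_apply, e]
    · rw [← (Fin.consEquiv fun _ => ℤ).tsum_eq, Fin.prod_univ_succ, ← h2,
        tsum_mul_tsum_of_summable_norm (h 0) h1]
      exact tsum_congr e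

/-- The terms of the theta constants in one variable. -/
noncomputable def tm (a b : ℕ) (x : ℤ) : ℂ :=
  (if x % 2 = (a : ℤ) then I ^ (x * (b : ℤ)) else 0) * (Real.exp (-2 * (x : ℝ) ^ 2) : ℝ)

theorem geo : HasSum (fun x : ℤ => (1 / 4 : ℝ) ^ x.natAbs) (5 / 3) := by
  have h := hasSum_geometric_of_lt_one (r := 1 / 4) (by norm_num) (by norm_num)
  have h2 := HasSum.of_nat_of_neg_add_one (f := fun x : ℤ => (1 / 4 : ℝ) ^ x.natAbs)
    (by simpa only [Int.natAbs_natCast] using h) (m' := 1 / 4 * (1 - 1 / 4)⁻¹) (by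
      have e : ∀ n : ℕ, (-((n : ℤ) + 1)).natAbs = n + 1 := fun n => by omega
      simpa only [e, pow_succ'] using h.mul_left (1 / 4))
  rwa [show ((1 - 1 / 4)⁻¹ + 1 / 4 * (1 - 1 / 4)⁻¹ : ℝ) = 5 / 3 by norm_num] at h2

theorem norm_tm (a b : ℕ) (x : ℤ) : ‖tm a b x‖ ≤ (1 / 4 : ℝ) ^ x.natAbs := by
  have h1 : Real.exp (-2) ≤ 1 / 4 := by
    have := Real.add_one_le_exp 1
    rw [Real.exp_neg, ← one_div, show (2 : ℝ) = 1 + 1 by norm_num, Real.exp_add]
    exact one_div_le_one_div_of_le (by norm_num) (by nlinarith)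
  have h2 : Real.exp (-2 * (x : ℝ) ^ 2) ≤ (1 / 4 : ℝ) ^ x.natAbs := by
    refine le_trans ?_ (pow_le_pow_left₀ (Real.exp_pos _).le h1 _)
    have h3 : ((x.natAbs : ℤ) : ℝ) ≤ ((x ^ 2 : ℤ) : ℝ) := Int.cast_le.2 (Int.natAbs_le_self_sq x)
    rw [← Real.exp_nat_mul, Real.exp_le_exp]
    rw [Int.cast_natCast, Int.cast_pow] at h3
    linarith
  rw [tm, norm_mul, Complex.norm_real, Real.norm_of_nonneg (Real.exp_pos _).le]
  refine le_trans (mul_le_of_le_one_left (Real.exp_pos _).le ?_) h2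
  split_ifs <;> simp

theorem sum_tm (a b : ℕ) : Summable fun x => ‖tm a b x‖ :=
  Summable.of_nonneg_of_le (fun _ => norm_nonneg _) (norm_tm a b) geo.summable

theorem r11 : ∑' x, tm 1 1 x = 0 := by
  have h : ∀ x, tm 1 1 (Equiv.neg ℤ x) = -tm 1 1 x := fun x => by
    rw [Equiv.neg_apply, tm, tm, Int.cast_neg, neg_sq, ← neg_mul]
    congr 1
    simp only [Nat.cast_one, mul_one, Int.neg_emod_two]
    split_ifs with h
    · obtain ⟨k, rfl⟩ := Int.odd_iff.2 h
      have : (I ^ 2 : ℂ) ^ k = (I ^ 2) ^ (-k) := by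
        rw [I_sq, zpow_neg, ← inv_zpow, inv_neg_one]
      rw [neg_add, zpow_add₀ I_ne_zero, zpow_add₀ I_ne_zero, ← mul_neg, zpow_mul, zpow_mul,
        zpow_ofNat, ← this]
      simp
    · simp
  have h2 := (Equiv.neg ℤ).tsum_eq (tm 1 1)
  rw [tsum_congr h, tsum_neg] at h2
  linear_combination (-1 / 2 : ℂ) * h2

theorem r10 : ∑' x, tm 1 0 x ≠ 0 := by
  have hs := (sum_tm 1 0).of_norm
  have h : 0 < ∑' x, (tm 1 0 x).re := (reCLM.summable hs).tsum_pos (fun x => by
    rw [tm, reCLM_apply, mul_comm, re_ofReal_mul]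
    refine mul_nonneg (Real.exp_pos _).le ?_
    split_ifs <;> simp) 1 (by
    rw [tm, reCLM_apply, mul_comm, re_ofReal_mul]
    simpa using Real.exp_pos _)
  rw [← re_tsum hs] at h
  intro h0
  simp [h0] at h

theorem r0 (b : ℕ) : ∑' x, tm 0 b x ≠ 0 := by
  have h1 := tsum_of_norm_bounded (f := fun x => if x = 0 then 0 else tm 0 b x)
    (hasSum_ite_sub_hasSum geo 0) fun x => by
      split_ifs
      · simp
      · exact norm_tm 0 b x
  intro h0
  rw [(sum_tm 0 b).of_norm.tsum_eq_add_tsum_ite 0, add_eq_zero_iff_neg_eq] at h0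
  rw [← h0] at h1
  norm_num [tm] at h1

theorem r_iff {a b : ℕ} (ha : a < 2) (hb : b < 2) : ∑' x, tm a b x = 0 ↔ a = 1 ∧ b = 1 := by
  interval_cases a <;> interval_cases b <;> simp [r0, r10, r11]

theorem bits (n : ℕ) : ((n >>> 5) &&& n) % 32 ≠ 0 ↔ ∃ j : Fin 5, ab n j = 1 ∧ bb n j = 1 := by
  have e : ∀ m j : ℕ, (m >>> j) % 2 = 1 ↔ m.testBit j = true := fun m j => by
    rw [Nat.testBit_eq_decide_div_mod_eq, Nat.shiftRight_eq_div_pow, decide_eq_true_iff]
  simp only [ab, bb, e]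
  constructor
  · intro h
    obtain ⟨i, hi⟩ := Nat.exists_testBit_of_ne_zero h
    rw [show 32 = 2 ^ 5 from rfl, Nat.testBit_mod_two_pow, Nat.testBit_and,
      Nat.testBit_shiftRight] at hi
    simp only [Bool.and_eq_true, decide_eq_true_eq] at hi
    exact ⟨⟨i, hi.1⟩, hi.2⟩
  · rintro ⟨j, h1, h2⟩ h
    have := congrArg (Nat.testBit · j) h
    simp only [show 32 = 2 ^ 5 from rfl, Nat.testBit_mod_two_pow, Nat.testBit_and,
      Nat.testBit_shiftRight, h1, h2, j.2] at this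
    simp at this

end DiagA

theorem p_DIAG (hSUM : S_SUM) :
    S_DIAG := by
  refine ⟨fun j k => if j = k then I * (8 / Real.pi : ℝ) else 0, ⟨fun j k => ?_, fun x hx => ?_⟩,
    fun n => ?_⟩
  · simp only [eq_comm]
  · obtain ⟨j, hj⟩ := Function.ne_iff.1 hx
    simp only [apply_ite Complex.im, I_mul_im, ofReal_re, zero_im, mul_ite, ite_mul, mul_zero,
      zero_mul, Finset.sum_ite_eq, Finset.mem_univ, if_true]
    have h : 0 < 8 / Real.pi := by positivity
    refine Finset.sum_pos' (fun i _ => ?_) ⟨j, Finset.mem_univ _, ?_⟩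
    · nlinarith [mul_self_nonneg (x i)]
    · nlinarith [mul_self_pos.2 hj]
  · have e : ∀ N : V, chi n N * ex (fun j k => if j = k then I * (8 / Real.pi : ℝ) else 0) N =
        ∏ j : Fin 5, DiagA.tm (ab n j) (bb n j) (N j) := fun N => by
      simp only [DiagA.tm]
      rw [Finset.prod_mul_distrib, Fintype.prod_ite_zero]
      congr 1
      · unfold chi
        split_ifs
        · simp only [Fin.sum_univ_five, Fin.prod_univ_five, zpow_add₀ I_ne_zero]
        · rfl
      · simp only [ex, qf, mul_ite, ite_mul, mul_zero, zero_mul, Finset.sum_ite_eq,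
          Finset.mem_univ, if_true, ofReal_exp, ← Complex.exp_sum, Finset.mul_sum]
        congr 1
        refine Finset.sum_congr rfl fun j _ => ?_
        have : (Real.pi : ℂ) ≠ 0 := ofReal_ne_zero.2 Real.pi_ne_zero
        push_cast
        field_simp
        rw [I_sq]
        ring
    rw [th, S, tsum_congr e, (DiagA.prod_tsum 5 _ fun j => DiagA.sum_tm _ _).2, DiagA.bits,
      Finset.prod_eq_zero_iff]
    simp only [Finset.mem_univ, true_and, DiagA.r_iff (ab_lt _ _) (bb_lt _ _)]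

end Pool.Agent.P.MP_abfee5_ag
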