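import Pool.Agent.P.MP_abfee5_ag.CT.Iface

/-! Packed tables for the action of words, and Boolean checks for `MEq`, `PEq`. -/

namespace Pool.Agent.P.MP_abfee5_ag

/-- Table lookup: `8 * image + phase`. -/
def lk (T n : ℕ) : ℕ := Nat.land (Nat.shiftRight T (Nat.mul 13 n)) 8191

/-- `T` is the table of the word `w`. -/
def IsTab (T : ℕ) (w : List ℕ) : Prop := ∀ n < 1024, lk T n = 8 * (actW w n).1 + (actW w n).2

/-- Boolean form of `IsTab`. -/
def isTabB (T : ℕ) (w : List ℕ) : Bool :=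
  (List.range 1024).all fun n => Nat.beq (lk T n) (8 * (actW w n).1 + (actW w n).2)

lemma isTab_of {T : ℕ} {w : List ℕ} (h : isTabB T w = true) : IsTab T w := fun n hn =>
  Nat.eq_of_beq_eq_true (List.all_eq_true.1 h n (List.mem_range.2 hn))

/-- One table step on the state `8 * n + phase`. -/
def stepT (x T : ℕ) : ℕ :=
  Nat.add (Nat.land (lk T (Nat.shiftRight x 3)) 8184)
    (Nat.land (Nat.add x (lk T (Nat.shiftRight x 3))) 7)

/-- A list of tables on a state. -/
def runT (Ts : List ℕ) (x : ℕ) : ℕ := Ts.foldl stepT x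

/-- A list of tables on a monomial. -/
def mrun (Ts : List ℕ) (m : Mono) : Mono :=
  ((m.1 + (m.2.map fun n => runT Ts (8 * n) % 8).sum) % 8, m.2.map fun n => runT Ts (8 * n) / 8)

lemma land_aux : ∀ a < 1024, ∀ p < 8, Nat.land (8 * a + p) 8184 = 8 * a := by decide +kernel

lemma stepT_eq (hAFF : S_AFF) {T : ℕ} {w : List ℕ} (h : IsTab T w) {n p : ℕ} (hn : n < 1024)
    (hp : p < 8) : stepT (8 * n + p) T = 8 * piW w n + (p + (actW w n).2) % 8 := by
  have h1 : Nat.shiftRight (8 * n + p) 3 = n := by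
    change (8 * n + p) >>> 3 = n
    rw [Nat.shiftRight_eq_div_pow]; omega
  have h2 : ∀ y, Nat.land y 7 = y % 8 := fun y => Nat.and_two_pow_sub_one_eq_mod y 3
  rw [stepT, h1, h n hn, actW_fst, land_aux _ ((hAFF w).1 n hn).1 _ (actW_snd_lt w n), h2]
  change 8 * piW w n + (8 * n + p + (8 * piW w n + (actW w n).2)) % 8 = _
  omega

lemma runT_eq (hAFF : S_AFF) {Ts : List ℕ} {ws : List (List ℕ)} (h : List.Forall₂ IsTab Ts ws)
    {n p : ℕ} (hn : n < 1024) (hp : p < 8) :
    runT Ts (8 * n + p) = 8 * piW ws.flatten n + (p + (actW ws.flatten n).2) % 8 := by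
  induction h generalizing n p with
  | nil => simp [runT, piW_nil, actW, Nat.mod_eq_of_lt hp]
  | @cons T w Ts ws h _ ih =>
    have : runT (T :: Ts) (8 * n + p) = runT Ts (stepT (8 * n + p) T) := rfl
    rw [this, stepT_eq hAFF h hn hp, ih ((hAFF w).1 n hn).1 (Nat.mod_lt _ (by norm_num)),
      List.flatten_cons, piW_append, actW_append_snd]
    omega

lemma runT_div (hAFF : S_AFF) {Ts : List ℕ} {ws : List (List ℕ)} (h : List.Forall₂ IsTab Ts ws)
    {n : ℕ} (hn : n < 1024) : runT Ts (8 * n) / 8 = piW ws.flatten n := by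
  have := runT_eq hAFF h hn (p := 0) (by norm_num)
  rw [add_zero] at this
  rw [this]; omega

lemma runT_mod (hAFF : S_AFF) {Ts : List ℕ} {ws : List (List ℕ)} (h : List.Forall₂ IsTab Ts ws)
    {n : ℕ} (hn : n < 1024) : runT Ts (8 * n) % 8 = (actW ws.flatten n).2 := by
  have := runT_eq hAFF h hn (p := 0) (by norm_num)
  have h2 := actW_snd_lt ws.flatten n
  rw [add_zero] at this
  rw [this]; omega

lemma mrun_snd (hAFF : S_AFF) {Ts : List ℕ} {ws : List (List ℕ)} (h : List.Forall₂ IsTab Ts ws)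
    {m : Mono} (hm : m.ok) : (mrun Ts m).2 = (mact ws.flatten m).2 := by
  rw [mact_snd]
  exact List.map_congr_left fun n hn => runT_div hAFF h (hm n hn)

lemma mrun_fst (hAFF : S_AFF) {Ts : List ℕ} {ws : List (List ℕ)} (h : List.Forall₂ IsTab Ts ws)
    {m : Mono} (hm : m.ok) : (mrun Ts m).1 = (mact ws.flatten m).1 % 8 := by
  rw [mact_fst]
  change (m.1 + _) % 8 = _
  rw [List.map_congr_left fun n hn => runT_mod hAFF h (hm n hn)]

/-- Selection of entries by indices. -/
def pick {α : Type} (L : List α) (d : α) (l : List ℕ) : List α := l.map fun i => L.getD i d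

lemma isTab_pick {Ts : List ℕ} {ws : List (List ℕ)} (h : List.Forall₂ IsTab Ts ws) (l : List ℕ)
    (hl : ∀ i ∈ l, i < Ts.length) : List.Forall₂ IsTab (pick Ts 0 l) (pick ws [] l) := by
  induction l with
  | nil => exact .nil
  | cons i l ih =>
    refine .cons ?_ (ih fun j hj => hl j (List.mem_cons_of_mem _ hj))
    have hi := hl i List.mem_cons_self
    have hi' : i < ws.length := h.length_eq ▸ hi
    beta_reduce
    rw [List.getD_eq_getElem _ _ hi, List.getD_eq_getElem _ _ hi']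
    exact List.Forall₂.get h hi hi'

lemma mem_pick {ws : List (List ℕ)} (l : List ℕ) (hl : ∀ i ∈ l, i < ws.length) :
    ∀ u ∈ pick ws [] l, u ∈ ws := by
  intro u hu
  obtain ⟨i, hi, rfl⟩ := List.mem_map.1 hu
  rw [List.getD_eq_getElem _ _ (hl i hi)]
  exact List.getElem_mem _

/-- Boolean form of `MEq`. -/
def meqB (k : ℕ) (a b : Mono) : Bool := Nat.beq (a.1 % 8) ((k + b.1) % 8) && a.2.isPerm b.2

lemma meq_of {k : ℕ} {a b : Mono} (h : meqB k a b = true) : MEq k a b := by
  rw [meqB, Bool.and_eq_true] at h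
  exact ⟨Nat.eq_of_beq_eq_true h.1, List.isPerm_iff.1 h.2⟩

/-- A key that does not depend on the order. -/
def mkey (m : Mono) : ℕ := m.2.foldr (fun n a => Nat.add a (Nat.shiftLeft 1 n)) 0

/-- The partner of `a` in `P'`. -/
def partner (P' : List Mono) (a : Mono) : Mono :=
  (P'.find? fun b => Nat.beq (mkey a) (mkey b)).getD (0, [])

/-- Boolean form of `PEq`. -/
def peqB (k : ℕ) (P P' : List Mono) : Bool :=
  (P.map (partner P')).isPerm P' && P.all fun a => meqB k a (partner P' a)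

lemma peq_of {k : ℕ} {P P' : List Mono} (h : peqB k P P' = true) : PEq k P P' := by
  rw [peqB, Bool.and_eq_true] at h
  refine ⟨_, List.isPerm_iff.1 h.1, ?_⟩
  rw [List.forall₂_map_right_iff, List.forall₂_same]
  exact fun a ha => meq_of (List.all_eq_true.1 h.2 a ha)

lemma meq_mrun (hAFF : S_AFF) {Ts : List ℕ} {ws : List (List ℕ)} (h : List.Forall₂ IsTab Ts ws)
    {a b : Mono} {k : ℕ} (ha : a.ok) (hb : MEq k (mrun Ts a) b) : MEq k (mact ws.flatten a) b := by
  refine ⟨?_, mrun_snd hAFF h ha ▸ hb.2⟩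
  have := hb.1
  rw [mrun_fst hAFF h ha] at this
  omega

lemma peq_mrun (hAFF : S_AFF) {Ts : List ℕ} {ws : List (List ℕ)} (h : List.Forall₂ IsTab Ts ws)
    {P P' : List Mono} {k : ℕ} (hP : ∀ a ∈ P, Mono.ok a) (hb : PEq k (P.map (mrun Ts)) P') :
    PEq k (pact ws.flatten P) P' := by
  obtain ⟨R, hR, hb⟩ := hb
  refine ⟨R, hR, ?_⟩
  rw [List.forall₂_map_left_iff] at hb
  rw [pact, List.forall₂_map_left_iff]
  clear hR
  induction hb with
  | nil => exact .nil
  | cons h1 _ ih =>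
    exact .cons (meq_mrun hAFF h (hP _ List.mem_cons_self) h1)
      (ih fun a ha => hP a (List.mem_cons_of_mem _ ha))

lemma PEq.mono_mod {k k' : ℕ} {P P' : List Mono} (hk : k % 8 = k' % 8) (h : PEq k P P') :
    PEq k' P P' := by
  obtain ⟨R, hR, h⟩ := h
  exact ⟨R, hR, h.imp fun a b hab => ⟨by have := hab.1; omega, hab.2⟩⟩

end Pool.Agent.P.MP_abfee5_ag
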