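import Pool.Agent.P.MP_abfee5_ag.CT.Iface
import Pool.Agent.P.MP_abfee5_ag.CT.Data3

/-! Statements of the project CT, part C (the base point, numerical rank conditions, symmetry). -/

namespace Pool.Agent.P.MP_abfee5_ag

open Complex Filter Topology MvPolynomial

/-- The invariant quadratic form (circulant matrix with first row `4, -2, 1, 1, -2`). -/
def Gf (N : V) : ℤ :=
  4 * ∑ j, N j ^ 2 - 4 * ∑ j, N j * N (j + 1) + 2 * ∑ j, N j * N (j + 2)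

/-- The cyclic form. -/
def Pf (N : V) : ℤ := ∑ j, N j * N (j + 1)

/-- The base point. -/
noncomputable def tau0 : Mat := fun j k =>
  I * ((4 / Real.pi * Real.log 16 : ℝ) : ℂ) * (![4, -2, 1, 1, -2] : Fin 5 → ℂ) (k - j) +
    (![0, 1 / 2, 0, 0, 1 / 2] : Fin 5 → ℂ) (k - j)

/-- The box of radius `R`. -/
noncomputable def box (R : ℤ) : Finset V := Fintype.piFinset fun _ => Finset.Icc (-R) R

/-- Weights of degree at most three in each variable. -/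
def Wt3 (w : V → ℂ) : Prop := ∀ N, ‖w N‖ ≤ ∏ j, max 1 (|(N j : ℝ)| ^ 3)

/-- Gaussian integer from a pair. -/
noncomputable def gz (p : ℤ × ℤ) : ℂ := p.1 + p.2 * I

/-- Entry of a table. -/
def ent (T : List (List (ℤ × ℤ))) (i j : ℕ) : ℤ × ℤ := (T.getD i []).getD j (0, 0)

/-- `x` is close to the table `xt`. -/
def Encl (x : ℕ → ℂ) : Prop := ∀ σ < 32, ‖x σ - gz (xt.getD σ (0, 0)) / 2 ^ 224‖ ≤ 1 / 2 ^ 210

/-- The quadric of `n` at `x`. -/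
noncomputable def Qx (x : ℕ → ℂ) (n : ℕ) : ℂ :=
  ∑ σ ∈ Finset.range 32, (-1) ^ pop5 (σ &&& n) * x σ * x (σ ^^^ (n >>> 5))

/-- Half the logarithmic derivative of the quadric of `n` in the coordinate `ρ`. -/
noncomputable def dl (x : ℕ → ℂ) (n ρ : ℕ) : ℂ :=
  (-1) ^ pop5 (ρ &&& n) * x (ρ ^^^ (n >>> 5)) / Qx x n

/-- The scaled logarithmic Jacobian matrix of the 21 binomials. -/
noncomputable def M21 (x : ℕ → ℂ) : Matrix (Fin 21) (Fin 21) ℂ := Matrix.of fun i j =>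
  ((frL.getD i []).map fun n =>
    dl x n (rhoL.getD j 0) - dl x (n ^^^ xsum (frL.getD i [])) (rhoL.getD j 0)).sum /
    2 ^ rhoE.getD j 0

/-- The pairs `k ≤ l`; entry 0 is unused. -/
def klL : List (ℕ × ℕ) :=
  [(0, 0), (0, 0), (0, 1), (0, 2), (0, 3), (0, 4), (1, 1), (1, 2), (1, 3), (1, 4), (2, 2), (2, 3),
    (2, 4), (3, 3), (3, 4), (4, 4)]

/-- The quadratic weight of column `c`. -/
noncomputable def wq (c : ℕ) (N : V) : ℂ :=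
  (N (fj (klL.getD c (0, 0)).1) : ℂ) * (N (fj (klL.getD c (0, 0)).2) : ℂ)

/-- The scaled tangent matrix: five rows for the gradient, eleven for the free coordinates;
column 0 is the scaling direction. -/
noncomputable def A16 : Matrix (Fin 16) (Fin 16) ℂ := Matrix.of fun i c =>
  if (i : ℕ) < 5 then
    (if (c : ℕ) = 0 then 0 else
      2 ^ 40 * S (fun N => wq c N * ((N (fj i) : ℂ) * chi 1023 N)) tau0 / (I * z8 ^ 5))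
  else 2 ^ piE.getD (i - 5) 0 *
    (if (c : ℕ) = 0 then xx (piL.getD (i - 5) 0) tau0 else
      2 * S (fun N => wq c N * chi (32 * piL.getD (i - 5) 0) N) ((2 : ℂ) • tau0))

/-- The frames as families of characteristics. -/
def frC (i : Fin 21) : Fin 10 → Ch := fun t => dec ((frL.getD i []).getD t 0)

/-- The local statement for the odd characteristic `m`. -/
def Main (m : Ch) : Prop :=
  ∃ τ₀ ∈ Loc m, ∃ p ∈ (J m).minimalPrimes,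
    (∀ F, F ∈ p ↔ ∃ g, eval (Th τ₀) g ≠ 0 ∧ g * F ∈ J m) ∧
    (∃ W₀ ∈ 𝓝 τ₀, ∀ W ∈ 𝓝 τ₀, W ⊆ W₀ → vanishingIdeal ℂ (cone (Loc m ∩ W)) = p) ∧
    (∀ W ∈ 𝓝 τ₀, ∀ᶠ x in 𝓝 (Th τ₀), x ∈ zeroLocus ℂ (J m) → x ∈ cone (Loc m ∩ W))

/-- The monomial substitution. -/
noncomputable def msub (d : F2 → ℂ) (ρ : F2 ≃ F2) :
    MvPolynomial F2 ℂ →ₐ[ℂ] MvPolynomial F2 ℂ := aeval fun σ => C (d σ) * X (ρ σ)

/-- A symmetry that carries the data of `m` to the data of `m'`. -/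
def Symm (m m' : Ch) : Prop :=
  ∃ (s : Mat ≃ₜ Mat) (d : F2 → ℂ) (ρ : F2 ≃ F2), (∀ σ, d σ ≠ 0) ∧
    (∀ τ, τ ∈ Loc m' ↔ s τ ∈ Loc m) ∧ (∀ τ σ, Th (s τ) σ = d σ * Th τ (ρ σ)) ∧
    (J m).map (msub d ρ) = J m'

/-- The elementary unimodular move on characteristics. -/
def gact (j k n : ℕ) : ℕ := n ^^^ (ab n k <<< (5 + j)) ^^^ (bb n j <<< k)

-- deps:
def S_T0 : Prop :=
  tau0 ∈ Siegel ∧ (∀ N, ex tau0 N = (1 / 16) ^ Gf N * z8 ^ Pf N) ∧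
  (∀ N, ex ((2 : ℂ) • tau0) N = (1 / 256) ^ Gf N * I ^ Pf N) ∧
  (∀ N j, 6 * N j ^ 2 + ∑ k, N k ^ 2 ≤ 4 * Gf N) ∧ (∀ τ ∈ Om, (2 : ℂ) • τ ∈ Om)

-- deps: SUM T0
def S_SYM : Prop := ∀ j, gr 1023 tau0 j = 0

-- deps: SUM T0
def S_TAIL : Prop :=
  ∀ w, Wt3 w → Gr w ∧
    ‖S w ((2 : ℂ) • tau0) - ∑ N ∈ box 3, w N * ex ((2 : ℂ) • tau0) N‖ ≤ 1 / 2 ^ 211 ∧
    ‖S w ((2 : ℂ) • tau0) - ∑ N ∈ box 2, w N * ex ((2 : ℂ) • tau0) N‖ ≤ 1 / 2 ^ 114 ∧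
    ‖S w tau0 - ∑ N ∈ box 2, w N * ex tau0 N‖ ≤ 1 / 2 ^ 48

-- deps: T0 TAIL
def S_XENC : Prop := Encl fun σ => xx σ tau0

-- deps: T0 TAIL
def S_AENC : Prop := ∀ i c : Fin 16, ‖A16 i c - gz (ent at16 i c) / 4‖ ≤ 1 / 200

-- deps:
def S_QNZ : Prop := ∀ x, Encl x → ∀ n < 1024, par n = 0 → Qx x n ≠ 0

-- deps:
def S_MENC : Prop :=
  ∀ x, Encl x → ∀ i j : Fin 21, ‖M21 x i j - gz (ent mt21 i j) / 2 ^ 56‖ ≤ 1 / 2 ^ 46

-- deps: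
def S_INV : Prop :=
  (∀ A : Matrix (Fin 21) (Fin 21) ℂ,
    (∀ i j, ‖A i j - gz (ent mt21 i j) / 2 ^ 56‖ ≤ 1 / 2 ^ 46) → A.det ≠ 0) ∧
  (∀ A : Matrix (Fin 16) (Fin 16) ℂ,
    (∀ i j, ‖A i j - gz (ent at16 i j) / 4‖ ≤ 1 / 200) → A.det ≠ 0)

-- deps: DIFF BRV ENC T0
def S_SURJ : Prop :=
  A16.det ≠ 0 → ∃ (γ' : ℂ × Mat →L[ℂ] Fin 5 → ℂ) (ξ' : ℂ × Mat →L[ℂ] F2 → ℂ),
    HasStrictFDerivAt (fun y : ℂ × Mat => gr 1023 y.2) γ' (1, tau0) ∧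
    HasStrictFDerivAt (fun y : ℂ × Mat => y.1 • Th y.2) ξ' (1, tau0) ∧
    ∀ (u : Fin 5 → ℂ) (t : Fin 11 → ℂ), ∃ h, γ' h = u ∧ ∀ b : Fin 11, ξ' h (dec5 (piL.getD b 0)) = t b

-- deps: ENC EVQ
def S_JAC : Prop :=
  (∀ i, IsFrame (dec 1023) (frC i)) ∧
  ∀ x : F2 → ℂ, (∀ n < 1024, par n = 0 → eval x (Q (dec n)) ≠ 0) →
    (∀ i, eval x (binom (frC i)) = 0) → (M21 fun σ => x (dec5 σ)).det ≠ 0 →
    (Matrix.of fun i j : Fin 21 => eval x (pderiv (dec5 (rhoL.getD j 0)) (binom (frC i)))).det ≠ 0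

-- deps: ENC EVQ BRV BRG QQ
def S_VAN : Prop :=
  (∀ n < 1024, ∀ τ ∈ Om, eval (Th τ) (Q (dec n)) = th n τ ^ 2) ∧
  ((∀ m L, Frame m L → Bin m L) →
    ∀ m, parity m = 1 → J m ≤ vanishingIdeal ℂ (cone (Loc m)))

-- deps: SUM HOL ENC BRV BRG T0
def S_FINZ : Prop :=
  tau0 ∈ Loc (dec 1023) → J (dec 1023) ≤ vanishingIdeal ℂ (cone (Loc (dec 1023))) →
    (∀ F ∈ J (dec 1023), ∀ᶠ y : ℂ × Mat in 𝓝 (1, tau0),
      gr 1023 y.2 = 0 → eval (y.1 • Th y.2) F = 0) ∧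
    (LocStr (J (dec 1023)) (fun y : ℂ × Mat => gr 1023 y.2) (fun y => y.1 • Th y.2) (1, tau0) →
      Main (dec 1023))

-- deps:
def S_TRN : Prop := ∀ m m', Symm m m' → Main m → Main m'

-- deps:
def S_JMAP : Prop :=
  ∀ (d : F2 → ℂ) (ρ : F2 ≃ F2) (π : Ch ≃ Ch) (u : Ch → ℂ), (∀ n, u n ≠ 0) →
    (∀ a b c, π (a + b + c) = π a + π b + π c) → (∀ n, parity (π n) = parity n) →
    (∀ n, msub d ρ (Q n) = C (u n) * Q (π n)) →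
    (∀ n : Fin 10 → Ch, ∏ i, u (n i) = ∏ i, u (n i + ∑ j, n j)) →
    ∀ m, (J m).map (msub d ρ) = J (π m)

-- deps: MVT AFF PHS ENC BRV BRG JMAP
def S_SYT : Prop :=
  ∀ s, ¬(s / 8 < 5 ∧ s % 8 = 5) → ∀ n < 1024, Symm (dec n) (dec (act s n).1)

-- deps: ENC BRV BRG JMAP
def S_SYG : Prop :=
  ∀ j < 5, ∀ k < 5, j ≠ k → ∀ n < 1024, Symm (dec n) (dec (gact j k n))

-- deps:
def S_ORB : Prop :=
  ∀ Z : ℕ → Prop, Z 1023 →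
    (∀ s, ¬(s / 8 < 5 ∧ s % 8 = 5) → ∀ n < 1024, Z n → Z (act s n).1) →
    (∀ j < 5, ∀ k < 5, j ≠ k → ∀ n < 1024, Z n → Z (gact j k n)) →
    ∀ n < 1024, par n = 1 → Z n

end Pool.Agent.P.MP_abfee5_ag
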