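import Pool.Agent.P.MP_abfee5_ag.CT.Data2
import Pool.Agent.P.MP_abfee5_ag.CT.Fast
import Pool.Agent.P.MP_abfee5_ag.CT.Tabs

/-! Statements of the project CT, part D (the steps that use the combinatorial tables). -/

namespace Pool.Agent.P.MP_abfee5_ag

open Complex Filter Topology MvPolynomial

-- deps:
def S_TABG : Prop := List.Forall₂ IsTab gT gW

-- deps:
def S_TABH : Prop := List.Forall₂ IsTab hT hW

-- deps:
def S_EIG : Prop :=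
  Eig 379 528 1 r0 (-16) ∧ Eig 379 579 0 r1a (-16) ∧ Eig 296 528 0 r1b (-16) ∧
    Eig 83 824 0 r1c (-16)

-- deps:
def S_EIGB : Prop := Eig 320 729 1 ((45, 4) :: r2) (-16)

-- deps: RCK DREL EIG
def S_JRB : Prop := JRel kap Pn rb

-- deps: AFF TABG
def S_STAB : Prop :=
  (∀ n ∈ ext, ∀ m ∈ Pn n, m.ok ∧ m.2.length = 7) ∧
  ∀ i < 7, kap.map (piW (gW.getD i [])) = kap ∧ ∀ n ∈ ext, piW (gW.getD i []) n ∈ ext ∧
    PEq (gD.getD i 0 + (mact (gW.getD i []) (0, kap ++ [n])).1) (pact (gW.getD i []) (Pn n))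
      (Pn (piW (gW.getD i []) n))

-- deps: AFF TABG JRT PEEL JRB STAB
def S_FAY : Prop :=
  ∀ n ∈ ext, ∀ τ ∈ Siegel,
    dval τ (0, kap ++ [n]) * pval τ (Pn 149) = pval τ (Pn n) * dval τ X0

-- deps: AFF TABG STAB FAY GCL DREL DIAG
def S_GGEN : Prop :=
  Shape X0 (Pn 149) ∧ (∃ τ ∈ Siegel, ∃ w, pval τ (pact w (Pn 149)) ≠ 0) ∧
    ∀ w, Good X0 (Pn 149) w

-- deps: RCK EIGB EXD CLOS EXT GGEN GCL DREL
def S_PVAN : Prop :=
  ∀ τ ∈ Siegel, NV τ → ∀ m, (∀ j, gr m τ j = 0) → ∀ u, m ∈ (mact u X0).2 →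
    pval τ (pact u (Pn 149)) = 0

-- deps: AFF TABG TABH STAB AVF PVAN
def S_BASE : Prop := Bin 33 aL

end Pool.Agent.P.MP_abfee5_ag
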