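import Pool.Agent.P.MP_abfee5_ag.CT.Basic

/-! Proved toolbox of the project CT. -/

namespace Pool.Agent.P.MP_abfee5_ag

open Complex

lemma siegel_om {τ : Mat} (h : τ ∈ Siegel) : τ ∈ Om := h.2

lemma z8_ne : z8 ≠ 0 := Complex.exp_ne_zero _

lemma z8_sq : z8 ^ 2 = I := by
  rw [z8, ← Complex.exp_nat_mul, show ((2 : ℕ) : ℂ) * (Real.pi * I / 4) = Real.pi / 2 * I by
    push_cast; ring, Complex.exp_mul_I]
  simp

lemma z8_four : z8 ^ 4 = -1 := by
  rw [show z8 ^ 4 = (z8 ^ 2) ^ 2 by ring, z8_sq, I_sq]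

lemma z8_eight : z8 ^ 8 = 1 := by
  rw [show z8 ^ 8 = (z8 ^ 4) ^ 2 by ring, z8_four]; norm_num

lemma z8_mod (a : ℕ) : z8 ^ (a % 8) = z8 ^ a := by
  conv_rhs => rw [← Nat.mod_add_div a 8, pow_add, pow_mul, z8_eight, one_pow, mul_one]

lemma norm_z8 : ‖z8‖ = 1 := by
  rw [z8, show (Real.pi * I / 4 : ℂ) = ((Real.pi / 4 : ℝ) : ℂ) * I by push_cast; ring]
  exact Complex.norm_exp_ofReal_mul_I _

lemma ab_lt (n j : ℕ) : ab n j < 2 := Nat.mod_lt _ (by norm_num)
lemma bb_lt (n j : ℕ) : bb n j < 2 := Nat.mod_lt _ (by norm_num)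
lemma pop5_lt (n : ℕ) : pop5 n < 2 := Nat.mod_lt _ (by norm_num)
lemma par_lt (n : ℕ) : par n < 2 := pop5_lt _

lemma norm_chi_le (n : ℕ) (N : V) : ‖chi n N‖ ≤ 1 := by
  unfold chi
  split_ifs
  · simp
  · simp

lemma gr_chi (n : ℕ) : Gr (chi n) := ⟨1, 0, fun N => by simpa using norm_chi_le n N⟩

lemma Gr.mul {p q : V → ℂ} (hp : Gr p) (hq : Gr q) : Gr fun N => p N * q N := by
  obtain ⟨C, K, h⟩ := hp
  obtain ⟨C', K', h'⟩ := hq
  refine ⟨C * C', K + K', fun N => ?_⟩
  rw [norm_mul, add_mul, Real.exp_add, mul_mul_mul_comm]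
  exact mul_le_mul (h N) (h' N) (norm_nonneg _) ((norm_nonneg _).trans (h N))

lemma gr_const (c : ℂ) : Gr fun _ => c := ⟨‖c‖, 0, fun N => by simp⟩

lemma gr_coord (j : Fin 5) : Gr fun N => (N j : ℂ) := by
  refine ⟨1, 1, fun N => ?_⟩
  have h1 : |(N j : ℝ)| ≤ ∑ k, |(N k : ℝ)| :=
    Finset.single_le_sum (f := fun k => |(N k : ℝ)|) (fun _ _ => abs_nonneg _) (Finset.mem_univ j)
  have h2 := Real.add_one_le_exp (∑ k, |(N k : ℝ)|)
  rw [Complex.norm_intCast, one_mul, one_mul]
  linarith

lemma gr_lin (v : Fin 5 → ℂ) : Gr fun N => ∑ j, v j * (N j : ℂ) := by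
  refine ⟨∑ j, ‖v j‖, 1, fun N => ?_⟩
  refine (norm_sum_le _ _).trans ?_
  rw [Finset.sum_mul]
  refine Finset.sum_le_sum fun j _ => ?_
  have h1 : |(N j : ℝ)| ≤ ∑ k, |(N k : ℝ)| :=
    Finset.single_le_sum (f := fun k => |(N k : ℝ)|) (fun _ _ => abs_nonneg _) (Finset.mem_univ j)
  have h2 := Real.add_one_le_exp (∑ k, |(N k : ℝ)|)
  rw [norm_mul, Complex.norm_intCast, one_mul]
  exact mul_le_mul_of_nonneg_left (by linarith) (norm_nonneg _)

lemma gr_exp (z : Fin 5 → ℂ) : Gr fun N => cexp (∑ j, z j * (N j : ℂ)) := by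
  refine ⟨1, ∑ j, ‖z j‖, fun N => ?_⟩
  rw [one_mul, Complex.norm_exp, Real.exp_le_exp]
  refine (Complex.re_le_norm _).trans ((norm_sum_le _ _).trans ?_)
  rw [Finset.sum_mul]
  refine Finset.sum_le_sum fun j _ => ?_
  have h1 : |(N j : ℝ)| ≤ ∑ k, |(N k : ℝ)| :=
    Finset.single_le_sum (f := fun k => |(N k : ℝ)|) (fun _ _ => abs_nonneg _) (Finset.mem_univ j)
  rw [norm_mul, Complex.norm_intCast]
  exact mul_le_mul_of_nonneg_left h1 (norm_nonneg _)

lemma piW_nil (n : ℕ) : piW [] n = n := rfl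
lemma piW_cons (s : ℕ) (w : List ℕ) (n : ℕ) : piW (s :: w) n = piW w (act s n).1 := rfl
lemma piW_append (u w : List ℕ) (n : ℕ) : piW (u ++ w) n = piW w (piW u n) := by
  simp [piW, List.foldl_append]

lemma actW_fst (w : List ℕ) (n : ℕ) : (actW w n).1 = piW w n := by
  induction w generalizing n with
  | nil => rfl
  | cons s w ih => exact ih _

lemma actW_snd_lt (w : List ℕ) (n : ℕ) : (actW w n).2 < 8 := by
  cases w with
  | nil => show 0 < 8; norm_num
  | cons s w => exact Nat.mod_lt _ (by norm_num)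

lemma actW_append_snd (u w : List ℕ) (n : ℕ) :
    (actW (u ++ w) n).2 = ((actW u n).2 + (actW w (piW u n)).2) % 8 := by
  induction u generalizing n with
  | nil => simp [actW, piW_nil, Nat.mod_eq_of_lt (actW_snd_lt w n)]
  | cons s u ih =>
    show ((act s n).2 + (actW (u ++ w) (act s n).1).2) % 8 =
      (((act s n).2 + (actW u (act s n).1).2) % 8 + (actW w (piW u (act s n).1)).2) % 8
    rw [ih]; omega

lemma moveW_append (u w : List ℕ) (τ : Mat) : moveW (u ++ w) τ = moveW u (moveW w τ) := by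
  induction u with
  | nil => rfl
  | cons s u ih => exact congrArg (move s) ih

lemma mact_nil (m : Mono) : mact [] m = m := rfl
lemma mact_cons (s : ℕ) (w : List ℕ) (m : Mono) : mact (s :: w) m = mact w (mact1 m s) := rfl
lemma mact_append (u w : List ℕ) (m : Mono) : mact (u ++ w) m = mact w (mact u m) := by
  simp [mact, List.foldl_append]
lemma pact_append (u w : List ℕ) (P : List Mono) : pact (u ++ w) P = pact w (pact u P) := by
  simp [pact, mact_append]

lemma mact_snd (w : List ℕ) (m : Mono) : (mact w m).2 = m.2.map (piW w) := by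
  induction w generalizing m with
  | nil => simp [mact_nil, show piW [] = id from rfl]
  | cons s w ih => rw [mact_cons, ih]; simp [mact1, piW_cons]

lemma mact_fst (w : List ℕ) (m : Mono) :
    (mact w m).1 % 8 = (m.1 + (m.2.map fun n => (actW w n).2).sum) % 8 := by
  induction w generalizing m with
  | nil => simp [mact_nil, actW]
  | cons s w ih =>
    rw [mact_cons, ih]
    obtain ⟨p, L⟩ := m
    simp only [mact1, List.map_map]
    have : ∀ L : List ℕ, ((L.map fun n => (act s n).2).sum +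
        (L.map ((fun n => (actW w n).2) ∘ fun n => (act s n).1)).sum) % 8 =
        (L.map fun n => (actW (s :: w) n).2).sum % 8 := by
      intro L
      induction L with
      | nil => rfl
      | cons a L ihL =>
        simp only [List.map_cons, List.sum_cons, Function.comp_apply, actW] at ihL ⊢
        omega
    have := this L
    omega

lemma z8_mact (w : List ℕ) (m : Mono) :
    z8 ^ (mact w m).1 = z8 ^ m.1 * (m.2.map fun n => z8 ^ (actW w n).2).prod := by
  rw [← z8_mod, mact_fst, z8_mod, pow_add]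
  congr 1
  induction m.2 with
  | nil => simp
  | cons a L ih => simp [pow_add, ih]

lemma mval_mact (τ : Mat) (w : List ℕ) (m : Mono) : mval τ (mact w m) =
    z8 ^ m.1 * (m.2.map fun n => z8 ^ (actW w n).2 * th (piW w n) τ).prod := by
  rw [mval, z8_mact, mact_snd, List.map_map, mul_assoc, List.prod_map_mul]
  rfl

lemma mval_mmul (τ : Mat) (a b : Mono) : mval τ (mmul a b) = mval τ a * mval τ b := by
  simp only [mval, mmul, z8_mod, pow_add, List.map_append, List.prod_append]; ring

lemma mval_mact_mmul (τ : Mat) (w : List ℕ) (a b : Mono) :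
    mval τ (mact w (mmul a b)) = mval τ (mact w a) * mval τ (mact w b) := by
  simp only [mval_mact, mmul, z8_mod, pow_add, List.map_append, List.prod_append]; ring

lemma pval_nil (τ : Mat) : pval τ [] = 0 := rfl
lemma pval_cons (τ : Mat) (m : Mono) (P : List Mono) :
    pval τ (m :: P) = mval τ m + pval τ P := by simp [pval]
lemma pval_append (τ : Mat) (P P' : List Mono) : pval τ (P ++ P') = pval τ P + pval τ P' := by
  simp [pval]
lemma pval_map_mmul (τ : Mat) (c : Mono) (P : List Mono) :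
    pval τ (P.map (mmul c)) = mval τ c * pval τ P := by
  induction P with
  | nil => simp [pval]
  | cons m P ih => rw [List.map_cons, pval_cons, pval_cons, ih, mval_mmul]; ring

/-- Equivalence of monomials up to the phase `k`: `a = z8 ^ k * b`. -/
def MEq (k : ℕ) (a b : Mono) : Prop := a.1 % 8 = (k + b.1) % 8 ∧ a.2.Perm b.2

instance (k : ℕ) (a b : Mono) : Decidable (MEq k a b) := by unfold MEq; infer_instance

lemma MEq.mact_val {k : ℕ} {a b : Mono} (h : MEq k a b) (τ : Mat) (w : List ℕ) :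
    mval τ (mact w a) = z8 ^ k * mval τ (mact w b) := by
  rw [mval_mact, mval_mact, ← z8_mod, h.1, z8_mod, pow_add, (h.2.map _).prod_eq, mul_assoc]

lemma MEq.val {k : ℕ} {a b : Mono} (h : MEq k a b) (τ : Mat) :
    mval τ a = z8 ^ k * mval τ b := h.mact_val τ []

/-- Equivalence of sums of monomials up to the phase `k`: `P = z8 ^ k * P'`. -/
def PEq (k : ℕ) (P P' : List Mono) : Prop := ∃ R : List Mono, R.Perm P' ∧ List.Forall₂ (MEq k) P R

lemma PEq.pact_val {k : ℕ} {P P' : List Mono} (h : PEq k P P') (τ : Mat) (w : List ℕ) :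
    pval τ (pact w P) = z8 ^ k * pval τ (pact w P') := by
  obtain ⟨R, hR, h⟩ := h
  have : pval τ (pact w P') = pval τ (pact w R) := ((hR.symm.map _).map _).sum_eq
  rw [this]
  clear this hR
  induction h with
  | nil => simp [pact, pval]
  | cons h _ ih =>
    simp only [pact, List.map_cons, pval_cons] at ih ⊢
    rw [ih, h.mact_val]; ring

lemma PEq.val {k : ℕ} {P P' : List Mono} (h : PEq k P P') (τ : Mat) :
    pval τ P = z8 ^ k * pval τ P' := by
  have := h.pact_val τ []
  simpa [pact, show mact [] = id from rfl] using this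

end Pool.Agent.P.MP_abfee5_ag
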