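import Pool.Agent.P.MP_abfee5_ag.CT.Iface

/-! Step MVT of the cubic threefold theta project. -/

namespace Pool.Agent.P.MP_abfee5_ag

open Complex Filter Topology MvPolynomial

namespace MvtA

theorem bit (n c j i : ℕ) (hc : c < 2) : ((n ^^^ (c <<< j)) >>> i) % 2 =
    if i = j then ((n >>> i) % 2 + c) % 2 else (n >>> i) % 2 := by
  interval_cases c
  · simp
  · rw [Nat.one_shiftLeft, Nat.shiftRight_eq_div_pow, Nat.shiftRight_eq_div_pow,
      ← Nat.toNat_testBit, ← Nat.toNat_testBit, Nat.testBit_xor, Nat.testBit_two_pow]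
    by_cases h : i = j
    · subst h
      cases n.testBit i <;> simp
    · simp [h, Ne.symm h]

theorem z8_cong {a b : ℤ} (h : (a : ZMod 8) = b) : z8 ^ a = z8 ^ b := by
  obtain ⟨c, hc⟩ := ((ZMod.intCast_eq_intCast_iff a b 8).1 h).dvd
  have e : b = a + 8 * c := by push_cast at hc; linarith
  rw [e, zpow_add₀ z8_ne, zpow_mul, show z8 ^ (8 : ℤ) = 1 from z8_eight ▸ zpow_natCast z8 8,
    one_zpow, mul_one]

theorem sieg {E : Fin 5 → Fin 5 → ℤ} (hE : ∀ p q, E p q = E q p) {τ : Mat} (h : τ ∈ Siegel) :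
    (fun p q => τ p q + E p q) ∈ Siegel :=
  ⟨fun j k => by simp only [h.1 j k, hE j k], fun x hx => by simpa using h.2 x hx⟩

theorem key (E : Fin 5 → Fin 5 → ℤ) (n n' φ : ℕ) (τ : Mat) (N : V)
    (ha : ∀ i : Fin 5, ab n' i = ab n i)
    (h : (∀ i : Fin 5, N i % 2 = ab n i) → ((∑ p, ∑ q, N p * E p q * N q : ℤ) : ZMod 8) =
      (φ + 2 * (∑ i, N i * bb n' i - ∑ i, N i * bb n i) : ℤ)) :
    chi n N * ex (fun p q => τ p q + E p q) N = z8 ^ φ * (chi n' N * ex τ N) := by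
  have e1 : ex (fun p q => τ p q + E p q) N = z8 ^ (∑ p, ∑ q, N p * E p q * N q) * ex τ N := by
    rw [ex, ex, z8, ← Complex.exp_int_mul, ← Complex.exp_add]
    congr 1
    simp only [qf, mul_add, add_mul, Finset.sum_add_distrib]
    push_cast
    ring
  rw [e1, chi, chi]
  simp only [ha]
  split_ifs with hN
  · rw [z8_cong (h hN), ← z8_sq, ← zpow_natCast z8 2, ← zpow_mul, ← zpow_mul, ← zpow_natCast,
      ← mul_assoc, ← mul_assoc, ← zpow_add₀ z8_ne, ← zpow_add₀ z8_ne]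
    congr 2
    push_cast
    ring
  · simp

theorem c1 (a b : ℕ) (ha : a < 2) (hb : b < 2) (x : ℤ) (hx : x % 2 = a) : ((x * x : ℤ) : ZMod 8) =
    (a + 2 * (x * ((((b + (1 - a)) % 2 : ℕ) : ℤ) - b)) : ℤ) := by
  obtain ⟨u, rfl⟩ : ∃ u, x = a + 2 * u := ⟨x / 2, by omega⟩
  push_cast
  generalize (u : ZMod 8) = t
  revert t
  interval_cases a <;> interval_cases b <;> decide

theorem c2 (a a' b b' : ℕ) (ha : a < 2) (ha' : a' < 2) (hb : b < 2) (hb' : b' < 2) (x y : ℤ)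
    (hx : x % 2 = a) (hy : y % 2 = a') : ((x * y + y * x : ℤ) : ZMod 8) =
    ((a * a' * (6 + 4 * b + 4 * b') % 8 : ℕ) + 2 * (x * ((((b + a') % 2 : ℕ) : ℤ) - b) +
      y * ((((b' + a) % 2 : ℕ) : ℤ) - b')) : ℤ) := by
  obtain ⟨u, rfl⟩ : ∃ u, x = a + 2 * u := ⟨x / 2, by omega⟩
  obtain ⟨v, rfl⟩ : ∃ v, y = a' + 2 * v := ⟨y / 2, by omega⟩
  simp only [Int.cast_add, Int.cast_mul, Int.cast_sub, Int.cast_natCast, Int.cast_ofNat]
  generalize (u : ZMod 8) = t
  generalize (v : ZMod 8) = t'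
  revert t t'
  interval_cases a <;> interval_cases a' <;> interval_cases b <;> interval_cases b' <;> decide

theorem main (s : ℕ) (hs : ¬(s / 8 < 5 ∧ s % 8 = 5)) : ∃ E : Fin 5 → Fin 5 → ℤ,
    (∀ p q, E p q = E q p) ∧ (∀ τ, move s τ = fun p q => τ p q + E p q) ∧ ∀ n τ N,
      chi n N * ex (fun p q => τ p q + E p q) N =
        z8 ^ (act s n).2 * (chi (act s n).1 N * ex τ N) := by
  have triv : (∀ τ, move s τ = τ) → (∀ n, act s n = (n, 0)) → ∃ E : Fin 5 → Fin 5 → ℤ,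
      (∀ p q, E p q = E q p) ∧ (∀ τ, move s τ = fun p q => τ p q + E p q) ∧ ∀ n τ N,
        chi n N * ex (fun p q => τ p q + E p q) N =
          z8 ^ (act s n).2 * (chi (act s n).1 N * ex τ N) := fun h1 h2 =>
    ⟨0, fun _ _ => rfl, fun τ => by simp [h1], fun n τ N => by simp [h2]⟩
  by_cases hj : s / 8 < 5
  swap
  · exact triv (fun τ => by simp only [move, if_neg hj]) fun n => by simp only [act, if_neg hj]
  have h5 : ¬s % 8 = 5 := fun h => hs ⟨hj, h⟩
  obtain ⟨J, hJ⟩ : ∃ J : Fin 5, s / 8 = J := ⟨⟨_, hj⟩, rfl⟩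
  have fJ : ∀ J : Fin 5, fj J = J := fun J => Fin.ext (Nat.mod_eq_of_lt J.2)
  by_cases hk : s % 8 = s / 8
  · refine ⟨fun p q => if p = J ∧ q = J then 1 else 0, fun p q => by simp only [and_comm],
      fun τ => ?_, fun n τ N => ?_⟩
    · simp only [move, if_pos hj, if_pos hk]
      simp [hJ, fJ]
    simp only [act, if_pos hj, if_pos hk]
    rw [hJ]
    have hc : 1 - ab n J < 2 := by omega
    refine key _ _ _ _ τ N (fun i => (bit n _ J _ hc).trans (if_neg (by omega))) fun hN => ?_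
    rw [← Finset.sum_sub_distrib, Finset.sum_eq_single J (fun p _ hp => by simp [hp]) (by simp),
      Finset.sum_eq_single J (fun p _ hp => by simp [hp]) (by simp),
      Finset.sum_eq_single J (fun p _ hp => by
        rw [bb, bit n _ J _ hc, if_neg (Fin.val_ne_of_ne hp), bb, sub_self]) (by simp),
      bb, bit n _ J _ hc, if_pos rfl, ← mul_sub, if_pos ⟨rfl, rfl⟩, mul_one]
    exact c1 _ _ (ab_lt _ _) (bb_lt n J) _ (hN J)
  by_cases hl : s / 8 < s % 8 ∧ s % 8 < 5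
  swap
  · exact triv (fun τ => by simp only [move, if_pos hj, if_neg hk, if_neg h5, if_neg hl])
      fun n => by simp only [act, if_pos hj, if_neg hk, if_neg h5, if_neg hl]
  obtain ⟨K, hK⟩ : ∃ K : Fin 5, s % 8 = K := ⟨⟨_, hl.2⟩, rfl⟩
  have JK : J ≠ K := fun h => hk (by rw [hJ, hK, h])
  refine ⟨fun p q => if (p = J ∧ q = K) ∨ (p = K ∧ q = J) then 1 else 0,
    fun p q => by simp only [and_comm, or_comm], fun τ => ?_, fun n τ N => ?_⟩
  · simp only [move, if_pos hj, if_neg hk, if_neg h5, if_pos hl]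
    simp only [hJ, hK, fJ, apply_ite (Int.cast (R := ℂ)), Int.cast_one, Int.cast_zero]
  simp only [act, if_pos hj, if_neg hk, if_neg h5, if_pos hl]
  rw [hJ, hK]
  have b2 : ∀ i : ℕ, ((n ^^^ (ab n J <<< (K : ℕ)) ^^^ (ab n K <<< (J : ℕ))) >>> i) % 2 =
      if i = J then ((n >>> i) % 2 + ab n K) % 2 else
        if i = K then ((n >>> i) % 2 + ab n J) % 2 else (n >>> i) % 2 := fun i => by
    rw [bit _ _ J _ (ab_lt _ _), bit _ _ K _ (ab_lt _ _)]
    split_ifs with h1 h2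
    · exact (JK (Fin.ext (h1.symm.trans h2))).elim
    all_goals rfl
  refine key _ _ _ _ τ N (fun i => (b2 _).trans (by
    rw [if_neg (by omega), if_neg (by omega)]; rfl)) fun hN => ?_
  rw [← Finset.sum_sub_distrib, Fintype.sum_eq_add J K JK (fun p hp => by simp [hp.1, hp.2]),
    Finset.sum_eq_single K (fun p _ hp => by simp [hp, JK]) (by simp),
    Finset.sum_eq_single J (fun p _ hp => by simp [hp, JK.symm]) (by simp),
    Fintype.sum_eq_add J K JK (fun p hp => by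
      rw [bb, b2, if_neg (Fin.val_ne_of_ne hp.1), if_neg (Fin.val_ne_of_ne hp.2), bb, sub_self]),
    if_pos (Or.inl ⟨rfl, rfl⟩), if_pos (Or.inr ⟨rfl, rfl⟩), mul_one, mul_one, ← mul_sub, ← mul_sub,
    show bb (n ^^^ (ab n J <<< (K : ℕ)) ^^^ (ab n K <<< (J : ℕ))) J = (bb n J + ab n K) % 2 from
      (b2 _).trans (if_pos rfl),
    show bb (n ^^^ (ab n J <<< (K : ℕ)) ^^^ (ab n K <<< (J : ℕ))) K = (bb n K + ab n J) % 2 from
      (b2 _).trans ((if_neg (Fin.val_ne_of_ne JK.symm)).trans (if_pos rfl))]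
  exact c2 _ _ _ _ (ab_lt _ _) (ab_lt _ _) (bb_lt n J) (bb_lt n K) _ _ (hN J) (hN K)

end MvtA

theorem p_MVT :
    S_MVT := by
  intro s hs
  obtain ⟨E, h1, h2, h3⟩ := MvtA.main s hs
  refine ⟨fun τ h => h2 τ ▸ MvtA.sieg h1 h, fun τ h => ⟨_, MvtA.sieg (E := -E)
    (fun p q => congrArg Neg.neg (h1 p q)) h, ?_⟩, fun n τ N => h2 τ ▸ h3 n τ N⟩
  rw [h2]
  funext p q
  simp

end Pool.Agent.P.MP_abfee5_ag
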