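import Pool.Agent.P.MP_abfee5_ag.CT.Iface

/-! Step PHI of the cubic threefold theta project. -/

namespace Pool.Agent.P.MP_abfee5_ag

open Complex Filter Topology MvPolynomial

namespace PhiA

lemma xor_lt {a b : ℕ} (ha : a < 1024) (hb : b < 1024) : a ^^^ b < 1024 :=
  Nat.xor_lt_two_pow (n := 10) ha hb

lemma aff_even (hAFF : S_AFF) (w : List ℕ) : ∀ (k : ℕ) (L : List ℕ), L.length = 2 * k →
    (∀ n ∈ L, n < 1024) → ∀ n < 1024,
      piW w (n ^^^ xsum L) = piW w n ^^^ xsum (L.map (piW w)) := by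
  intro k
  induction k with
  | zero =>
    intro L hL _ n _
    have : L = [] := List.eq_nil_of_length_eq_zero (by omega)
    subst this
    simp [xsum]
  | succ k ih =>
    intro L hL hlt n hn
    match L, hL, hlt with
    | a :: b :: L', hL, hlt =>
      have ha : a < 1024 := hlt a (by simp)
      have hb : b < 1024 := hlt b (by simp)
      have hL' : L'.length = 2 * k := by simp at hL; omega
      have h1 := ih L' hL' (fun x hx => hlt x (by simp [hx])) (n ^^^ a ^^^ b)
        (xor_lt (xor_lt hn ha) hb)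
      have h2 := (hAFF w).2 n hn a ha b hb
      have e1 : n ^^^ xsum (a :: b :: L') = n ^^^ a ^^^ b ^^^ xsum L' := by
        simp [xsum, Nat.xor_assoc]
      have e2 : xsum ((a :: b :: L').map (piW w)) =
          piW w a ^^^ (piW w b ^^^ xsum (L'.map (piW w))) := rfl
      rw [e1, h1, h2, e2]
      simp [Nat.xor_assoc]

lemma prod_form (c : ℂ) (ph : ℕ → ℕ) (u v : ℕ → ℂ) (h : ∀ n, u n = c * z8 ^ ph n * v n)
    (L : List ℕ) : (L.map fun n => u n ^ 2).prod =
      c ^ (2 * L.length) * z8 ^ (2 * (L.map ph).sum) * (L.map fun n => v n ^ 2).prod := by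
  induction L with
  | nil => simp
  | cons a L ih =>
    simp only [List.map_cons, List.prod_cons, List.sum_cons, List.length_cons, ih, h a]
    ring

lemma z8_two {a b : ℕ} (h : a % 4 = b % 4) : z8 ^ (2 * a) = z8 ^ (2 * b) := by
  rw [← z8_mod (2 * a), ← z8_mod (2 * b)]
  congr 1
  omega

lemma step (hWORD : S_WORD) (hAFF : S_AFF) (hPHS : S_PHS) (s m : ℕ) (L : List ℕ)
    (hL : L.length = 10) (hlt : ∀ n ∈ L, n < 1024) (hB : Bin m L) :
    Bin (piW [s] m) (L.map (piW [s])) := by
  intro τ hτ hNV hgr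
  obtain ⟨hS', c, M, hc, -, hth, hg, -, -⟩ := (hWORD [s]).2 τ hτ
  have hth' : ∀ n, th n (moveW [s] τ) = c * z8 ^ (act s n).2 * th (piW [s] n) τ := by
    intro n
    rw [hth n]
    have : (actW [s] n).2 = (act s n).2 % 8 := rfl
    rw [this, z8_mod]
  have hNV' : NV (moveW [s] τ) := by
    intro n hn hp
    obtain ⟨h1, h2, -⟩ := (hAFF [s]).1 n hn
    rw [hth' n]
    exact mul_ne_zero (mul_ne_zero hc (pow_ne_zero _ z8_ne)) (hNV _ h1 (h2.trans hp))
  have hgr' : ∀ j, gr m (moveW [s] τ) j = 0 := by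
    intro j
    have h0 : gr (piW [s] m) τ = 0 := funext hgr
    rw [hg m, h0]
    simp
  have h := hB _ hS' hNV' hgr'
  rw [prod_form c (fun n => (act s n).2) (fun n => th n (moveW [s] τ))
      (fun n => th (piW [s] n) τ) hth' L,
    prod_form c (fun n => (act s (n ^^^ xsum L)).2) (fun n => th (n ^^^ xsum L) (moveW [s] τ))
      (fun n => th (piW [s] (n ^^^ xsum L)) τ) (fun n => hth' _) L,
    z8_two (hPHS s L hL)] at h
  have h' := mul_left_cancel₀ (mul_ne_zero (pow_ne_zero _ hc) (pow_ne_zero _ z8_ne)) h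
  rw [List.map_map, List.map_map]
  refine h'.trans ?_
  congr 1
  refine List.map_congr_left fun n hn => ?_
  simp only [Function.comp_apply]
  rw [aff_even hAFF [s] 5 L hL hlt n (hlt n hn)]

lemma word (hWORD : S_WORD) (hAFF : S_AFF) (hPHS : S_PHS) (w : List ℕ) : ∀ (m : ℕ) (L : List ℕ),
    L.length = 10 → (∀ n ∈ L, n < 1024) → Bin m L → Bin (piW w m) (L.map (piW w)) := by
  induction w with
  | nil =>
    intro m L _ _ hB
    simpa [show piW [] = id from rfl] using hB
  | cons s w ih =>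
    intro m L hL hlt hB
    have h1 := step hWORD hAFF hPHS s m L hL hlt hB
    have h2 := ih _ _ (by simpa using hL) (by
      intro n hn
      obtain ⟨x, hx, rfl⟩ := List.mem_map.1 hn
      exact ((hAFF [s]).1 x (hlt x hx)).1) h1
    rw [List.map_map] at h2
    exact h2

end PhiA

theorem p_PHI (hWORD : S_WORD) (hAFF : S_AFF) (hPHS : S_PHS) (hFRM : S_FRM) :
    S_PHI := by
  intro h0 m L hF
  obtain ⟨w, rfl, rfl⟩ := hFRM m L hF
  exact PhiA.word hWORD hAFF hPHS w 33 aL rfl (by decide) h0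

end Pool.Agent.P.MP_abfee5_ag
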