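import Pool.Agent.P.MP_abfee5_ag.CT.Iface3
import Pool.Agent.P.MP_abfee5_ag.CT.Iface4

/-! The top level of the project CT. -/

namespace Pool.Agent.P.MP_abfee5_ag

open Complex Filter Topology MvPolynomial

namespace TopA

/-- The splitting of the 32 coordinates. -/
def spl : Fin 21 ⊕ Fin 11 → F2 :=
  Sum.elim (fun j => dec5 (rhoL.getD j 0)) (fun b => dec5 (piL.getD b 0))

lemma spl_bij : Function.Bijective spl := by
  rw [Fintype.bijective_iff_injective_and_card]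
  refine ⟨?_, by simp⟩
  decide +kernel

end TopA

open TopA in
theorem main0 (hENC : S_ENC) (hBRV : S_BRV) (hBRG : S_BRG) (hQQ : S_QQ)
    (hT0 : S_T0) (hSYM : S_SYM) (hXENC : S_XENC) (hAENC : S_AENC) (hQNZ : S_QNZ)
    (hMENC : S_MENC) (hINV : S_INV) (hSURJ : S_SURJ) (hJAC : S_JAC) (hVAN : S_VAN)
    (hFINZ : S_FINZ) (hLOC : S_LOC) (hB : ∀ m L, Frame m L → Bin m L) : Main (dec 1023) := by
  have hOm : tau0 ∈ Om := siegel_om hT0.1
  have hNV : NV tau0 := by
    intro n hn hp h0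
    have h1 := hQQ n hn tau0 hOm
    rw [h0] at h1
    exact hQNZ _ hXENC n hn hp (by rw [Qx, ← h1]; norm_num)
  have henc : enc (dec 1023) = 1023 := hENC.2.1.2.2.1 1023 (by norm_num)
  have hpar : parity (dec 1023) = 1 := by
    rw [hENC.2.1.2.2.2.2.2 1023]; decide
  have hLoc : tau0 ∈ Loc (dec 1023) := (hBRG.2 _ _).2 ⟨hT0.1, by rw [henc]; exact hSYM, hNV⟩
  have hJ := hVAN.2 hB _ hpar
  obtain ⟨hv, hfin⟩ := hFINZ hLoc hJ
  obtain ⟨γ', ξ', hγ, hξ, hs⟩ := hSURJ (hINV.2 _ hAENC)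
  have hmem : ∀ i, binom (frC i) ∈ J (dec 1023) := fun i =>
    Ideal.subset_span ⟨frC i, hJAC.1 i, rfl⟩
  have hx : (fun σ => Th tau0 (dec5 σ)) = fun σ => xx σ tau0 := funext fun σ => hBRV.2.2 σ tau0
  have hdet := hJAC.2 (Th tau0)
    (fun n hn hp => by rw [hVAN.1 n hn tau0 hOm]; exact pow_ne_zero 2 (hNV n hn hp))
    (fun i => by
      have := (hv _ (hmem i)).self_of_nhds (funext hSYM)
      simpa using this)
    (by rw [hx]; exact hINV.1 _ (hMENC _ hXENC))
  refine hfin (hLOC (ℂ × Mat) F2 (Fin 21) (Fin 11) (Fin 5) (Equiv.ofBijective spl spl_bij) _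
    (fun i => binom (frC i)) _ _ γ' ξ' _ hγ hξ (funext hSYM) hmem hv ?_ hs)
  simpa [spl] using hdet

theorem mainAll (hENC : S_ENC) (hTRN : S_TRN) (hSYT : S_SYT) (hSYG : S_SYG) (hORB : S_ORB)
    (h0 : Main (dec 1023)) (m : Ch) (hm : parity m = 1) : Main m := by
  have := hORB (fun n => Main (dec n)) h0
    (fun s hs n hn h => hTRN _ _ (hSYT s hs n hn) h)
    (fun j hj k hk hjk n hn h => hTRN _ _ (hSYG j hj k hk hjk n hn) h)
    (enc m) (hENC.2.1.2.1 m) (by
      have h1 := hENC.2.1.2.2.2.2.2 (enc m)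
      rw [hENC.2.1.1, hm] at h1
      have h2 := par_lt (enc m)
      interval_cases par (enc m)
      · exact absurd h1 (by decide)
      · rfl)
  simpa [hENC.2.1.1] using this

end Pool.Agent.P.MP_abfee5_ag
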